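import Pool.Agent.Lib.MP_7bc610_gt.Morse

/-!
The state sum of an arborescent tangle is a combination of the two crossingless tangles.
-/

namespace Pool.Agent.Lib.MP_7bc610_gt

open LaurentPolynomial

def loc (i k a : ℕ) : ℕ ⊕ ℕ :=
  if a < i then .inr a else if a < i + k then .inl (a - i) else .inr (a - k)

def blk (i k : ℕ) (ρ r : ℕ → ℕ → Prop) (a b : ℕ) : Prop := Sum.LiftRel ρ r (loc i k a) (loc i k b)

theorem blk_zero (i : ℕ) (ρ r : ℕ → ℕ → Prop) : blk i 0 ρ r = r := by
  funext a b
  have : ∀ a, loc i 0 a = .inr a := fun a => by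
    unfold loc; split_ifs <;> first | rfl | omega
  simp [blk, this]

theorem loc_up {i j k p : ℕ} (hp : p = i + j) (hj : j ≤ k) (a : ℕ) :
    loc i (k + 2) (if a < p then a else a + 2) =
      Sum.map (fun x => if x < j then x else x + 2) id (loc i k a) := by
  unfold loc
  split_ifs <;> simp only [Sum.map_inl, Sum.map_inr, id, Sum.inl.injEq, Sum.inr.injEq,
    reduceCtorEq] <;> first | omega | (split_ifs <;> omega)

theorem loc_eq_in {i j k p a : ℕ} (hp : p = i + j) (hj : j < k) : a = p ↔ loc i k a = .inl j := by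
  unfold loc
  split_ifs <;> simp only [Sum.inl.injEq, iff_false] <;> omega

theorem loc_in {i j k p : ℕ} (hp : p = i + j) (hj : j < k) : loc i k p = .inl j :=
  (loc_eq_in hp hj).1 rfl

theorem loc_dn {i j k p a : ℕ} (hp : p = i + j) (hj : j ≤ k) (h1 : a ≠ p) (h2 : a ≠ p + 1) :
    loc i k (if a < p then a else a - 2) =
      Sum.map (fun x => if x < j then x else x - 2) id (loc i (k + 2) a) := by
  unfold loc
  split_ifs <;> simp only [Sum.map_inl, Sum.map_inr, id, Sum.inl.injEq, Sum.inr.injEq,
    reduceCtorEq] <;> first | omega | (split_ifs <;> omega)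

theorem cap_blk {i j k p : ℕ} (hp : p = i + j) (hj : j ≤ k) (ρ r : ℕ → ℕ → Prop) :
    capR p (blk i (k + 2) ρ r) = blk i k (capR j ρ) r := by
  funext a b
  simp only [capR, blk, loc_up hp hj, loc_in hp (show j < k + 2 by omega),
    loc_in (show p + 1 = i + (j + 1) by omega) (show j + 1 < k + 2 by omega)]
  rcases loc i k a with x | x <;> rcases loc i k b with y | y <;> simp [capR]

theorem capVal_blk {i j k p : ℕ} (hp : p = i + j) (hj : j ≤ k) (ρ r : ℕ → ℕ → Prop) :
    capVal p (blk i (k + 2) ρ r) = capVal j ρ := by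
  have : blk i (k + 2) ρ r p (p + 1) ↔ ρ j (j + 1) := by
    simp only [blk, loc_in hp (show j < k + 2 by omega),
      loc_in (show p + 1 = i + (j + 1) by omega) (show j + 1 < k + 2 by omega),
      Sum.liftRel_inl_inl]
  unfold capVal
  rw [propext this]

theorem cup_blk {i j k p : ℕ} (hp : p = i + j) (hj : j ≤ k) (ρ r : ℕ → ℕ → Prop) :
    cupR p (blk i k ρ r) = blk i (k + 2) (cupR j ρ) r := by
  funext a b
  have e1 := fun a => loc_eq_in (a := a) hp (show j < k + 2 by omega)
  have e2 := fun a => loc_eq_in (a := a) (show p + 1 = i + (j + 1) by omega)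
    (show j + 1 < k + 2 by omega)
  have e3 : (a ≠ p ∧ a ≠ p + 1 ∧ b ≠ p ∧ b ≠ p + 1 ∧
      blk i k ρ r (if a < p then a else a - 2) (if b < p then b else b - 2)) ↔
      (a ≠ p ∧ a ≠ p + 1 ∧ b ≠ p ∧ b ≠ p + 1 ∧ Sum.LiftRel ρ r
        (Sum.map (fun x => if x < j then x else x - 2) id (loc i (k + 2) a))
        (Sum.map (fun x => if x < j then x else x - 2) id (loc i (k + 2) b))) := by
    refine and_congr_right fun h1 => and_congr_right fun h2 => and_congr_right fun h3 =>
      and_congr_right fun h4 => ?_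
    rw [blk, loc_dn hp hj h1 h2, loc_dn hp hj h3 h4]
  rw [cupR, e3]
  simp only [ne_eq, e1, e2, blk]
  rcases loc i (k + 2) a with x | x <;> rcases loc i (k + 2) b with y | y <;> simp [cupR]

theorem blk_congr {i k : ℕ} {ρ ρ' : ℕ → ℕ → Prop} (r : ℕ → ℕ → Prop)
    (h : ∀ a < k, ∀ b < k, ρ a b ↔ ρ' a b) : blk i k ρ r = blk i k ρ' r := by
  funext a b
  have : ∀ a x, loc i k a = .inl x → x < k := fun a x => by
    unfold loc
    split_ifs <;> simp only [Sum.inl.injEq, false_imp_iff]
    omega
  have ha := this a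
  have hb := this b
  simp only [blk]
  rcases h1 : loc i k a with x | x <;> rcases h2 : loc i k b with y | y <;> simp
  exact h x (ha x h1) y (hb y h2)

def bot2 (_ _ : ℕ) : Prop := False

/-- The two crossingless tangles: `true` is the zero tangle. -/
def ins (e : Bool) (i : ℕ) (r : ℕ → ℕ → Prop) : ℕ → ℕ → Prop :=
  cupR (if e then i + 1 else i + 2) (cupR i r)

theorem ins_blk (e : Bool) {i j k p : ℕ} (hp : p = i + j) (hj : j ≤ k) (ρ r : ℕ → ℕ → Prop) :
    ins e p (blk i k ρ r) = blk i (k + 2 + 2) (ins e j ρ) r := by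
  cases e
  · simp only [ins, Bool.false_eq_true, if_false]
    rw [cup_blk hp hj, cup_blk (j := j + 2) (by omega) (by omega)]
  · simp only [ins, if_true]
    rw [cup_blk hp hj, cup_blk (j := j + 1) (by omega) (by omega)]

theorem ins_eq (e : Bool) (i : ℕ) (r : ℕ → ℕ → Prop) : ins e i r = blk i 4 (ins e 0 bot2) r := by
  conv_lhs => rw [← blk_zero i bot2 r]
  exact ins_blk e (j := 0) rfl le_rfl _ _

theorem tw_rel (e : Bool) (j : Fin 3) (i : ℕ) (r : ℕ → ℕ → Prop) :
    cupR (j + i) (capR (j + i) (ins e i r)) = ins (decide (j = 1)) i r ∧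
      capVal (j + i) (ins e i r) = if e = decide (j = 1) then loopVal else 1 := by
  have := j.2
  rw [ins_eq e, ins_eq (decide (j = 1)), cap_blk (j := j) (by omega) (by omega),
    cup_blk (j := j) (by omega) (by omega), capVal_blk (j := j) (by omega) (by omega)]
  constructor
  · refine blk_congr _ fun a ha b hb => ?_
    fin_cases j <;> cases e <;> interval_cases a <;> interval_cases b <;>
      simp [ins, cupR, capR, bot2]
  · fin_cases j <;> cases e <;> simp [capVal, ins, cupR, bot2]

theorem add_rel (e f : Bool) (i : ℕ) (r : ℕ → ℕ → Prop) :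
    capR (2 + i) (capR (3 + i) (ins f (4 + i) (ins e i r))) = ins (e && f) i r ∧
      capVal (3 + i) (ins f (4 + i) (ins e i r)) = 1 ∧
      capVal (2 + i) (capR (3 + i) (ins f (4 + i) (ins e i r))) =
        if e || f then 1 else loopVal := by
  rw [ins_eq e, ins_eq (e && f), ins_blk f (j := 4) (by omega) (by omega),
    capVal_blk (j := 3) (by omega) (by omega), cap_blk (j := 3) (by omega) (by omega),
    capVal_blk (j := 2) (by omega) (by omega), cap_blk (j := 2) (by omega) (by omega)]
  refine ⟨?_, ?_, ?_⟩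
  · refine blk_congr _ fun a ha b hb => ?_
    cases e <;> cases f <;> interval_cases a <;> interval_cases b <;>
      simp [ins, cupR, capR, bot2]
  · cases e <;> cases f <;> simp [capVal, ins, cupR, bot2]
  · cases e <;> cases f <;> simp [capVal, capR, ins, cupR, bot2]

theorem rot_rel (e : Bool) (i : ℕ) (r : ℕ → ℕ → Prop) :
    capR (0 + i) (ins e (1 + i) (cupR (0 + i) r)) = ins (!e) i r ∧
      capVal (0 + i) (ins e (1 + i) (cupR (0 + i) r)) = 1 := by
  have h0 : cupR (0 + i) r = blk i (0 + 2) (cupR 0 bot2) r := by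
    conv_lhs => rw [← blk_zero i bot2 r]
    exact cup_blk (j := 0) (by omega) (by omega) _ _
  rw [ins_eq (!e), h0, ins_blk e (j := 1) (by omega) (by omega),
    capVal_blk (j := 0) (by omega) (by omega), cap_blk (j := 0) (by omega) (by omega)]
  constructor
  · refine blk_congr _ fun a ha b hb => ?_
    cases e <;> interval_cases a <;> interval_cases b <;> simp [ins, cupR, capR, bot2]
  · cases e <;> simp [capVal, ins, cupR, bot2]

/-- The coefficients of the zero tangle and of the infinity tangle. -/
noncomputable def AT.pq : AT → ℤ[T;T⁻¹] × ℤ[T;T⁻¹]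
  | .zero => (1, 0)
  | .twist j e X =>
      if j = 1 then
        (T (if e then 1 else -1) * X.pq.1 +
          T (if e then -1 else 1) * (loopVal * X.pq.1 + X.pq.2), T (if e then 1 else -1) * X.pq.2)
      else
        (T (if e then 1 else -1) * X.pq.1, T (if e then 1 else -1) * X.pq.2 +
          T (if e then -1 else 1) * (X.pq.1 + loopVal * X.pq.2))
  | .add X Y => (X.pq.1 * Y.pq.1, X.pq.1 * Y.pq.2 + X.pq.2 * Y.pq.1 + loopVal * X.pq.2 * Y.pq.2)
  | .rot X => (X.pq.2, X.pq.1)

theorem ev_dia (X : AT) (i : ℕ) (w : Word) (r : ℕ → ℕ → Prop) :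
    ev (shift i X.dia ++ w) r = X.pq.1 * ev w (ins true i r) + X.pq.2 * ev w (ins false i r) := by
  induction X generalizing i w r with
  | zero => simp [AT.dia, AT.pq, ev, ins, add_comm]
  | twist j e X ih =>
    simp only [AT.dia, shift_append, List.append_assoc, ih, shift_cons, shift_nil,
      List.cons_append, List.nil_append, ev, (tw_rel _ j i r).1, (tw_rel _ j i r).2, AT.pq]
    by_cases h : j = 1 <;> simp only [h, decide_true, decide_false, if_true, if_false,
      reduceCtorEq] <;> ring
  | add X Y ih ih' =>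
    simp only [AT.dia, shift_append, List.append_assoc, ih, ih', shift_cons, shift_nil,
      shift_shift, List.cons_append, List.nil_append, ev, (add_rel _ _ i r).1,
      (add_rel _ _ i r).2.1, (add_rel _ _ i r).2.2, AT.pq]
    simp only [Bool.and_self, Bool.or_self, Bool.and_false, Bool.or_false, Bool.false_and,
      Bool.false_or, if_true, Bool.false_eq_true, if_false]
    ring
  | rot X ih =>
    simp only [AT.dia, shift_append, List.append_assoc, ih, shift_cons, shift_nil,
      shift_shift, List.cons_append, List.nil_append, ev, (rot_rel _ i r).1,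
      (rot_rel _ i r).2, AT.pq, Bool.not_true, Bool.not_false]
    ring

theorem stateSum_closure (X : AT) :
    stateSum X.closure = loopVal * (loopVal * X.pq.1 + X.pq.2) := by
  have := ev_dia X 0 [(.cap, 1), (.cap, 0)] Eq
  rw [shift_zero] at this
  rw [stateSum, AT.closure, this]
  simp [ev, capVal, capR, ins, cupR]
  ring

end Pool.Agent.Lib.MP_7bc610_gt
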