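import Pool.Agent.Lib.MP_7bc610_gt.Morse

/-!
A checker for chains of local moves on diagrams containing unknown four-ended tangles.
-/

namespace Pool.Agent.Lib.MP_7bc610_gt

inductive AK where
  | cup : AK
  | cap : AK
  | cr : Bool → AK
  | box : ℕ → AK
  deriving DecidableEq

abbrev AW : Type := List (AK × ℕ)

def AK.inp : AK → ℕ
  | .cup => 0
  | .cap => 2
  | .cr _ => 2
  | .box _ => 0

def AK.out : AK → ℕ
  | .cup => 2
  | .cap => 0
  | .cr _ => 2
  | .box _ => 4

def AK.body (bx : ℕ → Word) : AK → Word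
  | .cup => [(.cup, 0)]
  | .cap => [(.cap, 0)]
  | .cr e => [(.cr e, 0)]
  | .box j => bx j

def interp (bx : ℕ → Word) : AW → Word
  | [] => []
  | (k, i) :: w => shift i (k.body bx) ++ interp bx w

def av : ℕ → AW → ℕ → Bool
  | n, [], m => n == m
  | n, (k, i) :: w, m => decide (i + k.inp ≤ n) && av (n - k.inp + k.out) w m

inductive Mv where
  | comm : AK → AK → ℕ → ℕ → Mv
  | zig : ℕ → Mv
  | zag : ℕ → Mv
  | sc : Bool → ℕ → Mv
  | sp : Bool → ℕ → Mv
  | r1c : Bool → ℕ → Mv
  | r1p : Bool → ℕ → Mv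
  | r2 : Bool → ℕ → Mv
  | r3 : Bool → ℕ → Mv
  | nat : Bool → ℕ → ℕ → Mv

def Mv.lhs : Mv → AW
  | .comm k l i t => [(k, i), (l, i + t + k.out)]
  | .zig i => [(.cup, i + 1), (.cap, i)]
  | .zag i => [(.cup, i), (.cap, i + 1)]
  | .sc e i => [(.cup, i + 1), (.cr e, i)]
  | .sp e i => [(.cr e, i), (.cap, i + 1)]
  | .r1c e i => [(.cup, i), (.cr e, i)]
  | .r1p e i => [(.cr e, i), (.cap, i)]
  | .r2 e i => [(.cr e, i), (.cr (!e), i)]
  | .r3 e i => [(.cr e, i), (.cr e, i + 1), (.cr e, i)]
  | .nat e j i => [(.box j, i + 1), (.cr e, i), (.cr e, i + 1), (.cr e, i + 2), (.cr e, i + 3)]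

def Mv.rhs : Mv → AW
  | .comm k l i t => [(l, i + t + k.inp), (k, i)]
  | .zig _ => []
  | .zag _ => []
  | .sc e i => [(.cup, i), (.cr (!e), i + 1)]
  | .sp e i => [(.cr (!e), i + 1), (.cap, i)]
  | .r1c _ i => [(.cup, i)]
  | .r1p _ i => [(.cap, i)]
  | .r2 _ _ => []
  | .r3 e i => [(.cr e, i + 1), (.cr e, i), (.cr e, i + 1)]
  | .nat _ j i => [(.box j, i)]

def step (n m : ℕ) (u : AW) (s : ℕ × Mv × Bool) : Option AW :=
  if u = u.take s.1 ++ (if s.2.2 then s.2.1.lhs else s.2.1.rhs) ++
        u.drop (s.1 + (if s.2.2 then s.2.1.lhs else s.2.1.rhs).length) ∧ av n u m = true ∧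
      av n (u.take s.1 ++ (if s.2.2 then s.2.1.rhs else s.2.1.lhs) ++
        u.drop (s.1 + (if s.2.2 then s.2.1.lhs else s.2.1.rhs).length)) m = true then
    some (u.take s.1 ++ (if s.2.2 then s.2.1.rhs else s.2.1.lhs) ++
        u.drop (s.1 + (if s.2.2 then s.2.1.lhs else s.2.1.rhs).length))
  else none

def run (n m : ℕ) : AW → List (ℕ × Mv × Bool) → Option AW
  | u, [] => some u
  | u, s :: c => (step n m u s).bind fun v => run n m v c

variable {bx : ℕ → Word}

theorem interp_append (u v : AW) : interp bx (u ++ v) = interp bx u ++ interp bx v := by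
  induction u with
  | nil => rfl
  | cons g u ih => obtain ⟨k, i⟩ := g; simp [interp, ih]

theorem body_valid (hb : ∀ j, Valid 0 (bx j) 4) (k : AK) : Valid k.inp (k.body bx) k.out := by
  cases k with
  | box j => exact hb j
  | _ => simp [AK.body, AK.inp, AK.out, Valid, Kind.inp, Kind.out]

theorem av_valid (hb : ∀ j, Valid 0 (bx j) 4) {n m : ℕ} {u : AW} (h : av n u m = true) :
    Valid n (interp bx u) m := by
  induction u generalizing n with
  | nil => simpa [av, interp, Valid] using h
  | cons g u ih =>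
    obtain ⟨k, i⟩ := g
    simp only [av, Bool.and_eq_true, decide_eq_true_eq] at h
    refine valid_append.2 ⟨_, ?_, ih h.2⟩
    have := (body_valid hb k).shift i (n - k.inp - i)
    rwa [show k.inp + i + (n - k.inp - i) = n by omega,
      show k.out + i + (n - k.inp - i) = n - k.inp + k.out by omega] at this

theorem Mv.sound (hb : ∀ j, Valid 0 (bx j) 4) (s : Mv) :
    Rw (interp bx s.lhs) (interp bx s.rhs) := by
  cases s with
  | comm k l i t =>
    simpa [lhs, rhs, interp] using inter (body_valid hb k) i (i + t) (by omega) (l.body bx)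
  | zig i => simpa [lhs, rhs, interp, AK.body] using Rw.move (.zig i)
  | zag i => simpa [lhs, rhs, interp, AK.body] using Rw.move (.zag i)
  | sc e i => simpa [lhs, rhs, interp, AK.body] using Rw.move (.slideCup e i)
  | sp e i => simpa [lhs, rhs, interp, AK.body] using Rw.move (.slideCap e i)
  | r1c e i => simpa [lhs, rhs, interp, AK.body] using Rw.move (.r1Cup e i)
  | r1p e i => simpa [lhs, rhs, interp, AK.body] using Rw.move (.r1Cap e i)
  | r2 e i => simpa [lhs, rhs, interp, AK.body] using Rw.move (.r2 e i)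
  | r3 e i => simpa [lhs, rhs, interp, AK.body] using Rw.move (.r3 e i)
  | nat e j i => simpa [lhs, rhs, interp, AK.body, cross] using natural e (hb j) i

theorem step_sound (hb : ∀ j, Valid 0 (bx j) 4) {n m : ℕ} {u v : AW} {s : ℕ × Mv × Bool}
    (h : step n m u s = some v) : Isotopic n m (interp bx u) (interp bx v) := by
  obtain ⟨p, s, d⟩ := s
  unfold step at h
  split_ifs at h with h1 h2 h3
  · obtain ⟨e1, e2, -⟩ := h2
    have := ((s.sound hb).ctx (interp bx (u.take p))
      (interp bx (u.drop (p + s.lhs.length)))) n m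
    simp only [← interp_append] at this
    rw [← Option.some.inj h]
    rw [← e1] at this
    exact this (av_valid hb e2)
  · obtain ⟨e1, -, e3⟩ := h3
    have := ((s.sound hb).ctx (interp bx (u.take p))
      (interp bx (u.drop (p + s.rhs.length)))) n m
    simp only [← interp_append] at this
    rw [← Option.some.inj h]
    rw [← e1] at this
    exact (this (av_valid hb e3)).symm

theorem run_sound (hb : ∀ j, Valid 0 (bx j) 4) {n m : ℕ} {u v : AW} {c : List (ℕ × Mv × Bool)}
    (h : run n m u c = some v) : Isotopic n m (interp bx u) (interp bx v) := by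
  induction c generalizing u with
  | nil => rw [← Option.some.inj h]; exact Isotopic.refl _
  | cons s c ih =>
    simp only [run, Option.bind_eq_some_iff] at h
    obtain ⟨w, h1, h2⟩ := h
    exact (step_sound hb h1).trans (ih h2)

theorem c_u1 : run 0 4 [(.cup, 0), (.cup, 1), (.cr true, 0)]
    [(1, .sc true 0, true), (0, .comm .cup .cup 0 0, false), (1, .sc false 1, true)] =
    some [(.cup, 0), (.cup, 1), (.cr true, 2)] := by decide

theorem c_inf : run 0 4 [(.cup, 0), (.cup, 1), (.cr true, 2), (.cr true, 1), (.cr true, 2)]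
    [(1, .sc false 1, false), (2, .r2 false 1, true), (1, .r1c true 2, true)] =
    some [(.cup, 0), (.cup, 2)] := by decide

theorem c_u3 : run 0 4 [(.cup, 0), (.cup, 1), (.cr true, 2), (.cr true, 1), (.cr true, 2), (.cr true, 2), (.cr true, 1), (.cr true, 2)]
    [(1, .sc false 1, false), (2, .r2 false 1, true), (1, .r1c true 2, true),
     (1, .r1c true 2, true), (1, .sc true 1, true), (2, .r2 false 2, true)] =
    some [(.cup, 0), (.cup, 1)] := by decide

theorem c_add_u : run 0 4 [(.box 0, 0), (.cup, 4), (.cup, 5), (.cap, 3), (.cap, 2)]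
    [(2, .comm .cap .cup 3 0, false), (1, .zig 3, true), (1, .zig 2, true)] =
    some [(.box 0, 0)] := by decide

theorem c_u_add : run 0 4 [(.cup, 0), (.cup, 1), (.box 0, 4), (.cap, 3), (.cap, 2)]
    [(1, .comm .cup (.box 0) 1 1, true), (0, .comm .cup (.box 0) 0 0, true),
     (2, .comm .cup .cap 1 0, true), (1, .zag 0, true), (1, .zag 1, true)] =
    some [(.box 0, 0)] := by decide

theorem c_a1 : run 0 4 [(.box 0, 0), (.cr true, 0), (.box 1, 4), (.cap, 3), (.cap, 2)]
    [(1, .comm (.cr true) (.box 1) 0 2, true), (2, .comm (.cr true) .cap 0 1, true),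
     (3, .comm (.cr true) .cap 0 0, true)] =
    some [(.box 0, 0), (.box 1, 4), (.cap, 3), (.cap, 2), (.cr true, 0)] := by decide

theorem c_a2 : run 0 2 [(.box 0, 0), (.cr true, 1), (.box 1, 4), (.cap, 3), (.cap, 2), (.cap, 1)]
    [(1, .comm (.cr true) (.box 1) 1 1, true), (2, .comm (.cr true) .cap 1 0, true),
     (3, .sp true 1, true), (4, .comm .cap .cap 1 0, true), (3, .sp false 2, true),
     (2, .comm .cap (.cr true) 3 0, true)] =
    some [(.box 0, 0), (.box 1, 4), (.cr true, 5), (.cap, 3), (.cap, 2), (.cap, 1)] := by decide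

theorem c_a3 : run 0 4 [(.box 0, 0), (.box 1, 4), (.cr true, 6), (.cap, 3), (.cap, 2)]
    [(2, .comm .cap (.cr true) 3 1, false), (3, .comm .cap (.cr true) 2 0, false)] =
    some [(.box 0, 0), (.box 1, 4), (.cap, 3), (.cap, 2), (.cr true, 2)] := by decide

theorem c_a4 : run 0 4 [(.box 0, 0), (.cr true, 2), (.box 1, 4), (.cap, 3), (.cap, 2)]
    [(1, .comm (.cr true) (.box 1) 2 0, true), (2, .sp true 2, true),
     (3, .comm .cap .cap 2 0, true), (2, .sp false 3, true)] =
    some [(.box 0, 0), (.box 1, 4), (.cr true, 4), (.cap, 3), (.cap, 2)] := by decide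

theorem c_assoc : run 0 4 [(.box 0, 0), (.box 1, 4), (.cap, 3), (.cap, 2), (.box 2, 4), (.cap, 3), (.cap, 2)]
    [(3, .comm .cap (.box 2) 2 2, true), (4, .comm .cap .cap 2 1, true),
     (5, .comm .cap .cap 2 0, true), (2, .comm .cap (.box 2) 3 3, true),
     (3, .comm .cap .cap 3 2, true), (4, .comm .cap .cap 3 1, true)] =
    some [(.box 0, 0), (.box 1, 4), (.box 2, 8), (.cap, 7), (.cap, 6), (.cap, 3), (.cap, 2)] := by decide

theorem c_ainf : run 0 4 [(.box 0, 0), (.cup, 4), (.cup, 5), (.cr true, 6), (.cr true, 5), (.cr true, 6), (.cap, 3), (.cap, 2)]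
    [(2, .sc false 5, false), (3, .r2 false 5, true), (2, .r1c true 6, true),
     (1, .comm .cup .cup 4 0, true), (2, .zig 3, true), (1, .comm .cap .cup 2 0, false)] =
    some [(.box 0, 0), (.cap, 2), (.cup, 2)] := by decide

theorem c_infa : run 0 4 [(.cup, 0), (.cup, 1), (.cr true, 2), (.cr true, 1), (.cr true, 2), (.box 0, 4), (.cap, 3), (.cap, 2)]
    [(1, .sc false 1, false), (2, .r2 false 1, true), (1, .r1c true 2, true),
     (1, .comm .cup (.box 0) 2 0, true), (2, .zag 2, true), (0, .comm .cup (.box 0) 0 0, true),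
     (1, .comm .cup .cap 0 0, true)] =
    some [(.box 0, 0), (.cap, 0), (.cup, 0)] := by decide

theorem c_tinf : run 0 2 [(.cup, 0), (.cup, 1), (.cr true, 2), (.cr true, 1), (.cr true, 2), (.cap, 1)]
    [(1, .sc false 1, false), (2, .r2 false 1, true), (1, .r1c true 2, true), (1, .zig 1, true)] =
    some [(.cup, 0)] := by decide

theorem c_rotP : run 0 4 [(.cup, 0), (.box 0, 1), (.cap, 0)]
    [(1, .nat true 0 1, false), (0, .comm .cup (.box 0) 0 0, true), (1, .sc false 0, false),
     (5, .comm .cap (.cr true) 0 2, false), (4, .comm .cap (.cr true) 0 1, false),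
     (3, .comm .cap (.cr true) 0 0, false), (2, .r1p false 0, true), (1, .zig 0, true)] =
    some [(.box 0, 0), (.cr true, 0), (.cr true, 1), (.cr true, 2)] := by decide

theorem c_rotN : run 0 4 [(.cup, 0), (.box 0, 1), (.cap, 0)]
    [(1, .nat false 0 1, false), (0, .comm .cup (.box 0) 0 0, true), (1, .sc true 0, false),
     (5, .comm .cap (.cr false) 0 2, false), (4, .comm .cap (.cr false) 0 1, false),
     (3, .comm .cap (.cr false) 0 0, false), (2, .r1p true 0, true), (1, .zig 0, true)] =
    some [(.box 0, 0), (.cr false, 0), (.cr false, 1), (.cr false, 2)] := by decide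

theorem c_cw : run 0 4 [(.box 0, 0), (.cr true, 0), (.cr true, 1), (.cr true, 2), (.cr false, 0), (.cr false, 1), (.cr false, 2)]
    [(1, .r2 false 1, false), (2, .r3 true 0, false),
     (4, .comm (.cr true) (.cr true) 0 0, true), (5, .r2 true 0, true), (3, .r2 false 2, false),
     (4, .r3 true 1, false), (6, .r2 true 1, true), (5, .r2 true 2, true),
     (2, .comm (.cr true) (.cr false) 0 0, true)] =
    some [(.box 0, 0), (.cr false, 1), (.cr false, 2), (.cr true, 0), (.cr true, 1)] := by decide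

theorem c_rot2 : run 0 4 [(.cup, 0), (.cup, 1), (.box 0, 2), (.box 1, 6), (.cap, 5), (.cap, 4), (.cap, 1), (.cap, 0)]
    [(5, .comm .cap .cap 1 1, false), (4, .comm .cap .cap 1 2, false),
     (3, .comm .cap (.box 1) 1 3, false), (6, .comm .cap .cap 0 0, false),
     (5, .comm .cap .cap 0 1, false), (4, .comm .cap (.box 1) 0 2, false), (5, .zag 1, false),
     (6, .comm (.box 1) .cap 2 0, false), (7, .comm .cap .cap 1 3, false),
     (8, .comm .cap .cap 0 2, false), (5, .zag 0, false), (6, .comm .cup .cap 1 0, false),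
     (7, .comm (.box 1) .cap 2 1, false), (8, .comm .cap .cap 1 4, false),
     (9, .comm .cap .cap 0 3, false), (4, .comm .cup .cap 0 0, false),
     (5, .comm .cup .cap 1 1, false), (6, .comm (.box 1) .cap 2 2, false),
     (7, .comm .cap .cap 1 5, false), (8, .comm .cap .cap 0 4, false),
     (3, .comm .cup .cap 0 1, false), (4, .comm .cup .cap 1 2, false),
     (5, .comm (.box 1) .cap 2 3, false), (6, .comm .cap .cap 1 6, false),
     (7, .comm .cap .cap 0 5, false), (2, .comm .cup (.box 0) 0 2, false),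
     (3, .comm .cup (.box 0) 1 3, false), (4, .comm (.box 1) (.box 0) 2 4, false),
     (5, .comm .cap (.box 0) 1 7, false), (6, .comm .cap (.box 0) 0 6, false),
     (1, .comm .cup .cup 0 1, false), (2, .comm .cup .cup 1 2, false),
     (3, .comm (.box 1) .cup 2 3, false), (4, .comm .cap .cup 1 6, false),
     (5, .comm .cap .cup 0 5, false), (0, .comm .cup .cup 0 0, false),
     (1, .comm .cup .cup 1 1, false), (2, .comm (.box 1) .cup 2 2, false),
     (3, .comm .cap .cup 1 5, false), (4, .comm .cap .cup 0 4, false)] =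
    some [(.cup, 0), (.cup, 1), (.box 1, 2), (.cap, 1), (.cap, 0), (.cup, 4), (.cup, 5), (.box 0, 6), (.cap, 5), (.cap, 4), (.cap, 3), (.cap, 2)] := by decide

end Pool.Agent.Lib.MP_7bc610_gt
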