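import Pool.Agent.Lib.MP_7bc610_gt.Orb

/-!
Second-order jets, at the point where the bracket computes the determinant, of the Hermitian
products of the two bracket coefficients of a tangle.
-/

namespace Pool.Agent.Lib.MP_7bc610_gt

open Equiv

@[ext] structure Dt where
  bb : ℚ
  ab : ℚ
  aa : ℚ
  w : ℚ
  cp : ℚ
  x : ℚ
  cq : ℚ

namespace Dt

def tau : Perm Dt where
  toFun d := ⟨d.bb, d.bb + d.ab, d.bb + d.aa + 2 * d.ab, d.bb / 2 + d.ab + d.w, d.cp,
    d.bb / 8 + d.cp + d.ab / 2 + d.w + d.x, d.cp + d.cq + 2 * d.x + d.w + d.ab / 4⟩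
  invFun d := ⟨d.bb, d.ab - d.bb, d.aa + d.bb - 2 * d.ab, d.w - d.ab + d.bb / 2, d.cp,
    d.x - d.w + d.ab / 2 - d.cp - d.bb / 8, d.cq + d.cp - 2 * d.x + d.w - d.ab / 4⟩
  left_inv d := by ext <;> simp only <;> ring
  right_inv d := by ext <;> simp only <;> ring

def sig : Perm Dt where
  toFun d := ⟨d.bb + d.aa - 2 * d.ab, d.ab - d.aa, d.aa, d.w - d.ab + d.aa / 2,
    d.cp + d.cq - 2 * d.x + d.w - d.ab / 4, d.x - d.w + d.ab / 2 - d.cq - d.aa / 8, d.cq⟩
  invFun d := ⟨d.bb + d.aa + 2 * d.ab, d.ab + d.aa, d.aa, d.w + d.ab + d.aa / 2,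
    d.cp + d.cq + 2 * d.x + d.w + d.ab / 4, d.x + d.w + d.ab / 2 + d.cq + d.aa / 8, d.cq⟩
  left_inv d := by ext <;> simp only <;> ring
  right_inv d := by ext <;> simp only <;> ring

theorem tau_apply (d : Dt) : tau d = ⟨d.bb, d.bb + d.ab, d.bb + d.aa + 2 * d.ab,
    d.bb / 2 + d.ab + d.w, d.cp, d.bb / 8 + d.cp + d.ab / 2 + d.w + d.x,
    d.cp + d.cq + 2 * d.x + d.w + d.ab / 4⟩ := rfl

theorem tau_inv (d : Dt) : tau⁻¹ d = ⟨d.bb, d.ab - d.bb, d.aa + d.bb - 2 * d.ab,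
    d.w - d.ab + d.bb / 2, d.cp, d.x - d.w + d.ab / 2 - d.cp - d.bb / 8,
    d.cq + d.cp - 2 * d.x + d.w - d.ab / 4⟩ := rfl

theorem sig_apply (d : Dt) : sig d = ⟨d.bb + d.aa - 2 * d.ab, d.ab - d.aa, d.aa,
    d.w - d.ab + d.aa / 2, d.cp + d.cq - 2 * d.x + d.w - d.ab / 4,
    d.x - d.w + d.ab / 2 - d.cq - d.aa / 8, d.cq⟩ := rfl

theorem sig_inv (d : Dt) : sig⁻¹ d = ⟨d.bb + d.aa + 2 * d.ab, d.ab + d.aa, d.aa,
    d.w + d.ab + d.aa / 2, d.cp + d.cq + 2 * d.x + d.w + d.ab / 4,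
    d.x + d.w + d.ab / 2 + d.cq + d.aa / 8, d.cq⟩ := rfl

def rot (d : Dt) : Dt := ⟨d.aa, -d.ab, d.bb, d.w, d.cq, -d.x, d.cp⟩

def add (d e : Dt) : Dt :=
  ⟨d.bb * e.bb, d.bb * e.ab + d.ab * e.bb, d.bb * e.aa + d.aa * e.bb + 2 * d.ab * e.ab,
    d.bb * e.w + d.w * e.bb + d.ab * e.ab, d.bb * e.cp + d.cp * e.bb,
    d.bb * e.x + d.cp * e.ab + d.x * e.bb + d.ab * e.cp + d.ab * e.w + d.w * e.ab,
    d.bb * e.cq + d.cp * e.aa + d.cq * e.bb + d.aa * e.cp +
      2 * (d.ab * e.x + d.x * e.ab - d.w * e.w) + 2 * d.w * e.aa + 2 * d.aa * e.w - d.aa * e.aa⟩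

def zero : Dt := ⟨1, 0, 0, 0, 0, 0, 0⟩

def cl (d : Dt) : ℚ := d.cq + 2 * d.w - d.bb

def n (d : Dt) : ℚ := d.aa + d.bb - 2 * d.w

def R2 (d : Dt) : ℚ := d.bb * d.cq + d.aa * d.cp - 2 * d.ab * d.x + d.w ^ 2

def gam (d : Dt) : ℚ :=
  12 * (d.bb * d.x - d.ab * d.cp - d.ab * d.w + d.ab * d.aa / 3 + d.ab * d.bb / 24)

/-- The leading terms come from the integer pair `v = (b, a)`. -/
def Sl (d : Dt) (v : ℤ × ℤ) : Prop :=
  d.bb = (v.1 : ℚ) ^ 2 ∧ d.ab = (v.2 : ℚ) * v.1 ∧ d.aa = (v.2 : ℚ) ^ 2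

theorem braid : tau * sig * tau = sig * tau * sig := by
  ext1 d
  simp only [Perm.mul_apply, tau_apply, sig_apply]
  ext <;> simp only <;> ring

theorem rho_apply (d : Dt) : (tau * sig * tau) d = rot d := by
  simp only [Perm.mul_apply, tau_apply, sig_apply, rot]
  ext <;> simp only <;> ring

theorem add_comm' (d e : Dt) : add d e = add e d := by
  ext <;> simp only [add] <;> ring

theorem add_assoc' (d e f : Dt) : add (add d e) f = add d (add e f) := by
  ext <;> simp only [add] <;> ring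

theorem zero_add' (d : Dt) : add zero d = d := by
  ext <;> simp [add, zero]

theorem add_tau (d e : Dt) : add (tau d) e = tau (add d e) := by
  ext <;> simp only [add, tau_apply] <;> ring

theorem add_tau_inv (d e : Dt) : add (tau⁻¹ d) e = tau⁻¹ (add d e) := by
  rw [Perm.eq_inv_iff_eq, ← add_tau]; simp

theorem add_tau_zpow (k : ℤ) (d e : Dt) : add ((tau ^ k) d) e = (tau ^ k) (add d e) := by
  induction k using Int.induction_on with
  | zero => simp
  | succ k ih => rw [add_comm (k : ℤ) 1, zpow_one_add, Perm.mul_apply, add_tau, ih]; rfl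
  | pred k ih =>
    rw [sub_eq_neg_add, zpow_add, zpow_neg_one, Perm.mul_apply, add_tau_inv, ih]; rfl

/-- The closure invariants of a sum: squared determinant and second-order term. -/
def CC (d e : Dt) : ℚ × ℚ := ((add d e).aa, cl (add d e))

theorem CC_gen (l : Bool × Bool) (d e : Dt) :
    CC (gen tau sig l d) e = CC d (gen tau sig l e) := by
  rcases l with ⟨_ | _, _ | _⟩ <;>
    simp only [gen, CC, cl, add, tau_apply, tau_inv, sig_apply, sig_inv, Prod.mk.injEq] <;>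
    constructor <;> ring

theorem CC_act (h : BW) (d e : Dt) :
    CC (act tau sig h d) e = CC d (act tau sig h.reverse e) := by
  induction h generalizing e with
  | nil => simp
  | cons l h ih =>
    simp only [act_cons, Perm.mul_apply, CC_gen, ih, List.reverse_cons, act_append]
    simp

theorem CC_comm (d e : Dt) : CC d e = CC e d := by simp only [CC, add_comm' d e]

theorem CC_assoc (d e f : Dt) : CC (add d e) f = CC d (add e f) := by
  simp only [CC, add_assoc']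

theorem n_gen (l : Bool × Bool) (d : Dt) : n (gen tau sig l d) = n d := by
  rcases l with ⟨_ | _, _ | _⟩ <;>
    simp only [gen, n, tau_apply, tau_inv, sig_apply, sig_inv] <;> ring

theorem n_act (h : BW) (d : Dt) : n (act tau sig h d) = n d := by
  induction h with
  | nil => simp
  | cons l h ih => simp only [act_cons, Perm.mul_apply, n_gen, ih]

theorem Sl.gen {d : Dt} {v : ℤ × ℤ} (h : Sl d v) (l : Bool × Bool) :
    Sl (gen tau sig l d) (gen sx sy l v) := by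
  obtain ⟨h1, h2, h3⟩ := h
  rcases l with ⟨_ | _, _ | _⟩ <;>
    simp only [MP_7bc610_gt.gen, Sl, tau_apply, tau_inv, sig_apply, sig_inv, sx_apply, sx_inv,
      sy_apply, sy_inv, h1, h2, h3] <;> push_cast <;> refine ⟨?_, ?_, ?_⟩ <;> first | trivial | ring

theorem Sl.act {d : Dt} {v : ℤ × ℤ} (h : Sl d v) (g : BW) :
    Sl (act tau sig g d) (act sx sy g v) := by
  induction g with
  | nil => simpa using h
  | cons l g ih => simpa only [act_cons, Perm.mul_apply] using ih.gen l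

theorem Sl.add {d e : Dt} {v v' : ℤ × ℤ} (h : Sl d v) (h' : Sl e v') :
    Sl (add d e) (v.1 * v'.1, v.2 * v'.1 + v.1 * v'.2) := by
  obtain ⟨h1, h2, h3⟩ := h
  obtain ⟨h4, h5, h6⟩ := h'
  simp only [Sl, Dt.add, h1, h2, h3, h4, h5, h6]
  push_cast
  refine ⟨?_, ?_, ?_⟩ <;> ring

theorem Sl.congr {d : Dt} {v v' : ℤ × ℤ} (h : Sl d v) (h' : sq3 v = sq3 v') : Sl d v' := by
  simp only [sq3, Prod.mk.injEq] at h'
  obtain ⟨h1, h2, h3⟩ := h
  obtain ⟨h4, h5, h6⟩ := h'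
  refine ⟨?_, ?_, ?_⟩
  · rw [h1]; exact_mod_cast h4
  · rw [h2]; exact_mod_cast h5
  · rw [h3]; exact_mod_cast h6

theorem Sl.sq3_eq {d : Dt} {v v' : ℤ × ℤ} (h : Sl d v) (h' : Sl d v') : sq3 v = sq3 v' := by
  obtain ⟨h1, h2, h3⟩ := h
  obtain ⟨h4, h5, h6⟩ := h'
  simp only [sq3, Prod.mk.injEq]
  refine ⟨?_, ?_, ?_⟩
  · exact_mod_cast h1.symm.trans h4
  · exact_mod_cast h2.symm.trans h5
  · exact_mod_cast h3.symm.trans h6

theorem R2_gen (l : Bool × Bool) {d : Dt} {v : ℤ × ℤ} (h : Sl d v) :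
    R2 (gen tau sig l d) = R2 d := by
  obtain ⟨h1, h2, h3⟩ := h
  rcases l with ⟨_ | _, _ | _⟩ <;>
    simp only [gen, R2, tau_apply, tau_inv, sig_apply, sig_inv, h1, h2, h3] <;> ring

theorem R2_add {d e : Dt} {v v' : ℤ × ℤ} (h : Sl d v) (h' : Sl e v') :
    R2 (add d e) = e.bb ^ 2 * R2 d + d.bb ^ 2 * R2 e := by
  obtain ⟨h1, h2, h3⟩ := h
  obtain ⟨h4, h5, h6⟩ := h'
  simp only [R2, add, h1, h2, h3, h4, h5, h6]; ring

theorem n_add (d e : Dt) :
    1 - n (add d e) = (d.bb - 1) * (e.bb - 1) + d.bb * (1 - n e) + e.bb * (1 - n d) := by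
  simp only [n, add]; ring

/-- The splice formula. -/
theorem splice {d e r s : Dt} {v v' : ℤ × ℤ} (hd : Sl d v) (hr : Sl r v) (he : Sl e v')
    (hs : Sl s v') (nr : n r = 1) (ns : n s = 1) :
    (CC d e).2 = (CC d s).2 + (CC r e).2 - (CC r s).2 - (1 - n d) * (1 - n e) / 2 := by
  obtain ⟨h1, h2, h3⟩ := hd
  obtain ⟨h4, h5, h6⟩ := hr
  obtain ⟨h7, h8, h9⟩ := he
  obtain ⟨h10, h11, h12⟩ := hs
  simp only [n, h4, h6, h10, h12] at nr ns
  have e1 : r.w = ((v.2 : ℚ) ^ 2 + (v.1 : ℚ) ^ 2 - 1) / 2 := by linarith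
  have e2 : s.w = ((v'.2 : ℚ) ^ 2 + (v'.1 : ℚ) ^ 2 - 1) / 2 := by linarith
  simp only [CC, cl, add, n, h1, h2, h3, h4, h5, h6, h7, h8, h9, h10, h11, h12, e1, e2]
  ring

theorem CC_fst {d e : Dt} {v v' : ℤ × ℤ} (hd : Sl d v) (he : Sl e v') :
    (CC d e).1 = ((v.2 * v'.1 + v.1 * v'.2 : ℤ) : ℚ) ^ 2 := (hd.add he).2.2

end Dt

open Dt

/-- The data of a rational tangle. -/
def dat (g : BW) : Dt := act tau sig g Dt.zero

theorem sl_dat (g : BW) : Sl (dat g) (slope g) := by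
  have : Sl Dt.zero (1, 0) := by simp [Sl, Dt.zero]
  exact this.act g

theorem n_dat (g : BW) : n (dat g) = 1 := by
  rw [dat, n_act]; simp [n, Dt.zero]

theorem R2_dat (g : BW) : R2 (dat g) = 0 := by
  induction g with
  | nil => simp [dat, R2, Dt.zero]
  | cons l g ih =>
    have : dat (l :: g) = gen tau sig l (dat g) := by simp [dat]
    rw [this, R2_gen l (sl_dat g), ih]

theorem dat_append (g h : BW) : dat (g ++ h) = act tau sig g (dat h) := by
  simp [dat, act_append]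

theorem dat_orb {g g' : BW} (h : sq3 (slope g) = sq3 (slope g')) : dat g = dat g' := by
  refine orb Dt.braid ?_ ?_ g g' h
  · ext <;> simp [sig_apply, Dt.zero]
  · simp only [rho_apply]; ext <;> simp [rot, Dt.zero]

theorem sq3_int {v : ℤ × ℤ} (h : v.1 ^ 2 = 1) : sq3 v = sq3 (slope (pw true (v.2 * v.1) ++ [])) := by
  rw [slope_pwx]
  simp only [sq3, slope_nil, Prod.mk.injEq]
  refine ⟨by simpa using h, by ring, by linear_combination (-v.2 ^ 2) * h⟩

theorem sq3_coint {v : ℤ × ℤ} (h : v.2 ^ 2 = 1) :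
    sq3 v = sq3 (slope (pw false (-(v.2 * v.1)) ++ (rw3 ++ []))) := by
  rw [slope_pwy, slope_rw3]
  simp only [sq3, slope_nil, Prod.mk.injEq]
  refine ⟨by linear_combination (-v.1 ^ 2) * h, by ring, by simpa using h⟩

theorem dat_int {g : BW} (h : (slope g).1 ^ 2 = 1) :
    dat g = (tau ^ ((slope g).2 * (slope g).1)) Dt.zero := by
  rw [dat_orb (sq3_int h), dat_append, act_pw]; rfl

theorem cl_sig_zpow (k : ℤ) (d : Dt) : cl ((sig ^ k) d) = cl d := by
  induction k using Int.induction_on with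
  | zero => simp
  | succ k ih =>
    rw [add_comm (k : ℤ) 1, zpow_one_add, Perm.mul_apply, ← ih]
    simp only [cl, sig_apply]; ring
  | pred k ih =>
    rw [sub_eq_neg_add, zpow_add, zpow_neg_one, Perm.mul_apply, ← ih]
    simp only [cl, sig_inv]; ring

/-- Two-bridge closures of determinant one have vanishing second-order term. -/
theorem CC_rat (g g' : BW) (h : (CC (dat g) (dat g')).1 = 1) : (CC (dat g) (dat g')).2 = 0 := by
  rw [dat, CC_act, ← dat_append] at h ⊢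
  simp only [CC, zero_add'] at h ⊢
  have h1 : (slope (g.reverse ++ g')).2 ^ 2 = 1 := by
    have := (sl_dat (g.reverse ++ g')).2.2
    rw [h] at this
    exact_mod_cast this.symm
  rw [dat_orb (sq3_coint h1), dat_append, act_pw, dat_append, act_rw3]
  simp only [Bool.false_eq_true, if_false, cl_sig_zpow, rho_apply]
  simp [cl, rot, dat, Dt.zero]

end Pool.Agent.Lib.MP_7bc610_gt
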