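import Mathlib

/-!
Link diagrams as Morse words, Reidemeister equivalence, the Kauffman bracket, and
arborescent (Conway-algebraic) tangles.
-/

namespace Pool.Agent.Lib.MP_7bc610_gt

open LaurentPolynomial

/-- The elementary pieces of a diagram read from bottom to top: a local minimum, a local
maximum, a crossing (`cr true`: the strand going up to the right is the over-strand). -/
inductive Kind where
  | cup : Kind
  | cap : Kind
  | cr : Bool → Kind

/-- Number of strands entering a piece from below. -/
def Kind.inp : Kind → ℕ
  | .cup => 0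
  | .cap => 2
  | .cr _ => 2

/-- Number of strands leaving a piece upwards. -/
def Kind.out : Kind → ℕ
  | .cup => 2
  | .cap => 0
  | .cr _ => 2

/-- A diagram is a list of pieces; the number says how many strands pass to the left of it. -/
abbrev Word : Type := List (Kind × ℕ)

/-- `Valid n w m`: the word `w` is a diagram with `n` strands at the bottom and `m` at the top. -/
def Valid : ℕ → Word → ℕ → Prop
  | n, [], m => n = m
  | n, (k, i) :: w, m => i + k.inp ≤ n ∧ Valid (n - k.inp + k.out) w m

/-- Local moves: exchange of heights of distant pieces, straightening of zigzags, sliding a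
crossing through an extremum (planar isotopy), and the three Reidemeister moves. -/
inductive Move : Word → Word → Prop where
  | comm (k l : Kind) (i t : ℕ) :
      Move [(k, i), (l, i + t + k.out)] [(l, i + t + k.inp), (k, i)]
  | zig (i : ℕ) : Move [(.cup, i + 1), (.cap, i)] []
  | zag (i : ℕ) : Move [(.cup, i), (.cap, i + 1)] []
  | slideCup (e : Bool) (i : ℕ) :
      Move [(.cup, i + 1), (.cr e, i)] [(.cup, i), (.cr (!e), i + 1)]
  | slideCap (e : Bool) (i : ℕ) :
      Move [(.cr e, i), (.cap, i + 1)] [(.cr (!e), i + 1), (.cap, i)]
  | r1Cup (e : Bool) (i : ℕ) : Move [(.cup, i), (.cr e, i)] [(.cup, i)]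
  | r1Cap (e : Bool) (i : ℕ) : Move [(.cr e, i), (.cap, i)] [(.cap, i)]
  | r2 (e : Bool) (i : ℕ) : Move [(.cr e, i), (.cr (!e), i)] []
  | r3 (e : Bool) (i : ℕ) :
      Move [(.cr e, i), (.cr e, i + 1), (.cr e, i)] [(.cr e, i + 1), (.cr e, i), (.cr e, i + 1)]

/-- One local move between two diagrams with `n` bottom and `m` top ends. -/
def Step (n m : ℕ) (u v : Word) : Prop :=
  Valid n u m ∧ Valid n v m ∧
    ∃ p l r s : Word, Move l r ∧ u = p ++ l ++ s ∧ v = p ++ r ++ s

/-- Diagrams related by finitely many local moves, used in either direction. -/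
def Isotopic (n m : ℕ) : Word → Word → Prop := Relation.EqvGen (Step n m)

/-- `r a b` records that the strands at positions `a` and `b` are joined below the current
height; this is the update after a new minimum at positions `i, i+1`. -/
def cupR (i : ℕ) (r : ℕ → ℕ → Prop) (a b : ℕ) : Prop :=
  ((a = i ∨ a = i + 1) ∧ (b = i ∨ b = i + 1)) ∨
    (a ≠ i ∧ a ≠ i + 1 ∧ b ≠ i ∧ b ≠ i + 1 ∧
      r (if a < i then a else a - 2) (if b < i then b else b - 2))

/-- The update after joining the strands at positions `i, i+1` by a maximum. -/
def capR (i : ℕ) (r : ℕ → ℕ → Prop) (a b : ℕ) : Prop :=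
  r (if a < i then a else a + 2) (if b < i then b else b + 2) ∨
    (r (if a < i then a else a + 2) i ∧ r (i + 1) (if b < i then b else b + 2)) ∨
    (r (if a < i then a else a + 2) (i + 1) ∧ r i (if b < i then b else b + 2))

/-- The loop value `d = -A^2 - A^(-2)`. -/
noncomputable def loopVal : ℤ[T;T⁻¹] := -T 2 - T (-2)

open Classical in
/-- The factor contributed by a maximum: `d` if it closes a loop and `1` otherwise. -/
noncomputable def capVal (i : ℕ) (r : ℕ → ℕ → Prop) : ℤ[T;T⁻¹] :=
  if r i (i + 1) then loopVal else 1

/-- The state sum: each crossing is smoothed vertically or horizontally with weights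
`A^(±1)`, and every closed loop contributes `d`. -/
noncomputable def ev : Word → (ℕ → ℕ → Prop) → ℤ[T;T⁻¹]
  | [], _ => 1
  | (.cup, i) :: w, r => ev w (cupR i r)
  | (.cap, i) :: w, r => capVal i r * ev w (capR i r)
  | (.cr e, i) :: w, r =>
      T (if e then 1 else -1) * ev w r +
        T (if e then -1 else 1) * (capVal i r * ev w (cupR i (capR i r)))

/-- `d` times the Kauffman bracket of a closed diagram. -/
noncomputable def stateSum (w : Word) : ℤ[T;T⁻¹] := ev w Eq

/-- Move a diagram `k` strands to the right. -/
def shift (k : ℕ) (w : Word) : Word := w.map fun g => (g.1, g.2 + k)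

/-- Expressions for arborescent (algebraic) tangles. -/
inductive AT where
  | zero : AT
  | twist : Fin 3 → Bool → AT → AT
  | add : AT → AT → AT
  | rot : AT → AT

/-- The diagram of an arborescent tangle, with its four ends pointing upwards. -/
def AT.dia : AT → Word
  | .zero => [(.cup, 0), (.cup, 1)]
  | .twist i e X => X.dia ++ [(.cr e, i.val)]
  | .add X Y => X.dia ++ shift 4 Y.dia ++ [(.cap, 3), (.cap, 2)]
  | .rot X => (.cup, 0) :: shift 1 X.dia ++ [(.cap, 0)]

/-- The numerator closure: an arborescent link diagram. -/
def AT.closure (X : AT) : Word := X.dia ++ [(.cap, 1), (.cap, 0)]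

end Pool.Agent.Lib.MP_7bc610_gt
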