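import Pool.Agent.Lib.MP_7bc610_gt.H9Base

/-!
Realises the auto-generated unfolding lemma of `Walk` once, so that the modules using it share one copy.
-/

namespace Pool.Agent.Lib.MP_7bc610_gt

theorem eqfix2 : True := by
  have := @Walk.eq_def
  trivial

end Pool.Agent.Lib.MP_7bc610_gt
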