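import Pool.Agent.Lib.MP_7bc610_gt.Main

/-!
The induction on the number of sums.
-/

namespace Pool.Agent.Lib.MP_7bc610_gt

open Equiv Dt

namespace Tg

variable {X : Type} {M : Tg X}

structure Res (M : Tg X) (Y : X) (D : Dt) (g : BW) : Prop where
  n_le : n D ≤ 1
  c_le : (CC D (dat g)).2 ≤ 0
  isRat : (CC D (dat g)).2 = 0 → n D = 1 → ∃ r, Sl D (slope r) ∧ Y = M.rat r
  triv : (CC D (dat g)).2 = 0 → M.triv (M.add Y (M.rat g))

def P (M : Tg X) (m : ℕ) : Prop :=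
  ∀ Y D, M.Arb m Y D → ∀ g, (CC D (dat g)).1 = 1 → M.Res Y D g

theorem P.left {m} (h : M.P m) {Y D} (hY : M.Arb m Y D) (g : BW) (h1 : (CC D (dat g)).1 = 1)
    (h2 : (CC D (dat g)).2 = 0) : M.triv (M.add (M.rat g) Y) := by
  rw [rat, M.transfer, M.u_add, ← M.add_u (act M.s1 M.s2 g.reverse Y)]
  have e : CC (act tau sig g.reverse D) (dat []) = CC D (dat g) := by
    rw [CC_act, List.reverse_reverse]; rfl
  exact (h _ _ (hY.act1 g.reverse) [] (by rw [e, h1])).triv (by rw [e, h2])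

theorem Res.act {Z E} (h g : BW) (H : M.Res Z E (h.reverse ++ g)) :
    M.Res (act M.s3 M.s2 h Z) (act tau sig h E) g := by
  have e : CC (MP_7bc610_gt.act tau sig h E) (dat g) = CC E (dat (h.reverse ++ g)) := by
    rw [CC_act, dat_append]
  refine ⟨by rw [n_act]; exact H.n_le, by rw [e]; exact H.c_le, fun h1 h2 => ?_, fun h1 => ?_⟩
  · rw [e] at h1
    rw [n_act] at h2
    obtain ⟨r, hr, rfl⟩ := H.isRat h1 h2
    exact ⟨h ++ r, by rw [slope_append]; exact hr.act h, (M.rat_append h r).symm⟩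
  · rw [e] at h1
    rw [M.transfer, M.act1_rat]
    exact H.triv h1

theorem res_zero (g : BW) (h : (CC Dt.zero (dat g)).1 = 1) : M.Res M.u Dt.zero g := by
  have h0 : (CC Dt.zero (dat g)).2 = 0 := CC_rat [] g h
  refine ⟨(n_dat []).le, h0.le, fun _ _ => ⟨[], sl_dat [], rfl⟩, fun _ => ?_⟩
  have h1 : (slope g).2 ^ 2 = 1 := by
    simp only [CC, zero_add'] at h
    have := (sl_dat g).2.2
    rw [h] at this
    exact_mod_cast this.symm
  rw [M.u_add, M.rat_orb (sq3_coint h1), M.rat_append, act_pw]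
  simp only [Bool.false_eq_true, if_false, t2_zpow, M.rat_append, act_rw3]
  exact M.tinf

theorem prod_nonneg (b b' : ℤ) (h : b = 0 → b' ^ 2 = 1) (h' : b' = 0 → b ^ 2 = 1) :
    0 ≤ ((b : ℚ) ^ 2 - 1) * ((b' : ℚ) ^ 2 - 1) := by
  have : 0 ≤ (b ^ 2 - 1) * (b' ^ 2 - 1) := by
    by_cases e : b = 0
    · rw [h e]; simp
    by_cases e' : b' = 0
    · rw [h' e']; simp
    have := Int.one_le_abs e
    have := Int.one_le_abs e'
    apply mul_nonneg <;> nlinarith [sq_abs b, sq_abs b']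
  exact_mod_cast this

theorem res_add {m1 m2 Y1 Y2 D1 D2} (p1 : M.P m1) (p2 : M.P m2) (h1 : M.Arb m1 Y1 D1)
    (h2 : M.Arb m2 Y2 D2) (g : BW) (h : (CC (Dt.add D1 D2) (dat g)).1 = 1) :
    M.Res (M.add Y1 Y2) (Dt.add D1 D2) g := by
  obtain ⟨⟨b1, a1⟩, s1⟩ := h1.sl
  obtain ⟨⟨b2, a2⟩, s2⟩ := h2.sl
  have s3 := sl_dat g
  generalize hv3 : slope g = v3 at s3
  obtain ⟨b3, a3⟩ := v3
  have hb3 : (slope g).1 = b3 := by rw [hv3]
  have hdet : ((a1 * b2 + b1 * a2) * b3 + b1 * b2 * a3) ^ 2 = 1 := by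
    have := CC_fst (s1.add s2) s3
    rw [h] at this
    exact_mod_cast this.symm
  set det := (a1 * b2 + b1 * a2) * b3 + b1 * b2 * a3 with hd
  have hu : ∀ k : ℤ, k ∣ det → k ^ 2 = 1 := fun k hk => by
    have : k ∣ 1 := by rw [← hdet]; exact Dvd.dvd.pow hk two_ne_zero
    rcases Int.isUnit_iff.1 (isUnit_of_dvd_one this) with h | h <;> simp [h]
  have z12 : b1 = 0 → b2 ^ 2 = 1 := fun z => hu _ ⟨a1 * b3, by rw [hd, z]; ring⟩
  have z13 : b1 = 0 → b3 ^ 2 = 1 := fun z => hu _ ⟨a1 * b2, by rw [hd, z]; ring⟩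
  have z21 : b2 = 0 → b1 ^ 2 = 1 := fun z => hu _ ⟨a2 * b3, by rw [hd, z]; ring⟩
  have z23 : b2 = 0 → b3 ^ 2 = 1 := fun z => hu _ ⟨a2 * b1, by rw [hd, z]; ring⟩
  have z31 : b3 = 0 → b1 ^ 2 = 1 := fun z => hu _ ⟨a3 * b2, by rw [hd, z]; ring⟩
  have z32 : b3 = 0 → b2 ^ 2 = 1 := fun z => hu _ ⟨a3 * b1, by rw [hd, z]; ring⟩
  obtain ⟨r1, e1⟩ := exists_slope (b1, a1)
    ⟨(a2 * b3 + b2 * a3) * det, b2 * b3 * det, by rw [← hdet, hd]; ring⟩
  obtain ⟨r2, e2⟩ := exists_slope (b2, a2)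
    ⟨(a1 * b3 + b1 * a3) * det, b1 * b3 * det, by rw [← hdet, hd]; ring⟩
  obtain ⟨r23, e23⟩ := exists_slope (b2 * b3, a2 * b3 + b2 * a3)
    ⟨a1 * det, b1 * det, by rw [← hdet, hd]; ring⟩
  obtain ⟨r13, e13⟩ := exists_slope (b1 * b3, a1 * b3 + b1 * a3)
    ⟨a2 * det, b2 * det, by rw [← hdet, hd]; ring⟩
  have t1 := (sl_dat r1).congr e1
  have t2 := (sl_dat r2).congr e2
  have t23 := (sl_dat r23).congr e23
  have t13 := (sl_dat r13).congr e13
  have hdq : ∀ k : ℤ, k = det → (k : ℚ) ^ 2 = 1 := fun k hk => by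
    rw [hk]; exact_mod_cast hdet
  have f1 : (CC D1 (dat r23)).1 = 1 := by rw [CC_fst s1 t23]; exact hdq _ (by rw [hd]; ring)
  have f2 : (CC D2 (dat r13)).1 = 1 := by rw [CC_fst s2 t13]; exact hdq _ (by rw [hd]; ring)
  have f3 : (CC (dat r1) (dat r23)).1 = 1 := by
    rw [CC_fst t1 t23]; exact hdq _ (by rw [hd]; ring)
  have f4 : (CC (dat r2) (dat r13)).1 = 1 := by
    rw [CC_fst t2 t13]; exact hdq _ (by rw [hd]; ring)
  have f5 : (CC (Dt.add (dat r1) (dat r2)) (dat g)).1 = 1 := by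
    rw [CC_fst (t1.add t2) s3]; exact hdq _ (by rw [hd])
  have R1 := p1 _ _ h1 r23 f1
  have R2 := p2 _ _ h2 r13 f2
  obtain ⟨c3, c3'⟩ := three_le r1 r2 g f5
  have q1 : (slope r1).1 ^ 2 = b1 ^ 2 := congrArg Prod.fst e1
  have q2 : (slope r2).1 ^ 2 = b2 ^ 2 := congrArg Prod.fst e2
  have q23 : (slope r23).1 ^ 2 = (b2 * b3) ^ 2 := congrArg Prod.fst e23
  have q13 : (slope r13).1 ^ 2 = (b1 * b3) ^ 2 := congrArg Prod.fst e13
  rw [q1, q2, hb3] at c3'
  have perm : ∀ d e f : Dt, CC d (Dt.add e f) = CC e (Dt.add d f) := fun d e f => by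
    rw [← CC_assoc, add_comm' d e, CC_assoc]
  have sp1 := splice s1 t1 (s2.add s3) t23 (n_dat r1) (n_dat r23)
  have sp2 := splice s2 t2 (t1.add s3) t13 (n_dat r2) (n_dat r13)
  rw [CC_rat _ _ f3, perm (dat r1), sp2, CC_rat _ _ f4, perm (dat r2), ← CC_assoc, ← CC_assoc,
    n_add, n_add, n_dat, n_dat, s2.1, s3.1, t1.1] at sp1
  have w12 := prod_nonneg b1 b2 z12 z21
  have w13 := prod_nonneg b1 b3 z13 z31
  have w23 := prod_nonneg b2 b3 z23 z32
  have n1 : 0 ≤ 1 - n D1 := by linarith [R1.n_le]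
  have n2 : 0 ≤ 1 - n D2 := by linarith [R2.n_le]
  have k1 := mul_nonneg n2 w13
  have k2 := mul_nonneg n1 w23
  have k3 := mul_nonneg n1 (mul_nonneg (sq_nonneg (b3 : ℚ)) n2)
  have k4 := mul_nonneg (sq_nonneg (b1 : ℚ)) n2
  have k5 := mul_nonneg (sq_nonneg (b2 : ℚ)) n1
  have nn := n_add D1 D2
  rw [s1.1, s2.1] at nn
  simp only at sp1 nn
  have c1 := R1.c_le
  have c2 := R2.c_le
  have rat1 : (CC D1 (dat r23)).2 = 0 → n D1 = 1 → Y1 = M.rat r1 := fun x y => by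
    obtain ⟨r, hr, rfl⟩ := R1.isRat x y
    exact M.rat_orb ((hr.sq3_eq s1).trans e1.symm)
  have rat2 : (CC D2 (dat r13)).2 = 0 → n D2 = 1 → Y2 = M.rat r2 := fun x y => by
    obtain ⟨r, hr, rfl⟩ := R2.isRat x y
    exact M.rat_orb ((hr.sq3_eq s2).trans e2.symm)
  have sq0 : ∀ k : ℤ, k ^ 2 = 0 → k = 0 := fun k hk => pow_eq_zero_iff (two_ne_zero) |>.1 hk
  have cast1 : ∀ k : ℤ, (k : ℚ) ^ 2 - 1 = 0 → k ^ 2 = 1 := fun k hk => by
    have : (k : ℚ) ^ 2 = 1 := by linarith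
    exact_mod_cast this
  refine ⟨by linarith, by linarith, fun x y => ?_, fun x => ?_⟩
  · have x1 : (CC D1 (dat r23)).2 = 0 := by linarith
    have x2 : (CC D2 (dat r13)).2 = 0 := by linarith
    have y1 : ((b1 : ℚ) ^ 2 - 1) * ((b2 : ℚ) ^ 2 - 1) = 0 := by linarith
    have y2 : (b1 : ℚ) ^ 2 * (1 - n D2) = 0 := by linarith
    have y3 : (b2 : ℚ) ^ 2 * (1 - n D1) = 0 := by linarith
    by_cases o1 : b1 = 0
    · have m1 : n D1 = 1 := by
        have : (b2 : ℚ) ^ 2 = 1 := by exact_mod_cast z12 o1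
        rw [this] at y3; linarith
      have i1 : M.rat r1 = _ := M.rat_inf (sq0 _ (by rw [q1, o1]; ring))
      have i2 : M.rat r13 = _ := M.rat_inf (sq0 _ (by rw [q13, o1]; ring))
      have := p2.left h2 r13 f2 x2
      rw [i2] at this
      refine ⟨r1, (s1.add s2).congr (Eq.trans ?_ e1.symm), ?_⟩
      · simp only [sq3, o1, Prod.mk.injEq]
        refine ⟨by ring, by ring, by linear_combination a1 ^ 2 * z12 o1⟩
      · rw [rat1 x1 m1, i1]; exact M.infa _ this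
    by_cases o2 : b2 = 0
    · have m2 : n D2 = 1 := by
        have : (b1 : ℚ) ^ 2 = 1 := by exact_mod_cast z21 o2
        rw [this] at y2; linarith
      have i1 : M.rat r2 = _ := M.rat_inf (sq0 _ (by rw [q2, o2]; ring))
      have i2 : M.rat r23 = _ := M.rat_inf (sq0 _ (by rw [q23, o2]; ring))
      have := R1.triv x1
      rw [i2] at this
      refine ⟨r2, (s1.add s2).congr (Eq.trans ?_ e2.symm), ?_⟩
      · simp only [sq3, o2, Prod.mk.injEq]
        refine ⟨by ring, by ring, by linear_combination a2 ^ 2 * z21 o2⟩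
      · rw [rat2 x2 m2, i1]; exact M.ainf _ this
    have m1 : n D1 = 1 := by
      rcases mul_eq_zero.1 y3 with e | e
      · exact absurd (by exact_mod_cast pow_eq_zero_iff (two_ne_zero) |>.1 e) o2
      · linarith
    have m2 : n D2 = 1 := by
      rcases mul_eq_zero.1 y2 with e | e
      · exact absurd (by exact_mod_cast pow_eq_zero_iff (two_ne_zero) |>.1 e) o1
      · linarith
    have o : b1 ^ 2 = 1 ∨ b2 ^ 2 = 1 := (mul_eq_zero.1 y1).imp (cast1 _) (cast1 _)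
    have hcop : IsCoprime (b1 * b2) (a1 * b2 + b1 * a2) :=
      ⟨a3 * det, b3 * det, by rw [← hdet, hd]; ring⟩
    obtain ⟨r, er⟩ := exists_slope (b1 * b2, a1 * b2 + b1 * a2) hcop
    refine ⟨r, (s1.add s2).congr er.symm, ?_⟩
    rw [rat1 x1 m1, rat2 x2 m2]
    exact (add_rat (by rwa [q1, q2]) ((t1.add t2).congr er.symm)).1
  · have x1 : (CC D1 (dat r23)).2 = 0 := by linarith
    have x2 : (CC D2 (dat r13)).2 = 0 := by linarith
    have x3 := c3' (by linarith)
    have y1 : (1 - n D2) * (((b1 : ℚ) ^ 2 - 1) * ((b3 : ℚ) ^ 2 - 1)) = 0 := by linarith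
    have y2 : (1 - n D1) * (((b2 : ℚ) ^ 2 - 1) * ((b3 : ℚ) ^ 2 - 1)) = 0 := by linarith
    have y3 : (1 - n D1) * ((b3 : ℚ) ^ 2 * (1 - n D2)) = 0 := by linarith
    have TA : n D2 = 1 → b2 ^ 2 = 1 ∨ b3 ^ 2 = 1 → M.triv (M.add (M.add Y1 Y2) (M.rat g)) := by
      intro m2 o
      rw [M.assoc, rat2 x2 m2,
        (add_rat (by rwa [q2, hb3]) ((t2.add s3).congr e23.symm)).1]
      exact R1.triv x1
    have TB : n D1 = 1 → b1 ^ 2 = 1 ∨ b3 ^ 2 = 1 → M.triv (M.add (M.add Y1 Y2) (M.rat g)) := by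
      intro m1 o
      have e := (add_rat (M := M) (by rwa [q1, hb3]) ((t1.add s3).congr e13.symm)).2
      rw [rat1 x1 m1]
      rcases o with o | o
      · have e' : CC (Dt.add (dat r1) D2) (dat g) = CC D2 (dat r13) := by
          rw [CC_assoc, perm, e]
        exact (p2 _ _ (h2.add_left (q1.trans o)) g (by rw [e', f2])).triv (by rw [e', x2])
      · have e' : CC (Dt.add D2 (dat g)) (dat r1) = CC D2 (dat r13) := by
          rw [CC_assoc, add_comm' (dat g), e]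
        rw [M.assoc]
        exact p2.left (h2.add_right (by rw [hb3, o])) r1 (by rw [e', f2]) (by rw [e', x2])
    by_cases o3 : b3 = 0
    · have i0 : M.rat g = _ := M.rat_inf (by rw [hb3, o3])
      have i1 : M.rat r13 = _ := M.rat_inf (sq0 _ (by rw [q13, o3]; ring))
      have i2 : M.rat r23 = _ := M.rat_inf (sq0 _ (by rw [q23, o3]; ring))
      have u1 := R1.triv x1
      have u2 := R2.triv x2
      rw [i2] at u1
      rw [i1] at u2
      rw [M.assoc, i0, M.ainf _ u2]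
      exact u1
    have o : n D1 = 1 ∨ n D2 = 1 := by
      rcases mul_eq_zero.1 y3 with e | e
      · left; linarith
      · rcases mul_eq_zero.1 e with e | e
        · exact absurd (by exact_mod_cast pow_eq_zero_iff (two_ne_zero) |>.1 e) o3
        · right; linarith
    by_cases m1 : n D1 = 1
    · by_cases m2 : n D2 = 1
      · rcases x3 with e | e | e
        · exact TB m1 (Or.inl e)
        · exact TA m2 (Or.inl e)
        · exact TA m2 (Or.inr e)
      · rcases mul_eq_zero.1 y1 with e | e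
        · exact absurd (by linarith) m2
        · exact TB m1 ((mul_eq_zero.1 e).imp (cast1 _) (cast1 _))
    · rcases mul_eq_zero.1 y2 with e | e
      · exact absurd (by linarith) m1
      · exact TA (o.resolve_left m1) ((mul_eq_zero.1 e).imp (cast1 _) (cast1 _))

theorem all_P (M : Tg X) (m : ℕ) : M.P m := by
  induction m using Nat.strong_induction_on with
  | _ m ih =>
    intro Y D hY g hg
    obtain ⟨h, Z, E, rfl, rfl, hc⟩ := hY.core
    apply Res.act
    rw [CC_act, ← dat_append] at hg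
    rcases hc with ⟨rfl, rfl, rfl⟩ | ⟨m1, m2, Y1, Y2, D1, D2, rfl, h1, h2, rfl, rfl⟩
    · exact res_zero _ hg
    · exact res_add (ih m1 (by omega)) (ih m2 (by omega)) h1 h2 _ hg

/-- An arborescent tangle whose numerator closure has determinant one and vanishing
second-order term closes up trivially. -/
theorem Arb.triv {m Y D} (h : M.Arb m Y D) (h1 : D.aa = 1) (h2 : cl D = 0) : M.triv Y := by
  have e : CC D (dat []) = (D.aa, cl D) := by
    rw [CC_comm]; simp only [CC, dat, act_nil, Perm.one_apply, zero_add']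
  have := (all_P M m Y D h [] (by rw [e]; exact h1)).triv (by rw [e]; exact h2)
  rwa [rat, act_nil, Perm.one_apply, M.add_u] at this

end Tg

end Pool.Agent.Lib.MP_7bc610_gt
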