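import Pool.Agent.Lib.MP_7bc610_gt.Check
import Pool.Agent.Lib.MP_7bc610_gt.Induct

/-!
Isotopy classes of four-ended tangle diagrams form an abstract tangle algebra.
-/

namespace Pool.Agent.Lib.MP_7bc610_gt

open Equiv

def twS : Setoid {w : Word // Valid 0 w 4} :=
  ⟨fun a b => Isotopic 0 4 a.1 b.1, ⟨fun _ => Isotopic.refl _, Isotopic.symm, Isotopic.trans⟩⟩

def TX : Type := Quotient twS

def mkX (w : Word) (h : Valid 0 w 4) : TX := Quotient.mk twS ⟨w, h⟩

theorem mkX_eq {u v : Word} {hu : Valid 0 u 4} {hv : Valid 0 v 4} (h : Isotopic 0 4 u v) :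
    mkX u hu = mkX v hv := Quotient.sound h

theorem mkX_exact {u v : Word} {hu : Valid 0 u 4} {hv : Valid 0 v 4} (h : mkX u hu = mkX v hv) :
    Isotopic 0 4 u v := Quotient.exact h

theorem TX.ind {P : TX → Prop} (h : ∀ w hw, P (mkX w hw)) (x : TX) : P x :=
  Quotient.ind (fun w => h w.1 w.2) x

theorem Isotopic.right {n m b : ℕ} {u v s : Word} (h : Isotopic n m u v) (hs : Valid m s b) :
    Isotopic n b (u ++ s) (v ++ s) := by
  simpa using h.ctx (p := []) (a := n) rfl hs

theorem valid_cr (e : Bool) (i : Fin 3) : Valid 4 [(.cr e, i.val)] 4 := by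
  have := i.2
  exact ⟨by simp only [Kind.inp]; omega, rfl⟩

theorem valid_app {w : Word} (h : Valid 0 w 4) (e : Bool) (i : Fin 3) :
    Valid 0 (w ++ [(.cr e, i.val)]) 4 := valid_append.2 ⟨_, h, valid_cr e i⟩

def appX (e : Bool) (i : Fin 3) : TX → TX :=
  Quotient.map (fun w => ⟨w.1 ++ [(Kind.cr e, i.val)], valid_app w.2 e i⟩)
    fun _ _ h => Isotopic.right h (valid_cr e i)

theorem appX_appX (e : Bool) (i : Fin 3) (x : TX) : appX (!e) i (appX e i x) = x := by
  induction x using TX.ind with
  | h w hw =>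
    refine mkX_eq (hu := valid_app (valid_app hw e i) (!e) i) ?_
    have := (Rw.move (.r2 e i)).left w 0 4
      (by simpa using valid_app (valid_app hw e i) (!e) i)
    simpa using this

def sX (i : Fin 3) : Perm TX := ⟨appX true i, appX false i, appX_appX true i, appX_appX false i⟩

theorem sX_mk (i : Fin 3) (w : Word) (h : Valid 0 w 4) :
    sX i (mkX w h) = mkX (w ++ [(.cr true, i.val)]) (valid_app h _ i) := rfl

theorem sX_inv_mk (i : Fin 3) (w : Word) (h : Valid 0 w 4) :
    (sX i)⁻¹ (mkX w h) = mkX (w ++ [(.cr false, i.val)]) (valid_app h _ i) := rfl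

theorem valid_caps : Valid 8 [(.cap, 3), (.cap, 2)] 4 := by simp [Valid, Kind.inp, Kind.out]

theorem valid_add {u v : Word} (hu : Valid 0 u 4) (hv : Valid 0 v 4) :
    Valid 0 (u ++ shift 4 v ++ [(.cap, 3), (.cap, 2)]) 4 :=
  valid_append.2 ⟨8, valid_append.2 ⟨4, hu, hv.shift 4 0⟩, valid_caps⟩

def addX : TX → TX → TX :=
  Quotient.map₂ (fun u v => ⟨u.1 ++ shift 4 v.1 ++ [(.cap, 3), (.cap, 2)], valid_add u.2 v.2⟩)
    fun a b h c d h' => by
      have h1 : Isotopic 0 4 a.1 b.1 := h
      have h2 : Isotopic 0 4 c.1 d.1 := h'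
      refine Isotopic.trans ?_ ((h2.shift 4 0).ctx b.2 valid_caps)
      exact (h1.right (c.2.shift 4 0)).right valid_caps

theorem addX_mk (u v : Word) (hu : Valid 0 u 4) (hv : Valid 0 v 4) :
    addX (mkX u hu) (mkX v hv) =
      mkX (u ++ shift 4 v ++ [(.cap, 3), (.cap, 2)]) (valid_add hu hv) := rfl

theorem valid_cup0 : Valid 0 [(.cup, 0)] 2 := by simp [Valid, Kind.inp, Kind.out]

theorem valid_cap (n i : ℕ) (h : i ≤ n) : Valid (n + 2) [(.cap, i)] n := by
  simp only [Valid, Kind.inp, Kind.out]; omega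

theorem valid_rot {u : Word} (hu : Valid 0 u 4) :
    Valid 0 ((.cup, 0) :: shift 1 u ++ [(.cap, 0)]) 4 :=
  valid_append.2 ⟨6, valid_append.2 ⟨2, valid_cup0, hu.shift 1 1⟩, valid_cap 4 0 (by omega)⟩

def rotX : TX → TX :=
  Quotient.map (fun u => ⟨(.cup, 0) :: shift 1 u.1 ++ [(.cap, 0)], valid_rot u.2⟩)
    fun a b h => by
      have h1 : Isotopic 0 4 a.1 b.1 := h
      exact (h1.shift 1 1).ctx valid_cup0 (valid_cap 4 0 (by omega))

theorem rotX_mk (u : Word) (hu : Valid 0 u 4) :
    rotX (mkX u hu) = mkX ((.cup, 0) :: shift 1 u ++ [(.cap, 0)]) (valid_rot hu) := rfl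

def trivX : TX → Prop :=
  Quotient.lift (fun u => Isotopic 0 2 (u.1 ++ [(.cap, 1)]) [(.cup, 0)]) fun a b h => by
    have h1 : Isotopic 0 4 a.1 b.1 := h
    have h2 := h1.right (valid_cap 2 1 (by omega))
    exact propext ⟨h2.symm.trans, h2.trans⟩

theorem trivX_mk (u : Word) (hu : Valid 0 u 4) :
    trivX (mkX u hu) ↔ Isotopic 0 2 (u ++ [(.cap, 1)]) [(.cup, 0)] := Iff.rfl

theorem valid_u : Valid 0 [(.cup, 0), (.cup, 1)] 4 := by simp [Valid, Kind.inp, Kind.out]

def uX : TX := mkX [(.cup, 0), (.cup, 1)] valid_u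

def bx3 (S R Q : Word) : ℕ → Word
  | 0 => S
  | 1 => R
  | _ => Q

theorem cert {n m : ℕ} {u v : AW} {c : List (ℕ × Mv × Bool)} (h : run n m u c = some v)
    {S R Q : Word} (hS : Valid 0 S 4) (hR : Valid 0 R 4) (hQ : Valid 0 Q 4) :
    Isotopic n m (interp (bx3 S R Q) u) (interp (bx3 S R Q) v) :=
  run_sound (fun j => match j with | 0 => hS | 1 => hR | _ + 2 => hQ) h

theorem rotX_pos (x : TX) : rotX x = sX 2 (sX 1 (sX 0 x)) := by
  induction x using TX.ind with
  | h w hw =>
    simp only [rotX_mk, sX_mk]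
    exact mkX_eq (by simpa [interp, AK.body, bx3] using cert c_rotP hw hw hw)

theorem rotX_neg (x : TX) : rotX x = (sX 2)⁻¹ ((sX 1)⁻¹ ((sX 0)⁻¹ x)) := by
  induction x using TX.ind with
  | h w hw =>
    simp only [rotX_mk, sX_inv_mk]
    exact mkX_eq (by simpa [interp, AK.body, bx3] using cert c_rotN hw hw hw)

theorem cX_eq (x : TX) : (sX 1 * (sX 0 * (sX 2)⁻¹) * (sX 1)⁻¹) x = rotX (rotX x) := by
  rw [rotX_neg, rotX_pos]
  induction x using TX.ind with
  | h w hw =>
    simp only [Perm.mul_apply, sX_mk, sX_inv_mk]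
    exact (mkX_eq (by simpa [interp, AK.body, bx3] using cert c_cw hw hw hw)).symm

theorem iso_move {n m : ℕ} {l r : Word} (h : Move l r) (p : Word) (hv : Valid n (p ++ l) m) :
    Isotopic n m (p ++ l) (p ++ r) := (Rw.move h).left p n m hv

/-- The algebra of isotopy classes of tangle diagrams. -/
def model : Tg TX where
  s1 := sX 0
  s2 := sX 1
  s3 := sX 2
  u := uX
  add := addX
  triv := trivX
  br12 := by
    ext1 x
    induction x using TX.ind with
    | h w hw =>
      simp only [Perm.mul_apply, sX_mk]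
      refine mkX_eq ?_
      have := iso_move (.r3 true 0) w
        (by simpa using valid_app (valid_app (valid_app hw true 0) true 1) true 0)
      simpa using this
  br23 := by
    ext1 x
    induction x using TX.ind with
    | h w hw =>
      simp only [Perm.mul_apply, sX_mk]
      refine mkX_eq ?_
      have := iso_move (.r3 true 1) w
        (by simpa using valid_app (valid_app (valid_app hw true 1) true 2) true 1)
      simpa using this.symm
  c13 := by
    ext1 x
    induction x using TX.ind with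
    | h w hw =>
      simp only [Perm.mul_apply, sX_mk]
      refine mkX_eq ?_
      have := iso_move (.comm (.cr true) (.cr true) 0 0) w
        (by simpa [Kind.out] using valid_app (valid_app hw true 0) true 2)
      simpa [Kind.out, Kind.inp] using this.symm
  u1 := mkX_eq (by simpa [interp, AK.body] using cert c_u1 valid_u valid_u valid_u)
  u2 := mkX_eq (iso_move (.r1Cup true 1) [(.cup, 0)] (valid_app valid_u true 1))
  u3 := mkX_eq (by simpa [interp, AK.body] using cert c_u3 valid_u valid_u valid_u)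
  add_u := TX.ind fun w hw =>
    mkX_eq (by simpa [interp, AK.body, bx3] using cert c_add_u hw hw hw)
  u_add := TX.ind fun w hw =>
    mkX_eq (by simpa [interp, AK.body, bx3] using cert c_u_add hw hw hw)
  a1 := TX.ind fun S hS => TX.ind fun R hR =>
    mkX_eq (by simpa [interp, AK.body, bx3] using cert c_a1 hS hR hR)
  a2 := TX.ind fun S hS => TX.ind fun R hR => by
    simp only [sX_mk, addX_mk, trivX_mk]
    have : Isotopic 0 2 (S ++ [(.cr true, 1)] ++ shift 4 R ++ [(.cap, 3), (.cap, 2)] ++
        [(.cap, 1)]) (S ++ shift 4 (R ++ [(.cr true, 1)]) ++ [(.cap, 3), (.cap, 2)] ++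
        [(.cap, 1)]) := by simpa [interp, AK.body, bx3] using cert c_a2 hS hR hR
    exact ⟨this.symm.trans, this.trans⟩
  a3 := TX.ind fun S hS => TX.ind fun R hR =>
    mkX_eq (by simpa [interp, AK.body, bx3] using cert c_a3 hS hR hR)
  a4 := TX.ind fun S hS => TX.ind fun R hR =>
    mkX_eq (by simpa [interp, AK.body, bx3] using cert c_a4 hS hR hR)
  assoc := TX.ind fun S hS => TX.ind fun R hR => TX.ind fun Q hQ =>
    mkX_eq (by simpa [interp, AK.body, bx3] using cert c_assoc hS hR hQ)
  ainf := TX.ind fun S hS h => by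
    simp only [uX, Perm.mul_apply, sX_mk, addX_mk, trivX_mk] at h ⊢
    have h1 := cert c_ainf hS hS hS
    have h2 := cert c_inf hS hS hS
    have h3 := h1.right (valid_cap 2 1 (by omega))
    have h4 := ((Rw.move (.zig 1)).left (S ++ [(.cap, 2)])) 0 2
      (by simpa [interp, AK.body, bx3] using h3.valid_iff.1 (by
        simpa [interp, AK.body, bx3] using h.valid_iff.2 valid_cup0))
    have h5 : Isotopic 0 2 (S ++ [(.cap, 2)]) [(.cup, 0)] := by
      simp [interp, AK.body, bx3] at h h3 h4
      exact h4.symm.trans (h3.symm.trans h)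
    have h6 := h5.right (s := [(.cup, 2)]) (b := 4) (by simp [Valid, Kind.inp, Kind.out])
    refine mkX_eq ?_
    simp [interp, AK.body, bx3] at h1 h2 h6 ⊢
    exact h1.trans (h6.trans h2.symm)
  infa := TX.ind fun S hS h => by
    simp only [uX, Perm.mul_apply, sX_mk, addX_mk, trivX_mk] at h ⊢
    have h1 := cert c_infa hS hS hS
    have h2 := cert c_inf hS hS hS
    have h3 := h1.right (valid_cap 2 1 (by omega))
    have h4 := ((Rw.move (.zag 0)).left (S ++ [(.cap, 0)])) 0 2
      (by simpa [interp, AK.body, bx3] using h3.valid_iff.1 (by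
        simpa [interp, AK.body, bx3] using h.valid_iff.2 valid_cup0))
    have h5 : Isotopic 0 2 (S ++ [(.cap, 0)]) [(.cup, 0)] := by
      simp [interp, AK.body, bx3] at h h3 h4
      exact h4.symm.trans (h3.symm.trans h)
    have h6 := h5.right (s := [(.cup, 0)]) (b := 4) (by simp [Valid, Kind.inp, Kind.out])
    have h7 := Rw.move (.comm .cup .cup 0 0) 0 4 (by simp [Valid, Kind.inp, Kind.out])
    refine mkX_eq ?_
    simp [interp, AK.body, bx3, Kind.inp, Kind.out] at h1 h2 h6 h7 ⊢
    exact h1.trans (h6.trans (h7.symm.trans h2.symm))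
  cadd := fun S R => by
    simp only [cX_eq]
    induction S using TX.ind with
    | h S hS =>
      induction R using TX.ind with
      | h R hR =>
        simp only [rotX_mk, addX_mk]
        exact mkX_eq (by simpa [interp, AK.body, bx3] using cert c_rot2 hS hR hR)
  t2 := TX.ind fun S hS => by
    simp only [sX_mk, trivX_mk]
    have := iso_move (.r1Cap true 1) S (n := 0) (m := 2) (by
      simpa using valid_append.2 ⟨4, valid_app hS true 1, valid_cap 2 1 (by omega)⟩)
    have e : S ++ [(.cr true, ((1 : Fin 3) : ℕ))] ++ [(.cap, 1)] =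
        S ++ [(.cr true, 1), (.cap, 1)] := by simp
    rw [e]
    exact ⟨this.symm.trans, this.trans⟩
  tinf := by
    simp only [uX, Perm.mul_apply, sX_mk, trivX_mk]
    simpa [interp, AK.body] using cert c_tinf valid_u valid_u valid_u

theorem AT.valid (X : AT) : Valid 0 X.dia 4 := by
  induction X with
  | zero => exact valid_u
  | twist i e X ih => exact valid_app ih e i
  | add X Y ih ih' => exact valid_add ih ih'
  | rot X ih => exact valid_rot ih

/-- The data attached to an arborescent tangle. -/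
def AT.data : AT → Dt
  | .zero => Dt.zero
  | .twist i e X => gen Dt.tau Dt.sig (decide (i ≠ 1), e) X.data
  | .add X Y => Dt.add X.data Y.data
  | .rot X => Dt.rot X.data

theorem AT.arb (X : AT) : ∃ m, model.Arb m (mkX X.dia X.valid) X.data := by
  induction X with
  | zero => exact ⟨0, .zero⟩
  | twist i e X ih =>
    obtain ⟨m, h⟩ := ih
    refine ⟨m, ?_⟩
    fin_cases i <;> cases e
    · exact h.g1 (true, false)
    · exact h.g1 (true, true)
    · exact h.g3 (false, false)
    · exact h.g3 (false, true)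
    · exact h.g3 (true, false)
    · exact h.g3 (true, true)
  | add X Y ih ih' =>
    obtain ⟨m, h⟩ := ih
    obtain ⟨m', h'⟩ := ih'
    exact ⟨_, h.add h'⟩
  | rot X ih =>
    obtain ⟨m, h⟩ := ih
    refine ⟨m, ?_⟩
    have := ((h.g1 (true, true)).g3 (false, true)).g3 (true, true)
    have e1 := rotX_pos (mkX X.dia X.valid)
    have e2 := Dt.rho_apply X.data
    simp only [gen, model] at this
    rw [← e1] at this
    simp only [Perm.mul_apply] at e2
    rw [e2] at this
    exact this

theorem AT.unknot (X : AT) (h1 : X.data.aa = 1) (h2 : X.data.cl = 0) :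
    Isotopic 0 0 X.closure [(.cup, 0), (.cap, 0)] := by
  obtain ⟨m, h⟩ := X.arb
  have h3 : Isotopic 0 2 (X.dia ++ [(.cap, 1)]) [(.cup, 0)] := h.triv h1 h2
  simpa [AT.closure] using h3.right (valid_cap 0 0 le_rfl)

end Pool.Agent.Lib.MP_7bc610_gt
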