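import Pool.Agent.Lib.MP_7bc610_gt.Bracket
import Pool.Agent.Lib.MP_7bc610_gt.Model

/-!
Second-order jets of the bracket at a primitive eighth root of unity.
-/

namespace Pool.Agent.Lib.MP_7bc610_gt

open LaurentPolynomial Complex

/-- Complex polynomials in `h` modulo `h^3`. -/
@[ext] structure J where
  c0 : ℂ
  c1 : ℂ
  c2 : ℂ

namespace J

noncomputable instance : Add J := ⟨fun a b => ⟨a.c0 + b.c0, a.c1 + b.c1, a.c2 + b.c2⟩⟩
noncomputable instance : Mul J := ⟨fun a b =>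
  ⟨a.c0 * b.c0, a.c0 * b.c1 + a.c1 * b.c0, a.c0 * b.c2 + a.c1 * b.c1 + a.c2 * b.c0⟩⟩
noncomputable instance : Neg J := ⟨fun a => ⟨-a.c0, -a.c1, -a.c2⟩⟩
noncomputable instance : Zero J := ⟨⟨0, 0, 0⟩⟩
noncomputable instance : One J := ⟨⟨1, 0, 0⟩⟩

theorem add_def (a b : J) : a + b = ⟨a.c0 + b.c0, a.c1 + b.c1, a.c2 + b.c2⟩ := rfl
theorem mul_def (a b : J) : a * b =
  ⟨a.c0 * b.c0, a.c0 * b.c1 + a.c1 * b.c0, a.c0 * b.c2 + a.c1 * b.c1 + a.c2 * b.c0⟩ := rfl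
theorem neg_def (a : J) : -a = ⟨-a.c0, -a.c1, -a.c2⟩ := rfl
theorem zero_def : (0 : J) = ⟨0, 0, 0⟩ := rfl
theorem one_def : (1 : J) = ⟨1, 0, 0⟩ := rfl

noncomputable instance : CommRing J := CommRing.ofMinimalAxioms
  (fun a b c => by ext <;> simp only [add_def] <;> ring)
  (fun a => by ext <;> simp only [add_def, zero_def] <;> ring)
  (fun a => by ext <;> simp only [add_def, zero_def, neg_def] <;> ring)
  (fun a b c => by ext <;> simp only [mul_def] <;> ring)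
  (fun a b => by ext <;> simp only [mul_def] <;> ring)
  (fun a => by ext <;> simp only [mul_def, one_def] <;> ring)
  (fun a b c => by ext <;> simp only [mul_def, add_def] <;> ring)

/-- Units whose logarithm has no second-order term. -/
def Gl (u : J) : Prop := u.c0 ^ 8 = 1 ∧ 2 * u.c0 * u.c2 = u.c1 ^ 2

theorem Gl.mul {u v : J} (h : Gl u) (h' : Gl v) : Gl (u * v) := by
  simp only [Gl, mul_def]
  exact ⟨by rw [mul_pow, h.1, h'.1, mul_one],
    by linear_combination v.c0 ^ 2 * h.2 + u.c0 ^ 2 * h'.2⟩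

theorem Gl.cancel {u v : J} (h : Gl u) (h' : Gl (u * v)) : Gl v := by
  simp only [Gl, mul_def] at h'
  obtain ⟨h1, h2⟩ := h'
  rw [mul_pow, h.1, one_mul] at h1
  refine ⟨h1, ?_⟩
  have : u.c0 ^ 2 * (2 * v.c0 * v.c2 - v.c1 ^ 2) = 0 := by
    linear_combination h2 - v.c0 ^ 2 * h.2
  linear_combination u.c0 ^ 6 * this - (2 * v.c0 * v.c2 - v.c1 ^ 2) * h.1

theorem Gl.one : Gl 1 := by simp [Gl, one_def]

theorem Gl.neg {u : J} (h : Gl u) : Gl (-u) := by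
  simp only [Gl, neg_def]
  exact ⟨by rw [← h.1]; ring, by linear_combination h.2⟩

noncomputable def iJ : J := ⟨I, 0, 0⟩
noncomputable def hJ : J := ⟨0, 1, 0⟩
noncomputable def zJ : J := ⟨1, 1 / 2, 1 / 8⟩
noncomputable def yJ : J := ⟨1, -1 / 2, 1 / 8⟩

theorem Gl.i : Gl iJ := by
  simp only [Gl, iJ]
  refine ⟨?_, by ring⟩
  rw [show (8 : ℕ) = 4 * 2 from rfl, pow_mul, I_pow_four, one_pow]

theorem i_sq : iJ * iJ = -1 := by
  ext <;> simp [mul_def, iJ, neg_def, one_def]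

noncomputable def unitA (z : ℂ) (hz : z ^ 2 = I) : Jˣ where
  val := ⟨z, -z / 4, z / 32⟩
  inv := ⟨-I * z, -I * z / 4, -I * z / 32⟩
  val_inv := by
    ext <;> simp only [mul_def, one_def]
    · linear_combination (-I) * hz - I_sq
    · ring
    · ring
  inv_val := by
    ext <;> simp only [mul_def, one_def]
    · linear_combination (-I) * hz - I_sq
    · ring
    · ring

end J

open J

section

variable {z : ℂ} (hz : z ^ 2 = I)

noncomputable def phi : ℤ[T;T⁻¹] →+* J := LaurentPolynomial.eval₂ (Int.castRingHom J) (unitA z hz)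

theorem phi_pos : phi hz (T 1) = ⟨z, -z / 4, z / 32⟩ := by
  rw [phi, eval₂_T, zpow_one]; rfl

theorem phi_neg : phi hz (T (-1)) = ⟨-I * z, -I * z / 4, -I * z / 32⟩ := by
  rw [phi, eval₂_T, zpow_neg_one]; rfl

theorem gl_pos : Gl (phi hz (T 1)) := by
  rw [phi_pos]
  refine ⟨?_, by simp only; ring⟩
  show z ^ 8 = 1
  rw [show (8 : ℕ) = 2 * 4 from rfl, pow_mul, hz, I_pow_four]

theorem phi_mul : phi hz (T 1) * phi hz (T (-1)) = 1 := by
  rw [← map_mul, ← T_add]; simp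

theorem gl_neg : Gl (phi hz (T (-1))) := (gl_pos hz).cancel (by rw [phi_mul]; exact Gl.one)

theorem gl_T (k : ℤ) : Gl (phi hz (T k)) := by
  induction k using Int.induction_on with
  | zero => simpa using Gl.one
  | succ k ih => rw [T_add, map_mul]; exact ih.mul (gl_pos hz)
  | pred k ih => rw [sub_eq_add_neg, T_add, map_mul]; exact ih.mul (gl_neg hz)

theorem phi_z : zJ = iJ * phi hz (T (-1)) * phi hz (T (-1)) := by
  rw [phi_neg]
  ext <;> simp only [mul_def, iJ, zJ]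
  · linear_combination (-I ^ 3) * hz - (I ^ 2 - 1) * I_sq
  · linear_combination (-I ^ 3 / 2) * hz - (I ^ 2 - 1) / 2 * I_sq
  · linear_combination (-I ^ 3 / 8) * hz - (I ^ 2 - 1) / 8 * I_sq

theorem phi_y : yJ = -iJ * phi hz (T 1) * phi hz (T 1) := by
  rw [phi_pos]
  ext <;> simp only [mul_def, iJ, yJ, neg_def]
  · linear_combination I * hz + I_sq
  · linear_combination (-I / 2) * hz - 1 / 2 * I_sq
  · linear_combination (I / 8) * hz + 1 / 8 * I_sq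

theorem phi_loop : phi hz loopVal =
    -(phi hz (T 1) * phi hz (T 1)) - phi hz (T (-1)) * phi hz (T (-1)) := by
  rw [← map_mul, ← map_mul, ← T_add, ← T_add, loopVal, map_sub, map_neg]; rfl

theorem phi_loop' : phi hz loopVal = iJ * hJ := by
  have : hJ = zJ - yJ := by
    rw [sub_eq_add_neg]; ext <;> simp [add_def, neg_def, hJ, zJ, yJ]; ring
  rw [this, phi_loop, phi_z hz, phi_y hz]
  linear_combination (-(phi hz (T 1) * phi hz (T 1)) - phi hz (T (-1)) * phi hz (T (-1))) * i_sq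

/-- The data computed from the jets of the two coefficients. -/
def ofJets (p0 p1 p2 q0 q1 q2 : ℚ) : Dt :=
  ⟨p0 ^ 2, q0 * p0, q0 ^ 2, q1 * p0 - q0 * p1, 2 * p0 * p2 - p1 ^ 2,
    q2 * p0 - q1 * p1 + q0 * p2, 2 * q0 * q2 - q1 ^ 2⟩

theorem jets (X : AT) : ∃ (u : J) (p0 p1 p2 q0 q1 q2 : ℚ), Gl u ∧
    phi hz X.pq.1 = u * ⟨p0, p1, p2⟩ ∧ phi hz X.pq.2 = -iJ * u * ⟨q0, q1, q2⟩ ∧
    X.data = ofJets p0 p1 p2 q0 q1 q2 := by
  have hA := phi_mul hz
  have hi := i_sq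
  induction X with
  | zero =>
    refine ⟨1, 1, 0, 0, 0, 0, 0, Gl.one, ?_, ?_, ?_⟩
    · simp [AT.pq, ← one_def]
    · simp [AT.pq, ← zero_def]
    · simp [AT.data, ofJets, Dt.zero]
  | twist j e X ih =>
    obtain ⟨u, p0, p1, p2, q0, q1, q2, hu, hp, hq, hd⟩ := ih
    by_cases h : j = 1 <;> cases e <;>
      simp only [AT.pq, AT.data, h, if_true, if_false, Bool.false_eq_true, map_add, map_mul, hp,
        hq, hd, phi_loop, ne_eq, not_true_eq_false, not_false_eq_true, decide_true, decide_false,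
        gen]
    · refine ⟨phi hz (T (-1)) * u, p0 + q0, p1 - p0 + q1 - q0 / 2,
        p2 - p1 + p0 / 2 + q2 - q1 / 2 + q0 / 8, q0, q1, q2, (gl_neg hz).mul hu, ?_, by ring, ?_⟩
      · have : (⟨(p0 + q0 : ℚ), (p1 - p0 + q1 - q0 / 2 : ℚ),
            (p2 - p1 + p0 / 2 + q2 - q1 / 2 + q0 / 8 : ℚ)⟩ : J) =
            yJ * yJ * ⟨p0, p1, p2⟩ + yJ * ⟨q0, q1, q2⟩ := by
          ext <;> simp only [add_def, mul_def, yJ] <;> push_cast <;> ring
        rw [this, phi_y hz]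
        grind
      · ext <;> simp only [Dt.sig_inv, ofJets] <;> ring
    · refine ⟨phi hz (T 1) * u, p0 - q0, p1 + p0 - q1 - q0 / 2,
        p2 + p1 + p0 / 2 - q2 - q1 / 2 - q0 / 8, q0, q1, q2, (gl_pos hz).mul hu, ?_, by ring, ?_⟩
      · have : (⟨(p0 - q0 : ℚ), (p1 + p0 - q1 - q0 / 2 : ℚ),
            (p2 + p1 + p0 / 2 - q2 - q1 / 2 - q0 / 8 : ℚ)⟩ : J) =
            zJ * zJ * ⟨p0, p1, p2⟩ + -(zJ * ⟨q0, q1, q2⟩) := by
          ext <;> simp only [add_def, mul_def, neg_def, zJ] <;> push_cast <;> ring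
        rw [this, phi_z hz]
        grind
      · ext <;> simp only [Dt.sig_apply, ofJets] <;> ring
    · refine ⟨phi hz (T (-1)) * u, p0, p1, p2, q0 - p0, q1 - q0 - p1 + p0 / 2,
        q2 - q1 + q0 / 2 - p2 + p1 / 2 - p0 / 8, (gl_neg hz).mul hu, by ring, ?_, ?_⟩
      · have : (⟨(q0 - p0 : ℚ), (q1 - q0 - p1 + p0 / 2 : ℚ),
            (q2 - q1 + q0 / 2 - p2 + p1 / 2 - p0 / 8 : ℚ)⟩ : J) =
            yJ * yJ * ⟨q0, q1, q2⟩ + -(yJ * ⟨p0, p1, p2⟩) := by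
          ext <;> simp only [add_def, mul_def, neg_def, yJ] <;> push_cast <;> ring
        rw [this, phi_y hz]
        grind
      · ext <;> simp only [Dt.tau_inv, ofJets] <;> ring
    · refine ⟨phi hz (T 1) * u, p0, p1, p2, q0 + p0, q1 + q0 + p1 + p0 / 2,
        q2 + q1 + q0 / 2 + p2 + p1 / 2 + p0 / 8, (gl_pos hz).mul hu, by ring, ?_, ?_⟩
      · have : (⟨(q0 + p0 : ℚ), (q1 + q0 + p1 + p0 / 2 : ℚ),
            (q2 + q1 + q0 / 2 + p2 + p1 / 2 + p0 / 8 : ℚ)⟩ : J) =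
            zJ * zJ * ⟨q0, q1, q2⟩ + zJ * ⟨p0, p1, p2⟩ := by
          ext <;> simp only [add_def, mul_def, zJ] <;> push_cast <;> ring
        rw [this, phi_z hz]
        grind
      · ext <;> simp only [Dt.tau_apply, ofJets] <;> ring
  | add X Y ih ih' =>
    obtain ⟨u, p0, p1, p2, q0, q1, q2, hu, hp, hq, hd⟩ := ih
    obtain ⟨v, r0, r1, r2, s0, s1, s2, hv, hr, hs, he⟩ := ih'
    simp only [AT.pq, AT.data, map_add, map_mul, hp, hq, hd, hr, hs, he, phi_loop']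
    refine ⟨u * v, p0 * r0, p0 * r1 + p1 * r0, p0 * r2 + p1 * r1 + p2 * r0,
      p0 * s0 + q0 * r0, p0 * s1 + p1 * s0 + q0 * r1 + q1 * r0 + q0 * s0,
      p0 * s2 + p1 * s1 + p2 * s0 + q0 * r2 + q1 * r1 + q2 * r0 + q0 * s1 + q1 * s0,
      hu.mul hv, ?_, ?_, ?_⟩
    · have : (⟨(p0 * r0 : ℚ), (p0 * r1 + p1 * r0 : ℚ), (p0 * r2 + p1 * r1 + p2 * r0 : ℚ)⟩ : J) =
          ⟨p0, p1, p2⟩ * ⟨r0, r1, r2⟩ := by
        ext <;> simp only [mul_def] <;> push_cast <;> ring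
      rw [this]; ring
    · have : (⟨(p0 * s0 + q0 * r0 : ℚ), (p0 * s1 + p1 * s0 + q0 * r1 + q1 * r0 + q0 * s0 : ℚ),
          (p0 * s2 + p1 * s1 + p2 * s0 + q0 * r2 + q1 * r1 + q2 * r0 + q0 * s1 + q1 * s0 : ℚ)⟩ :
            J) = ⟨p0, p1, p2⟩ * ⟨s0, s1, s2⟩ + ⟨q0, q1, q2⟩ * ⟨r0, r1, r2⟩ +
          hJ * ⟨q0, q1, q2⟩ * ⟨s0, s1, s2⟩ := by
        ext <;> simp only [mul_def, add_def, hJ] <;> push_cast <;> ring
      rw [this]
      grind
    · ext <;> simp only [Dt.add, ofJets] <;> ring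
  | rot X ih =>
    obtain ⟨u, p0, p1, p2, q0, q1, q2, hu, hp, hq, hd⟩ := ih
    simp only [AT.pq, AT.data, hp, hq, hd]
    refine ⟨-iJ * u, q0, q1, q2, -p0, -p1, -p2, Gl.i.neg.mul hu, rfl, ?_, ?_⟩
    · have : (⟨(-p0 : ℚ), (-p1 : ℚ), (-p2 : ℚ)⟩ : J) = -⟨p0, p1, p2⟩ := by
        ext <;> simp only [neg_def] <;> push_cast <;> ring
      rw [this]
      grind
    · ext <;> simp only [Dt.rot, ofJets] <;> ring

end

theorem data_of_bracket (X : AT) (k : ℤ)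
    (h : stateSum X.closure = loopVal * T k ∨ stateSum X.closure = -(loopVal * T k)) :
    X.data.aa = 1 ∧ X.data.cl = 0 := by
  obtain ⟨z, hz⟩ : ∃ z : ℂ, z ^ 2 = I := IsAlgClosed.exists_pow_nat_eq I two_pos
  have hd : loopVal ≠ 0 := fun h0 => by
    have := congrArg J.c1 (phi_loop' hz)
    rw [h0, map_zero] at this
    simp [zero_def, mul_def, iJ, hJ] at this
    exact I_ne_zero this.symm
  rw [stateSum_closure, ← mul_neg, mul_right_inj' hd, mul_right_inj' hd] at h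
  have hg : Gl (phi hz (loopVal * X.pq.1 + X.pq.2)) := by
    rcases h with h | h <;> rw [h]
    · exact gl_T hz k
    · rw [map_neg]; exact (gl_T hz k).neg
  obtain ⟨u, p0, p1, p2, q0, q1, q2, hu, hp, hq, he⟩ := jets hz X
  have e : phi hz (loopVal * X.pq.1 + X.pq.2) =
      -iJ * u * ⟨(q0 : ℚ), (q1 - p0 : ℚ), (q2 - p1 : ℚ)⟩ := by
    have : (⟨(q0 : ℚ), (q1 - p0 : ℚ), (q2 - p1 : ℚ)⟩ : J) =
        ⟨q0, q1, q2⟩ + -(hJ * ⟨p0, p1, p2⟩) := by
      ext <;> simp only [mul_def, add_def, neg_def, hJ] <;> push_cast <;> ring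
    rw [this, map_add, map_mul, phi_loop', hp, hq]; ring
  rw [e] at hg
  obtain ⟨g1, g2⟩ := (Gl.i.neg.mul hu).cancel hg
  simp only at g1 g2
  have g1' : q0 ^ 8 = 1 := by exact_mod_cast g1
  have g2' : 2 * q0 * (q2 - p1) = (q1 - p0) ^ 2 := by exact_mod_cast g2
  rw [he]
  constructor
  · show q0 ^ 2 = 1
    have : (q0 ^ 2) ^ 4 = 1 := by rw [← g1']; ring
    exact (pow_eq_one_iff_of_nonneg (sq_nonneg q0) (by norm_num)).1 this
  · simp only [Dt.cl, ofJets]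
    linear_combination g2'

end Pool.Agent.Lib.MP_7bc610_gt
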