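import Pool.Agent.Lib.MP_7bc610_gt.H9Defs
import Pool.Agent.Lib.MP_7bc610_gt.Jets

/-!
Internal definitions: templates, loop counts, event lists, state sums.
-/

namespace Pool.Agent.Lib.MP_7bc610_gt

open LaurentPolynomial

/-! ### Templates -/

inductive TK where
  | cup : TK
  | cap : TK
  | box : ℕ → ℕ → TK
  deriving DecidableEq

abbrev Tm : Type := List (TK × ℕ)

def TK.inp : TK → ℕ
  | .cup => 0
  | .cap => 2
  | .box _ _ => 0

def TK.out : TK → ℕ
  | .cup => 2
  | .cap => 0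
  | .box _ _ => 4

def rotN : ℕ → AT → AT
  | 0, Y => Y
  | n + 1, Y => .rot (rotN n Y)

def TK.body (X : ℕ → AT) : TK → Word
  | .cup => [(.cup, 0)]
  | .cap => [(.cap, 0)]
  | .box j ρ => (rotN ρ (X j)).dia

def itp (X : ℕ → AT) : Tm → Word
  | [] => []
  | (k, i) :: T => shift i (k.body X) ++ itp X T

def TV : ℕ → Tm → ℕ → Prop
  | n, [], m => n = m
  | n, (k, i) :: T, m => i + k.inp ≤ n ∧ TV (n - k.inp + k.out) T m

def tshift (k : ℕ) (T : Tm) : Tm := T.map fun g => (g.1, g.2 + k)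

/-- The boxes of a template with the parity of position plus rotation number. -/
def bp : Tm → List (ℕ × ℕ)
  | [] => []
  | (.cup, _) :: T => bp T
  | (.cap, _) :: T => bp T
  | (.box j ρ, i) :: T => (j, (i + ρ) % 2) :: bp T

def tids (T : Tm) : List ℕ := (bp T).map Prod.fst

/-- Rewriting of templates, uniform in the filling. -/
def TR (T T' : Tm) : Prop := (∀ X, Rw (itp X T) (itp X T')) ∧ (bp T).Perm (bp T')

/-- Isotopy of valid templates, uniform in the filling. -/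
def TI (n m : ℕ) (T T' : Tm) : Prop :=
  TV n T m ∧ (∀ X, Isotopic n m (itp X T) (itp X T')) ∧ (bp T).Perm (bp T')

/-- A strand passing from position `a` to position `b` untouched; the pieces to its left and to
its right. -/
inductive Thru : ℕ → Tm → ℕ → Tm → Tm → Prop where
  | nil (a : ℕ) : Thru a [] a [] []
  | left {a i b : ℕ} {k : TK} {w L R : Tm} : i + k.inp ≤ a →
      Thru (a - k.inp + k.out) w b L R → Thru a ((k, i) :: w) b ((k, i) :: L) R
  | right {a i b : ℕ} {k : TK} {w L R : Tm} :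
      Thru a w b L R → Thru a ((k, i + (a + 1)) :: w) b L ((k, i) :: R)

/-- Where the strand starting at position `m` ends. -/
inductive Out (n m : ℕ) (R : Tm) : Prop where
  | box (f ρ : ℕ) (R' : Tm) : TI n 0 R ((.box f ρ, m + 1) :: (.cap, m) :: R') → Out n m R
  | rgt (k : ℕ) (M R' : Tm) : TV k M 0 → M.length + 1 + R'.length ≤ R.length →
      TI n 0 R (tshift (m + 1) M ++ (.cap, m) :: R') → Out n m R
  | lft (a k : ℕ) (M R' : Tm) : m = a + 1 + k → TV k M 0 → M.length + 1 + R'.length ≤ R.length →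
      TI n 0 R (tshift (a + 1) M ++ (.cap, a) :: R') → Out n m R

/-! ### Loop counts -/

open Classical in
noncomputable def loops : Word → (ℕ → ℕ → Prop) → ℕ
  | [], _ => 0
  | (.cup, i) :: w, r => loops w (cupR i r)
  | (.cap, i) :: w, r => (if r i (i + 1) then 1 else 0) + loops w (capR i r)
  | (.cr _, _) :: w, r => loops w r

/-- The relation at the top of a crossingless word. -/
def after : Word → (ℕ → ℕ → Prop) → ℕ → ℕ → Prop
  | [], r => r
  | (.cup, i) :: w, r => after w (cupR i r)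
  | (.cap, i) :: w, r => after w (capR i r)
  | (.cr _, _) :: w, r => after w r

def NoCr (w : Word) : Prop := ∀ e i, (Kind.cr e, i) ∉ w

/-- The state of a template: the boxes with number in `A` get the zero smoothing. -/
def tl (A : Finset ℕ) : Tm → Word
  | [] => []
  | (.cup, i) :: T => (.cup, i) :: tl A T
  | (.cap, i) :: T => (.cap, i) :: tl A T
  | (.box j ρ, i) :: T =>
      (.cup, i) :: (.cup, if (j ∈ A ↔ ρ % 2 = 0) then i + 1 else i + 2) :: tl A T

def sm (A : Finset ℕ) (j : ℕ) : AT := if j ∈ A then .zero else .rot .zero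

def IsSU (c : ℤ[T;T⁻¹]) : Prop := ∃ k : ℤ, c = T k ∨ c = -T k

/-- Perfect matchings of the first `n` positions. -/
def PM (n : ℕ) (r : ℕ → ℕ → Prop) : Prop :=
  Equivalence r ∧ ∀ a < n, ∃ b < n, b ≠ a ∧ r a b ∧ ∀ c, r a c → c = a ∨ c = b

def nrelR : ℕ → ℕ → ℕ → Prop
  | 0 => cupR 0 Eq
  | r + 1 => cupR 1 (nrelR r)

/-- `l` adjacent pairs, then an arc enclosing `r` adjacent pairs. -/
def nrel : ℕ → ℕ → ℕ → ℕ → Prop
  | 0, r => nrelR r
  | l + 1, r => cupR 0 (nrel l r)

/-! ### Colourings -/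

def insC (i : ℕ) (x : ZMod 2) (c : ℕ → ZMod 2) (a : ℕ) : ZMod 2 :=
  if a < i then c a else if a < i + 2 then x else c (a - 2)

def delC (i : ℕ) (c : ℕ → ZMod 2) (a : ℕ) : ZMod 2 := if a < i then c a else c (a + 2)

/-- The colouring `c` extends over the word and vanishes at the top. -/
def ExtZ : Word → (ℕ → ZMod 2) → Prop
  | [], c => c = 0
  | (.cup, i) :: w, c => ∃ x, ExtZ w (insC i x c)
  | (.cap, i) :: w, c => c i = c (i + 1) ∧ ExtZ w (delC i c)
  | (.cr _, _) :: w, c => ExtZ w c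

/-- The colouring `c` has a nonzero extension over the word that vanishes at the top. -/
def ExtN : Word → (ℕ → ZMod 2) → Prop
  | [], _ => False
  | (.cup, i) :: w, c => ∃ x, ExtN w (insC i x c)
  | (.cap, i) :: w, c => c i = c (i + 1) ∧ (ExtN w (delC i c) ∨ (c i ≠ 0 ∧ ExtZ w (delC i c)))
  | (.cr _, _) :: w, c => ExtN w c

/-! ### Event lists -/

/-- An endpoint of a chord: its side (`true` is left), whether it is the first endpoint, and the
number of the chord. -/
structure Ev where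
  side : Bool
  opn : Bool
  id : ℕ
  deriving DecidableEq

inductive Run : List ℕ → List ℕ → List Ev → List ℕ → List ℕ → Prop where
  | nil (ls rs : List ℕ) : Run ls rs [] ls rs
  | oL {ls rs ls' rs' : List ℕ} {E : List Ev} {j : ℕ} :
      Run (j :: ls) rs E ls' rs' → Run ls rs (⟨true, true, j⟩ :: E) ls' rs'
  | cL {ls rs ls' rs' : List ℕ} {E : List Ev} {j : ℕ} :
      Run ls rs E ls' rs' → Run (j :: ls) rs (⟨true, false, j⟩ :: E) ls' rs'
  | oR {ls rs ls' rs' : List ℕ} {E : List Ev} {j : ℕ} :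
      Run ls (j :: rs) E ls' rs' → Run ls rs (⟨false, true, j⟩ :: E) ls' rs'
  | cR {ls rs ls' rs' : List ℕ} {E : List Ev} {j : ℕ} :
      Run ls rs E ls' rs' → Run ls (j :: rs) (⟨false, false, j⟩ :: E) ls' rs'

def opens (E : List Ev) : List ℕ := (E.filter fun x => x.opn).map Ev.id

def WF (E : List Ev) : Prop := Run [] [] E [] [] ∧ (opens E).Nodup

def ids (E : List Ev) : Finset ℕ := (opens E).toFinset

def side (E : List Ev) (j : ℕ) : Bool := decide ((⟨true, true, j⟩ : Ev) ∈ E)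

/-- Interlaced chords. -/
def il (E : List Ev) (e f : ℕ) : Prop :=
  ∃ s t : Bool,
    List.Sublist [⟨s, true, e⟩, ⟨t, true, f⟩, ⟨s, false, e⟩, ⟨t, false, f⟩] E ∨
      List.Sublist [⟨t, true, f⟩, ⟨s, true, e⟩, ⟨t, false, f⟩, ⟨s, false, e⟩] E

def del (E : List Ev) (e : ℕ) : List Ev := E.filter fun x => x.id ≠ e

/-- The template of an event list; `l` is the number of open chords on the left. -/
def nfT (ρ : ℕ → ℕ) : ℕ → List Ev → Tm
  | _, [] => []
  | l, ⟨true, true, j⟩ :: E => (.box j (ρ j), 2 * l) :: (.cap, 2 * l + 3) :: nfT ρ (l + 1) E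
  | l, ⟨true, false, _⟩ :: E => (.cap, 2 * l - 1) :: nfT ρ (l - 1) E
  | l, ⟨false, true, j⟩ :: E => (.box j (ρ j), 2 * l + 1) :: (.cap, 2 * l) :: nfT ρ l E
  | l, ⟨false, false, _⟩ :: E => (.cap, 2 * l) :: nfT ρ l E

def nf (l : ℕ) (E : List Ev) : Tm := nfT (fun _ => 0) l E

/-- The closed diagram of an event list. -/
def NFw (E : List Ev) (X : ℕ → AT) : Word := itp X ((.cup, 0) :: nf 0 E ++ [(.cap, 0)])

def circ : Word := [(.cup, 0), (.cap, 0)]

noncomputable def lam (E : List Ev) (A : Finset ℕ) : ℕ := loops (tl A (nf 0 E)) (cupR 0 Eq)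

def mrg : Bool → AT → AT → AT
  | true, Y, F => .add F (.rot Y)
  | false, Y, F => .add (.rot (.rot (.rot Y))) F

open Classical in
/-- The interlace matrix of `A` has trivial kernel over the field with two elements. -/
def KT (r : ℕ → ℕ → Prop) (A : Finset ℕ) : Prop :=
  ∀ v : ℕ → ZMod 2, (∀ e ∈ A, ∑ f ∈ A.filter (r e), v f = 0) → ∀ e ∈ A, v e = 0

/-- Colours along the main strand; `a j`, `b j` are the colours of the two ends of chord `j`
that wait on the stack (the one entered first and the one left by). -/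
def Walk (A : Finset ℕ) (a b : ℕ → ZMod 2) : List Ev → ZMod 2 → Prop
  | [], m => m = 0
  | ⟨_, true, j⟩ :: E, m =>
      if j ∈ A then b j = m ∧ Walk A a b E (a j) else a j = b j ∧ Walk A a b E m
  | ⟨_, false, j⟩ :: E, m => m = a j ∧ Walk A a b E (b j)

/-- The colouring of a level with stacks `ls`, `rs` and main colour `m`. -/
def col (a b : ℕ → ZMod 2) (ls rs : List ℕ) (m : ZMod 2) (k : ℕ) : ZMod 2 :=
  ((ls.reverse.flatMap fun j => [b j, a j]) ++ m :: rs.flatMap fun j => [a j, b j]).getD k 0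

/-! ### State sums -/

def Zs {S : Type} [CommRing S] (d : S) (W U : ℕ → S) (I : Finset ℕ) (ℓ : Finset ℕ → ℕ) : S :=
  ∑ A ∈ I.powerset, (∏ j ∈ A, W j) * (∏ j ∈ I \ A, U j) * d ^ ℓ A

noncomputable def ZL (E : List Ev) (X : ℕ → AT) : ℤ[T;T⁻¹] :=
  Zs loopVal (fun j => (X j).pq.1) (fun j => (X j).pq.2) (ids E) (lam E)

theorem exists_z : ∃ z : ℂ, z ^ 2 = Complex.I := IsAlgClosed.exists_pow_nat_eq _ two_pos

noncomputable def ph : ℤ[T;T⁻¹] →+* J := phi exists_z.choose_spec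

structure JD where
  p0 : ℚ
  p1 : ℚ
  p2 : ℚ
  q0 : ℚ
  q1 : ℚ
  q2 : ℚ

noncomputable def JD.W (x : JD) : J := J.iJ * ⟨x.p0, x.p1, x.p2⟩
noncomputable def JD.U (x : JD) : J := ⟨x.q0, x.q1, x.q2⟩
def JD.dt (x : JD) : Dt := ofJets x.p0 x.p1 x.p2 x.q0 x.q1 x.q2

theorem exists_jd (X : AT) : ∃ x : JD, (∃ v : J, J.Gl v ∧ ph X.pq.1 = v * x.W ∧
    ph X.pq.2 = v * x.U) ∧ X.data = x.dt := by
  obtain ⟨u, p0, p1, p2, q0, q1, q2, hu, hp, hq, hd⟩ := jets exists_z.choose_spec X
  refine ⟨⟨p0, p1, p2, q0, q1, q2⟩, ⟨-J.iJ * u, J.Gl.i.neg.mul hu, ?_, hq⟩, hd⟩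
  rw [ph, hp, JD.W]
  linear_combination (u * (⟨p0, p1, p2⟩ : J)) * J.i_sq

noncomputable def AT.jd (X : AT) : JD := (exists_jd X).choose

noncomputable def dJ : J := J.iJ * J.hJ

noncomputable def Zj (X : ℕ → AT) (I : Finset ℕ) (ℓ : Finset ℕ → ℕ) : J :=
  Zs dJ (fun j => (X j).jd.W) (fun j => (X j).jd.U) I ℓ

noncomputable def ZJ (E : List Ev) (X : ℕ → AT) : J := Zj X (ids E) (lam E)

noncomputable def cc (F : J) : ℂ := 2 * F.c0 * F.c2 - F.c1 ^ 2

noncomputable def nuJ (F Y : J) : ℂ := 2 * (F.c0 * Y.c1 - F.c1 * Y.c0) + Y.c0 ^ 2 + 2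

noncomputable def nu (E : List Ev) (X : ℕ → AT) (f : ℕ) : ℂ :=
  nuJ (Zj X ((ids E).erase f) (lam E))
    (J.iJ * Zj X ((ids E).erase f) fun A => lam E (insert f A))

/-- The product of numerator and denominator. -/
def mm (X : ℕ → AT) (j : ℕ) : ℤ := (X j).frac.2 * (X j).frac.1

open Classical in
noncomputable def lamb (E : List Ev) (X : ℕ → AT) (f : ℕ) : ℤ :=
  -∑ e ∈ (ids E).filter (il E f), mm X e

open Classical in
noncomputable def kap (E : List Ev) (X : ℕ → AT) (f g : ℕ) : ℤ :=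
  (if il E f g then 1 else 0) + (∑ e ∈ (ids E).filter (fun e => il E f e ∧ il E g e), mm X e) ^ 2

structure Good (E : List Ev) (X : ℕ → AT) : Prop where
  wf : WF E
  unit : ∀ j ∈ ids E, (X j).frac.2 ^ 2 = 1
  gen : ∀ a b, (X a).frac.1 ≠ 0 → (X b).frac.1 ≠ 0 → ¬il E a b
  sign : ∀ a ∈ ids E, ∀ b ∈ ids E, side E a = side E b → 0 ≤ mm X a * mm X b

end Pool.Agent.Lib.MP_7bc610_gt
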