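import Pool.Agent.Lib.MP_7bc610_gt.H9Tm
import Pool.Agent.Lib.MP_7bc610_gt.EqFixRotN

/-!
Event lists and their templates.
-/

namespace Pool.Agent.Lib.MP_7bc610_gt

open LaurentPolynomial

variable {ls rs ls' rs' ls'' rs'' : List ℕ} {E E' : List Ev}

theorem Run.append (h : Run ls rs E ls' rs') (h' : Run ls' rs' E' ls'' rs'') :
    Run ls rs (E ++ E') ls'' rs'' := by
  induction h with
  | nil => exact h'
  | oL _ ih => exact .oL (ih h')
  | cL _ ih => exact .cL (ih h')
  | oR _ ih => exact .oR (ih h')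
  | cR _ ih => exact .cR (ih h')

theorem Run.split (h : Run ls rs (E ++ E') ls'' rs'') :
    ∃ ls' rs', Run ls rs E ls' rs' ∧ Run ls' rs' E' ls'' rs'' := by
  induction E generalizing ls rs with
  | nil => exact ⟨ls, rs, .nil _ _, h⟩
  | cons x E ih =>
    rw [List.cons_append] at h
    cases h with
    | oL h => obtain ⟨a, b, h1, h2⟩ := ih h; exact ⟨a, b, .oL h1, h2⟩
    | cL h => obtain ⟨a, b, h1, h2⟩ := ih h; exact ⟨a, b, .cL h1, h2⟩
    | oR h => obtain ⟨a, b, h1, h2⟩ := ih h; exact ⟨a, b, .oR h1, h2⟩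
    | cR h => obtain ⟨a, b, h1, h2⟩ := ih h; exact ⟨a, b, .cR h1, h2⟩

theorem Run.tv (h : Run ls rs E ls' rs') (ρ : ℕ → ℕ) (c : ℕ) :
    TV (2 * ls.length + 2 * rs.length + 1 + c) (nfT ρ ls.length E)
      (2 * ls'.length + 2 * rs'.length + 1 + c) := by
  induction h with
  | nil => simp only [nfT, TV]
  | oL _ ih =>
    simp only [nfT, TV, TK.inp, TK.out, List.length_cons] at ih ⊢
    refine ⟨by omega, by omega, ?_⟩
    convert ih using 1
    omega
  | cL _ ih =>
    simp only [nfT, TV, TK.inp, TK.out, List.length_cons, Nat.add_sub_cancel] at ih ⊢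
    refine ⟨by omega, ?_⟩
    convert ih using 1
    omega
  | oR _ ih =>
    simp only [nfT, TV, TK.inp, TK.out, List.length_cons] at ih ⊢
    refine ⟨by omega, by omega, ?_⟩
    convert ih using 1
    omega
  | cR _ ih =>
    simp only [nfT, TV, TK.inp, TK.out, List.length_cons] at ih ⊢
    refine ⟨by omega, ?_⟩
    convert ih using 1
    omega

theorem Run.nfT_append (h : Run ls rs E ls' rs') (ρ : ℕ → ℕ) (E' : List Ev) :
    nfT ρ ls.length (E ++ E') = nfT ρ ls.length E ++ nfT ρ ls'.length E' := by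
  induction h with
  | nil => rfl
  | oL _ ih =>
    simp only [List.length_cons] at ih
    simp only [nfT, List.cons_append, ih]
  | cL _ ih => simp only [nfT, List.cons_append, List.length_cons, Nat.add_sub_cancel, ih]
  | oR _ ih => simp only [nfT, List.cons_append, ih]
  | cR _ ih => simp only [nfT, List.cons_append, ih]

theorem Run.nfT_shift (h : Run ls rs E ls' rs') (ρ : ℕ → ℕ) (k : ℕ) :
    nfT ρ (ls.length + k) E = tshift (2 * k) (nfT ρ ls.length E) := by
  induction h with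
  | nil => rfl
  | @oL ls rs ls' rs' E j _ ih =>
    simp only [List.length_cons] at ih
    simp only [nfT, tshift_cons, ← ih]
    rw [show 2 * (ls.length + k) = 2 * ls.length + 2 * k by omega,
      show ls.length + k + 1 = ls.length + 1 + k by omega,
      show 2 * ls.length + 2 * k + 3 = 2 * ls.length + 3 + 2 * k by omega]
  | @cL ls rs ls' rs' E j _ ih =>
    simp only [nfT, tshift_cons, List.length_cons, Nat.add_sub_cancel, ← ih]
    rw [show 2 * (ls.length + 1 + k) - 1 = 2 * (ls.length + 1) - 1 + 2 * k by omega,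
      show ls.length + 1 + k - 1 = ls.length + k by omega]
  | @oR ls rs ls' rs' E j _ ih =>
    simp only [nfT, tshift_cons, ← ih]
    rw [show 2 * (ls.length + k) = 2 * ls.length + 2 * k by omega,
      show 2 * ls.length + 2 * k + 1 = 2 * ls.length + 1 + 2 * k by omega]
  | @cR ls rs ls' rs' E j _ ih =>
    simp only [nfT, tshift_cons, ← ih]
    rw [show 2 * (ls.length + k) = 2 * ls.length + 2 * k by omega]

theorem Run.extL (h : Run ls rs E ls' rs') (t : List ℕ) : Run (ls ++ t) rs E (ls' ++ t) rs' := by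
  induction h with
  | nil => exact .nil _ _
  | oL _ ih => exact .oL ih
  | cL _ ih => exact .cL ih
  | oR _ ih => exact .oR ih
  | cR _ ih => exact .cR ih

theorem Run.extR (h : Run ls rs E ls' rs') (t : List ℕ) : Run ls (rs ++ t) E ls' (rs' ++ t) := by
  induction h with
  | nil => exact .nil _ _
  | oL _ ih => exact .oL ih
  | cL _ ih => exact .cL ih
  | oR _ ih => exact .oR ih
  | cR _ ih => exact .cR ih

theorem opens_append (E E' : List Ev) : opens (E ++ E') = opens E ++ opens E' := by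
  simp [opens]

theorem mem_ids {j : ℕ} : j ∈ ids E ↔ ∃ s, (⟨s, true, j⟩ : Ev) ∈ E := by
  simp only [ids, opens, List.mem_toFinset, List.mem_map, List.mem_filter]
  constructor
  · rintro ⟨⟨s, o, i⟩, ⟨h1, h2⟩, h3⟩
    simp only at h2 h3
    subst h2 h3
    exact ⟨s, h1⟩
  · rintro ⟨s, h⟩
    exact ⟨_, ⟨h, rfl⟩, rfl⟩

theorem bp_nfT (ρ : ℕ → ℕ) (l : ℕ) (E : List Ev) : bp (nfT ρ l E) =
    (E.filter fun x => x.opn).map fun x => (x.id, ((if x.side then 0 else 1) + ρ x.id) % 2) := by
  induction E generalizing l with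
  | nil => rfl
  | cons x E ih =>
    rcases x with ⟨_ | _, _ | _, j⟩ <;> simp [nfT, bp, ih] <;> omega

theorem tids_nfT (ρ : ℕ → ℕ) (l : ℕ) (E : List Ev) : tids (nfT ρ l E) = opens E := by
  simp [tids, bp_nfT, opens, Function.comp_def]

theorem nfT_congr {ρ ρ' : ℕ → ℕ} (h : ∀ j ∈ opens E, ρ j = ρ' j) (l : ℕ) :
    nfT ρ l E = nfT ρ' l E := by
  induction E generalizing l with
  | nil => rfl
  | cons x E ih =>
    have h' : ∀ j ∈ opens E, ρ j = ρ' j := fun j hj =>
      h j (by rw [← List.singleton_append, opens_append]; exact List.mem_append_right _ hj)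
    rcases x with ⟨_ | _, _ | _, j⟩
    · simp only [nfT, ih h']
    · simp only [nfT, ih h', h j (by simp [opens])]
    · simp only [nfT, ih h']
    · simp only [nfT, ih h', h j (by simp [opens])]

theorem itp_nfT (X : ℕ → AT) (ρ : ℕ → ℕ) (l : ℕ) (E : List Ev) :
    itp X (nfT ρ l E) = itp (fun j => rotN (ρ j) (X j)) (nf l E) := by
  unfold nf
  induction E generalizing l with
  | nil => rfl
  | cons x E ih =>
    rcases x with ⟨_ | _, _ | _, j⟩ <;> simp only [nfT, itp, TK.body, rotN, ih]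

theorem WF.tv (h : WF E) (ρ : ℕ → ℕ) : TV 0 ((.cup, 0) :: nfT ρ 0 E ++ [(.cap, 0)]) 0 := by
  have := h.1.tv ρ 1
  refine tv_append.2 ⟨2, ⟨by simp [TK.inp], ?_⟩, ?_⟩
  · simpa [TK.inp, TK.out] using this
  · simp [TV, TK.inp, TK.out]

theorem WF.valid (h : WF E) (X : ℕ → AT) : Valid 0 (NFw E X) 0 := by
  exact (h.tv fun _ => 0).valid X

theorem NFw_congr {X X' : ℕ → AT} (h : ∀ j ∈ ids E, X j = X' j) : NFw E X = NFw E X' := by
  refine itp_congr fun j hj => h j ?_
  rw [tids_append] at hj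
  have e : tids ((TK.cup, 0) :: nf 0 E) = opens E := tids_nfT _ 0 E
  rw [e] at hj
  simpa [ids, tids, bp] using hj

theorem ids_del (E : List Ev) (e : ℕ) : ids (del E e) = (ids E).erase e := by
  ext j
  simp only [mem_ids, Finset.mem_erase, del, List.mem_filter, ne_eq, decide_eq_true_eq]
  exact ⟨fun ⟨s, h1, h2⟩ => ⟨h2, s, h1⟩, fun ⟨h2, s, h1⟩ => ⟨s, h1, h2⟩⟩

theorem side_del (E : List Ev) {e j : ℕ} (h : j ≠ e) : side (del E e) j = side E j := by
  simp [side, del, List.mem_filter, h]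

theorem il_del {e a b : ℕ} : il (del E e) a b ↔ a ≠ e ∧ b ≠ e ∧ il E a b := by
  have key : ∀ L : List Ev, L.Sublist (del E e) ↔ (∀ x ∈ L, x.id ≠ e) ∧ L.Sublist E := by
    intro L
    constructor
    · intro h
      exact ⟨fun x hx => by simpa using (List.mem_filter.1 (h.subset hx)).2,
        h.trans List.filter_sublist⟩
    · rintro ⟨h1, h2⟩
      have h3 := h2.filter fun x => x.id ≠ e
      rwa [List.filter_eq_self.2 fun x hx => by simpa using h1 x hx] at h3
  simp only [il, key, List.mem_cons, List.not_mem_nil, or_false, forall_eq_or_imp, forall_eq]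
  constructor
  · rintro ⟨s, t, h | h⟩
    · exact ⟨h.1.1, h.1.2.1, s, t, Or.inl h.2⟩
    · exact ⟨h.1.2.1, h.1.1, s, t, Or.inr h.2⟩
  · rintro ⟨ha, hb, s, t, h | h⟩
    · exact ⟨s, t, Or.inl ⟨⟨ha, hb, ha, hb⟩, h⟩⟩
    · exact ⟨s, t, Or.inr ⟨⟨hb, ha, hb, ha⟩, h⟩⟩

theorem il_symm {a b : ℕ} (h : il E a b) : il E b a := by
  obtain ⟨s, t, h⟩ := h
  exact ⟨t, s, h.symm⟩

theorem il_mem {a b : ℕ} (h : il E a b) : a ∈ ids E ∧ b ∈ ids E := by
  obtain ⟨s, t, h | h⟩ := h
  · exact ⟨mem_ids.2 ⟨s, h.subset (by simp)⟩, mem_ids.2 ⟨t, h.subset (by simp)⟩⟩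
  · exact ⟨mem_ids.2 ⟨s, h.subset (by simp)⟩, mem_ids.2 ⟨t, h.subset (by simp)⟩⟩

theorem length_del_lt {e : ℕ} (h : e ∈ ids E) : (del E e).length < E.length := by
  obtain ⟨s, h⟩ := mem_ids.1 h
  exact List.length_filter_lt_length_iff_exists.2 ⟨_, h, by simp⟩

theorem del_eq {pre mid post : List Ev} {x y : Ev} {e : ℕ} (hx : x.id = e) (hy : y.id = e)
    (h : ∀ z ∈ pre ++ mid ++ post, z.id ≠ e) :
    del (pre ++ x :: (mid ++ y :: post)) e = pre ++ (mid ++ post) := by
  simp only [List.mem_append] at h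
  have k : ∀ L : List Ev, (∀ z ∈ L, z.id ≠ e) → L.filter (fun x => x.id ≠ e) = L :=
    fun L hL => List.filter_eq_self.2 fun z hz => by simpa using hL z hz
  rw [del, List.filter_append, List.filter_cons_of_neg (by simpa using hx), List.filter_append,
    List.filter_cons_of_neg (by simpa using hy), k pre fun z hz => h z (Or.inl (Or.inl hz)),
    k mid fun z hz => h z (Or.inl (Or.inr hz)), k post fun z hz => h z (Or.inr hz)]

end Pool.Agent.Lib.MP_7bc610_gt
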