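import Pool.Agent.Lib.MP_7bc610_gt.H9Loops

/-!
The matchings at the levels of a normal form.
-/

namespace Pool.Agent.Lib.MP_7bc610_gt

open LaurentPolynomial

theorem nrel_succ_r (l r : ℕ) : nrel l (r + 1) = cupR (2 * l + 1) (nrel l r) := by
  induction l with
  | zero => rfl
  | succ l ih =>
    have h := cupR_cupR (r := nrel l r) (i := 0) (j := 2 * l + 1) (Nat.zero_le _)
    have e : 2 * (l + 1) + 1 = 2 * l + 1 + 2 := by ring
    rw [e]
    show cupR 0 (nrel l (r + 1)) = cupR (2 * l + 1 + 2) (cupR 0 (nrel l r))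
    rw [h, ih]

theorem nrel_succ_l (l r : ℕ) : nrel (l + 1) r = cupR (2 * l) (nrel l r) := by
  induction l with
  | zero => rfl
  | succ l ih =>
    have h := cupR_cupR (r := nrel l r) (i := 0) (j := 2 * l) (Nat.zero_le _)
    have e : 2 * (l + 1) = 2 * l + 2 := by ring
    rw [e]
    show cupR 0 (nrel (l + 1) r) = cupR (2 * l + 2) (cupR 0 (nrel l r))
    rw [h, ih]

theorem pm_nrel (l r : ℕ) : PM (2 * l + 2 * r + 2) (nrel l r) := by
  induction l with
  | zero =>
    induction r with
    | zero => exact pm_eq.cup (i := 0) le_rfl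
    | succ r ih =>
      have h := ih.cup (i := 1) (by omega)
      have e : 2 * 0 + 2 * (r + 1) + 2 = 2 * 0 + 2 * r + 2 + 2 := by ring
      rw [e]
      exact h
  | succ l ih =>
    have h := ih.cup (i := 0) (by omega)
    have e : 2 * (l + 1) + 2 * r + 2 = 2 * l + 2 * r + 2 + 2 := by ring
    rw [e]
    exact h

theorem nrel_equiv (l r : ℕ) : Equivalence (nrel l r) := (pm_nrel l r).1

theorem loops_oR (l r : ℕ) (w : Word) :
    loops ((.cup, 2 * l + 1) :: (.cup, 2 * l + 1 + 2) :: (.cap, 2 * l) :: w) (nrel l r) =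
      loops w (nrel l (r + 1)) := by
  obtain ⟨h1, h2⟩ := capR_cupR_left (r := cupR (2 * l + 1) (nrel l r)) (i := 2 * l)
    (j := 2 * l + 1) (Nat.le_succ _)
  obtain ⟨h3, h4⟩ := capR_zig (nrel_equiv l r) (2 * l)
  simp only [loops]
  rw [if_neg (fun h => h4 (h2.1 h)), h1, h3, nrel_succ_r, zero_add]

theorem loops_oL (l r : ℕ) (w : Word) :
    loops ((.cup, 2 * l) :: (.cup, 2 * l + 2) :: (.cap, 2 * l + 3) :: w) (nrel l r) =
      loops w (nrel (l + 1) r) := by
  obtain ⟨h3, h4⟩ := capR_zag (nrel_equiv (l + 1) r) (2 * l + 2)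
  simp only [loops]
  rw [← nrel_succ_l, if_neg h4, h3, zero_add]

theorem loops_cR (l r : ℕ) (w : Word) :
    loops ((.cap, 2 * l) :: w) (nrel l (r + 1)) = loops w (nrel l r) := by
  obtain ⟨h3, h4⟩ := capR_zig (nrel_equiv l r) (2 * l)
  simp only [loops]
  rw [nrel_succ_r, if_neg h4, h3, zero_add]

theorem loops_cL (l r : ℕ) (w : Word) :
    loops ((.cap, 2 * l + 1) :: w) (nrel (l + 1) r) = loops w (nrel l r) := by
  obtain ⟨h3, h4⟩ := capR_zag (nrel_equiv l r) (2 * l)
  simp only [loops]
  rw [nrel_succ_l, if_neg h4, h3, zero_add]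

theorem nrel_left {l r a b : ℕ} (h : nrel l r a b) (ha : a < 2 * l) : a / 2 = b / 2 := by
  induction l generalizing a b with
  | zero => omega
  | succ l ih =>
    rcases h with ⟨h1, h2⟩ | ⟨h1, h2, h3, h4, h5⟩
    · omega
    · rw [if_neg (Nat.not_lt_zero _), if_neg (Nat.not_lt_zero _)] at h5
      have := ih h5 (by omega)
      omega

theorem nrel_right {l r a b : ℕ} (h : nrel l r a b) (ha : 2 * l < a) (ha' : a ≤ 2 * l + 2 * r) :
    (a + 1) / 2 = (b + 1) / 2 := by
  induction l generalizing a b with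
  | zero =>
    induction r generalizing a b with
    | zero => omega
    | succ r ih =>
      rcases h with ⟨h1, h2⟩ | ⟨h1, h2, h3, h4, h5⟩
      · omega
      · rw [if_neg (by omega)] at h5
        have := ih h5 (by omega) (by omega)
        split_ifs at this <;> omega
  | succ l ih =>
    rcases h with ⟨h1, h2⟩ | ⟨h1, h2, h3, h4, h5⟩
    · omega
    · rw [if_neg (Nat.not_lt_zero _), if_neg (Nat.not_lt_zero _)] at h5
      have := ih h5 (by omega) (by omega)
      omega

theorem nrel_main (l : ℕ) : nrel l 0 (2 * l) (2 * l + 1) := by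
  induction l with
  | zero => exact Or.inl ⟨Or.inl rfl, Or.inr rfl⟩
  | succ l ih =>
    refine Or.inr ⟨by omega, by omega, by omega, by omega, ?_⟩
    rw [if_neg (Nat.not_lt_zero _), if_neg (Nat.not_lt_zero _)]
    have e1 : 2 * (l + 1) - 2 = 2 * l := by omega
    have e2 : 2 * (l + 1) + 1 - 2 = 2 * l + 1 := by omega
    rw [e1, e2]
    exact ih

theorem nrel_valid_even {k j : ℕ} {M : Word} (h : Valid k M j) : (k + j) % 2 = 0 := by
  induction M generalizing k with
  | nil =>
    have h' : k = j := h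
    omega
  | cons g M ih =>
    obtain ⟨c, i⟩ := g
    obtain ⟨h1, h2⟩ := h
    have := ih h2
    cases c <;> simp only [Kind.inp, Kind.out] at h1 this <;> omega

theorem nrel_valid_diff {k j n m s : ℕ} {M : Word} (h : Valid k M j)
    (h' : Valid n (shift s M) m) : m + k = n + j := by
  induction M generalizing k n with
  | nil =>
    have h1 : k = j := h
    have h2 : n = m := h'
    omega
  | cons g M ih =>
    obtain ⟨c, i⟩ := g
    rw [shift_cons] at h'
    obtain ⟨h1, h2⟩ := h
    obtain ⟨h3, h4⟩ := h'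
    have := ih h2 h4
    omega

theorem nrel_noCr_tail {g : Kind × ℕ} {M : Word} (h : NoCr (g :: M)) : NoCr M :=
  fun e i hi => h e i (List.mem_cons_of_mem _ hi)

theorem nrel_noCr_shift {M : Word} (h : NoCr M) (s : ℕ) : NoCr (shift s M) := by
  intro e i hi
  obtain ⟨⟨c, j⟩, hg, he⟩ := List.mem_map.1 hi
  obtain rfl : c = .cr e := congrArg Prod.fst he
  exact h e j hg

theorem nrel_noCr_cap {w : Word} (h : NoCr w) (a : ℕ) : NoCr ((.cap, a) :: w) := by
  intro e i hi
  rcases List.mem_cons.1 hi with h' | h'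
  · cases h'
  · exact h e i h'

/-- A closed excursion over a block that is closed under the matching makes a loop. -/
theorem nrel_block {n k s : ℕ} {ρ : ℕ → ℕ → Prop} {M : Word} (hp : PM n ρ) (hs : s + k ≤ n)
    (hc : ∀ a b, ρ a b → s ≤ a → a < s + k → s ≤ b ∧ b < s + k) (hM : Valid k M 0)
    (h1 : NoCr M) (hne : M ≠ []) : 1 ≤ loops (shift s M) ρ := by
  induction M generalizing n k ρ with
  | nil => exact absurd rfl hne
  | cons g M ih =>
    obtain ⟨c, i⟩ := g
    obtain ⟨hi, hM'⟩ := hM
    rw [shift_cons]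
    cases c with
    | cr e => exact absurd List.mem_cons_self (h1 e i)
    | cup =>
      simp only [Kind.inp, Kind.out, add_zero, Nat.sub_zero] at hi hM'
      simp only [loops]
      refine ih (hp.cup (i := i + s) (by omega)) (k := k + 2) (by omega) ?_ hM'
        (nrel_noCr_tail h1) ?_
      · rintro a b (⟨h2, h3⟩ | ⟨h2, h3, h4, h5, h6⟩) ha ha'
        · omega
        · have := hc _ _ h6 (by split_ifs <;> omega) (by split_ifs <;> omega)
          split_ifs at this <;> omega
      · rintro rfl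
        have : k + 2 = 0 := hM'
        omega
    | cap =>
      simp only [Kind.inp, Kind.out, add_zero] at hi hM'
      simp only [loops]
      by_cases hr : ρ (i + s) (i + s + 1)
      · rw [if_pos hr]
        omega
      · rw [if_neg hr, zero_add]
        obtain ⟨n', rfl⟩ : ∃ n', n = n' + 2 := ⟨n - 2, by omega⟩
        refine ih (hp.cap (i := i + s) (by omega)) (k := k - 2) (by omega) ?_ hM'
          (nrel_noCr_tail h1) ?_
        · rintro a b (h2 | ⟨-, h2⟩ | ⟨-, h2⟩) ha ha'
          · have := hc _ _ h2 (by split_ifs <;> omega) (by split_ifs <;> omega)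
            split_ifs at this <;> omega
          · have := hc _ _ h2 (by omega) (by omega)
            split_ifs at this <;> omega
          · have := hc _ _ h2 (by omega) (by omega)
            split_ifs at this <;> omega
        · rintro rfl
          have hk : k - 2 = 0 := hM'
          obtain ⟨b, -, hb, hab, -⟩ := hp.2 (i + s) (by omega)
          have := hc _ _ hab (by omega) (by omega)
          obtain rfl : b = i + s + 1 := by omega
          exact hr hab

theorem nrel_exc {n k s a : ℕ} {ρ : ℕ → ℕ → Prop} {M w : Word} (hp : PM n ρ) (hs : s + k ≤ n)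
    (hc : ∀ a b, ρ a b → s ≤ a → a < s + k → s ≤ b ∧ b < s + k) (hM : Valid k M 0)
    (h1 : NoCr M) (h2 : NoCr w) (hne : M ≠ [])
    (hv : Valid n (shift s M ++ (.cap, a) :: w) 0) :
    2 ≤ loops (shift s M ++ (.cap, a) :: w) ρ := by
  obtain ⟨m, hv1, hv2⟩ := valid_append.1 hv
  have e1 := nrel_block hp hs hc hM h1 hne
  have e2 := loops_pos (hp.after hv1 (nrel_noCr_shift h1 s)) hv2 (nrel_noCr_cap h2 a)
    (List.cons_ne_nil _ _)
  rw [loops_append]
  omega

theorem excR {l r k : ℕ} {M w : Word} (hM : Valid k M 0) (h1 : NoCr M) (h2 : NoCr w)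
    (hne : M ≠ [])
    (hv : Valid (2 * l + 2 * r + 2) (shift (2 * l + 1) M ++ (.cap, 2 * l) :: w) 0) :
    2 ≤ loops (shift (2 * l + 1) M ++ (.cap, 2 * l) :: w) (nrel l r) := by
  obtain ⟨m, hv1, hv2, -⟩ := valid_append.1 hv
  have e1 := nrel_valid_diff hM hv1
  have e2 := nrel_valid_even hM
  simp only [Kind.inp] at hv2
  refine nrel_exc (pm_nrel l r) (by omega) ?_ hM h1 h2 hne hv
  intro a b hab ha ha'
  have := nrel_right hab (by omega) (by omega)
  omega

theorem excL {l r a k : ℕ} {M w : Word} (ha : 2 * l = a + 1 + k) (hM : Valid k M 0)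
    (h1 : NoCr M) (h2 : NoCr w) (hne : M ≠ [])
    (hv : Valid (2 * l + 2 * r + 2) (shift (a + 1) M ++ (.cap, a) :: w) 0) :
    2 ≤ loops (shift (a + 1) M ++ (.cap, a) :: w) (nrel l r) := by
  have e2 := nrel_valid_even hM
  refine nrel_exc (pm_nrel l r) (by omega) ?_ hM h1 h2 hne hv
  intro c b hab hc hc'
  have := nrel_left hab (by omega)
  omega

theorem close_main {l : ℕ} {w : Word} (h2 : NoCr w)
    (hv : Valid (2 * l + 2) ((.cap, 2 * l) :: w) 0)
    (h : loops ((.cap, 2 * l) :: w) (nrel l 0) = 1) : l = 0 ∧ w = [] := by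
  obtain ⟨-, hv'⟩ := hv
  simp only [Kind.inp, Kind.out, add_zero, Nat.add_sub_cancel] at hv'
  simp only [loops] at h
  rw [if_pos (nrel_main l)] at h
  have hp : PM (2 * l + 2) (nrel l 0) := pm_nrel l 0
  have hw : w = [] := by
    by_contra hne
    have := loops_pos (hp.cap (i := 2 * l) le_rfl) hv' h2 hne
    omega
  subst hw
  have : 2 * l = 0 := hv'
  exact ⟨by omega, rfl⟩

end Pool.Agent.Lib.MP_7bc610_gt
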