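import Pool.Agent.Lib.MP_7bc610_gt.H9Step
import Pool.Agent.Lib.MP_7bc610_gt.H9Nrel
import Pool.Agent.Lib.MP_7bc610_gt.H9Ev

/-!
Every template with a one-loop state has a normal form.
-/

namespace Pool.Agent.Lib.MP_7bc610_gt

open LaurentPolynomial

theorem brg_loops {n : ℕ} {u v : Tm} (h : TI n 0 u v) (A : Finset ℕ) (l r : ℕ) :
    loops (tl A u) (nrel l r) = loops (tl A v) (nrel l r) := by
  have := h.loops A (w := []) (fun _ _ hm => by simp at hm) (pm_nrel l r).1
  simpa only [List.append_nil] using this

theorem brg_opens {n l : ℕ} {R : Tm} {ρ : ℕ → ℕ} {E : List Ev}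
    (h : TI n 0 R (nfT ρ l E ++ [(.cap, 0)])) : (tids R).Perm (opens E) := by
  have := h.tids
  rwa [tids_append, tids_nfT, show tids [(TK.cap, 0)] = [] from rfl, List.append_nil] at this

theorem brg_cons {n m : ℕ} {R R' S p : Tm} (h : TI n 0 R (p ++ R')) (hp : TV n p m)
    (h' : TI m 0 R' S) : TI n 0 R (p ++ S) := by
  have := h'.ctx (s := []) hp (b := 0) rfl
  simp only [List.append_nil] at this
  exact h.trans this

theorem brg_update {A : Finset ℕ} {E : List Ev} {ρ : ℕ → ℕ} {f x : ℕ} (hf : f ∉ opens E)
    (h : ∀ j ∈ opens E, (j ∈ A ↔ ρ j % 2 = 1)) (hx : f ∈ A ↔ x % 2 = 1) (l : ℕ) (s : Bool) :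
    nfT (Function.update ρ f x) l E = nfT ρ l E ∧
      ∀ j ∈ opens (⟨s, true, f⟩ :: E), (j ∈ A ↔ Function.update ρ f x j % 2 = 1) := by
  have e : ∀ j ∈ opens E, Function.update ρ f x j = ρ j := fun j hj =>
    Function.update_of_ne (fun e : j = f => hf (e ▸ hj)) _ _
  refine ⟨nfT_congr e l, fun j hj => ?_⟩
  have hj' : j = f ∨ j ∈ opens E := by simpa [opens] using hj
  rcases hj' with rfl | hj'
  · rw [Function.update_self]; exact hx
  · rw [e j hj']; exact h j hj'

theorem brg_lt (A : Finset ℕ) (N : ℕ) : ∀ (ls rs : List ℕ) (R : Tm),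
    2 * (tids R).length + ls.length + rs.length < N →
    TV (2 * ls.length + 2 * rs.length + 2) R 0 → (tids R).Nodup →
    loops (tl A R) (nrel ls.length rs.length) = 1 →
    ∃ E ρ, Run ls rs E [] [] ∧
      TI (2 * ls.length + 2 * rs.length + 2) 0 R (nfT ρ ls.length E ++ [(.cap, 0)]) ∧
      ∀ j ∈ opens E, (j ∈ A ↔ ρ j % 2 = 1) := by
  induction N with
  | zero => intro ls rs R h; omega
  | succ N ih =>
    intro ls rs R hN hv hn h1
    cases step9 R _ (2 * ls.length) hv (by omega) with
    | box f ρ R' h =>
      have hp : (tids R).Perm (f :: tids R') := h.tids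
      have hlen := hp.length_eq
      have hnd := List.nodup_cons.1 (hp.nodup_iff.1 hn)
      rw [List.length_cons] at hlen
      have hv' : TV (2 * ls.length + 2 * rs.length + 2 + 2) R' 0 := h.tv.2.2
      by_cases hc : (f ∈ A ↔ ρ % 2 = 0)
      · have h' : TI _ 0 R ([(.box f (ρ + 1), 2 * ls.length), (.cap, 2 * ls.length + 3)] ++ R') :=
          h.tr ((tr_oR_oL f ρ (2 * ls.length)).right R')
        have hc' : ¬(f ∈ A ↔ (ρ + 1) % 2 = 0) := by
          rw [hc]; omega
        have h2 := brg_loops h' A ls.length rs.length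
        simp only [List.cons_append, List.nil_append, tl, if_neg hc'] at h2
        rw [loops_oL, h1] at h2
        have e : 2 * (f :: ls).length + 2 * rs.length + 2 =
            2 * ls.length + 2 * rs.length + 2 + 2 := by
          rw [List.length_cons]; omega
        obtain ⟨E, σ, r1, r2, r3⟩ := ih (f :: ls) rs R' (by rw [List.length_cons]; omega)
          (e ▸ hv') hnd.2 h2.symm
        have hf : f ∉ opens E := fun hm => hnd.1 ((brg_opens r2).mem_iff.2 hm)
        obtain ⟨u1, u2⟩ := brg_update hf r3 (x := ρ + 1) (by rw [hc]; omega) (ls.length + 1) true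
        refine ⟨⟨true, true, f⟩ :: E, Function.update σ f (ρ + 1), r1.oL, ?_, u2⟩
        simp only [nfT, Function.update_self, u1]
        have := brg_cons h' (by
          simp only [TV, TK.inp, TK.out, List.length_cons]
          omega) r2
        exact this
      · have h' : TI _ 0 R ([(.box f ρ, 2 * ls.length + 1), (.cap, 2 * ls.length)] ++ R') := h
        have h2 := brg_loops h' A ls.length rs.length
        simp only [List.cons_append, List.nil_append, tl, if_neg hc] at h2
        rw [loops_oR, h1] at h2
        have e : 2 * ls.length + 2 * (f :: rs).length + 2 =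
            2 * ls.length + 2 * rs.length + 2 + 2 := by
          rw [List.length_cons]; omega
        obtain ⟨E, σ, r1, r2, r3⟩ := ih ls (f :: rs) R' (by rw [List.length_cons]; omega)
          (e ▸ hv') hnd.2 h2.symm
        have hf : f ∉ opens E := fun hm => hnd.1 ((brg_opens r2).mem_iff.2 hm)
        have hx : f ∈ A ↔ ρ % 2 = 1 := by
          by_cases hA : f ∈ A
          · simp only [hA, true_iff] at hc ⊢; omega
          · simp only [hA, false_iff, not_not] at hc ⊢; omega
        obtain ⟨u1, u2⟩ := brg_update hf r3 hx ls.length false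
        refine ⟨⟨false, true, f⟩ :: E, Function.update σ f ρ, r1.oR, ?_, u2⟩
        simp only [nfT, Function.update_self, u1]
        have := brg_cons h' (by
          simp only [TV, TK.inp, TK.out, List.length_cons]
          omega) r2
        exact this
    | rgt k M R' hM _ h =>
      have h2 := brg_loops h A ls.length rs.length
      have h3 := h.tv.valid_tl A
      rw [tl_append, tl_tshift] at h2 h3
      have hM0 : M = [] := by
        by_contra hne
        have := excR (w := tl A R') (hM.valid_tl A) (noCr_tl A M) (noCr_tl A R')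
          (fun e => hne (tl_eq_nil.1 e)) h3
        have h4 : loops (shift (2 * ls.length + 1) (tl A M) ++ (.cap, 2 * ls.length) :: tl A R')
          (nrel ls.length rs.length) = 1 := h2.symm.trans h1
        omega
      subst hM0
      have h' : TI _ 0 R ([(.cap, 2 * ls.length)] ++ R') := h
      have h4 : loops ((.cap, 2 * ls.length) :: tl A R') (nrel ls.length rs.length) = 1 :=
        h2.symm.trans h1
      have hp : (tids R).Perm (tids R') := h'.tids
      have hlen := hp.length_eq
      cases rs with
      | nil =>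
        obtain ⟨c1, c2⟩ := close_main (l := ls.length) (noCr_tl A R') h3 h4
        obtain rfl := List.length_eq_zero_iff.1 c1
        obtain rfl := tl_eq_nil.1 c2
        exact ⟨[], fun _ => 0, Run.nil _ _, h', fun j hj => by simp [opens] at hj⟩
      | cons j rs =>
        rw [List.length_cons] at hN
        rw [List.length_cons, loops_cR] at h4
        have hv' : TV (2 * ls.length + 2 * rs.length + 2) R' 0 := h'.tv.2
        obtain ⟨E, σ, r1, r2, r3⟩ := ih ls rs R' (by omega) hv' (hp.nodup_iff.1 hn) h4
        have := brg_cons h' (by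
          simp only [TV, TK.inp, TK.out, List.length_cons]
          omega) r2
        exact ⟨⟨false, false, j⟩ :: E, σ, r1.cR, this, r3⟩
    | lft a k M R' ha hM _ h =>
      have h2 := brg_loops h A ls.length rs.length
      have h3 := h.tv.valid_tl A
      rw [tl_append, tl_tshift] at h2 h3
      have hM0 : M = [] := by
        by_contra hne
        have := excL (w := tl A R') ha (hM.valid_tl A) (noCr_tl A M) (noCr_tl A R')
          (fun e => hne (tl_eq_nil.1 e)) h3
        have h4 : loops (shift (a + 1) (tl A M) ++ (.cap, a) :: tl A R')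
          (nrel ls.length rs.length) = 1 := h2.symm.trans h1
        omega
      subst hM0
      have hk : k = 0 := hM
      have h' : TI _ 0 R ([(.cap, a)] ++ R') := h
      have h4 : loops ((.cap, a) :: tl A R') (nrel ls.length rs.length) = 1 := h2.symm.trans h1
      have hp : (tids R).Perm (tids R') := h'.tids
      have hlen := hp.length_eq
      cases ls with
      | nil => simp only [List.length_nil] at ha; omega
      | cons j ls =>
        rw [List.length_cons] at hN ha
        obtain rfl : a = 2 * ls.length + 1 := by omega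
        rw [List.length_cons, loops_cL] at h4
        have hv' : TV (2 * ls.length + 2 * rs.length + 2) R' 0 := by
          have := h'.tv.2
          simp only [TK.inp, TK.out, List.length_cons] at this
          rwa [show 2 * (ls.length + 1) + 2 * rs.length + 2 - 2 + 0 =
            2 * ls.length + 2 * rs.length + 2 by omega] at this
        obtain ⟨E, σ, r1, r2, r3⟩ := ih ls rs R' (by omega) hv' (hp.nodup_iff.1 hn) h4
        have := brg_cons h' (by
          simp only [TV, TK.inp, TK.out, List.length_cons]
          omega) r2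
        exact ⟨⟨true, false, j⟩ :: E, σ, r1.cL, this, r3⟩

theorem bridge_aux (A : Finset ℕ) (N : ℕ) : ∀ (ls rs : List ℕ) (R : Tm),
    2 * (tids R).length + ls.length + rs.length ≤ N →
    TV (2 * ls.length + 2 * rs.length + 2) R 0 → (tids R).Nodup →
    loops (tl A R) (nrel ls.length rs.length) = 1 →
    ∃ E ρ, Run ls rs E [] [] ∧
      TI (2 * ls.length + 2 * rs.length + 2) 0 R (nfT ρ ls.length E ++ [(.cap, 0)]) ∧
      ∀ j ∈ opens E, (j ∈ A ↔ ρ j % 2 = 1) :=
  fun ls rs R h => brg_lt A (N + 1) ls rs R (Nat.lt_succ_of_le h)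

theorem brg_cup (A : Finset ℕ) {T R : Tm} (hT : TI 0 0 T ([(.cup, 0)] ++ R)) (hn : (tids T).Nodup)
    (h : loops (tl A T) Eq = 1) :
    ∃ E ρ, WF E ∧ TI 0 0 T ((.cup, 0) :: nfT ρ 0 E ++ [(.cap, 0)]) ∧
      ∀ j ∈ ids E, (j ∈ A ↔ ρ j % 2 = 1) := by
  have h1 := hT.loops A (w := []) (fun _ _ hm => by simp at hm) eq_equivalence
  simp only [List.append_nil] at h1
  have h2 : loops (tl A R) (nrel 0 0) = 1 := h1.symm.trans h
  have hp : (tids T).Perm (tids R) := hT.tids
  have hn' := hp.nodup_iff.1 hn
  obtain ⟨E, ρ, r1, r2, r3⟩ := bridge_aux A _ [] [] R le_rfl hT.tv.2 hn' h2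
  have := brg_cons hT (by simp [TV, TK.inp, TK.out]) r2
  exact ⟨E, ρ, ⟨r1, (brg_opens r2).nodup_iff.1 hn'⟩, this,
    fun j hj => r3 j (List.mem_toFinset.1 hj)⟩

theorem bridge (A : Finset ℕ) {T : Tm} (hv : TV 0 T 0) (hn : (tids T).Nodup)
    (h : loops (tl A T) Eq = 1) :
    ∃ E ρ, WF E ∧ TI 0 0 T ((.cup, 0) :: nfT ρ 0 E ++ [(.cap, 0)]) ∧
      ∀ j ∈ ids E, (j ∈ A ↔ ρ j % 2 = 1) := by
  cases T with
  | nil => simp [tl, loops] at h
  | cons g R =>
    obtain ⟨k, i⟩ := g
    have hi := hv.1
    obtain rfl : i = 0 := by omega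
    cases k with
    | cup => exact brg_cup A (TI.refl hv) hn h
    | cap => simp [TK.inp] at hi
    | box f ρ => exact brg_cup A (((tr_unrot f ρ 0).right R).ti hv) hn h

end Pool.Agent.Lib.MP_7bc610_gt
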