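import Pool.Agent.Lib.MP_7bc610_gt.H9Wf
import Pool.Agent.Lib.MP_7bc610_gt.EqFixWalk
import Pool.Agent.Lib.MP_7bc610_gt.EqFixTl

/-!
Colourings of a normal form.
-/

namespace Pool.Agent.Lib.MP_7bc610_gt

open LaurentPolynomial

/-- The colouring given by a list. -/
def cla_cl (L : List (ZMod 2)) (k : ℕ) : ZMod 2 := L.getD k 0

theorem cla_at (P S : List (ZMod 2)) {i : ℕ} (h : P.length = i) (k : ℕ) :
    cla_cl (P ++ S) (i + k) = cla_cl S k := by
  unfold cla_cl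
  rw [List.getD_append_right _ _ _ _ (by omega)]
  congr 1
  omega

theorem cla_lt (P S S' : List (ZMod 2)) {k : ℕ} (h : k < P.length) :
    cla_cl (P ++ S) k = cla_cl (P ++ S') k := by
  unfold cla_cl
  rw [List.getD_append _ _ _ _ h, List.getD_append _ _ _ _ h]

theorem cla_ins (P S : List (ZMod 2)) {i : ℕ} (h : P.length = i) (x : ZMod 2) :
    insC i x (cla_cl (P ++ S)) = cla_cl (P ++ x :: x :: S) := by
  funext k
  unfold insC
  split_ifs with h1 h2
  · exact cla_lt _ _ _ (by omega)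
  · obtain ⟨d, rfl⟩ : ∃ d, k = i + d := ⟨k - i, by omega⟩
    rw [cla_at _ _ h]
    have : d = 0 ∨ d = 1 := by omega
    rcases this with rfl | rfl <;> rfl
  · obtain ⟨d, rfl⟩ : ∃ d, k = i + (d + 2) := ⟨k - i - 2, by omega⟩
    rw [cla_at _ _ h, show i + (d + 2) - 2 = i + d by omega, cla_at _ _ h]
    rfl

theorem cla_del (P S : List (ZMod 2)) {i : ℕ} (h : P.length = i) (x y : ZMod 2) :
    delC i (cla_cl (P ++ x :: y :: S)) = cla_cl (P ++ S) := by
  funext k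
  unfold delC
  split_ifs with h1
  · exact cla_lt _ _ _ (by omega)
  · obtain ⟨d, rfl⟩ : ∃ d, k = i + d := ⟨k - i, by omega⟩
    rw [add_assoc, cla_at _ _ h, cla_at _ _ h]
    rfl

theorem cla_cupZ (P S : List (ZMod 2)) {i : ℕ} (h : P.length = i) (w : Word) :
    ExtZ ((.cup, i) :: w) (cla_cl (P ++ S)) ↔ ∃ x, ExtZ w (cla_cl (P ++ x :: x :: S)) := by
  simp only [ExtZ, cla_ins P S h]

theorem cla_cupN (P S : List (ZMod 2)) {i : ℕ} (h : P.length = i) (w : Word) :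
    ExtN ((.cup, i) :: w) (cla_cl (P ++ S)) ↔ ∃ x, ExtN w (cla_cl (P ++ x :: x :: S)) := by
  simp only [ExtN, cla_ins P S h]

theorem cla_capZ (P S : List (ZMod 2)) {i : ℕ} (h : P.length = i) (x y : ZMod 2) (w : Word) :
    ExtZ ((.cap, i) :: w) (cla_cl (P ++ x :: y :: S)) ↔ x = y ∧ ExtZ w (cla_cl (P ++ S)) := by
  have h0 : cla_cl (P ++ x :: y :: S) i = x := cla_at P _ h 0
  have h1 : cla_cl (P ++ x :: y :: S) (i + 1) = y := cla_at P _ h 1
  simp only [ExtZ, cla_del P S h, h0, h1]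

theorem cla_capN (P S : List (ZMod 2)) {i : ℕ} (h : P.length = i) (x y : ZMod 2) (w : Word) :
    ExtN ((.cap, i) :: w) (cla_cl (P ++ x :: y :: S)) ↔
      x = y ∧ (ExtN w (cla_cl (P ++ S)) ∨ (x ≠ 0 ∧ ExtZ w (cla_cl (P ++ S)))) := by
  have h0 : cla_cl (P ++ x :: y :: S) i = x := cla_at P _ h 0
  have h1 : cla_cl (P ++ x :: y :: S) (i + 1) = y := cla_at P _ h 1
  simp only [ExtN, cla_del P S h, h0, h1]

/-- The effect of the three pieces of an opening event. -/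
def cla_Op (w w' : Word) (c : ℕ → ZMod 2) (m : ZMod 2) (f : ZMod 2 → ℕ → ZMod 2) : Prop :=
  (ExtZ w c ↔ ∃ y, ExtZ w' (f y)) ∧ (ExtN w c ↔ ∃ y, ExtN w' (f y) ∨ (m ≠ 0 ∧ ExtZ w' (f y)))

theorem cla_oLA (P R : List (ZMod 2)) {i : ℕ} (h : P.length = i) (m : ZMod 2) (w : Word) :
    cla_Op ((.cup, i) :: (.cup, i + 1) :: (.cap, i + 3) :: w) w (cla_cl (P ++ m :: R)) m
      fun y => cla_cl (P ++ m :: y :: y :: R) := by
  have e1 := fun x => cla_cupZ (P ++ [x]) (x :: m :: R) (i := i + 1) (by simp [h])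
  have e2 := fun x => cla_cupN (P ++ [x]) (x :: m :: R) (i := i + 1) (by simp [h])
  have e3 := fun x y => cla_capZ (P ++ [x, y, y]) R (i := i + 3) (by simp [h]) x m w
  have e4 := fun x y => cla_capN (P ++ [x, y, y]) R (i := i + 3) (by simp [h]) x m w
  simp only [List.append_assoc, List.cons_append, List.nil_append] at e1 e2 e3 e4
  constructor
  · simp only [cla_cupZ P _ h, e1, e3]
    simp
  · simp only [cla_cupN P _ h, e2, e4]
    simp

theorem cla_oLB (P R : List (ZMod 2)) {i : ℕ} (h : P.length = i) (m : ZMod 2) (w : Word) :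
    cla_Op ((.cup, i) :: (.cup, i + 2) :: (.cap, i + 3) :: w) w (cla_cl (P ++ m :: R)) m
      fun y => cla_cl (P ++ y :: y :: m :: R) := by
  have e1 := fun x => cla_cupZ (P ++ [x, x]) (m :: R) (i := i + 2) (by simp [h])
  have e2 := fun x => cla_cupN (P ++ [x, x]) (m :: R) (i := i + 2) (by simp [h])
  have e3 := fun x y => cla_capZ (P ++ [x, x, y]) R (i := i + 3) (by simp [h]) y m w
  have e4 := fun x y => cla_capN (P ++ [x, x, y]) R (i := i + 3) (by simp [h]) y m w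
  simp only [List.append_assoc, List.cons_append, List.nil_append] at e1 e2 e3 e4
  constructor
  · simp only [cla_cupZ P _ h, e1, e3]
    simp
  · simp only [cla_cupN P _ h, e2, e4]
    simp

theorem cla_oRA (P R : List (ZMod 2)) {i : ℕ} (h : P.length = i) (m : ZMod 2) (w : Word) :
    cla_Op ((.cup, i + 1) :: (.cup, i + 1 + 1) :: (.cap, i) :: w) w (cla_cl (P ++ m :: R)) m
      fun y => cla_cl (P ++ y :: y :: m :: R) := by
  have e5 := cla_cupZ (P ++ [m]) R (i := i + 1) (by simp [h])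
  have e6 := cla_cupN (P ++ [m]) R (i := i + 1) (by simp [h])
  have e1 := fun x => cla_cupZ (P ++ [m, x]) (x :: R) (i := i + 1 + 1) (by simp [h])
  have e2 := fun x => cla_cupN (P ++ [m, x]) (x :: R) (i := i + 1 + 1) (by simp [h])
  simp only [List.append_assoc, List.cons_append, List.nil_append] at e1 e2 e5 e6
  constructor
  · simp only [e5, e1, cla_capZ P _ h]
    simp
  · simp only [e6, e2, cla_capN P _ h]
    simp

theorem cla_oRB (P R : List (ZMod 2)) {i : ℕ} (h : P.length = i) (m : ZMod 2) (w : Word) :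
    cla_Op ((.cup, i + 1) :: (.cup, i + 1 + 2) :: (.cap, i) :: w) w (cla_cl (P ++ m :: R)) m
      fun y => cla_cl (P ++ m :: y :: y :: R) := by
  have e5 := cla_cupZ (P ++ [m]) R (i := i + 1) (by simp [h])
  have e6 := cla_cupN (P ++ [m]) R (i := i + 1) (by simp [h])
  have e1 := fun x => cla_cupZ (P ++ [m, x, x]) R (i := i + 1 + 2) (by simp [h])
  have e2 := fun x => cla_cupN (P ++ [m, x, x]) R (i := i + 1 + 2) (by simp [h])
  simp only [List.append_assoc, List.cons_append, List.nil_append] at e1 e2 e5 e6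
  constructor
  · simp only [e5, e1, cla_capZ P _ h]
    simp
  · simp only [e6, e2, cla_capN P _ h]
    simp

theorem cla_walk_congr {A : Finset ℕ} {a b a' b' : ℕ → ZMod 2} :
    ∀ {E : List Ev} {m : ZMod 2}, (∀ x ∈ E, a x.id = a' x.id ∧ b x.id = b' x.id) →
      Walk A a b E m → Walk A a' b' E m
  | [], _, _, h => h
  | ⟨s, true, j⟩ :: E, m, hx, h => by
    obtain ⟨h1, h2⟩ : a j = a' j ∧ b j = b' j := hx _ List.mem_cons_self
    have ih := fun m => cla_walk_congr (A := A) (E := E) (m := m)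
      fun x h => hx x (List.mem_cons_of_mem _ h)
    simp only [Walk] at h ⊢
    split_ifs at h ⊢
    · exact ⟨h2 ▸ h.1, ih _ (h1 ▸ h.2)⟩
    · exact ⟨h1 ▸ h2 ▸ h.1, ih _ h.2⟩
  | ⟨s, false, j⟩ :: E, m, hx, h => by
    obtain ⟨h1, h2⟩ : a j = a' j ∧ b j = b' j := hx _ List.mem_cons_self
    have ih := fun m => cla_walk_congr (A := A) (E := E) (m := m)
      fun x h => hx x (List.mem_cons_of_mem _ h)
    simp only [Walk] at h ⊢
    exact ⟨h1 ▸ h.1, ih _ (h2 ▸ h.2)⟩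

theorem cla_opens_t (s : Bool) (j : ℕ) (E : List Ev) : opens (⟨s, true, j⟩ :: E) = j :: opens E := by
  simp [opens]

theorem cla_opens_f (s : Bool) (j : ℕ) (E : List Ev) : opens (⟨s, false, j⟩ :: E) = opens E := by
  simp [opens]

theorem cla_run_mem {ls rs ls' rs' : List ℕ} {E : List Ev} (h : Run ls rs E ls' rs') :
    ∀ x ∈ E, x.id ∈ opens E ∨ x.id ∈ ls ++ rs := by
  induction h with
  | nil => simp
  | oL _ ih | oR _ ih =>
    intro x hx
    rw [cla_opens_t]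
    rcases List.mem_cons.1 hx with rfl | hx
    · simp
    · have := ih x hx
      simp only [List.mem_cons, List.mem_append] at this ⊢
      tauto
  | cL _ ih | cR _ ih =>
    intro x hx
    rw [cla_opens_f]
    rcases List.mem_cons.1 hx with rfl | hx
    · simp
    · have := ih x hx
      simp only [List.mem_cons, List.mem_append] at this ⊢
      tauto

def cla_RZ (A : Finset ℕ) (E : List Ev) (S : List ℕ) (a b : ℕ → ZMod 2) (m : ZMod 2) : Prop :=
  ∃ a' b' : ℕ → ZMod 2, (∀ i ∈ S, a' i = a i ∧ b' i = b i) ∧ Walk A a' b' E m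

def cla_RN (A : Finset ℕ) (E : List Ev) (S : List ℕ) (a b : ℕ → ZMod 2) (m : ZMod 2) : Prop :=
  ∃ a' b' : ℕ → ZMod 2, (∀ i ∈ S, a' i = a i ∧ b' i = b i) ∧ Walk A a' b' E m ∧
    (m ≠ 0 ∨ ∃ i, (i ∈ opens E ∨ i ∈ S) ∧ (a' i ≠ 0 ∨ b' i ≠ 0))

section logic

variable {A : Finset ℕ} {E : List Ev} {S S' : List ℕ} {j : ℕ} {s : Bool} {a b a' b' : ℕ → ZMod 2}
  {m : ZMod 2}

theorem cla_agree (hj : j ∉ S) (hS : ∀ i, i ∈ S' ↔ i = j ∨ i ∈ S) (y z : ZMod 2) :
    (∀ i ∈ S', a' i = Function.update a j y i ∧ b' i = Function.update b j z i) ↔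
      (a' j = y ∧ b' j = z) ∧ ∀ i ∈ S, a' i = a i ∧ b' i = b i := by
  have hn : ∀ i ∈ S, i ≠ j := fun i hi e => hj (e ▸ hi)
  constructor
  · intro h
    refine ⟨by simpa using h j ((hS j).2 (Or.inl rfl)), fun i hi => ?_⟩
    simpa [hn i hi] using h i ((hS i).2 (Or.inr hi))
  · rintro ⟨h1, h2⟩ i hi
    rcases (hS i).1 hi with rfl | hi
    · simpa using h1
    · simpa [hn i hi] using h2 i hi

theorem cla_walk_open : Walk A a' b' (⟨s, true, j⟩ :: E) m ↔
    b' j = (if j ∈ A then m else a' j) ∧ Walk A a' b' E (if j ∈ A then a' j else m) := by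
  simp only [Walk]
  split_ifs
  · rfl
  · rw [eq_comm]

theorem cla_open (hj : j ∉ S) (hS : ∀ i, i ∈ S' ↔ i = j ∨ i ∈ S) :
    (cla_RZ A (⟨s, true, j⟩ :: E) S a b m ↔ ∃ y, cla_RZ A E S' (Function.update a j y)
      (Function.update b j (if j ∈ A then m else y)) (if j ∈ A then y else m)) ∧
    (cla_RN A (⟨s, true, j⟩ :: E) S a b m ↔ ∃ y, cla_RN A E S' (Function.update a j y)
      (Function.update b j (if j ∈ A then m else y)) (if j ∈ A then y else m) ∨
      (m ≠ 0 ∧ cla_RZ A E S' (Function.update a j y)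
        (Function.update b j (if j ∈ A then m else y)) (if j ∈ A then y else m))) := by
  simp only [cla_RZ, cla_RN, cla_agree hj hS]
  simp only [cla_walk_open, cla_opens_t, List.mem_cons, hS]
  refine ⟨⟨?_, ?_⟩, ?_, ?_⟩
  · rintro ⟨a', b', h1, h2, h3⟩
    exact ⟨a' j, a', b', ⟨⟨rfl, h2⟩, h1⟩, h3⟩
  · rintro ⟨y, a', b', ⟨⟨rfl, h2⟩, h1⟩, h3⟩
    exact ⟨a', b', h1, h2, h3⟩
  · rintro ⟨a', b', h1, ⟨h2, h3⟩, h4 | ⟨i, h4, h5⟩⟩
    · exact ⟨a' j, Or.inr ⟨h4, a', b', ⟨⟨rfl, h2⟩, h1⟩, h3⟩⟩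
    · exact ⟨a' j, Or.inl ⟨a', b', ⟨⟨rfl, h2⟩, h1⟩, h3, Or.inr ⟨i, by tauto, h5⟩⟩⟩
  · rintro ⟨y, ⟨a', b', ⟨⟨rfl, h2⟩, h1⟩, h3, h4 | ⟨i, h4, h5⟩⟩ | ⟨h4, a', b', ⟨⟨rfl, h2⟩, h1⟩, h3⟩⟩
    · refine ⟨a', b', h1, ⟨h2, h3⟩, ?_⟩
      split_ifs at h4
      · exact Or.inr ⟨j, by tauto, Or.inl h4⟩
      · exact Or.inl h4
    · exact ⟨a', b', h1, ⟨h2, h3⟩, Or.inr ⟨i, by tauto, h5⟩⟩
    · exact ⟨a', b', h1, ⟨h2, h3⟩, Or.inl h4⟩

theorem cla_close (hj : j ∉ S) (hS : ∀ i, i ∈ S' ↔ i = j ∨ i ∈ S) (ho : j ∉ opens E)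
    (hE : ∀ x ∈ E, x.id ∈ opens E ∨ x.id ∈ S) :
    (cla_RZ A (⟨s, false, j⟩ :: E) S' a b m ↔ m = a j ∧ cla_RZ A E S a b (b j)) ∧
    (cla_RN A (⟨s, false, j⟩ :: E) S' a b m ↔
      m = a j ∧ (cla_RN A E S a b (b j) ∨ (m ≠ 0 ∧ cla_RZ A E S a b (b j)))) := by
  have hn : ∀ i, i ∈ opens E ∨ i ∈ S → i ≠ j := by
    rintro i (hi | hi) rfl
    exacts [ho hi, hj hi]
  have h0 : ∀ a' b' : ℕ → ZMod 2, (∀ i ∈ S', a' i = a i ∧ b' i = b i) ↔
      (a' j = a j ∧ b' j = b j) ∧ ∀ i ∈ S, a' i = a i ∧ b' i = b i := fun a' b' => by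
    simpa using cla_agree (a := a) (b := b) (a' := a') (b' := b') hj hS (a j) (b j)
  have up : ∀ a' b' : ℕ → ZMod 2, (∀ i ∈ S, a' i = a i ∧ b' i = b i) → Walk A a' b' E (b j) →
      ∃ a'' b'' : ℕ → ZMod 2, ((a'' j = a j ∧ b'' j = b j) ∧ ∀ i ∈ S, a'' i = a i ∧ b'' i = b i) ∧
        Walk A a'' b'' E (b j) ∧ ∀ i, i ≠ j → a'' i = a' i ∧ b'' i = b' i := by
    intro a' b' h1 h2
    refine ⟨Function.update a' j (a j), Function.update b' j (b j), ⟨by simp, fun i hi => ?_⟩,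
      cla_walk_congr (fun x hx => ?_) h2, fun i hi => by simp [hi]⟩
    · simpa [hn i (Or.inr hi)] using h1 i hi
    · simp [hn _ (hE x hx)]
  simp only [cla_RZ, cla_RN, h0]
  simp only [Walk, cla_opens_f, hS]
  refine ⟨⟨?_, ?_⟩, ?_, ?_⟩
  · rintro ⟨a', b', ⟨⟨h1, h2⟩, h3⟩, h4, h5⟩
    exact ⟨h4.trans h1, a', b', h3, h2 ▸ h5⟩
  · rintro ⟨h1, a', b', h2, h3⟩
    obtain ⟨a'', b'', h4, h5, -⟩ := up a' b' h2 h3
    exact ⟨a'', b'', h4, h1.trans h4.1.1.symm, h4.1.2 ▸ h5⟩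
  · rintro ⟨a', b', ⟨⟨h1, h2⟩, h3⟩, ⟨h4, h5⟩, h6⟩
    refine ⟨h4.trans h1, ?_⟩
    rw [h2] at h5
    rcases h6 with h6 | ⟨i, h6 | rfl | h6, h7⟩
    · exact Or.inr ⟨h6, a', b', h3, h5⟩
    · exact Or.inl ⟨a', b', h3, h5, Or.inr ⟨i, Or.inl h6, h7⟩⟩
    · rcases h7 with h7 | h7
      · exact Or.inr ⟨h4 ▸ h7, a', b', h3, h5⟩
      · exact Or.inl ⟨a', b', h3, h5, Or.inl (h2 ▸ h7)⟩
    · exact Or.inl ⟨a', b', h3, h5, Or.inr ⟨i, Or.inr h6, h7⟩⟩
  · rintro ⟨h1, ⟨a', b', h2, h3, h6⟩ | ⟨h6, a', b', h2, h3⟩⟩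
    · obtain ⟨a'', b'', h4, h5, h7⟩ := up a' b' h2 h3
      refine ⟨a'', b'', h4, ⟨h1.trans h4.1.1.symm, h4.1.2 ▸ h5⟩, Or.inr ?_⟩
      rcases h6 with h6 | ⟨i, h6, h8⟩
      · exact ⟨j, by tauto, Or.inr (h4.1.2 ▸ h6)⟩
      · obtain ⟨e1, e2⟩ := h7 i (hn i h6)
        exact ⟨i, by tauto, e1 ▸ e2 ▸ h8⟩
    · obtain ⟨a'', b'', h4, h5, -⟩ := up a' b' h2 h3
      exact ⟨a'', b'', h4, ⟨h1.trans h4.1.1.symm, h4.1.2 ▸ h5⟩, Or.inl h6⟩

end logic

def cla_L (a b : ℕ → ZMod 2) (ls : List ℕ) : List (ZMod 2) := ls.reverse.flatMap fun j => [b j, a j]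

def cla_R (a b : ℕ → ZMod 2) (rs : List ℕ) : List (ZMod 2) := rs.flatMap fun j => [a j, b j]

theorem cla_L_cons (a b : ℕ → ZMod 2) (j : ℕ) (ls : List ℕ) (S : List (ZMod 2)) :
    cla_L a b (j :: ls) ++ S = cla_L a b ls ++ b j :: a j :: S := by
  simp [cla_L]

theorem cla_R_cons (a b : ℕ → ZMod 2) (j : ℕ) (rs : List ℕ) :
    cla_R a b (j :: rs) = a j :: b j :: cla_R a b rs := by
  simp [cla_R]

theorem cla_L_len (a b : ℕ → ZMod 2) (ls : List ℕ) : (cla_L a b ls).length = 2 * ls.length := by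
  induction ls with
  | nil => rfl
  | cons j ls ih =>
    rw [← List.append_nil (cla_L a b (j :: ls)), cla_L_cons]
    simp [ih]
    omega

theorem cla_upd (a b : ℕ → ZMod 2) {j : ℕ} {ls rs : List ℕ} (h : j ∉ ls ++ rs) (y z : ZMod 2) :
    cla_L (Function.update a j y) (Function.update b j z) ls = cla_L a b ls ∧
      cla_R (Function.update a j y) (Function.update b j z) rs = cla_R a b rs := by
  rw [List.mem_append, not_or] at h
  constructor
  · refine List.flatMap_congr fun i hi => ?_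
    have : i ≠ j := fun e => h.1 (e ▸ List.mem_reverse.1 hi)
    simp [this]
  · refine List.flatMap_congr fun i hi => ?_
    have : i ≠ j := fun e => h.2 (e ▸ hi)
    simp [this]

theorem cla_main (A : Finset ℕ) {ls rs ls' rs' : List ℕ} {E : List Ev} (h : Run ls rs E ls' rs')
    (h1 : ls' = []) (h2 : rs' = []) (hn : (opens E ++ (ls ++ rs)).Nodup) :
    ∀ (a b : ℕ → ZMod 2) (m : ZMod 2),
      (ExtZ (tl A (nf ls.length E)) (cla_cl (cla_L a b ls ++ m :: cla_R a b rs)) ↔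
        cla_RZ A E (ls ++ rs) a b m) ∧
      (ExtN (tl A (nf ls.length E)) (cla_cl (cla_L a b ls ++ m :: cla_R a b rs)) ↔
        cla_RN A E (ls ++ rs) a b m) := by
  induction h with
  | nil ls rs =>
    subst h1 h2
    intro a b m
    simp only [nf, nfT, tl, ExtZ, ExtN, cla_RZ, cla_RN, Walk, opens]
    refine ⟨⟨fun h => ⟨a, b, by simp, congrFun h 0⟩, ?_⟩, by simp⟩
    rintro ⟨_, _, -, rfl⟩
    funext k
    cases k <;> rfl
  | @oL ls rs ls' rs' E j _ ih =>
    intro a b m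
    rw [cla_opens_t] at hn
    have hj : j ∉ ls ++ rs := fun h => (List.nodup_cons.1 hn).1 (List.mem_append_right _ h)
    have ih := ih h1 h2 (List.perm_middle.nodup_iff.2 hn)
    have lg := cla_open (A := A) (E := E) (s := true) (a := a) (b := b) (m := m) hj
      (S' := j :: ls ++ rs) (fun i => by simp)
    rw [lg.1, lg.2]
    simp only [← fun a b m => (ih a b m).1, ← fun a b m => (ih a b m).2, cla_L_cons,
      (cla_upd a b hj _ _).1, (cla_upd a b hj _ _).2, Function.update_self]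
    by_cases hA : j ∈ A
    · simpa [cla_Op, nf, nfT, tl, hA] using
        cla_oLA _ (cla_R a b rs) (cla_L_len a b ls) m (tl A (nf (ls.length + 1) E))
    · simpa [cla_Op, nf, nfT, tl, hA] using
        cla_oLB _ (cla_R a b rs) (cla_L_len a b ls) m (tl A (nf (ls.length + 1) E))
  | @oR ls rs ls' rs' E j _ ih =>
    intro a b m
    rw [cla_opens_t] at hn
    have hj : j ∉ ls ++ rs := fun h => (List.nodup_cons.1 hn).1 (List.mem_append_right _ h)
    have ih := ih h1 h2 (by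
      rw [← List.append_assoc]
      exact List.perm_middle.nodup_iff.2 (by rw [List.append_assoc]; exact hn))
    have lg := cla_open (A := A) (E := E) (s := false) (a := a) (b := b) (m := m) hj
      (S' := ls ++ j :: rs) (fun i => by simp; tauto)
    rw [lg.1, lg.2]
    simp only [← fun a b m => (ih a b m).1, ← fun a b m => (ih a b m).2, cla_R_cons,
      (cla_upd a b hj _ _).1, (cla_upd a b hj _ _).2, Function.update_self]
    by_cases hA : j ∈ A
    · simpa [cla_Op, nf, nfT, tl, hA] using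
        cla_oRA _ (cla_R a b rs) (cla_L_len a b ls) m (tl A (nf ls.length E))
    · simpa [cla_Op, nf, nfT, tl, hA] using
        cla_oRB _ (cla_R a b rs) (cla_L_len a b ls) m (tl A (nf ls.length E))
  | @cL ls rs ls' rs' E j hr ih =>
    intro a b m
    rw [cla_opens_f] at hn
    have hn' : j ∉ opens E ++ (ls ++ rs) ∧ (opens E ++ (ls ++ rs)).Nodup :=
      List.nodup_cons.1 (List.perm_middle.nodup_iff.1 hn)
    have hj := hn'.1
    rw [List.mem_append, not_or] at hj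
    have ih := ih h1 h2 hn'.2
    have lg := cla_close (A := A) (E := E) (s := true) (a := a) (b := b) (m := m) hj.2
      (S' := j :: ls ++ rs) (fun i => by simp) hj.1 (cla_run_mem hr)
    rw [lg.1, lg.2, ← (ih a b _).1, ← (ih a b _).2, cla_L_cons]
    have hl : (cla_L a b ls ++ [b j]).length = 2 * (ls.length + 1) - 1 := by
      simp [cla_L_len]
      omega
    have e1 := cla_capZ _ (cla_R a b rs) hl (a j) m (tl A (nf ls.length E))
    have e2 := cla_capN _ (cla_R a b rs) hl (a j) m (tl A (nf ls.length E))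
    simp only [List.append_assoc, List.cons_append, List.nil_append] at e1 e2
    refine ⟨e1.trans (by rw [eq_comm]), e2.trans ?_⟩
    rw [eq_comm]
    exact and_congr_right fun e => by rw [e]
  | @cR ls rs ls' rs' E j hr ih =>
    intro a b m
    rw [cla_opens_f, ← List.append_assoc] at hn
    have hn' := List.nodup_cons.1 (List.perm_middle.nodup_iff.1 hn)
    rw [List.append_assoc] at hn'
    have hj := hn'.1
    rw [List.mem_append, not_or] at hj
    have ih := ih h1 h2 hn'.2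
    have lg := cla_close (A := A) (E := E) (s := false) (a := a) (b := b) (m := m) hj.2
      (S' := ls ++ j :: rs) (fun i => by simp; tauto) hj.1 (cla_run_mem hr)
    rw [lg.1, lg.2, ← (ih a b _).1, ← (ih a b _).2, cla_R_cons]
    exact ⟨cla_capZ _ _ (cla_L_len a b ls) m (a j) _, cla_capN _ _ (cla_L_len a b ls) m (a j) _⟩

theorem cla_NZ : ∀ {w : Word} {c : ℕ → ZMod 2}, ExtN w c → ExtZ w c
  | [], _, h => h.elim
  | (.cup, _) :: _, _, ⟨x, h⟩ => ⟨x, cla_NZ h⟩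
  | (.cap, _) :: _, _, ⟨h, h'⟩ => ⟨h, h'.elim cla_NZ And.right⟩
  | (.cr _, _) :: w, _, h => cla_NZ (w := w) h

theorem cla_tail (A : Finset ℕ) : ∀ {T : Tm} {n m : ℕ} {c : ℕ → ZMod 2}, TV n T m →
    ExtZ (tl A T) c → ∀ k, n ≤ k → c k = 0
  | [], _, _, _, _, h, k, _ => congrFun h k
  | (.cup, i) :: T, n, m, c, ⟨h1, h2⟩, ⟨x, h⟩, k, hk => by
    simp only [TK.inp, TK.out] at h1 h2
    have := cla_tail A h2 h (k + 2) (by omega)
    unfold insC at this
    rwa [if_neg (by omega), if_neg (by omega)] at this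
  | (.cap, i) :: T, n, m, c, ⟨h1, h2⟩, ⟨_, h⟩, k, hk => by
    simp only [TK.inp, TK.out] at h1 h2
    have := cla_tail A h2 h (k - 2) (by omega)
    unfold delC at this
    rwa [if_neg (by omega), show k - 2 + 2 = k by omega] at this
  | (.box j ρ, i) :: T, n, m, c, ⟨h1, h2⟩, ⟨x, y, h⟩, k, hk => by
    simp only [TK.inp, TK.out] at h1 h2
    have := cla_tail A h2 h (k + 4) (by omega)
    unfold insC at this
    rwa [if_neg (by split_ifs <;> omega), if_neg (by split_ifs <;> omega), if_neg (by omega),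
      if_neg (by omega)] at this

theorem extN_iff {E : List Ev} (h : WF E) (A : Finset ℕ) :
    (∃ c : ℕ → ZMod 2, (∀ x y, cupR 0 Eq x y → c x = c y) ∧ ExtN (tl A (nf 0 E)) c) ↔
      ∃ a b, Walk A a b E 0 ∧ ∃ j ∈ ids E, a j ≠ 0 ∨ b j ≠ 0 := by
  have key := (cla_main A h.1 rfl rfl (by simpa using h.2) 0 0 0).2
  have e0 : cla_cl (cla_L 0 0 [] ++ 0 :: cla_R 0 0 []) = 0 := by
    funext k
    cases k <;> rfl
  rw [e0] at key
  have e1 : cla_RN A E ([] ++ []) 0 0 0 ↔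
      ∃ a b, Walk A a b E 0 ∧ ∃ j ∈ ids E, a j ≠ 0 ∨ b j ≠ 0 := by
    simp [cla_RN, ids]
  rw [← e1, ← key]
  constructor
  · rintro ⟨c, h1, h2⟩
    have h3 := cla_tail A (h.1.tv (fun _ => 0) 0) (cla_NZ h2)
    have h4 : c = 0 := by
      funext k
      cases k with
      | zero => exact (h1 0 1 (by simp [cupR])).trans (h3 1 (by simp))
      | succ k => exact h3 _ (by simp)
    exact h4 ▸ h2
  · exact fun h2 => ⟨0, fun _ _ _ => rfl, h2⟩

end Pool.Agent.Lib.MP_7bc610_gt
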