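import Pool.Agent.Lib.MP_7bc610_gt.H9Il
import Pool.Agent.Lib.MP_7bc610_gt.EqFixWalk

/-!
Walks and the kernel of the interlace matrix.
-/

namespace Pool.Agent.Lib.MP_7bc610_gt

open LaurentPolynomial

/-- The sum of `v` over the events of a list. -/
def clb_sm (v : ℕ → ZMod 2) (P : List Ev) : ZMod 2 := (P.map fun x => v x.id).sum

/-- The condition imposed by one event on the main colour. -/
def clb_cond (A : Finset ℕ) (a b : ℕ → ZMod 2) (x : Ev) (m : ZMod 2) : Prop :=
  if x.opn then (if x.id ∈ A then b x.id = m else a x.id = b x.id) else m = a x.id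

theorem clb_sm_cons (v : ℕ → ZMod 2) (x : Ev) (P : List Ev) :
    clb_sm v (x :: P) = v x.id + clb_sm v P := by simp [clb_sm]

theorem clb_sm_append (v : ℕ → ZMod 2) (P Q : List Ev) :
    clb_sm v (P ++ Q) = clb_sm v P + clb_sm v Q := by simp [clb_sm]

theorem clb_cons (A : Finset ℕ) (a b : ℕ → ZMod 2) (x : Ev) (S : List Ev) (m : ZMod 2) :
    Walk A a b (x :: S) m ↔ clb_cond A a b x m ∧ Walk A a b S (m + (a x.id + b x.id)) := by
  have h1 : ∀ p q : ZMod 2, q + (p + q) = p := by decide
  have h2 : ∀ p q : ZMod 2, q + (p + p) = q := by decide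
  have h3 : ∀ p q : ZMod 2, p + (p + q) = q := by decide
  rcases x with ⟨s, _ | _, j⟩
  · simp only [Walk, clb_cond, Bool.false_eq_true, if_false]
    exact and_congr_right fun h => by rw [h, h3]
  · simp only [Walk, clb_cond, if_true]
    split_ifs
    · exact and_congr_right fun h => by rw [← h, h1]
    · exact and_congr_right fun h => by rw [h, h2]

theorem clb_walk (A : Finset ℕ) (a b : ℕ → ZMod 2) (S : List Ev) (m : ZMod 2) :
    Walk A a b S m ↔ (∀ P x S', S = P ++ x :: S' →
      clb_cond A a b x (m + clb_sm (fun j => a j + b j) P)) ∧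
        m + clb_sm (fun j => a j + b j) S = 0 := by
  induction S generalizing m with
  | nil => simp [Walk, clb_sm]
  | cons y S ih =>
    rw [clb_cons, ih, clb_sm_cons, ← add_assoc m _ (clb_sm _ S), ← and_assoc]
    apply and_congr_left'
    refine ⟨fun h P x S' e => ?_, fun h => ⟨?_, fun P x S' e => ?_⟩⟩
    · cases P with
      | nil =>
        obtain ⟨rfl, -⟩ := List.cons.inj e
        simpa [clb_sm] using h.1
      | cons z P =>
        obtain ⟨rfl, e'⟩ := List.cons.inj e
        rw [clb_sm_cons, ← add_assoc]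
        exact h.2 P x S' e'
    · simpa [clb_sm] using h [] y S rfl
    · have := h (y :: P) x S' (by rw [e]; rfl)
      rwa [clb_sm_cons, ← add_assoc] at this

theorem clb_count (v : ℕ → ZMod 2) (I : Finset ℕ) (P : List Ev) (h : ∀ x ∈ P, x.id ∈ I) :
    clb_sm v P = ∑ f ∈ I, ((P.filter fun x => x.id = f).length : ZMod 2) * v f := by
  induction P with
  | nil => simp [clb_sm]
  | cons x P ih =>
    rw [clb_sm_cons, ih fun y hy => h y (List.mem_cons_of_mem _ hy)]
    have e : v x.id = ∑ f ∈ I, if x.id = f then v f else 0 := by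
      rw [Finset.sum_ite_eq, if_pos (h x List.mem_cons_self)]
    rw [e, ← Finset.sum_add_distrib]
    refine Finset.sum_congr rfl fun f _ => ?_
    by_cases hf : x.id = f
    · simp [hf, add_mul, add_comm]
    · simp [hf]

open Classical in
theorem clb_mid {E : List Ev} (h : WF E) {A : Finset ℕ} (hA : A ⊆ ids E) {v : ℕ → ZMod 2}
    (hv : ∀ f ∈ ids E, f ∉ A → v f = 0) {s : Bool} {e : ℕ} {pre mid post : List Ev}
    (hE : E = pre ++ ⟨s, true, e⟩ :: (mid ++ ⟨s, false, e⟩ :: post)) :
    clb_sm v mid = ∑ f ∈ A.filter (il E e), v f := by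
  have hs : List.Sublist mid E := by
    rw [hE]
    exact ((List.sublist_append_left _ _).cons _).trans (List.sublist_append_right _ _)
  rw [clb_count v (ids E) mid fun x hx => h.mem_ids (hs.subset hx), Finset.sum_filter,
    ← Finset.sum_subset hA fun f h1 h2 => by rw [hv f h1 h2, mul_zero]]
  refine Finset.sum_congr rfl fun f _ => ?_
  have h1 := h.count_le hs f
  rw [h.il_iff hE]
  generalize (mid.filter fun x => x.id = f).length = n at h1 ⊢
  interval_cases n
  · simp
  · simp
  · rw [if_neg (by norm_num), show ((2 : ℕ) : ZMod 2) = 0 from rfl, zero_mul]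

theorem clb_total {E : List Ev} (h : WF E) (v : ℕ → ZMod 2) : clb_sm v E = 0 := by
  rw [clb_count v (ids E) E fun x hx => h.mem_ids hx]
  refine Finset.sum_eq_zero fun f hf => ?_
  obtain ⟨s, pre, mid, post, hE⟩ := h.split hf
  have h1 := (h.only hE).2
  have h2 : ∀ l : List Ev, (∀ z ∈ l, z ∈ pre ++ mid ++ post) →
      (l.filter fun x => x.id = f) = [] := fun l hl =>
    List.filter_eq_nil_iff.2 fun z hz => by simpa using h1 z (hl z hz)
  have h3 : (E.filter fun x => x.id = f).length = 2 := by
    rw [hE]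
    simp [List.filter_append, h2 pre (by simp +contextual),
      h2 mid (by simp +contextual), h2 post (by simp +contextual)]
  rw [h3, show ((2 : ℕ) : ZMod 2) = 0 from rfl, zero_mul]

theorem clb_loc {E : List Ev} (h : WF E) {s : Bool} {pre mid post P S : List Ev} {x : Ev}
    (hE : E = pre ++ ⟨s, true, x.id⟩ :: (mid ++ ⟨s, false, x.id⟩ :: post)) (e : E = P ++ x :: S) :
    (x.opn = true ∧ P = pre) ∨ (x.opn = false ∧ P = pre ++ ⟨s, true, x.id⟩ :: mid) := by
  have h1 := (h.only hE).2
  have h2 := h.nodup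
  rw [e, List.nodup_middle, List.nodup_cons, List.mem_append, not_or] at h2
  have h3 : x ∈ E := by simp [e]
  rw [hE] at h3
  have h4 : x = ⟨s, true, x.id⟩ ∨ x = ⟨s, false, x.id⟩ := by
    by_contra h5
    rw [not_or] at h5
    exact h1 x (by simpa [h5.1, h5.2, or_assoc] using h3) rfl
  rcases h4 with h4 | h4
  · refine Or.inl ⟨by rw [h4], ?_⟩
    rw [← h4] at hE
    exact ((List.append_cons_inj_of_notMem h2.1.1 h2.1.2).1 (e.symm.trans hE)).1
  · refine Or.inr ⟨by rw [h4], ?_⟩
    rw [← h4, ← List.cons_append, ← List.append_assoc] at hE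
    exact ((List.append_cons_inj_of_notMem h2.1.1 h2.1.2).1 (e.symm.trans hE)).1

theorem walk_iff {E : List Ev} (h : WF E) {A : Finset ℕ} (hA : A ⊆ ids E) :
    (∃ a b, Walk A a b E 0 ∧ ∃ j ∈ ids E, a j ≠ 0 ∨ b j ≠ 0) ↔ ¬KT (il E) A := by
  classical
  constructor
  · rintro ⟨a, b, hw, j, hj, hne⟩ hK
    have h1 := ((clb_walk A a b E 0).1 hw).1
    simp only [zero_add] at h1
    have h2 : ∀ {s e pre mid post}, E = pre ++ ⟨s, true, e⟩ :: (mid ++ ⟨s, false, e⟩ :: post) →
        clb_sm (fun j => a j + b j) (pre ++ ⟨s, true, e⟩ :: mid) = a e := fun hE => by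
      rw [← List.cons_append, ← List.append_assoc] at hE
      simpa [clb_cond] using h1 _ _ _ hE
    have h3 : ∀ f ∈ ids E, f ∉ A → a f + b f = 0 := fun f hf hf' => by
      obtain ⟨s, pre, mid, post, hE⟩ := h.split hf
      have h4 : a f = b f := by simpa [clb_cond, hf'] using h1 _ _ _ hE
      rw [h4]
      exact CharTwo.add_self_eq_zero _
    have h4 := hK (fun j => a j + b j) fun e he => by
      obtain ⟨s, pre, mid, post, hE⟩ := h.split (hA he)
      have h5 : b e = clb_sm (fun j => a j + b j) pre := by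
        simpa [clb_cond, he] using h1 _ _ _ hE
      have h6 := h2 hE
      rw [clb_sm_append, clb_sm_cons, ← h5, clb_mid h hA h3 hE] at h6
      have h7 : ∀ p q r : ZMod 2, q + (p + q + r) = p → r = 0 := by decide
      exact h7 _ _ _ h6
    have h5 : ∀ f ∈ ids E, a f + b f = 0 := fun f hf => by
      by_cases hf' : f ∈ A
      · exact h4 f hf'
      · exact h3 f hf hf'
    obtain ⟨s, pre, mid, post, hE⟩ := h.split hj
    have h6 : a j = 0 := by
      rw [← h2 hE]
      refine List.sum_eq_zero fun y hy => ?_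
      obtain ⟨x, hx, rfl⟩ := List.mem_map.1 hy
      refine h5 _ (h.mem_ids ?_)
      rw [hE, ← List.cons_append, ← List.append_assoc]
      exact List.mem_append_left _ hx
    have h7 := h5 j hj
    rw [h6, zero_add] at h7
    exact hne.elim (fun h8 => h8 h6) fun h8 => h8 h7
  · intro hK
    simp only [KT, not_forall] at hK
    obtain ⟨v, hv, e, he, hne⟩ := hK
    obtain ⟨w, hw⟩ : ∃ w : ℕ → ZMod 2, w = fun f => if f ∈ A then v f else 0 := ⟨_, rfl⟩
    choose! s pre mid post hE using fun j (hj : j ∈ ids E) => h.split hj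
    obtain ⟨a, ha⟩ : ∃ a : ℕ → ZMod 2, a = fun j => clb_sm w (pre j ++ ⟨s j, true, j⟩ :: mid j) :=
      ⟨_, rfl⟩
    have h1 : ∀ p q : ZMod 2, p + (p + q) = q := by decide
    refine ⟨a, fun j => a j + w j, (clb_walk _ _ _ _ _).2 ?_, e, hA he, ?_⟩
    · simp only [h1, zero_add]
      refine ⟨fun P x S' e' => ?_, clb_total h _⟩
      have hx : x.id ∈ ids E := h.mem_ids (by simp [e'])
      rcases clb_loc h (hE _ hx) e' with ⟨h2, rfl⟩ | ⟨h2, rfl⟩
      · simp only [clb_cond, h2, if_true]
        split_ifs with h3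
        · have h4 : clb_sm w (mid x.id) = 0 := by
            rw [clb_mid h hA (fun f _ hf => by simp [hw, hf]) (hE _ hx), ← hv _ h3]
            exact Finset.sum_congr rfl fun f hf => by simp [hw, (Finset.mem_filter.1 hf).1]
          simp only [ha, clb_sm_append, clb_sm_cons, h4, add_zero, add_assoc]
          rw [CharTwo.add_self_eq_zero, add_zero]
        · simp [hw, h3]
      · simp [clb_cond, h2, ha]
    · by_contra h2
      simp only [not_or, not_not] at h2
      have h3 := h2.2
      rw [h2.1, zero_add, hw] at h3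
      exact hne (by simpa [he] using h3)

end Pool.Agent.Lib.MP_7bc610_gt
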