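import Pool.Agent.Lib.MP_7bc610_gt.H9Col
import Pool.Agent.Lib.MP_7bc610_gt.H9CLa
import Pool.Agent.Lib.MP_7bc610_gt.H9CLb

/-!
One-loop states and the interlace matrix.
-/

namespace Pool.Agent.Lib.MP_7bc610_gt

open LaurentPolynomial

theorem lam_eq_zero {E : List Ev} (h : WF E) {A : Finset ℕ} (hA : A ⊆ ids E) :
    lam E A = 0 ↔ KT (il E) A := by
  have hv : Valid 2 (tl A (nf 0 E)) 2 := (h.1.tv (fun _ => 0) 1).valid_tl A
  have := loops_ne_zero_iff (pm_eq.cup le_rfl) hv (noCr_tl A _)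
  rw [extN_iff h, walk_iff h hA] at this
  exact not_iff_not.1 this

end Pool.Agent.Lib.MP_7bc610_gt
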