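import Pool.Agent.Lib.MP_7bc610_gt.H9Il

/-!
An innermost chord of a star forest.
-/

namespace Pool.Agent.Lib.MP_7bc610_gt

open LaurentPolynomial

theorem cfg_one {α : Type} (p : α → Bool) (l : List α) (h : 1 ≤ (l.filter p).length) :
    ∃ a x b, l = a ++ x :: b ∧ p x = true := by
  have : l.filter p ≠ [] := by
    intro h0
    rw [h0] at h
    simp at h
  obtain ⟨x, hx⟩ := List.exists_mem_of_ne_nil _ this
  rw [List.mem_filter] at hx
  obtain ⟨a, b, hab⟩ := List.append_of_mem hx.1
  exact ⟨a, x, b, hab, hx.2⟩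

theorem cfg_two {α : Type} (p : α → Bool) (l : List α) (h : 2 ≤ (l.filter p).length) :
    ∃ a x m y b, l = a ++ x :: (m ++ y :: b) ∧ p x = true ∧ p y = true := by
  induction l with
  | nil => simp at h
  | cons z l ih =>
    by_cases hz : p z = true
    · rw [List.filter_cons_of_pos hz, List.length_cons] at h
      obtain ⟨m, y, b, hl, hy⟩ := cfg_one p l (by omega)
      exact ⟨[], z, m, y, b, by rw [hl]; rfl, hz, hy⟩
    · rw [List.filter_cons_of_neg hz] at h
      obtain ⟨a, x, m, y, b, hl, hx, hy⟩ := ih h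
      exact ⟨z :: a, x, m, y, b, by rw [hl]; rfl, hx, hy⟩

theorem cfg_filter {E : List Ev} (h : WF E) {y : ℕ} (hy : y ∈ ids E) :
    ∃ t : Bool, (E.filter fun x => x.id = y) = [⟨t, true, y⟩, ⟨t, false, y⟩] := by
  obtain ⟨t, p, m, q, hE⟩ := h.split hy
  have ho := (h.only hE).2
  refine ⟨t, ?_⟩
  have hp : (p.filter fun x => decide (x.id = y)) = [] := by
    rw [List.filter_eq_nil_iff]
    intro z hz
    have := ho z (by simp [hz])
    simpa using this
  have hm : (m.filter fun x => decide (x.id = y)) = [] := by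
    rw [List.filter_eq_nil_iff]
    intro z hz
    have := ho z (by simp [hz])
    simpa using this
  have hq : (q.filter fun x => decide (x.id = y)) = [] := by
    rw [List.filter_eq_nil_iff]
    intro z hz
    have := ho z (by simp [hz])
    simpa using this
  rw [hE, List.filter_append, hp, List.filter_cons_of_pos (by simp), List.filter_append, hm,
    List.filter_cons_of_pos (by simp), hq]
  rfl

theorem cfg_inner {E : List Ev} (h : WF E) {u v : Ev} {pre mid post : List Ev}
    (hE : E = pre ++ u :: (mid ++ v :: post)) {y : ℕ}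
    (hc : 2 ≤ (mid.filter fun x => x.id = y).length) :
    y ∈ ids E ∧ ∃ (t : Bool) (p m q : List Ev),
      E = p ++ ⟨t, true, y⟩ :: (m ++ ⟨t, false, y⟩ :: q) ∧ m.length < mid.length ∧
        List.Sublist m mid := by
  obtain ⟨a, x1, m, x2, b, hl, h1, h2⟩ := cfg_two _ mid hc
  have h1' : x1.id = y := by simpa using h1
  have h2' : x2.id = y := by simpa using h2
  have hE' : E = (pre ++ u :: a) ++ x1 :: (m ++ x2 :: (b ++ v :: post)) := by
    rw [hE, hl]; simp
  have hy : y ∈ ids E := by
    rw [← h1']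
    exact h.mem_ids (by rw [hE']; simp)
  refine ⟨hy, ?_⟩
  obtain ⟨t, ht⟩ := cfg_filter h hy
  have hs : List.Sublist [x1, x2] E := by
    rw [hE']
    refine List.Sublist.trans ?_ (List.sublist_append_right _ _)
    refine List.Sublist.cons_cons _ ?_
    refine List.Sublist.trans ?_ (List.sublist_append_right _ _)
    exact List.Sublist.cons_cons _ (List.nil_sublist _)
  have hs2 := hs.filter (fun x => decide (x.id = y))
  have hf : ([x1, x2].filter fun x => decide (x.id = y)) = [x1, x2] := by
    rw [List.filter_eq_self]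
    intro z hz
    simp only [List.mem_cons, List.not_mem_nil, or_false] at hz
    rcases hz with rfl | rfl
    · exact h1
    · exact h2
  rw [ht, hf] at hs2
  have he := hs2.eq_of_length rfl
  simp only [List.cons.injEq, and_true] at he
  refine ⟨t, pre ++ u :: a, m, b ++ v :: post, ?_, ?_, ?_⟩
  · rw [← he.1, ← he.2]; exact hE'
  · rw [hl]; simp; omega
  · rw [hl]
    refine List.Sublist.trans ?_ (List.sublist_append_right _ _)
    exact List.Sublist.cons _ (List.sublist_append_left _ _)

theorem config {E : List Ev} (h : WF E) (hne : E ≠ []) (g : ℕ → Prop)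
    (h1 : ∀ a b, g a → g b → ¬il E a b) (h2 : ∀ a b, ¬g a → ¬g b → ¬il E a b)
    (h3 : ∀ e a b, g e → il E e a → il E e b → a = b) :
    (∃ pre s e post, E = pre ++ ⟨s, true, e⟩ :: ⟨s, false, e⟩ :: post) ∨
      ∃ pre s e x post, E = pre ++ ⟨s, true, e⟩ :: x :: ⟨s, false, e⟩ :: post ∧ g e ∧ ¬g x.id ∧
        il E e x.id := by
  classical
  have hnb : ∀ y, ¬(g y ∨ ∀ z, ¬il E y z) → ∃ z, g z ∧ il E y z := by
    intro y hy
    rw [not_or, not_forall] at hy
    obtain ⟨hg, z, hz⟩ := hy
    have hz' : il E y z := not_not.mp hz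
    refine ⟨z, ?_, hz'⟩
    by_contra hgz
    exact h2 y z hg hgz hz'
  have hex : ∃ n, ∃ (s : Bool) (e : ℕ) (pre mid post : List Ev),
      E = pre ++ ⟨s, true, e⟩ :: (mid ++ ⟨s, false, e⟩ :: post) ∧
        (g e ∨ ∀ z, ¬il E e z) ∧ mid.length = n := by
    obtain ⟨x, hx⟩ := List.exists_mem_of_ne_nil _ hne
    by_cases hC : g x.id ∨ ∀ z, ¬il E x.id z
    · obtain ⟨s, p, m, q, hE⟩ := h.split (h.mem_ids hx)
      exact ⟨_, s, x.id, p, m, q, hE, hC, rfl⟩
    · obtain ⟨z, hgz, hz⟩ := hnb _ hC
      obtain ⟨s, p, m, q, hE⟩ := h.split (il_mem hz).2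
      exact ⟨_, s, z, p, m, q, hE, Or.inl hgz, rfl⟩
  obtain ⟨s, e, pre, mid, post, hE, hC, hn⟩ := Nat.find_spec hex
  have hmin : ∀ (t : Bool) (y : ℕ) (p m q : List Ev),
      E = p ++ ⟨t, true, y⟩ :: (m ++ ⟨t, false, y⟩ :: q) → m.length < mid.length →
        ¬(g y ∨ ∀ z, ¬il E y z) := by
    intro t y p m q hE' hlt hy
    exact Nat.find_min hex (hn ▸ hlt) ⟨t, y, p, m, q, hE', hy, rfl⟩
  have hall : ∀ x ∈ mid, (mid.filter fun z => z.id = x.id).length = 1 := by
    intro x hx
    have hpos : 1 ≤ (mid.filter fun z => z.id = x.id).length := by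
      apply List.length_pos_of_mem (a := x)
      rw [List.mem_filter]
      exact ⟨hx, by simp⟩
    by_contra hne1
    obtain ⟨_, t, p, m, q, hE', hlt, hsub⟩ := cfg_inner h hE (y := x.id) (by omega)
    obtain ⟨z, hgz, hz⟩ := hnb _ (hmin t _ p m q hE' hlt)
    have hc1 := (h.il_iff hE').1 hz
    have hc2 := (hsub.filter fun w => decide (w.id = z)).length_le
    by_cases hc3 : (mid.filter fun w => w.id = z).length = 1
    · have hil := (h.il_iff hE).2 hc3
      rcases hC with hg | hiso
      · exact h1 e z hg hgz hil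
      · exact hiso z hil
    · obtain ⟨_, t', p', m', q', hE'', hlt', _⟩ := cfg_inner h hE (y := z) (by omega)
      exact hmin t' z p' m' q' hE'' hlt' (Or.inl hgz)
  rcases mid with _ | ⟨x, mid'⟩
  · exact Or.inl ⟨pre, s, e, post, hE⟩
  · have hx := (h.il_iff hE).2 (hall x List.mem_cons_self)
    have hg : g e := by
      rcases hC with hg | hiso
      · exact hg
      · exact absurd hx (hiso _)
    have hfull : ((x :: mid').filter fun z => decide (z.id = x.id)) = x :: mid' := by
      rw [List.filter_eq_self]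
      intro z hz
      have := h3 e z.id x.id hg ((h.il_iff hE).2 (hall z hz)) hx
      simpa using this
    have hlen := hall x List.mem_cons_self
    rw [hfull, List.length_cons] at hlen
    have hnil : mid' = [] := List.eq_nil_of_length_eq_zero (by omega)
    subst hnil
    exact Or.inr ⟨pre, s, e, x, post, hE, hg, fun hgx => h1 e x.id hg hgx hx, hx⟩

end Pool.Agent.Lib.MP_7bc610_gt
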