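import Pool.Agent.Lib.MP_7bc610_gt.H9Loops

/-!
Loops and colourings.
-/

namespace Pool.Agent.Lib.MP_7bc610_gt

open LaurentPolynomial

theorem col9_del_ins (i : ℕ) (x : ZMod 2) (c : ℕ → ZMod 2) : delC i (insC i x c) = c := by
  funext a
  unfold delC insC
  by_cases h : a < i
  · simp [h]
  · have h1 : ¬ a + 2 < i := by omega
    have h2 : ¬ a + 2 < i + 2 := by omega
    simp only [h, h1, h2, if_false, Nat.add_sub_cancel]

theorem col9_ins_del (i : ℕ) (c : ℕ → ZMod 2) (h : c i = c (i + 1)) :
    insC i (c i) (delC i c) = c := by
  funext a
  unfold insC delC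
  by_cases h1 : a < i
  · simp [h1]
  · by_cases h2 : a < i + 2
    · simp only [h1, h2, if_false, if_true]
      rcases (by omega : a = i ∨ a = i + 1) with rfl | rfl
      · rfl
      · exact h
    · have h3 : ¬ a - 2 < i := by omega
      simp only [h1, h2, h3, if_false]
      congr 1
      omega

theorem col9_ins_zero (i : ℕ) : insC i 0 0 = 0 := by
  funext a
  unfold insC
  simp

theorem col9_del_zero (i : ℕ) : delC i 0 = 0 := by
  funext a
  unfold delC
  simp

theorem col9_extZ_zero (w : Word) : ExtZ w 0 := by
  induction w with
  | nil => rfl
  | cons g w ih =>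
    obtain ⟨k, i⟩ := g
    cases k with
    | cup => exact ⟨0, by rw [col9_ins_zero]; exact ih⟩
    | cap => exact ⟨rfl, by rw [col9_del_zero]; exact ih⟩
    | cr e => exact ih

theorem col9_extN_of_ne (w : Word) {c : ℕ → ZMod 2} (hc : c ≠ 0) (h : ExtZ w c) : ExtN w c := by
  induction w generalizing c with
  | nil => exact absurd h hc
  | cons g w ih =>
    obtain ⟨k, i⟩ := g
    cases k with
    | cup =>
      obtain ⟨x, hx⟩ := h
      refine ⟨x, ih ?_ hx⟩
      intro h0
      apply hc
      rw [← col9_del_ins i x c, h0, col9_del_zero]
    | cap =>
      obtain ⟨h1, h2⟩ := h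
      refine ⟨h1, ?_⟩
      by_cases hi : c i = 0
      · left
        refine ih ?_ h2
        intro h0
        apply hc
        rw [← col9_ins_del i c h1, h0, hi, col9_ins_zero]
      · exact Or.inr ⟨hi, h2⟩
    | cr e => exact ih hc h

theorem col9_ins_mid (i : ℕ) (x : ZMod 2) (c : ℕ → ZMod 2) {a : ℕ} (h : a = i ∨ a = i + 1) :
    insC i x c a = x := by
  unfold insC
  rcases h with rfl | rfl <;> simp

theorem col9_ins_out (i : ℕ) (x : ZMod 2) (c : ℕ → ZMod 2) {a : ℕ} (h1 : a ≠ i)
    (h2 : a ≠ i + 1) : insC i x c a = c (if a < i then a else a - 2) := by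
  unfold insC
  by_cases h : a < i
  · simp [h]
  · have h3 : ¬ a < i + 2 := by omega
    simp only [h, h3, if_false]

theorem col9_del_eq (i : ℕ) (c : ℕ → ZMod 2) (a : ℕ) :
    delC i c a = c (if a < i then a else a + 2) := by
  unfold delC
  split_ifs <;> rfl

theorem col9_up_down {i a : ℕ} (h1 : a ≠ i) (h2 : a ≠ i + 1) :
    (if (if a < i then a else a - 2) < i then (if a < i then a else a - 2)
      else (if a < i then a else a - 2) + 2) = a := by
  split_ifs <;> omega

theorem col9_down_up (i a : ℕ) :
    (if (if a < i then a else a + 2) < i then (if a < i then a else a + 2)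
      else (if a < i then a else a + 2) - 2) = a := by
  split_ifs <;> omega

theorem loops_ne_zero_iff {n m : ℕ} {r : ℕ → ℕ → Prop} {w : Word} (h : PM n r)
    (hv : Valid n w m) (hw : NoCr w) :
    loops w r ≠ 0 ↔ ∃ c : ℕ → ZMod 2, (∀ a b, r a b → c a = c b) ∧ ExtN w c := by
  induction w generalizing n r with
  | nil =>
    constructor
    · intro h0
      exact absurd rfl h0
    · rintro ⟨c, -, hc⟩
      exact hc.elim
  | cons g w ih =>
    obtain ⟨k, i⟩ := g
    have hw' : NoCr w := fun e j hm => hw e j (List.mem_cons_of_mem _ hm)
    cases k with
    | cr e => exact absurd List.mem_cons_self (hw e i)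
    | cup =>
      obtain ⟨hi, hv'⟩ := hv
      have hi' : i ≤ n := hi
      have hv'' : Valid (n + 2) w m := hv'
      have key := ih (h.cup hi') hv'' hw'
      change loops w (cupR i r) ≠ 0 ↔ ∃ c : ℕ → ZMod 2, (∀ a b, r a b → c a = c b) ∧
        ∃ x, ExtN w (insC i x c)
      rw [key]
      constructor
      · rintro ⟨c, hc, hN⟩
        have h01 : c i = c (i + 1) := hc _ _ (Or.inl ⟨Or.inl rfl, Or.inr rfl⟩)
        refine ⟨delC i c, ?_, c i, by rw [col9_ins_del i c h01]; exact hN⟩
        intro a b hab
        rw [col9_del_eq, col9_del_eq]
        apply hc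
        refine Or.inr ⟨?_, ?_, ?_, ?_, ?_⟩
        · split_ifs <;> omega
        · split_ifs <;> omega
        · split_ifs <;> omega
        · split_ifs <;> omega
        · rw [col9_down_up, col9_down_up]
          exact hab
      · rintro ⟨c, hc, x, hN⟩
        refine ⟨insC i x c, ?_, hN⟩
        intro a b hab
        rcases hab with ⟨ha, hb⟩ | ⟨ha1, ha2, hb1, hb2, hab⟩
        · rw [col9_ins_mid i x c ha, col9_ins_mid i x c hb]
        · rw [col9_ins_out i x c ha1 ha2, col9_ins_out i x c hb1 hb2]
          exact hc _ _ hab
    | cap =>
      obtain ⟨hi, hv'⟩ := hv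
      have hi' : i + 2 ≤ n := hi
      obtain ⟨n', rfl⟩ : ∃ n', n = n' + 2 := ⟨n - 2, by omega⟩
      have hv'' : Valid n' w m := by
        have : n' + 2 - Kind.cap.inp + Kind.cap.out = n' := by
          simp [Kind.inp, Kind.out]
        rw [this] at hv'
        exact hv'
      have key := ih (h.cap (i := i) (by omega)) hv'' hw'
      have he := h.1
      obtain ⟨p, -, hpi, hip, hpu⟩ := h.2 i (by omega)
      obtain ⟨q, -, hqi, hiq, hqu⟩ := h.2 (i + 1) (by omega)
      classical
      change ((if r i (i + 1) then 1 else 0) + loops w (capR i r) ≠ 0) ↔
        ∃ c : ℕ → ZMod 2, (∀ a b, r a b → c a = c b) ∧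
          (c i = c (i + 1) ∧ (ExtN w (delC i c) ∨ (c i ≠ 0 ∧ ExtZ w (delC i c))))
      by_cases hr : r i (i + 1)
      · have hp : p = i + 1 := by
          rcases hpu _ hr with h1 | h1
          · omega
          · exact h1.symm
        subst hp
        constructor
        · intro _
          refine ⟨insC i 1 0, ?_, ?_, Or.inr ⟨?_, ?_⟩⟩
          · intro a b hab
            by_cases ha : a = i ∨ a = i + 1
            · have hia : r i a := by
                rcases ha with rfl | rfl
                · exact he.refl _
                · exact hr
              have hb := hpu b (he.trans hia hab)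
              rw [col9_ins_mid i 1 0 ha, col9_ins_mid i 1 0 hb]
            · have hb : ¬ (b = i ∨ b = i + 1) := by
                intro hb
                have hib : r i b := by
                  rcases hb with rfl | rfl
                  · exact he.refl _
                  · exact hr
                exact ha (hpu a (he.trans hib (he.symm hab)))
              push Not at ha hb
              rw [col9_ins_out i 1 0 ha.1 ha.2, col9_ins_out i 1 0 hb.1 hb.2]
              rfl
          · rw [col9_ins_mid i 1 0 (Or.inl rfl), col9_ins_mid i 1 0 (Or.inr rfl)]
          · rw [col9_ins_mid i 1 0 (Or.inl rfl)]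
            exact one_ne_zero
          · rw [col9_del_ins]
            exact col9_extZ_zero w
        · intro _
          simp [hr]
      · have hp1 : p ≠ i + 1 := by
          rintro rfl
          exact hr hip
        have hq0 : q ≠ i := by
          rintro rfl
          exact hr (he.symm hiq)
        simp only [hr, if_false, zero_add]
        rw [key]
        constructor
        · rintro ⟨c, hc, hN⟩
          have hpq : c (if p < i then p else p - 2) = c (if q < i then q else q - 2) := by
            apply hc
            refine Or.inr (Or.inl ⟨?_, ?_⟩)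
            · rw [col9_up_down hpi hp1]
              exact he.symm hip
            · rw [col9_up_down hq0 hqi]
              exact hiq
          have hmid : ∀ a b, r a b → (a = i ∨ a = i + 1) →
              insC i (c (if p < i then p else p - 2)) c a =
                insC i (c (if p < i then p else p - 2)) c b := by
            intro a b hab ha
            by_cases hb : b = i ∨ b = i + 1
            · rw [col9_ins_mid i _ c ha, col9_ins_mid i _ c hb]
            · push Not at hb
              rw [col9_ins_mid i _ c ha, col9_ins_out i _ c hb.1 hb.2]
              rcases ha with rfl | rfl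
              · rcases hpu b hab with h1 | h1
                · exact absurd h1 hb.1
                · rw [h1]
              · rcases hqu b hab with h1 | h1
                · exact absurd h1 hb.2
                · rw [h1, hpq]
          refine ⟨insC i (c (if p < i then p else p - 2)) c, ?_, ?_, Or.inl ?_⟩
          · intro a b hab
            by_cases ha : a = i ∨ a = i + 1
            · exact hmid a b hab ha
            · by_cases hb : b = i ∨ b = i + 1
              · exact (hmid b a (he.symm hab) hb).symm
              · push Not at ha hb
                rw [col9_ins_out i _ c ha.1 ha.2, col9_ins_out i _ c hb.1 hb.2]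
                apply hc
                refine Or.inl ?_
                rw [col9_up_down ha.1 ha.2, col9_up_down hb.1 hb.2]
                exact hab
          · rw [col9_ins_mid i _ c (Or.inl rfl), col9_ins_mid i _ c (Or.inr rfl)]
          · rw [col9_del_ins]
            exact hN
        · rintro ⟨c, hc, h01, hN⟩
          refine ⟨delC i c, ?_, ?_⟩
          · intro a b hab
            rw [col9_del_eq, col9_del_eq]
            rcases hab with hab | ⟨h1, h2⟩ | ⟨h1, h2⟩
            · exact hc _ _ hab
            · rw [hc _ _ h1, h01, hc _ _ h2]
            · rw [hc _ _ h1, ← h01, hc _ _ h2]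
          · rcases hN with hN | ⟨hne, hZ⟩
            · exact hN
            · refine col9_extN_of_ne w ?_ hZ
              intro h0
              apply hne
              have h1 := congrFun h0 (if p < i then p else p - 2)
              rw [col9_del_eq, col9_up_down hpi hp1] at h1
              rw [hc _ _ hip]
              exact h1

end Pool.Agent.Lib.MP_7bc610_gt
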