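import Pool.Agent.Lib.MP_7bc610_gt.H9Rot
import Pool.Agent.Lib.MP_7bc610_gt.EqFixFrac

/-!
From diagrams with tangles to templates.
-/

namespace Pool.Agent.Lib.MP_7bc610_gt

open LaurentPolynomial

theorem conv_down (e : Bool) (i : ℕ) :
    Rw [(.cup, i + 1), (.cup, i + 2), (.cr (!e), i + 1), (.cap, i), (.cap, i + 2)]
      [(.cr e, i)] := by
  have h1 : Rw [(.cr (!e), i + 1), (.cap, i)] [(.cr e, i), (.cap, i + 1)] := by
    refine Rw.back (Rw.move (.slideCap e i)) fun n m hv => ?_
    simp only [Valid, Kind.inp, Kind.out] at hv ⊢; omega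
  have s1 : Rw [(.cup, i + 1), (.cup, i + 2), (.cr (!e), i + 1), (.cap, i), (.cap, i + 2)]
      [(.cup, i + 1), (.cup, i + 2), (.cr e, i), (.cap, i + 1), (.cap, i + 2)] :=
    h1.ctx [_, _] [_]
  have s2 : Rw [(.cup, i + 1), (.cup, i + 2), (.cr e, i), (.cap, i + 1), (.cap, i + 2)]
      [(.cup, i + 1), (.cr e, i), (.cup, i + 2), (.cap, i + 1), (.cap, i + 2)] :=
    (Rw.commB (.cr e) .cup (q := i + 2) (q' := i + 2) le_rfl rfl _).cons _
  have s3 : Rw [(.cup, i + 1), (.cr e, i), (.cup, i + 2), (.cap, i + 1), (.cap, i + 2)]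
      [(.cup, i + 1), (.cr e, i), (.cap, i + 2)] :=
    (Rw.move (.zig (i + 1))).ctx [_, _] [_]
  have s4 : Rw [(.cup, i + 1), (.cr e, i), (.cap, i + 2)]
      [(.cup, i), (.cr (!e), i + 1), (.cap, i + 2)] :=
    (Rw.move (.slideCup e i)).right [_]
  have s5 : Rw [(.cup, i), (.cr (!e), i + 1), (.cap, i + 2)]
      [(.cup, i), (.cr e, i + 2), (.cap, i + 1)] := by
    have := (Rw.move (.slideCap (!e) (i + 1))).cons (.cup, i)
    rwa [Bool.not_not] at this
  have s6 : Rw [(.cup, i), (.cr e, i + 2), (.cap, i + 1)]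
      [(.cr e, i), (.cup, i), (.cap, i + 1)] :=
    Rw.commF .cup (.cr e) (q := i + 2) (q' := i) le_rfl rfl _
  have s7 : Rw [(.cr e, i), (.cup, i), (.cap, i + 1)] [(.cr e, i)] :=
    (Rw.move (.zag i)).cons _
  exact s1.trans (s2.trans (s3.trans (s4.trans (s5.trans (s6.trans s7)))))

theorem conv_up (e : Bool) (i : ℕ) :
    Rw [(.cr e, i)]
      [(.cup, i + 1), (.cup, i + 2), (.cr (!e), i + 1), (.cap, i), (.cap, i + 2)] := by
  refine Rw.back (conv_down e i) fun n m hv => ?_
  simp only [Valid, Kind.inp, Kind.out] at hv ⊢; omega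

theorem conv_fresh (l : List ℕ) : l.sum + 1 ∉ l := fun h => by
  have := List.single_le_sum (l := l) (fun _ _ => Nat.zero_le _) _ h
  omega

theorem conv_mm {X : ℕ → AT} {j k : ℕ} (Y : AT) (h : k ≠ j) :
    mm (Function.update X j Y) k = mm X k := by
  simp only [mm, Function.update_of_ne h]

theorem conv_itp {X : ℕ → AT} {j : ℕ} (Y : AT) {u : Tm} (h : j ∉ tids u) :
    itp (Function.update X j Y) u = itp X u :=
  itp_congr fun k hk => Function.update_of_ne (fun e : k = j => h (e ▸ hk)) _ _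

theorem conv_pow (a : ℕ) : ((-1 : ℤ)) ^ (a % 2) = (-1) ^ a :=
  (neg_one_pow_eq_pow_mod_two a).symm

theorem conv9 (D : List (Piece × ℕ)) {n m : ℕ} (hv : Valid n (expand D) m) :
    ∃ (u : Tm) (X : ℕ → AT), TV n u m ∧ (tids u).Nodup ∧ Isotopic n m (expand D) (itp X u) ∧
      ∀ x ∈ bp u, ∃ g ∈ D, (-1) ^ x.2 * mm X x.1 = (-1) ^ g.2 * g.1.sgn := by
  induction D generalizing n with
  | nil =>
    exact ⟨[], fun _ => .zero, hv, List.nodup_nil, Isotopic.refl _, fun x hx => by cases hx⟩
  | cons g D ih =>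
    obtain ⟨P, i⟩ := g
    obtain ⟨k, h1, h2⟩ := valid_append.1 hv
    obtain ⟨u, X, hu, hn, hi, hs⟩ := ih h2
    have hiso : Isotopic n m (expand ((P, i) :: D)) (shift i P.word ++ itp X u) := by
      have := hi.ctx h1 (s := []) (b := m) rfl
      simpa only [List.append_nil, expand] using this
    have fin : ∀ (u' : Tm) (X' : ℕ → AT), Rw (shift i P.word ++ itp X u) (itp X' u') →
        (tids u').Nodup →
        (∀ x ∈ bp u', ∃ g ∈ (P, i) :: D, (-1) ^ x.2 * mm X' x.1 = (-1) ^ g.2 * g.1.sgn) →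
        ∃ (u : Tm) (X : ℕ → AT), TV n u m ∧ (tids u).Nodup ∧
          Isotopic n m (expand ((P, i) :: D)) (itp X u) ∧
          ∀ x ∈ bp u, ∃ g ∈ (P, i) :: D, (-1) ^ x.2 * mm X x.1 = (-1) ^ g.2 * g.1.sgn := by
      intro u' X' hr hn' hs'
      have h3 := hiso.trans (hr n m (hiso.valid_iff.1 hv))
      exact ⟨u', X', (tv_iff X').2 (h3.valid_iff.1 hv), hn', h3, hs'⟩
    have hs1 : ∀ x ∈ bp u, ∃ g ∈ (P, i) :: D, (-1) ^ x.2 * mm X x.1 = (-1) ^ g.2 * g.1.sgn :=
      fun x hx => by
        obtain ⟨g, hg, e⟩ := hs x hx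
        exact ⟨g, List.mem_cons_of_mem _ hg, e⟩
    have hj := conv_fresh (tids u)
    generalize (tids u).sum + 1 = j at hj
    have hs2 : ∀ Y : AT, ∀ x ∈ bp u, ∃ g ∈ (P, i) :: D,
        (-1) ^ x.2 * mm (Function.update X j Y) x.1 = (-1) ^ g.2 * g.1.sgn := fun Y x hx => by
      rw [conv_mm Y fun e : x.1 = j => hj (e ▸ List.mem_map_of_mem hx)]
      exact hs1 x hx
    cases P with
    | base kd =>
      cases kd with
      | cup => exact fin ((.cup, i) :: u) X (Rw.refl _) hn hs1
      | cap => exact fin ((.cap, i) :: u) X (Rw.refl _) hn hs1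
      | cr e =>
        refine fin ((.box j 0, i + 1) :: (.cap, i) :: (.cap, i + 2) :: u)
          (Function.update X j (.twist 0 (!e) .zero)) ?_ (List.nodup_cons.2 ⟨hj, hn⟩) ?_
        · have := (conv_up e i).right (itp X u)
          simp only [itp, TK.body, rotN, Function.update_self, conv_itp _ hj, AT.dia, Piece.word,
            shift_cons, shift_nil, List.cons_append, List.nil_append, Fin.val_zero, Nat.zero_add]
          rwa [show 1 + (i + 1) = i + 2 by omega]
        · intro x hx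
          rcases List.mem_cons.1 hx with rfl | hx
          · refine ⟨_, List.mem_cons_self, ?_⟩
            simp only [conv_pow, mm, Function.update_self, AT.frac, Piece.sgn]
            cases e <;> simp [pow_succ]
          · exact hs2 _ x hx
    | tangle Y =>
      refine fin ((.box j 0, i) :: u) (Function.update X j Y) ?_ (List.nodup_cons.2 ⟨hj, hn⟩) ?_
      · simp only [itp, TK.body, rotN, Function.update_self, conv_itp _ hj, Piece.word]
        exact Rw.refl _
      · intro x hx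
        rcases List.mem_cons.1 hx with rfl | hx
        · refine ⟨_, List.mem_cons_self, ?_⟩
          simp only [conv_pow, mm, Function.update_self, Piece.sgn, Nat.add_zero]
        · exact hs2 _ x hx

end Pool.Agent.Lib.MP_7bc610_gt
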