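import Pool.Agent.Lib.MP_7bc610_gt.H9Fin

/-!
Special cases: arborescent diagrams and alternating diagrams.
-/

namespace Pool.Agent.Lib.MP_7bc610_gt

open LaurentPolynomial

/-- The arborescent case. -/
theorem arborescent_case (X : AT) (k : ℤ)
    (h : stateSum X.closure = loopVal * T k ∨ stateSum X.closure = -(loopVal * T k)) :
    Isotopic 0 0 X.closure [(Kind.cup, 0), (Kind.cap, 0)] := by
  have e : expand [(.tangle X, 0), (.base .cap, 1), (.base .cap, 0)] = X.closure := by
    simp [expand, Piece.word, AT.closure]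
  rw [← e] at h ⊢
  refine final9 _ ?_ ?_ k h
  · rw [e]
    exact valid_append.2 ⟨4, X.valid, by simp [Valid, Kind.inp, Kind.out]⟩
  · rcases le_total 0 (X.frac.2 * X.frac.1) with h | h
    · left; simpa [Piece.sgn] using h
    · right; simpa [Piece.sgn] using h

/-- The alternating case: all crossings have the same type relative to the checkerboard
colouring. -/
theorem alternating_case (w : Word) (hv : Valid 0 w 0) (s : Bool)
    (ha : ∀ e i, (Kind.cr e, i) ∈ w → (e = s ↔ i % 2 = 0)) (k : ℤ)
    (h : stateSum w = loopVal * T k ∨ stateSum w = -(loopVal * T k)) :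
    Isotopic 0 0 w [(Kind.cup, 0), (Kind.cap, 0)] := by
  have e : ∀ w : Word, expand (w.map fun g => (.base g.1, g.2)) = w := fun w => by
    induction w with
    | nil => rfl
    | cons g w ih => simp [expand, Piece.word, ih]
  rw [← e w] at h hv ⊢
  refine final9 _ hv ?_ k h
  have key : ∀ g ∈ w, (if s then 1 else -1) * ((-1) ^ g.2 * (Piece.base g.1).sgn) ≥ 0 := by
    rintro ⟨_ | _ | e, i⟩ hg
    · simp [Piece.sgn]
    · simp [Piece.sgn]
    · have := ha e i hg
      rw [neg_one_pow_eq_pow_mod_two]
      rcases Nat.mod_two_eq_zero_or_one i with hi | hi <;> cases e <;> cases s <;>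
        simp_all [Piece.sgn]
  cases s
  · right
    intro g hg
    obtain ⟨g', hg', rfl⟩ := List.mem_map.1 hg
    simpa using key g' hg'
  · left
    intro g hg
    obtain ⟨g', hg', rfl⟩ := List.mem_map.1 hg
    simpa using key g' hg'

end Pool.Agent.Lib.MP_7bc610_gt
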