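import Pool.Agent.Lib.MP_7bc610_gt.Defs

/-!
Diagrams containing algebraic tangles, and algebraically alternating diagrams.
-/

namespace Pool.Agent.Lib.MP_7bc610_gt

/-- Conway's fraction `a / b` of an algebraic tangle, as the pair `(b, a)`. -/
def AT.frac : AT → ℤ × ℤ
  | .zero => (1, 0)
  | .twist i e X =>
      if i = 1 then (X.frac.1 - (if e then 1 else -1) * X.frac.2, X.frac.2)
      else (X.frac.1, X.frac.2 + (if e then 1 else -1) * X.frac.1)
  | .add X Y => (X.frac.1 * Y.frac.1, X.frac.2 * Y.frac.1 + X.frac.1 * Y.frac.2)
  | .rot X => (-X.frac.2, X.frac.1)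

/-- A piece of a diagram: an elementary piece or a whole algebraic tangle. -/
inductive Piece where
  | base : Kind → Piece
  | tangle : AT → Piece

/-- The diagram of a piece. -/
def Piece.word : Piece → Word
  | .base k => [(k, 0)]
  | .tangle X => X.dia

/-- The diagram obtained by drawing every piece at its position. -/
def expand : List (Piece × ℕ) → Word
  | [] => []
  | (P, i) :: D => shift i P.word ++ expand D

/-- An integer with the sign of the slope of a piece: `±1` for a crossing, `a b` for a tangle
with fraction `a / b` (so `0` for the slopes `0` and `∞`), and `0` for an extremum. -/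
def Piece.sgn : Piece → ℤ
  | .base (.cr e) => if e then 1 else -1
  | .base .cup => 0
  | .base .cap => 0
  | .tangle X => X.frac.2 * X.frac.1

/-- Algebraically alternating: measured against the checkerboard colouring given by the parity
of the number of strands to the left, all nonzero signs of the pieces agree. -/
def AlgAlt (D : List (Piece × ℕ)) : Prop :=
  (∀ g ∈ D, 0 ≤ (-1) ^ g.2 * g.1.sgn) ∨ ∀ g ∈ D, (-1) ^ g.2 * g.1.sgn ≤ 0

end Pool.Agent.Lib.MP_7bc610_gt
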