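import Pool.Agent.Lib.MP_7bc610_gt.H9Rot

/-!
Dragging a box along a strand with one maximum.
-/

namespace Pool.Agent.Lib.MP_7bc610_gt

open LaurentPolynomial

theorem drag_interB {Y : Tm} {n0 m0 : ℕ} (hY : TV n0 Y m0) (i j : ℕ) (h : i ≤ j) (W : Tm) :
    TR (tshift (j + n0) W ++ tshift i Y) (tshift i Y ++ tshift (j + m0) W) := by
  cases W with
  | nil => simpa using TR.refl (tshift i Y)
  | cons g W =>
    obtain ⟨k, q⟩ := g
    refine ⟨fun X n m hv => ?_, (TR.inter hY i j h _).2.symm⟩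
    have hv' := (tv_iff X).2 hv
    have h1 : j + n0 ≤ n := by
      have h2 : q + (j + n0) + k.inp ≤ n := hv'.1
      omega
    exact (TI.interB hY h h1 hv').2.1 X

theorem drag_unrot (f ρ : ℕ) {j : ℕ} (hj : j < 4) : ∃ U C : Tm, ∀ p,
    TR [(.box f ρ, p)] (tshift p U ++ (.box f (ρ + j), p + j) :: tshift (p + j + 1) C) := by
  have h1 := fun p => tr_unrot f ρ p
  have h2 : ∀ p, TR [(.box f ρ, p)] [(.cup, p), (.cup, p + 1), (.box f (ρ + 1 + 1), p + 1 + 1),
      (.cap, p + 1 + 4), (.cap, p + 4)] := fun p =>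
    (h1 p).trans ((tr_unrot f (ρ + 1) (p + 1)).ctx [(.cup, p)] [(.cap, p + 4)])
  have h3 : ∀ p, TR [(.box f ρ, p)] [(.cup, p), (.cup, p + 1), (.cup, p + 1 + 1),
      (.box f (ρ + 1 + 1 + 1), p + 1 + 1 + 1), (.cap, p + 1 + 1 + 4),
      (.cap, p + 1 + 4), (.cap, p + 4)] := fun p =>
    (h2 p).trans ((tr_unrot f (ρ + 1 + 1) (p + 1 + 1)).ctx [(.cup, p), (.cup, p + 1)]
      [(.cap, p + 1 + 4), (.cap, p + 4)])
  interval_cases j
  · exact ⟨[], [], fun p => TR.refl _⟩
  · refine ⟨[(.cup, 0)], [(.cap, 2)], fun p => ?_⟩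
    have e : (tshift p [(.cup, 0)] ++ (.box f (ρ + 1), p + 1) :: tshift (p + 1 + 1) [(.cap, 2)] :
        Tm) = [(.cup, p), (.box f (ρ + 1), p + 1), (.cap, p + 4)] := by
      simp only [tshift_cons, tshift_nil, List.cons_append, List.nil_append, List.cons.injEq,
        Prod.mk.injEq, true_and, and_true]
      omega
    rw [e]
    exact h1 p
  · refine ⟨[(.cup, 0), (.cup, 1)], [(.cap, 2), (.cap, 1)], fun p => ?_⟩
    have e : (tshift p [(.cup, 0), (.cup, 1)] ++ (.box f (ρ + 2), p + 2) ::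
        tshift (p + 2 + 1) [(.cap, 2), (.cap, 1)] : Tm) =
        [(.cup, p), (.cup, p + 1), (.box f (ρ + 1 + 1), p + 1 + 1),
          (.cap, p + 1 + 4), (.cap, p + 4)] := by
      simp only [tshift_cons, tshift_nil, List.cons_append, List.nil_append, List.cons.injEq,
        Prod.mk.injEq, true_and, and_true]
      omega
    rw [e]
    exact h2 p
  · refine ⟨[(.cup, 0), (.cup, 1), (.cup, 2)], [(.cap, 2), (.cap, 1), (.cap, 0)], fun p => ?_⟩
    have e : (tshift p [(.cup, 0), (.cup, 1), (.cup, 2)] ++ (.box f (ρ + 3), p + 3) ::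
        tshift (p + 3 + 1) [(.cap, 2), (.cap, 1), (.cap, 0)] : Tm) =
        [(.cup, p), (.cup, p + 1), (.cup, p + 1 + 1),
          (.box f (ρ + 1 + 1 + 1), p + 1 + 1 + 1), (.cap, p + 1 + 1 + 4),
          (.cap, p + 1 + 4), (.cap, p + 4)] := by
      simp only [tshift_cons, tshift_nil, List.cons_append, List.nil_append, List.cons.injEq,
        Prod.mk.injEq, true_and, and_true]
      omega
    rw [e]
    exact h3 p

theorem drag_rot (f ρ : ℕ) {j t : ℕ} (hj : j + t = 3) : ∃ U C : Tm, TV 0 U (2 * t) ∧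
    TV (2 * t) C 0 ∧ ∀ p,
    TR [(.box f ρ, p)] (tshift p U ++ (.box f (ρ + j + 1), t + p) :: tshift p C) := by
  have h0 := fun p => tr_rot4 f ρ p
  have h1 : ∀ p, TR [(.box f ρ, p)] [(.cup, p), (.box f (ρ + 3), p + 1), (.cap, p)] := fun p =>
    (h0 p).trans (tr_rot f (ρ + 3) p)
  have h2 : ∀ p, TR [(.box f ρ, p)] [(.cup, p), (.cup, p + 1), (.box f (ρ + 2), p + 1 + 1),
      (.cap, p + 1), (.cap, p)] := fun p =>
    (h1 p).trans ((tr_rot f (ρ + 2) (p + 1)).ctx [(.cup, p)] [(.cap, p)])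
  have h3 : ∀ p, TR [(.box f ρ, p)] [(.cup, p), (.cup, p + 1), (.cup, p + 1 + 1),
      (.box f (ρ + 1), p + 1 + 1 + 1), (.cap, p + 1 + 1), (.cap, p + 1), (.cap, p)] := fun p =>
    (h2 p).trans ((tr_rot f (ρ + 1) (p + 1 + 1)).ctx [(.cup, p), (.cup, p + 1)]
      [(.cap, p + 1), (.cap, p)])
  have ht : t < 4 := by omega
  obtain rfl : j = 3 - t := by omega
  interval_cases t
  · refine ⟨[], [], rfl, rfl, fun p => ?_⟩
    simpa using h0 p
  · refine ⟨[(.cup, 0)], [(.cap, 0)], by simp [TV, TK.inp, TK.out], by simp [TV, TK.inp, TK.out],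
      fun p => ?_⟩
    simpa [Nat.add_comm 1 p] using h1 p
  · refine ⟨[(.cup, 0), (.cup, 1)], [(.cap, 1), (.cap, 0)], by simp [TV, TK.inp, TK.out],
      by simp [TV, TK.inp, TK.out], fun p => ?_⟩
    simpa [Nat.add_comm 1 p, Nat.add_comm 2 p] using h2 p
  · refine ⟨[(.cup, 0), (.cup, 1), (.cup, 2)], [(.cap, 2), (.cap, 1), (.cap, 0)],
      by simp [TV, TK.inp, TK.out], by simp [TV, TK.inp, TK.out], fun p => ?_⟩
    simpa [Nat.add_comm 1 p, Nat.add_comm 2 p, Nat.add_comm 3 p] using h3 p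

theorem drag_eq {u v v' : Tm} (h : TR u v) (e : v = v') : TR u v' := e ▸ h

theorem dragR {n m i j f ρ : ℕ} {wa M R4 : Tm} (hj : j < 4) (hM : TV (i + j) M 0)
    (hn : m < n)
    (hv : TV n (tshift (m + 1) (wa ++ (.box f ρ, i) :: M) ++ (.cap, m) :: R4) 0) :
    ∃ R', TI n 0 (tshift (m + 1) (wa ++ (.box f ρ, i) :: M) ++ (.cap, m) :: R4)
      ((.box f (ρ + j), m + 1) :: (.cap, m) :: R') := by
  obtain ⟨U, C, h⟩ := drag_unrot f ρ hj
  refine ⟨tshift (m + 3) (wa ++ tshift i U ++ M) ++ tshift m C ++ R4, TR.ti ?_ hv⟩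
  have s1 := (h (i + (m + 1))).ctx (tshift (m + 1) wa) (tshift (m + 1) M ++ (.cap, m) :: R4)
  have s2 := (drag_interB hM (m + 1) (m + 1) le_rfl ((.box f (ρ + j), 0) :: tshift 1 C)).ctx
    (tshift (m + 1) (wa ++ tshift i U)) ((.cap, m) :: R4)
  have hc : TV 2 [(.cap, 0)] 0 := by simp [TV, TK.inp, TK.out]
  have s3 := (drag_interB hc m m le_rfl C).ctx
    (tshift (m + 1) (wa ++ tshift i U ++ M) ++ [(.box f (ρ + j), m + 1)]) R4
  have hg : TV 1 [(.box f (ρ + j), 1), (.cap, 0)] 3 := by simp [TV, TK.inp, TK.out]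
  have s4 := (drag_interB hg m m le_rfl (wa ++ tshift i U ++ M)).right (tshift m C ++ R4)
  refine drag_eq (TR.trans (drag_eq (TR.trans (drag_eq (TR.trans (drag_eq
    (TR.trans (drag_eq (TR.refl _) ?_) s1) ?_) s2) ?_) s3) ?_) s4) ?_
  · simp
  · simp only [tshift_append, tshift_tshift, tshift_cons, List.append_assoc, List.cons_append]
    rw [show i + (m + 1) + j = 0 + (m + 1 + (i + j)) by omega,
      show 0 + (m + 1 + (i + j)) + 1 = 1 + (m + 1 + (i + j)) by omega]
  · simp only [tshift_append, tshift_tshift, tshift_cons, tshift_nil, List.append_assoc,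
      List.cons_append, List.nil_append, Nat.zero_add, Nat.add_zero]
    rw [show 1 + (m + 1) = m + 2 by omega]
  · simp only [tshift_append, tshift_tshift, tshift_cons, tshift_nil, List.append_assoc,
      List.cons_append, List.nil_append, Nat.zero_add, Nat.add_zero, Nat.add_comm 1 m]
  · simp only [tshift_append, tshift_tshift, tshift_cons, tshift_nil, List.append_assoc,
      List.cons_append, List.nil_append, Nat.zero_add, Nat.add_zero, Nat.add_comm 1 m]

theorem dragL {n m m1 i j f ρ : ℕ} {wa M R4 : Tm} (hj : j < 4) (hwa : TV m wa m1) (hi : i ≤ m1)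
    (hM : TV (m1 + 3 - i - j) M 0) (hn : m < n)
    (hv : TV n (wa ++ (.box f ρ, i) :: tshift (i + j + 1) M ++ (.cap, i + j) :: R4) 0) :
    ∃ R', TI n 0 (wa ++ (.box f ρ, i) :: tshift (i + j + 1) M ++ (.cap, i + j) :: R4)
      ((.box f (ρ + j), m + 1) :: (.cap, m) :: R') := by
  obtain ⟨t, ht⟩ : ∃ t, j + t = 3 := ⟨3 - j, by omega⟩
  obtain ⟨U, C, hU, hC, h⟩ := drag_rot f ρ ht
  refine ⟨(wa ++ tshift i U ++ tshift (i + t) M) ++ tshift i C ++ R4, TR.ti ?_ hv⟩
  have s1 := (h i).ctx wa (tshift (i + j + 1) M ++ (.cap, i + j) :: R4)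
  have hB : TV t ((.box f (ρ + j + 1), t) :: C) (j + 1) := by
    refine ⟨by simp [TK.inp], ?_⟩
    have := hC.tshift 0 (j + 1)
    rw [tshift_zero, show 2 * t + 0 + (j + 1) = t - 0 + 4 by omega,
      show 0 + 0 + (j + 1) = j + 1 by omega] at this
    exact this
  have s2 := (TR.inter hB i i le_rfl M).ctx (wa ++ tshift i U) ((.cap, i + j) :: R4)
  have s3 := (TR.inter hC i (i + j) (by omega) [(.cap, 0)]).ctx
    (wa ++ tshift i U ++ tshift (i + t) M ++ [(.box f (ρ + j + 1), t + i)]) R4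
  have hW : TV m (wa ++ tshift i U ++ tshift (i + t) M) (i + t) := by
    refine tv_append.2 ⟨m1 + 2 * t, tv_append.2 ⟨m1, hwa, ?_⟩, ?_⟩
    · have := hU.tshift i (m1 - i)
      rwa [show 0 + i + (m1 - i) = m1 by omega,
        show 2 * t + i + (m1 - i) = m1 + 2 * t by omega] at this
    · have := hM.tshift (i + t) 0
      rwa [show m1 + 3 - i - j + (i + t) + 0 = m1 + 2 * t by omega,
        show 0 + (i + t) + 0 = i + t by omega] at this
  have s4 := (TR.inter hW 0 0 le_rfl [(.box f (ρ + j + 1), 0), (.cap, 3)]).right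
    (tshift i C ++ R4)
  have s5 := (tr_oL_oR f (ρ + j) m).right
    ((wa ++ tshift i U ++ tshift (i + t) M) ++ tshift i C ++ R4)
  refine TR.trans (drag_eq (TR.trans (drag_eq (TR.trans (drag_eq (TR.trans (drag_eq
    (TR.trans (drag_eq (TR.refl _) ?_) s1) ?_) s2) ?_) s3) ?_) s4) ?_) s5
  · simp
  · simp only [tshift_cons, List.append_assoc, List.cons_append, Nat.add_assoc]
  · simp only [tshift_cons, tshift_nil, List.append_assoc,
      List.cons_append, List.nil_append, Nat.zero_add, Nat.add_zero]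
  · simp only [tshift_cons, tshift_nil, tshift_zero, List.append_assoc,
      List.cons_append, List.nil_append, Nat.zero_add]
    rw [show i + j + 2 * t = 3 + (i + t) by omega, Nat.add_comm t i]
  · simp only [tshift_cons, tshift_nil, tshift_zero, List.append_assoc,
      List.cons_append, List.nil_append, Nat.zero_add, Nat.add_comm 3 m]

end Pool.Agent.Lib.MP_7bc610_gt
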