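import Pool.Agent.Lib.MP_7bc610_gt.H9Base

/-!
Multi-affine state sums.
-/

namespace Pool.Agent.Lib.MP_7bc610_gt

open LaurentPolynomial

section

variable {S : Type} [CommRing S] {d : S} {W U W' U' : ℕ → S} {I : Finset ℕ}
  {ℓ ℓ' : Finset ℕ → ℕ}

theorem Zs_empty : Zs d W U ∅ ℓ = d ^ ℓ ∅ := by simp [Zs]

theorem Zs_insert {f : ℕ} (hf : f ∉ I) :
    Zs d W U (insert f I) ℓ = U f * Zs d W U I ℓ + W f * Zs d W U I fun A => ℓ (insert f A) := by
  simp only [Zs, Finset.sum_powerset_insert hf, Finset.mul_sum]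
  congr 1
  · refine Finset.sum_congr rfl fun A hA => ?_
    have hA' : f ∉ A := fun h => hf (Finset.mem_powerset.1 hA h)
    rw [Finset.insert_sdiff_of_notMem _ hA', Finset.prod_insert (by simp [hf])]
    ring
  · refine Finset.sum_congr rfl fun A hA => ?_
    have hA' : f ∉ A := fun h => hf (Finset.mem_powerset.1 hA h)
    rw [Finset.prod_insert hA', Finset.insert_sdiff_insert, Finset.sdiff_insert_of_notMem hf]
    ring

theorem Zs_erase {f : ℕ} (hf : f ∈ I) :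
    Zs d W U I ℓ = U f * Zs d W U (I.erase f) ℓ +
      W f * Zs d W U (I.erase f) fun A => ℓ (insert f A) := by
  rw [← Zs_insert (Finset.notMem_erase f I), Finset.insert_erase hf]

theorem Zs_congr (h1 : ∀ j ∈ I, W j = W' j) (h2 : ∀ j ∈ I, U j = U' j)
    (h3 : ∀ A ⊆ I, ℓ A = ℓ' A) : Zs d W U I ℓ = Zs d W' U' I ℓ' := by
  refine Finset.sum_congr rfl fun A hA => ?_
  have hA' := Finset.mem_powerset.1 hA
  rw [h3 A hA', Finset.prod_congr rfl fun j hj => h1 j (hA' hj),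
    Finset.prod_congr rfl fun j hj => h2 j (Finset.mem_sdiff.1 hj).1]

theorem Zs_succ : (Zs d W U I fun A => ℓ A + 1) = d * Zs d W U I ℓ := by
  simp only [Zs, Finset.mul_sum]
  exact Finset.sum_congr rfl fun A _ => by ring

theorem map_Zs {S' : Type} [CommRing S'] (φ : S →+* S') :
    φ (Zs d W U I ℓ) = Zs (φ d) (fun j => φ (W j)) (fun j => φ (U j)) I ℓ := by
  simp [Zs]

theorem Zs_scale (v : ℕ → S) :
    Zs d (fun j => v j * W j) (fun j => v j * U j) I ℓ = (∏ j ∈ I, v j) * Zs d W U I ℓ := by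
  simp only [Zs, Finset.mul_sum, Finset.prod_mul_distrib]
  refine Finset.sum_congr rfl fun A hA => ?_
  rw [← Finset.prod_sdiff (Finset.mem_powerset.1 hA)]
  ring

theorem Zs_ind {A : Finset ℕ} (hA : A ⊆ I) (h1 : ∀ j ∈ I, W j = if j ∈ A then 1 else 0)
    (h2 : ∀ j ∈ I, U j = if j ∈ A then 0 else 1) : Zs d W U I ℓ = d ^ ℓ A := by
  rw [Zs, Finset.sum_eq_single A]
  · rw [Finset.prod_eq_one fun j hj => by rw [h1 j (hA hj), if_pos hj],
      Finset.prod_eq_one fun j hj => by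
        rw [h2 j (Finset.mem_sdiff.1 hj).1, if_neg (Finset.mem_sdiff.1 hj).2]]
    ring
  · intro B hB hne
    have hB' := Finset.mem_powerset.1 hB
    by_cases h : B ⊆ A
    · obtain ⟨j, hj, hj'⟩ := Finset.exists_of_ssubset (Finset.ssubset_iff_subset_ne.2 ⟨h, hne⟩)
      rw [Finset.prod_eq_zero (Finset.mem_sdiff.2 ⟨hA hj, hj'⟩) (by rw [h2 j (hA hj), if_pos hj])]
      ring
    · obtain ⟨j, hj, hj'⟩ := Finset.not_subset.1 h
      rw [Finset.prod_eq_zero hj (by rw [h1 j (hB' hj), if_neg hj'])]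
      ring
  · intro h; exact absurd (Finset.mem_powerset.2 hA) h

end

/-- The constant term. -/
noncomputable def J.ev0 : J →+* ℂ where
  toFun a := a.c0
  map_one' := rfl
  map_mul' _ _ := rfl
  map_zero' := rfl
  map_add' _ _ := rfl

theorem Zs_c0 (W U : ℕ → J) (I : Finset ℕ) (ℓ : Finset ℕ → ℕ) :
    (Zs dJ W U I ℓ).c0 = ∑ A ∈ I.powerset with ℓ A = 0,
      (∏ j ∈ A, (W j).c0) * ∏ j ∈ I \ A, (U j).c0 := by
  have h0 : J.ev0 dJ = 0 := by
    show (J.iJ * J.hJ).c0 = 0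
    simp [J.mul_def, J.hJ]
  have := map_Zs (d := dJ) (W := W) (U := U) (I := I) (ℓ := ℓ) J.ev0
  rw [h0] at this
  refine this.trans ?_
  rw [Zs, Finset.sum_filter]
  refine Finset.sum_congr rfl fun A _ => ?_
  split_ifs with h
  · rw [h, pow_zero, mul_one]; rfl
  · rw [zero_pow h, mul_zero]

theorem Zj_erase {X : ℕ → AT} {I : Finset ℕ} {ℓ : Finset ℕ → ℕ} {f : ℕ} (hf : f ∈ I) :
    Zj X I ℓ = (X f).jd.U * Zj X (I.erase f) ℓ +
      (X f).jd.W * Zj X (I.erase f) fun A => ℓ (insert f A) := Zs_erase hf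

theorem Zj_congr {X X' : ℕ → AT} {I : Finset ℕ} {ℓ ℓ' : Finset ℕ → ℕ} (h1 : ∀ j ∈ I, X j = X' j)
    (h3 : ∀ A ⊆ I, ℓ A = ℓ' A) : Zj X I ℓ = Zj X' I ℓ' :=
  Zs_congr (fun j hj => by rw [h1 j hj]) (fun j hj => by rw [h1 j hj]) h3

theorem Zj_succ {X : ℕ → AT} {I : Finset ℕ} {ℓ : Finset ℕ → ℕ} :
    (Zj X I fun A => ℓ A + 1) = dJ * Zj X I ℓ := Zs_succ

end Pool.Agent.Lib.MP_7bc610_gt
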