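import Pool.Agent.Lib.MP_7bc610_gt.H9Loops
import Pool.Agent.Lib.MP_7bc610_gt.H9Ev
import Pool.Agent.Lib.MP_7bc610_gt.H9Zs

/-!
Expansion of the state sum over the states of a template.
-/

namespace Pool.Agent.Lib.MP_7bc610_gt

open LaurentPolynomial

theorem exp_pq_rotN (ρ : ℕ) (Y : AT) :
    (rotN ρ Y).pq = if ρ % 2 = 0 then Y.pq else (Y.pq.2, Y.pq.1) := by
  induction ρ with
  | zero => simp [rotN]
  | succ n ih =>
    simp only [rotN, AT.pq, ih]
    rcases Nat.mod_two_eq_zero_or_one n with h | h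
    · have h' : ¬ (n + 1) % 2 = 0 := by omega
      rw [if_pos h, if_neg h']
    · have h' : (n + 1) % 2 = 0 := by omega
      have h'' : ¬ n % 2 = 0 := by omega
      rw [if_neg h'', if_pos h']

theorem ev_expand (X : ℕ → AT) {u : Tm} (hn : (tids u).Nodup) (w : Word) (r : ℕ → ℕ → Prop) :
    ev (itp X u ++ w) r = ∑ A ∈ (tids u).toFinset.powerset,
      (∏ j ∈ A, (X j).pq.1) * (∏ j ∈ (tids u).toFinset \ A, (X j).pq.2) *
        ev (tl A u ++ w) r := by
  induction u generalizing r with
  | nil => simp [itp, tids, bp, tl]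
  | cons g u ih =>
    obtain ⟨k, i⟩ := g
    cases k with
    | cup =>
      have e : tids ((TK.cup, i) :: u) = tids u := rfl
      rw [e] at hn ⊢
      have := ih hn (cupR i r)
      simpa [itp, TK.body, shift, ev, tl] using this
    | cap =>
      have e : tids ((TK.cap, i) :: u) = tids u := rfl
      rw [e] at hn ⊢
      have := ih hn (capR i r)
      have e1 : ev (itp X ((TK.cap, i) :: u) ++ w) r =
          capVal i r * ev (itp X u ++ w) (capR i r) := by
        simp [itp, TK.body, shift, ev]
      rw [e1, this, Finset.mul_sum]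
      refine Finset.sum_congr rfl fun A _ => ?_
      simp only [tl, List.cons_append, ev]
      ring
    | box j ρ =>
      have e : tids ((TK.box j ρ, i) :: u) = j :: tids u := rfl
      rw [e] at hn ⊢
      obtain ⟨hj, hn'⟩ := List.nodup_cons.1 hn
      have hj' : j ∉ (tids u).toFinset := fun h => hj (List.mem_toFinset.1 h)
      have e1 : ev (itp X ((TK.box j ρ, i) :: u) ++ w) r =
          (rotN ρ (X j)).pq.1 * ev (itp X u ++ w) (ins true i r) +
            (rotN ρ (X j)).pq.2 * ev (itp X u ++ w) (ins false i r) := by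
        rw [itp, List.append_assoc, TK.body, ev_dia]
      rw [e1, List.toFinset_cons, Finset.sum_powerset_insert hj', ih hn', ih hn',
        Finset.mul_sum, Finset.mul_sum, ← Finset.sum_add_distrib, ← Finset.sum_add_distrib]
      refine Finset.sum_congr rfl fun A hA => ?_
      have hA' : j ∉ A := fun h => hj' (Finset.mem_powerset.1 hA h)
      have e2 : tl (insert j A) u = tl A u := tl_congr fun x hx => by
        have : x ≠ j := fun h => hj (h ▸ hx)
        simp [this]
      rw [Finset.insert_sdiff_of_notMem _ hA', Finset.prod_insert (by simp [hj]),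
        Finset.prod_insert hA', Finset.insert_sdiff_insert, Finset.sdiff_insert_of_notMem hj',
        exp_pq_rotN]
      simp only [tl, List.cons_append, ev, e2, ins, Finset.mem_insert, true_or, hA', false_iff,
        true_iff, if_true, Bool.false_eq_true, if_false]
      by_cases h : ρ % 2 = 0
      · simp only [h, if_true, not_true, if_false]
        ring
      · simp only [h, if_false, not_false_iff, if_true]
        ring

/-- The state sum of a nonempty closed template. -/
theorem stateSum_itp (X : ℕ → AT) {u : Tm} (hv : TV 0 u 0) (hn : (tids u).Nodup) (hne : u ≠ []) :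
    stateSum (itp X u) = loopVal * Zs loopVal (fun j => (X j).pq.1) (fun j => (X j).pq.2)
      (tids u).toFinset fun A => loops (tl A u) Eq - 1 := by
  have h := ev_expand X hn [] Eq
  rw [List.append_nil] at h
  rw [stateSum, h, Zs, Finset.mul_sum]
  refine Finset.sum_congr rfl fun A _ => ?_
  have hp : 1 ≤ loops (tl A u) Eq :=
    loops_pos pm_eq (hv.valid_tl A) (noCr_tl A u) fun h0 => hne (tl_eq_nil.1 h0)
  rw [List.append_nil, ev_noCr (noCr_tl A u)]
  obtain ⟨k, hk⟩ : ∃ k, loops (tl A u) Eq = k + 1 := ⟨_, (Nat.sub_add_cancel hp).symm⟩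
  simp only [hk, Nat.add_sub_cancel]
  ring

theorem loops_nf {E : List Ev} (h : WF E) (A : Finset ℕ) :
    loops (tl A ((.cup, 0) :: nf 0 E ++ [(.cap, 0)])) Eq = lam E A + 1 := by
  have hv : TV 2 (nf 0 E) 2 := by
    have := h.1.tv (fun _ => 0) 1
    simpa [nf] using this
  have hp : PM 2 (after (tl A (nf 0 E)) (cupR 0 Eq)) :=
    (pm_eq.cup le_rfl).after (hv.valid_tl A) (noCr_tl A _)
  have h01 : after (tl A (nf 0 E)) (cupR 0 Eq) 0 1 := by
    obtain ⟨b, hb, hb0, hr, _⟩ := hp.2 0 (by omega)
    have : b = 1 := by omega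
    exact this ▸ hr
  rw [List.cons_append, tl, loops, tl_append, loops_append, lam]
  simp [tl, loops, h01]

theorem stateSum_NFw {E : List Ev} (h : WF E) (X : ℕ → AT) :
    stateSum (NFw E X) = loopVal * ZL E X := by
  have ht : tids ((TK.cup, 0) :: nf 0 E ++ [(TK.cap, 0)]) = opens E := by
    rw [tids_append]
    have e1 : tids ((TK.cup, 0) :: nf 0 E) = tids (nf 0 E) := rfl
    have e2 : tids [(TK.cap, 0)] = [] := rfl
    rw [e1, e2, List.append_nil, nf, tids_nfT]
  have := stateSum_itp X (u := (TK.cup, 0) :: nf 0 E ++ [(TK.cap, 0)]) (h.tv fun _ => 0)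
    (ht ▸ h.2) (by simp)
  rw [NFw, this, ht, ZL, ids]
  congr 1
  refine Zs_congr (fun _ _ => rfl) (fun _ _ => rfl) fun A _ => ?_
  rw [loops_nf h A, Nat.add_sub_cancel]

theorem stateSum_iso {u v : Word} (h : Isotopic 0 0 u v) :
    ∃ c, IsSU c ∧ stateSum u = c * stateSum v := by
  obtain ⟨c, hc, h'⟩ := ev_iso h
  refine ⟨c, hc, ?_⟩
  have := h' [] Eq eq_equivalence
  simpa [stateSum] using this

theorem ZL_iso {E E' : List Ev} (h : WF E) (h' : WF E') {X X' : ℕ → AT}
    (hi : Isotopic 0 0 (NFw E X) (NFw E' X')) : ∃ c, IsSU c ∧ ZL E X = c * ZL E' X' := by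
  obtain ⟨c, hc, e⟩ := stateSum_iso hi
  refine ⟨c, hc, mul_left_cancel₀ loopVal_ne ?_⟩
  rw [← stateSum_NFw h, e, stateSum_NFw h']
  ring

end Pool.Agent.Lib.MP_7bc610_gt
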