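import Pool.Agent.Lib.MP_7bc610_gt.H9Base

/-!
Kernels of small interlace matrices.
-/

namespace Pool.Agent.Lib.MP_7bc610_gt

open LaurentPolynomial

variable {r : ℕ → ℕ → Prop} {A B : Finset ℕ}

open Classical in
/-- The matrix entry. -/
noncomputable def ker_c (r : ℕ → ℕ → Prop) (a b : ℕ) : ZMod 2 := if r a b then 1 else 0

theorem ker_c_pos {a b : ℕ} (h : r a b) : ker_c r a b = 1 := if_pos h

theorem ker_c_neg {a b : ℕ} (h : ¬r a b) : ker_c r a b = 0 := if_neg h

theorem ker_c_symm (hs : ∀ a b, r a b → r b a) (a b : ℕ) : ker_c r a b = ker_c r b a := by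
  by_cases h : r a b
  · rw [ker_c_pos h, ker_c_pos (hs a b h)]
  · rw [ker_c_neg h, ker_c_neg fun h' => h (hs b a h')]

theorem ker_c_zero {a b : ℕ} (h : ker_c r a b = 0) : ¬r a b := fun h' => by
  rw [ker_c_pos h'] at h
  exact one_ne_zero h

theorem ker_iff : KT r A ↔
    ∀ v : ℕ → ZMod 2, (∀ e ∈ A, ∑ x ∈ A, ker_c r e x * v x = 0) → ∀ e ∈ A, v e = 0 := by
  unfold KT
  refine forall_congr' fun v => imp_congr_left (forall₂_congr fun e _ => ?_)
  rw [Finset.sum_filter]
  refine Eq.congr_left (Finset.sum_congr rfl fun x _ => ?_)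
  by_cases h : r e x
  · rw [if_pos h, ker_c_pos h, one_mul]
  · rw [if_neg h, ker_c_neg h, zero_mul]

theorem ker_card (h : KT r A) {S T : Finset ℕ} (hT : T ⊆ A)
    (hn : ∀ e ∈ A, e ∉ S → ∀ t ∈ T, ¬r e t) : T.card ≤ S.card := by
  rw [ker_iff] at h
  let Φ : (T → ZMod 2) → (S → ZMod 2) := fun w e => ∑ t : T, ker_c r e t * w t
  have hinj : Function.Injective Φ := by
    intro w w' hw
    let v : ℕ → ZMod 2 := fun x => if hx : x ∈ T then w ⟨x, hx⟩ - w' ⟨x, hx⟩ else 0
    have hv : ∀ t : T, v t = w t - w' t := fun t => dif_pos t.2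
    have hsum : ∀ e, ∑ x ∈ A, ker_c r e x * v x = ∑ t : T, ker_c r e t * (w t - w' t) := by
      intro e
      rw [← Finset.sum_subset hT (fun x _ hx => by
        rw [show v x = 0 from dif_neg hx, mul_zero]), ← Finset.sum_coe_sort T]
      exact Finset.sum_congr rfl fun t _ => by rw [hv]
    have h0 := h v fun e he => by
      rw [hsum]
      by_cases hS : e ∈ S
      · have h1 : ∑ t : T, ker_c r e t * w t = ∑ t : T, ker_c r e t * w' t := congrFun hw ⟨e, hS⟩
        simp only [mul_sub, Finset.sum_sub_distrib]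
        rw [h1, sub_self]
      · exact Finset.sum_eq_zero fun t _ => by rw [ker_c_neg (hn e he hS t t.2), zero_mul]
    funext t
    have h1 := h0 t (hT t.2)
    rwa [hv, sub_eq_zero] at h1
  have h1 := Fintype.card_le_of_injective Φ hinj
  rw [Fintype.card_fun, Fintype.card_fun, ZMod.card, Fintype.card_coe, Fintype.card_coe] at h1
  exact (Nat.pow_le_pow_iff_right (by norm_num)).1 h1

theorem ker_iso (h : KT r A) {t : ℕ} (ht : t ∈ A) (hn : ∀ e ∈ A, ¬r e t) : False := by
  have h1 := ker_card h (S := ∅) (T := {t}) (Finset.singleton_subset_iff.2 ht)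
    fun e he _ x hx => by
      rw [Finset.mem_singleton.1 hx]
      exact hn e he
  simp at h1

theorem ker_sing : ∀ a b c d : ZMod 2, a * d + c * b ≠ 1 →
    ∃ x y : ZMod 2, ¬(x = 0 ∧ y = 0) ∧ a * x + b * y = 0 ∧ c * x + d * y = 0 := by
  decide

theorem ker_reg : ∀ a b c d x y : ZMod 2, a * d + c * b = 1 → a * x + b * y = 0 →
    c * x + d * y = 0 → x = 0 ∧ y = 0 := by
  decide

theorem ker_two (a b : ZMod 2) : a * b + b * a = 0 := by
  revert a b
  decide

theorem ker_xor (a b c d a' b' c' d' : ℕ) :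
    Xor (r a a' ∧ r d d') (r c c' ∧ r b b') ↔
      ker_c r a a' * ker_c r d d' + ker_c r c c' * ker_c r b b' = 1 := by
  by_cases h1 : r a a' <;> by_cases h2 : r d d' <;> by_cases h3 : r c c' <;>
    by_cases h4 : r b b' <;>
    simp only [Xor, h1, h2, h3, h4, ker_c_pos, ker_c_neg, not_false_eq_true] <;> decide

theorem ker_three (hs : ∀ a b, r a b → r b a) (hi : ∀ a, ¬r a a) {f g e : ℕ} (hfg : f ≠ g)
    (hfe : f ≠ e) (hge : g ≠ e) : ¬KT r {f, g, e} := by
  intro h
  have hf : f ∉ ({g, e} : Finset ℕ) := by simp [hfg, hfe]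
  have hg : g ∉ ({e} : Finset ℕ) := by simp [hge]
  let v : ℕ → ZMod 2 := fun x =>
    if x = f then ker_c r g e else if x = g then ker_c r f e else ker_c r f g
  have vf : v f = ker_c r g e := if_pos rfl
  have vg : v g = ker_c r f e := (if_neg hfg.symm).trans (if_pos rfl)
  have ve : v e = ker_c r f g := (if_neg hfe.symm).trans (if_neg hge.symm)
  have h0 := ker_iff.1 h v fun x hx => by
    rw [Finset.sum_insert hf, Finset.sum_insert hg, Finset.sum_singleton, vf, vg, ve]
    simp only [Finset.mem_insert, Finset.mem_singleton] at hx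
    rcases hx with rfl | rfl | rfl
    · rw [ker_c_neg (hi x), zero_mul, zero_add]
      exact ker_two _ _
    · rw [ker_c_neg (hi x), zero_mul, zero_add, ker_c_symm hs x f]
      exact ker_two _ _
    · rw [ker_c_neg (hi x), zero_mul, add_zero, ker_c_symm hs x f, ker_c_symm hs x g]
      exact ker_two _ _
  have h1 := h0 g (by simp)
  have h2 := h0 e (by simp)
  rw [vg] at h1
  rw [ve] at h2
  refine ker_iso h (t := f) (by simp) fun x hx => ?_
  simp only [Finset.mem_insert, Finset.mem_singleton] at hx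
  rcases hx with rfl | rfl | rfl
  · exact hi x
  · exact fun h' => ker_c_zero h2 (hs _ _ h')
  · exact fun h' => ker_c_zero h1 (hs _ _ h')

theorem ker_four (hs : ∀ a b, r a b → r b a) (hi : ∀ a, ¬r a a) {f g e e' : ℕ} (hfg : f ≠ g)
    (hf : f ∉ ({e, e'} : Finset ℕ)) (hg : g ∉ ({e, e'} : Finset ℕ)) (he : e ≠ e')
    (hn : ¬r e e') : KT r {f, g, e, e'} ↔
      ker_c r f e * ker_c r g e' + ker_c r g e * ker_c r f e' = 1 := by
  have hf' : f ∉ ({g, e, e'} : Finset ℕ) := by
    rw [Finset.mem_insert, not_or]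
    exact ⟨hfg, hf⟩
  have he' : e ∉ ({e'} : Finset ℕ) := by simp [he]
  have hn' : ¬r e' e := fun h => hn (hs _ _ h)
  have hsum : ∀ (v : ℕ → ZMod 2) (x : ℕ), ∑ y ∈ ({f, g, e, e'} : Finset ℕ), ker_c r x y * v y =
      ker_c r x f * v f + (ker_c r x g * v g + (ker_c r x e * v e + ker_c r x e' * v e')) := by
    intro v x
    rw [Finset.sum_insert hf', Finset.sum_insert hg, Finset.sum_insert he', Finset.sum_singleton]
  simp only [Finset.mem_insert, Finset.mem_singleton, not_or] at hf hg
  rw [ker_iff]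
  constructor
  · intro h
    by_contra hc
    obtain ⟨x, y, hxy, h1, h2⟩ := ker_sing _ _ _ _ hc
    let v : ℕ → ZMod 2 := fun z => if z = e then x else if z = e' then y else 0
    have vf : v f = 0 := (if_neg hf.1).trans (if_neg hf.2)
    have vg : v g = 0 := (if_neg hg.1).trans (if_neg hg.2)
    have ve : v e = x := if_pos rfl
    have ve' : v e' = y := (if_neg he.symm).trans (if_pos rfl)
    have h0 := h v fun z hz => by
      rw [hsum, vf, vg, ve, ve', mul_zero, mul_zero, zero_add, zero_add]
      simp only [Finset.mem_insert, Finset.mem_singleton] at hz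
      rcases hz with rfl | rfl | rfl | rfl
      · exact h1
      · exact h2
      · rw [ker_c_neg (hi z), ker_c_neg hn, zero_mul, zero_mul, add_zero]
      · rw [ker_c_neg (hi z), ker_c_neg hn', zero_mul, zero_mul, add_zero]
    exact hxy ⟨ve ▸ h0 e (by simp), ve' ▸ h0 e' (by simp)⟩
  · intro hc v hv
    have h1 := hv f (by simp)
    have h2 := hv g (by simp)
    have h3 := hv e (by simp)
    have h4 := hv e' (by simp)
    rw [hsum] at h1 h2 h3 h4
    rw [ker_c_neg (hi e), ker_c_neg hn, zero_mul, zero_mul, add_zero, add_zero,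
      ker_c_symm hs e f, ker_c_symm hs e g] at h3
    rw [ker_c_neg (hi e'), ker_c_neg hn', zero_mul, zero_mul, add_zero, add_zero,
      ker_c_symm hs e' f, ker_c_symm hs e' g] at h4
    obtain ⟨vf, vg⟩ := ker_reg _ _ _ _ _ _ (by rw [mul_comm (ker_c r f e')]; exact hc) h3 h4
    rw [vf, vg, mul_zero, mul_zero, zero_add, zero_add] at h1 h2
    obtain ⟨ve, ve'⟩ := ker_reg _ _ _ _ _ _ hc h1 h2
    intro z hz
    simp only [Finset.mem_insert, Finset.mem_singleton] at hz
    rcases hz with rfl | rfl | rfl | rfl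
    · exact vf
    · exact vg
    · exact ve
    · exact ve'

theorem KT_gen (hB : ∀ a ∈ B, ∀ b ∈ B, ¬r a b) : KT r B ↔ B = ∅ := by
  constructor
  · intro h
    by_contra hne
    obtain ⟨t, ht⟩ := Finset.nonempty_iff_ne_empty.2 hne
    exact ker_iso h ht fun e he => hB e he t ht
  · rintro rfl v _ e he
    exact absurd he (Finset.notMem_empty e)

theorem KT_pair (hs : ∀ a b, r a b → r b a) (hi : ∀ a, ¬r a a) {a b : ℕ} (h : r a b) :
    KT r {a, b} := by
  have hab : a ∉ ({b} : Finset ℕ) := fun hm => hi b (Finset.mem_singleton.1 hm ▸ h)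
  refine ker_iff.2 fun v hv => ?_
  have h1 := hv a (by simp)
  have h2 := hv b (by simp)
  rw [Finset.sum_insert hab, Finset.sum_singleton] at h1 h2
  rw [ker_c_neg (hi a), ker_c_pos h, zero_mul, zero_add, one_mul] at h1
  rw [ker_c_neg (hi b), ker_c_pos (hs a b h), zero_mul, add_zero, one_mul] at h2
  intro z hz
  simp only [Finset.mem_insert, Finset.mem_singleton] at hz
  rcases hz with rfl | rfl
  · exact h2
  · exact h1

theorem KT_one (hs : ∀ a b, r a b → r b a) (hi : ∀ a, ¬r a a) {f : ℕ} (hf : f ∉ B)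
    (hB : ∀ a ∈ B, ∀ b ∈ B, ¬r a b) : KT r (insert f B) ↔ ∃ e, B = {e} ∧ r f e := by
  have _ := hf
  constructor
  · intro h
    have h1 := ker_card h (S := {f}) (Finset.subset_insert f B) fun e he hS t ht =>
      hB e ((Finset.mem_insert.1 he).resolve_left fun h' => hS (Finset.mem_singleton.2 h')) t ht
    rw [Finset.card_singleton] at h1
    rcases Nat.le_one_iff_eq_zero_or_eq_one.1 h1 with h2 | h2
    · rw [Finset.card_eq_zero] at h2
      subst h2
      refine (ker_iso h (Finset.mem_insert_self f ∅) fun e he => ?_).elim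
      rw [(Finset.mem_insert.1 he).resolve_right (Finset.notMem_empty e)]
      exact hi f
    · obtain ⟨e, rfl⟩ := Finset.card_eq_one.1 h2
      refine ⟨e, rfl, ?_⟩
      by_contra hn
      refine ker_iso h (t := e) (by simp) fun x hx => ?_
      simp only [Finset.mem_insert, Finset.mem_singleton] at hx
      rcases hx with rfl | rfl
      · exact hn
      · exact hi x
  · rintro ⟨e, rfl, h⟩
    exact KT_pair hs hi h

theorem KT_two (hs : ∀ a b, r a b → r b a) (hi : ∀ a, ¬r a a) {f g : ℕ} (hfg : f ≠ g)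
    (hf : f ∉ B) (hg : g ∉ B) (hB : ∀ a ∈ B, ∀ b ∈ B, ¬r a b) :
    KT r (insert f (insert g B)) ↔ (B = ∅ ∧ r f g) ∨
      ∃ e e', e ≠ e' ∧ B = {e, e'} ∧ Xor (r f e ∧ r g e') (r g e ∧ r f e') := by
  constructor
  · intro h
    have h1 := ker_card h (S := {f, g})
      ((Finset.subset_insert g B).trans (Finset.subset_insert f _)) fun e he hS t ht => by
        simp only [Finset.mem_insert, Finset.mem_singleton, not_or] at he hS
        exact hB e ((he.resolve_left hS.1).resolve_left hS.2) t ht
    have h2 : B.card ≤ 2 := h1.trans Finset.card_le_two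
    have h3 : B.card = 0 ∨ B.card = 1 ∨ B.card = 2 := by omega
    rcases h3 with h3 | h3 | h3
    · rw [Finset.card_eq_zero] at h3
      subst h3
      refine Or.inl ⟨rfl, ?_⟩
      by_contra hn
      refine ker_iso h (t := g) (by simp) fun x hx => ?_
      simp only [Finset.mem_insert, Finset.notMem_empty, or_false] at hx
      rcases hx with rfl | rfl
      · exact hn
      · exact hi x
    · obtain ⟨e, rfl⟩ := Finset.card_eq_one.1 h3
      exact absurd h (ker_three hs hi hfg (Finset.notMem_singleton.1 hf)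
        (Finset.notMem_singleton.1 hg))
    · obtain ⟨e, e', he, rfl⟩ := Finset.card_eq_two.1 h3
      refine Or.inr ⟨e, e', he, rfl, ?_⟩
      rw [ker_xor]
      exact (ker_four hs hi hfg hf hg he (hB e (by simp) e' (by simp))).1 h
  · rintro (⟨rfl, h⟩ | ⟨e, e', he, rfl, h⟩)
    · exact KT_pair hs hi h
    · rw [ker_xor] at h
      exact (ker_four hs hi hfg hf hg he (hB e (by simp) e' (by simp))).2 h

theorem KT_bal (s : ℕ → Bool) (hr : ∀ a b, r a b → s a ≠ s b) (h : KT r A) :
    (A.filter fun j => s j = true).card = (A.filter fun j => s j = false).card := by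
  have key : ∀ b : Bool,
      (A.filter fun j => s j = b).card ≤ (A.filter fun j => s j = !b).card := fun b => by
    refine ker_card h (Finset.filter_subset _ A) fun e he hS t ht hret => ?_
    have h1 : s t = b := (Finset.mem_filter.1 ht).2
    have h2 : ¬s e = !b := fun h' => hS (Finset.mem_filter.2 ⟨he, h'⟩)
    refine hr e t hret ?_
    rw [h1]
    revert h2
    cases s e <;> cases b <;> simp
  exact le_antisymm (key true) (key false)

end Pool.Agent.Lib.MP_7bc610_gt
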