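import Pool.Agent.Lib.MP_7bc610_gt.H9Jd
import Pool.Agent.Lib.MP_7bc610_gt.H9CL
import Pool.Agent.Lib.MP_7bc610_gt.H9Ker

/-!
Determinant one.
-/

namespace Pool.Agent.Lib.MP_7bc610_gt

open LaurentPolynomial

theorem good_bal {A : Finset ℕ} (t : ℕ → Bool) {s : ℤ} (hs : s = 1 ∨ s = -1)
    (h : (A.filter fun j => t j = true).card = (A.filter fun j => t j = false).card) :
    ∏ j ∈ A, (Complex.I * ((s * (if t j then 1 else -1) : ℤ) : ℂ)) = 1 := by
  have e1 : ∏ j ∈ A with t j = true, (Complex.I * ((s * (if t j then 1 else -1) : ℤ) : ℂ)) =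
      ∏ j ∈ A with t j = true, Complex.I * s := Finset.prod_congr rfl fun j hj => by
    rw [if_pos (Finset.mem_filter.1 hj).2, mul_one]
  have e2 : ∏ j ∈ A with ¬ t j = true, (Complex.I * ((s * (if t j then 1 else -1) : ℤ) : ℂ)) =
      ∏ j ∈ A with t j = false, -(Complex.I * s) := Finset.prod_congr (by simp) fun j hj => by
    rw [if_neg (by simpa using (Finset.mem_filter.1 hj).2)]; push_cast; ring
  rw [← Finset.prod_filter_mul_prod_filter_not A fun j => t j = true, e1, e2,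
    Finset.prod_const, Finset.prod_const, h, ← mul_pow]
  have : Complex.I * (s : ℂ) * -(Complex.I * s) = 1 := by
    rcases hs with rfl | rfl <;> simp
  rw [this, one_pow]

theorem good_one {ι : Type} {I : Finset ι} {q : ι → ℚ} {S : ℚ} (hq : ∀ j ∈ I, 1 ≤ q j ^ 2)
    (hS : 1 ≤ S) (h : ((∏ j ∈ I, q j) * S) ^ 8 = 1) : S = 1 ∧ ∀ j ∈ I, q j ^ 2 = 1 := by
  classical
  have h1 : (∏ j ∈ I, q j ^ 2) * S ^ 2 = 1 := by
    rw [Finset.prod_pow, ← mul_pow]
    exact (pow_eq_one_iff_of_nonneg (sq_nonneg _) (by norm_num : 4 ≠ 0)).1 (by rw [← pow_mul, h])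
  have h2 : 1 ≤ ∏ j ∈ I, q j ^ 2 := Finset.one_le_prod hq
  have h3 : 1 ≤ S ^ 2 := one_le_pow₀ hS
  refine ⟨by nlinarith, fun j hj => le_antisymm ?_ (hq j hj)⟩
  have h4 : 1 ≤ ∏ i ∈ I.erase j, q i ^ 2 :=
    Finset.one_le_prod fun i hi => hq i (Finset.mem_of_mem_erase hi)
  rw [← Finset.mul_prod_erase I _ hj] at h1 h2
  nlinarith [hq j hj]

theorem good_of_unit {E : List Ev} {X : ℕ → AT} (h : WF E)
    (h1 : ∀ j ∈ ids E, (X j).frac.2 ≠ 0) {s : ℤ} (hs : s = 1 ∨ s = -1)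
    (h2 : ∀ j ∈ ids E, 0 ≤ s * (if side E j then 1 else -1) * mm X j)
    (h3 : J.Gl (ZJ E X)) : Good E X := by
  classical
  let ε : ℕ → ℤ := fun j => s * (if side E j then 1 else -1)
  have hε : ∀ j, ε j * ε j = 1 := fun j => by
    rcases hs with rfl | rfl <;> by_cases e : side E j <;> simp [ε, e]
  let τ : ℕ → ℚ := fun j => (ε j * mm X j : ℤ) / (X j).jd.q0 ^ 2
  have hq : ∀ j ∈ ids E, 1 ≤ (X j).jd.q0 ^ 2 := fun j hj => by
    rw [jd_qq]
    exact_mod_cast (one_le_sq_iff_one_le_abs _).2 (Int.one_le_abs (h1 j hj))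
  have hq0 : ∀ j ∈ ids E, (X j).jd.q0 ≠ 0 := fun j hj e => by
    have := hq j hj
    rw [e] at this
    norm_num at this
  have hτ : ∀ j ∈ ids E, 0 ≤ τ j := fun j hj =>
    div_nonneg (by exact_mod_cast h2 j hj) (sq_nonneg _)
  have hp : ∀ j ∈ ids E, (X j).jd.p0 = ε j * τ j * (X j).jd.q0 := fun j hj => by
    have e1 := jd_qp (X j)
    have e2 : (ε j : ℚ) * ε j = 1 := by exact_mod_cast hε j
    have e3 := hq0 j hj
    simp only [τ, mm]
    push_cast at e1 ⊢
    field_simp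
    linear_combination e1 - ((X j).frac.2 : ℚ) * (X j).frac.1 * e2
  have hZ : (ZJ E X).c0 = (((∏ j ∈ ids E, (X j).jd.q0) *
      ∑ A ∈ (ids E).powerset with lam E A = 0, ∏ j ∈ A, τ j : ℚ) : ℂ) := by
    rw [ZJ, Zj, Zs_c0, Finset.mul_sum, Rat.cast_sum]
    refine Finset.sum_congr rfl fun A hA => ?_
    obtain ⟨hA, h0⟩ := Finset.mem_filter.1 hA
    have hA := Finset.mem_powerset.1 hA
    have hb := good_bal (side E) hs
      (KT_bal (side E) (fun _ _ hab => h.il_side hab) ((lam_eq_zero h hA).1 h0))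
    rw [← Finset.prod_sdiff hA, Finset.prod_congr rfl (g := fun j => Complex.I * (ε j : ℂ) *
      (((X j).jd.q0 * τ j : ℚ) : ℂ)) fun j hj => by
        show Complex.I * ((X j).jd.p0 : ℂ) = _
        rw [hp j (hA hj)]; push_cast; ring, Finset.prod_mul_distrib, hb, one_mul, mul_assoc,
      ← Finset.prod_mul_distrib, Rat.cast_mul, Rat.cast_prod, Rat.cast_prod, mul_comm]
    rfl
  have h0 : (∅ : Finset ℕ) ∈ (ids E).powerset.filter fun A => lam E A = 0 :=
    Finset.mem_filter.2 ⟨Finset.empty_mem_powerset _,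
      (lam_eq_zero h (Finset.empty_subset _)).2 ((KT_gen (by simp)).2 rfl)⟩
  have hn : ∀ A ∈ ((ids E).powerset.filter fun A => lam E A = 0).erase ∅, 0 ≤ ∏ j ∈ A, τ j :=
    fun A hA => Finset.prod_nonneg fun j hj => hτ j
      (Finset.mem_powerset.1 (Finset.mem_filter.1 (Finset.mem_of_mem_erase hA)).1 hj)
  have h4 := h3.1
  rw [hZ, ← Finset.add_sum_erase _ _ h0, Finset.prod_empty] at h4
  obtain ⟨h5, h6⟩ := good_one hq (le_add_of_nonneg_right (Finset.sum_nonneg hn))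
    (by exact_mod_cast h4)
  refine ⟨h, fun j hj => ?_, fun a b ha hb hab => ?_, fun a ha b hb hab => ?_⟩
  · have := h6 j hj
    rw [jd_qq] at this
    exact_mod_cast this
  · obtain ⟨ma, mb⟩ := il_mem hab
    have hsub : ({a, b} : Finset ℕ) ⊆ ids E := by
      simp [Finset.insert_subset_iff, ma, mb]
    have h7 := (Finset.sum_eq_zero_iff_of_nonneg hn).1 (add_eq_left.1 h5) {a, b}
      (Finset.mem_erase.2 ⟨Finset.insert_ne_empty _ _, Finset.mem_filter.2
        ⟨Finset.mem_powerset.2 hsub, (lam_eq_zero h hsub).2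
          (KT_pair (r := il E) (fun _ _ => il_symm) h.il_irrefl hab)⟩⟩)
    obtain ⟨j, hj, h8⟩ := Finset.prod_eq_zero_iff.1 h7
    have h9 := jd_pp (X j)
    rw [hp j (hsub hj), h8, mul_zero, zero_mul, zero_pow two_ne_zero] at h9
    have h10 : (X j).frac.1 = 0 := by exact_mod_cast pow_eq_zero_iff two_ne_zero |>.1 h9.symm
    rcases Finset.mem_insert.1 hj with rfl | hj
    · exact ha h10
    · rw [Finset.mem_singleton.1 hj] at h10
      exact hb h10
  · have e := mul_nonneg (h2 a ha) (h2 b hb)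
    rw [← hab] at e
    calc (0 : ℤ) ≤ _ := e
      _ = ε a * ε a * (mm X a * mm X b) := by simp only [ε]; ring
      _ = _ := by rw [hε, one_mul]

end Pool.Agent.Lib.MP_7bc610_gt
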