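import Pool.Agent.Lib.MP_7bc610_gt.H9Main
import Pool.Agent.Lib.MP_7bc610_gt.H9Good
import Pool.Agent.Lib.MP_7bc610_gt.H9Conv
import Pool.Agent.Lib.MP_7bc610_gt.H9Bridge

/-!
Assembly.
-/

namespace Pool.Agent.Lib.MP_7bc610_gt

open LaurentPolynomial

theorem final9 (D : List (Piece × ℕ)) (hv : Valid 0 (expand D) 0) (ha : AlgAlt D) (k : ℤ)
    (h : stateSum (expand D) = loopVal * T k ∨ stateSum (expand D) = -(loopVal * T k)) :
    Isotopic 0 0 (expand D) [(Kind.cup, 0), (Kind.cap, 0)] := by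
  obtain ⟨u, X, hu, hn, hi, hs⟩ := conv9 D hv
  have unit : ∀ w, Isotopic 0 0 (expand D) w → ∃ c, IsSU c ∧ stateSum w = c * loopVal := by
    intro w hw
    obtain ⟨c, hc, e⟩ := stateSum_iso hw.symm
    rcases h with h | h
    · exact ⟨c * T k, hc.mul ⟨k, Or.inl rfl⟩, by rw [e, h]; ring⟩
    · exact ⟨c * -T k, hc.mul ⟨k, Or.inr rfl⟩, by rw [e, h]; ring⟩
  obtain ⟨s, hs1, hs2⟩ : ∃ s : ℤ, (s = 1 ∨ s = -1) ∧
      ∀ x ∈ bp u, 0 ≤ s * ((-1) ^ x.2 * mm X x.1) := by
    rcases ha with ha | ha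
    · refine ⟨1, Or.inl rfl, fun x hx => ?_⟩
      obtain ⟨g, hg, e⟩ := hs x hx
      rw [e, one_mul]; exact ha g hg
    · refine ⟨-1, Or.inr rfl, fun x hx => ?_⟩
      obtain ⟨g, hg, e⟩ := hs x hx
      have := ha g hg
      rw [e]; linarith
  obtain ⟨c, hc, e⟩ := unit _ hi
  obtain ⟨A, hA, hA'⟩ := exists_state X hu hn hc e
  obtain ⟨E, ρ, hE, ht, hρ⟩ := bridge A hu hn hA
  set X' : ℕ → AT := fun j => rotN (ρ j) (X j) with hX'
  have hi2 : Isotopic 0 0 (expand D) (NFw E X') := by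
    refine hi.trans ?_
    have := ht.2.1 X
    rwa [List.cons_append, itp, itp_append, itp_nfT, ← hX',
      show itp X [(TK.cap, 0)] = itp X' [(TK.cap, 0)] from rfl, ← itp_append] at this
  obtain ⟨c', hc', e'⟩ := unit _ hi2
  rw [stateSum_NFw hE, mul_comm c', mul_right_inj' loopVal_ne] at e'
  have hgl : J.Gl (ZJ E X') := gl_ZJ (e' ▸ hc')
  have hb : ∀ j ∈ ids E, (j, ((if side E j then 0 else 1) + ρ j) % 2) ∈ bp u := fun j hj => by
    obtain ⟨t, hj'⟩ := mem_ids.1 hj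
    rw [ht.2.2.mem_iff, List.cons_append, bp, bp_append, bp_nfT]
    refine List.mem_append_left _ (List.mem_map.2 ⟨⟨t, true, j⟩, by simpa using hj', ?_⟩)
    rw [show side E j = t from hE.side_eq hj']
  have hg : Good E X' := by
    refine good_of_unit hE (fun j hj => ?_) hs1 (fun j hj => ?_) hgl
    · have hj' := hA' j (List.mem_map.2 ⟨_, hb j hj, rfl⟩)
      obtain ⟨-, r2, r3⟩ := frac_rotN (ρ j) (X j)
      intro h0
      rw [show (rotN (ρ j) (X j)).frac.2 = 0 from h0] at r2 r3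
      by_cases hm : j ∈ A
      · exact hj'.1 hm (pow_eq_zero_iff two_ne_zero |>.1 (by rw [← r3 ((hρ j hj).1 hm)]; simp))
      · have : ρ j % 2 = 0 := by have := (hρ j hj).not.1 hm; omega
        exact hj'.2 hm (pow_eq_zero_iff two_ne_zero |>.1 (by rw [← r2 this]; simp))
    · have := hs2 _ (hb j hj)
      simp only [← neg_one_pow_eq_pow_mod_two] at this
      have r1 : mm X' j = (-1) ^ ρ j * mm X j := (frac_rotN (ρ j) (X j)).1
      rw [r1]
      convert this using 1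
      cases side E j <;> simp [pow_add]
  obtain ⟨d, -, d2, d3⟩ := main9 E X' hg
  rw [cc_gl hgl] at d2
  exact hi2.trans (d3 (by exact_mod_cast d2.symm))

end Pool.Agent.Lib.MP_7bc610_gt
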