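import Pool.Agent.Lib.MP_7bc610_gt.H9Ev

/-!
Well-formed event lists.
-/

namespace Pool.Agent.Lib.MP_7bc610_gt

open LaurentPolynomial

variable {E : List Ev}

theorem wf_cntL {ls rs ls' rs' : List ℕ} (h : Run ls rs E ls' rs') (j : ℕ) :
    E.count ⟨true, true, j⟩ + ls.count j = E.count ⟨true, false, j⟩ + ls'.count j := by
  induction h with
  | nil => simp
  | @oL ls rs ls' rs' E k _ ih =>
    by_cases e : k = j <;> simp [List.count_cons, e] at ih ⊢ <;> omega
  | @cL ls rs ls' rs' E k _ ih =>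
    by_cases e : k = j <;> simp [List.count_cons, e] at ih ⊢ <;> omega
  | oR _ ih => simpa [List.count_cons] using ih
  | cR _ ih => simpa [List.count_cons] using ih

theorem wf_cntR {ls rs ls' rs' : List ℕ} (h : Run ls rs E ls' rs') (j : ℕ) :
    E.count ⟨false, true, j⟩ + rs.count j = E.count ⟨false, false, j⟩ + rs'.count j := by
  induction h with
  | nil => simp
  | oL _ ih => simpa [List.count_cons] using ih
  | cL _ ih => simpa [List.count_cons] using ih
  | @oR ls rs ls' rs' E k _ ih =>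
    by_cases e : k = j <;> simp [List.count_cons, e] at ih ⊢ <;> omega
  | @cR ls rs ls' rs' E k _ ih =>
    by_cases e : k = j <;> simp [List.count_cons, e] at ih ⊢ <;> omega

theorem wf_opens (E : List Ev) (j : ℕ) :
    (opens E).count j = E.count ⟨true, true, j⟩ + E.count ⟨false, true, j⟩ := by
  induction E with
  | nil => simp [opens]
  | cons x E ih =>
    obtain ⟨s, o, k⟩ := x
    unfold opens at ih ⊢
    by_cases e : k = j <;> cases s <;> cases o <;>
      simp [List.count_cons, List.filter_cons, e] at ih ⊢ <;> omega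

theorem wf_cnt (h : WF E) (j : ℕ) :
    E.count ⟨true, false, j⟩ = E.count ⟨true, true, j⟩ ∧
      E.count ⟨false, false, j⟩ = E.count ⟨false, true, j⟩ ∧
        E.count ⟨true, true, j⟩ + E.count ⟨false, true, j⟩ ≤ 1 := by
  have h1 := wf_cntL h.1 j
  have h2 := wf_cntR h.1 j
  have h3 := List.nodup_iff_count_le_one.1 h.2 j
  rw [wf_opens] at h3
  simp only [List.count_nil] at h1 h2
  omega

theorem wf_del {ls rs ls' rs' : List ℕ} (h : Run ls rs E ls' rs') (e : ℕ) :
    Run (ls.filter (· ≠ e)) (rs.filter (· ≠ e)) (del E e) (ls'.filter (· ≠ e))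
      (rs'.filter (· ≠ e)) := by
  unfold del
  induction h with
  | nil => exact Run.nil _ _
  | @oL ls rs ls' rs' E k _ ih =>
    by_cases he : k = e
    · simpa [List.filter_cons, he] using ih
    · rw [List.filter_cons_of_pos (by simpa using he)] at ih ⊢
      exact Run.oL ih
  | @cL ls rs ls' rs' E k _ ih =>
    by_cases he : k = e
    · simpa [List.filter_cons, he] using ih
    · rw [List.filter_cons_of_pos (by simpa using he), List.filter_cons_of_pos (by simpa using he)]
      exact Run.cL ih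
  | @oR ls rs ls' rs' E k _ ih =>
    by_cases he : k = e
    · simpa [List.filter_cons, he] using ih
    · rw [List.filter_cons_of_pos (by simpa using he)] at ih ⊢
      exact Run.oR ih
  | @cR ls rs ls' rs' E k _ ih =>
    by_cases he : k = e
    · simpa [List.filter_cons, he] using ih
    · rw [List.filter_cons_of_pos (l := rs) (by simpa using he),
        List.filter_cons_of_pos (by simpa using he)]
      exact Run.cR ih

theorem WF.del (h : WF E) (e : ℕ) : WF (del E e) :=
  ⟨wf_del h.1 e, h.2.sublist ((List.filter_sublist.filter _).map _)⟩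

theorem WF.nodup (h : WF E) : E.Nodup := by
  refine List.nodup_iff_count_le_one.2 fun x => ?_
  obtain ⟨s, o, j⟩ := x
  have := wf_cnt h j
  cases s <;> cases o <;> omega

theorem wf_open_mem (h : WF E) {x : Ev} (hx : x ∈ E) : (⟨x.side, true, x.id⟩ : Ev) ∈ E := by
  obtain ⟨s, o, j⟩ := x
  have h1 := wf_cnt h j
  have h2 := List.count_pos_iff.2 hx
  refine List.count_pos_iff.1 ?_
  cases s <;> cases o <;> dsimp only <;> omega

theorem WF.mem_ids (h : WF E) {x : Ev} (hx : x ∈ E) : x.id ∈ ids E :=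
  Pool.Agent.Lib.MP_7bc610_gt.mem_ids.2 ⟨_, wf_open_mem h hx⟩

theorem WF.side_eq (h : WF E) {x : Ev} (hx : x ∈ E) : side E x.id = x.side := by
  have h0 := wf_open_mem h hx
  obtain ⟨s, o, j⟩ := x
  have h1 := wf_cnt h j
  have h2 := List.count_pos_iff.2 h0
  cases s
  · refine decide_eq_false fun h3 => ?_
    have h4 := List.count_pos_iff.2 h3
    dsimp only at h2 h4
    omega
  · exact decide_eq_true h0

theorem WF.split (h : WF E) {e : ℕ} (he : e ∈ ids E) : ∃ s pre mid post,
    E = pre ++ ⟨s, true, e⟩ :: (mid ++ ⟨s, false, e⟩ :: post) := by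
  obtain ⟨s, hs⟩ := Pool.Agent.Lib.MP_7bc610_gt.mem_ids.1 he
  obtain ⟨pre, rest, rfl⟩ := List.append_of_mem hs
  obtain ⟨ls, rs, -, h2⟩ := Run.split h.1
  have h3 : (⟨s, false, e⟩ : Ev) ∈ rest := by
    refine List.count_pos_iff.1 ?_
    cases s
    · have := wf_cntR h2 e
      simp [List.count_cons] at this
      omega
    · have := wf_cntL h2 e
      simp [List.count_cons] at this
      omega
  obtain ⟨mid, post, rfl⟩ := List.append_of_mem h3
  exact ⟨s, pre, mid, post, rfl⟩

theorem WF.only (h : WF E) {s s' : Bool} {e : ℕ} {pre mid post : List Ev}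
    (hE : E = pre ++ ⟨s, true, e⟩ :: (mid ++ ⟨s', false, e⟩ :: post)) :
    s' = s ∧ ∀ z ∈ pre ++ mid ++ post, z.id ≠ e := by
  have h1 := wf_cnt h e
  subst hE
  refine ⟨?_, fun z hz he => ?_⟩
  · cases s <;> cases s' <;> simp [List.count_cons] at h1 ⊢ <;> omega
  · obtain ⟨a, b, j⟩ := z
    dsimp only at he
    subst he
    have h2 := List.count_pos_iff.2 hz
    simp only [List.count_append] at h2
    cases s <;> cases s' <;> cases a <;> cases b <;> simp [List.count_cons] at h1 <;> omega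

theorem wf_underR {ls st ls' st' : List ℕ} (h : Run ls st E ls' st') {f : ℕ}
    (hf : ∀ z ∈ E, z.id ≠ f) (rs : List ℕ) : ∀ ts, st = ts ++ f :: rs → f ∉ ts →
      ∃ ts', st' = ts' ++ f :: rs ∧ f ∉ ts' ∧ Run ls ts E ls' ts' := by
  induction h with
  | nil => exact fun ts e h => ⟨ts, e, h, Run.nil _ _⟩
  | oL _ ih =>
    intro ts e h
    obtain ⟨ts', a, b, c⟩ := ih (fun z hz => hf z (List.mem_cons_of_mem _ hz)) ts e h
    exact ⟨ts', a, b, Run.oL c⟩
  | cL _ ih =>
    intro ts e h
    obtain ⟨ts', a, b, c⟩ := ih (fun z hz => hf z (List.mem_cons_of_mem _ hz)) ts e h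
    exact ⟨ts', a, b, Run.cL c⟩
  | @oR ls st ls' st' E k _ ih =>
    intro ts e h
    have hk : k ≠ f := hf _ List.mem_cons_self
    obtain ⟨ts', a, b, c⟩ := ih (fun z hz => hf z (List.mem_cons_of_mem _ hz)) (k :: ts)
      (by rw [e]; rfl) (by simp [h, hk.symm])
    exact ⟨ts', a, b, Run.oR c⟩
  | @cR ls st ls' st' E k _ ih =>
    intro ts e h
    have hk : k ≠ f := hf _ List.mem_cons_self
    cases ts with
    | nil => exact absurd (List.cons.inj e).1 hk
    | cons t ts =>
      obtain ⟨rfl, e'⟩ := List.cons.inj e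
      obtain ⟨ts', a, b, c⟩ := ih (fun z hz => hf z (List.mem_cons_of_mem _ hz)) ts e'
        fun h' => h (List.mem_cons_of_mem _ h')
      exact ⟨ts', a, b, Run.cR c⟩

theorem wf_underL {st rs st' rs' : List ℕ} (h : Run st rs E st' rs') {f : ℕ}
    (hf : ∀ z ∈ E, z.id ≠ f) (ls : List ℕ) : ∀ ts, st = ts ++ f :: ls → f ∉ ts →
      ∃ ts', st' = ts' ++ f :: ls ∧ f ∉ ts' ∧ Run ts rs E ts' rs' := by
  induction h with
  | nil => exact fun ts e h => ⟨ts, e, h, Run.nil _ _⟩
  | oR _ ih =>
    intro ts e h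
    obtain ⟨ts', a, b, c⟩ := ih (fun z hz => hf z (List.mem_cons_of_mem _ hz)) ts e h
    exact ⟨ts', a, b, Run.oR c⟩
  | cR _ ih =>
    intro ts e h
    obtain ⟨ts', a, b, c⟩ := ih (fun z hz => hf z (List.mem_cons_of_mem _ hz)) ts e h
    exact ⟨ts', a, b, Run.cR c⟩
  | @oL st rs st' rs' E k _ ih =>
    intro ts e h
    have hk : k ≠ f := hf _ List.mem_cons_self
    obtain ⟨ts', a, b, c⟩ := ih (fun z hz => hf z (List.mem_cons_of_mem _ hz)) (k :: ts)
      (by rw [e]; rfl) (by simp [h, hk.symm])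
    exact ⟨ts', a, b, Run.oL c⟩
  | @cL st rs st' rs' E k _ ih =>
    intro ts e h
    have hk : k ≠ f := hf _ List.mem_cons_self
    cases ts with
    | nil => exact absurd (List.cons.inj e).1 hk
    | cons t ts =>
      obtain ⟨rfl, e'⟩ := List.cons.inj e
      obtain ⟨ts', a, b, c⟩ := ih (fun z hz => hf z (List.mem_cons_of_mem _ hz)) ts e'
        fun h' => h (List.mem_cons_of_mem _ h')
      exact ⟨ts', a, b, Run.cL c⟩

theorem wf_head {f : ℕ} {a ts b : List ℕ} (e : f :: a = ts ++ f :: b) (h : f ∉ ts) :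
    ts = [] ∧ a = b := by
  cases ts with
  | nil => exact ⟨rfl, (List.cons.inj e).2⟩
  | cons t ts => exact absurd ((List.cons.inj e).1 ▸ List.mem_cons_self) h

theorem WF.chordR (h : WF E) {f : ℕ} {pre mid post : List Ev}
    (hE : E = pre ++ ⟨false, true, f⟩ :: (mid ++ ⟨false, false, f⟩ :: post)) :
    ∃ ls rs ls', Run [] [] pre ls rs ∧ Run ls [] mid ls' [] ∧ Run ls' rs post [] [] := by
  have ho := (h.only hE).2
  subst hE
  obtain ⟨ls, rs, h1, h2⟩ := Run.split h.1
  cases h2 with
  | oR h2 =>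
    obtain ⟨ls', rs1, h3, h4⟩ := Run.split h2
    cases h4 with
    | cR h4 =>
      obtain ⟨ts', a, b, c⟩ := wf_underR h3 (fun z hz => ho z (by simp [hz])) rs [] rfl (by simp)
      obtain ⟨rfl, rfl⟩ := wf_head a b
      exact ⟨ls, _, ls', h1, c, h4⟩

theorem WF.chordL (h : WF E) {f : ℕ} {pre mid post : List Ev}
    (hE : E = pre ++ ⟨true, true, f⟩ :: (mid ++ ⟨true, false, f⟩ :: post)) :
    ∃ ls rs rs', Run [] [] pre ls rs ∧ Run [] rs mid [] rs' ∧ Run ls rs' post [] [] := by
  have ho := (h.only hE).2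
  subst hE
  obtain ⟨ls, rs, h1, h2⟩ := Run.split h.1
  cases h2 with
  | oL h2 =>
    obtain ⟨ls1, rs', h3, h4⟩ := Run.split h2
    cases h4 with
    | cL h4 =>
      obtain ⟨ts', a, b, c⟩ := wf_underL h3 (fun z hz => ho z (by simp [hz])) ls [] rfl (by simp)
      obtain ⟨rfl, rfl⟩ := wf_head a b
      exact ⟨_, rs, rs', h1, c, h4⟩

end Pool.Agent.Lib.MP_7bc610_gt
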