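import Pool.Agent.Lib.MP_7bc610_gt.H9Rot
import Pool.Agent.Lib.MP_7bc610_gt.H9Wf

/-!
Removing a chord.
-/

namespace Pool.Agent.Lib.MP_7bc610_gt

open LaurentPolynomial

theorem geo_rw {b : ℕ} {u v : Word} (h : Isotopic 0 b u v) (hv : Valid 0 u b)
    (hu : ∃ w, u = (.cup, 0) :: w) (i : ℕ) : Rw (shift i u) (shift i v) := by
  intro n m hn
  obtain ⟨w, rfl⟩ := hu
  have hi : i ≤ n := by
    have := hn.1
    simp only [Kind.inp] at this
    omega
  have h1 := hv.shift i (n - i)
  have h2 := h.shift i (n - i)
  rw [show 0 + i + (n - i) = n by omega] at h1 h2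
  rw [hn.unique h1]
  exact h2

theorem geo_cup_up {a b : ℕ} {M : Word} (hM : Valid a M b) :
    Rw ((.cup, a) :: M) (M ++ [(.cup, b)]) := by
  have h := inter hM 0 0 le_rfl [(.cup, 0)]
  simp only [shift_zero, shift_cons, shift_nil, Nat.zero_add, List.cons_append,
    List.nil_append] at h
  refine Rw.back h fun n m hv => ?_
  have h1 : a ≤ n := by
    have := hv.1
    simp only [Kind.inp] at this
    omega
  have h2 : Valid (n + 2) M m := hv.2
  have h3 := hM.shift 0 (n - a + 2)
  have h4 := hM.shift 0 (n - a)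
  rw [shift_zero, show a + 0 + (n - a + 2) = n + 2 by omega] at h3
  rw [shift_zero, show a + 0 + (n - a) = n by omega] at h4
  have h5 := h2.unique h3
  refine valid_append.2 ⟨_, h4, ?_⟩
  simp only [Valid, Kind.inp, Kind.out]
  omega

theorem geo_right {D M : Word} {p q : ℕ}
    (hD : Rw (shift (p + 1) D) [(.cup, p + 1), (.cup, p + 3)]) (hM : Valid (p + 1) M (q + 1))
    (s : Word) : Rw (shift (p + 1) D ++ (.cap, p) :: (M ++ (.cap, q) :: s)) (M ++ s) := by
  refine (hD.right _).trans ?_
  refine ((Rw.commB .cap .cup (i := p) (q := p + 1) (q' := p + 3) (by simp [Kind.out])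
    (by simp [Kind.out, Kind.inp]) _).cons (.cup, p + 1)).trans ?_
  refine ((Rw.move (.zig p)).right _).trans ?_
  refine ((geo_cup_up hM).right ((.cap, q) :: s)).trans ?_
  have := (Rw.move (.zig q)).ctx M s
  simpa using this

theorem geo_left {D W : Word} {p : ℕ}
    (hD : Rw (shift p D) [(.cup, p), (.cup, p + 2)]) (s : Word) :
    Rw (shift p D ++ (.cap, p + 3) :: (shift (p + 2) W ++ (.cap, p + 1) :: s))
      (shift p W ++ s) := by
  refine (hD.right _).trans ?_
  refine (((Rw.move (.zag (p + 2))).right _).cons (.cup, p)).trans ?_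
  refine ((inter1 .cup p (p + 2) p (by simp [Kind.out]) (by simp [Kind.out, Kind.inp]) W).right
    ((.cap, p + 1) :: s)).trans ?_
  have := (Rw.move (.zag p)).ctx (shift p W) s
  simpa using this

theorem geo_close {E E' : List Ev} (h : WF E) {X : ℕ → AT}
    (hR : Rw (itp X (nf 0 E)) (itp X (nf 0 E'))) : Isotopic 0 0 (NFw E X) (NFw E' X) := by
  have h1 : Rw (NFw E X) (NFw E' X) := by
    have := hR.ctx (itp X [(.cup, 0)]) (itp X [(.cap, 0)])
    rw [← itp_append, ← itp_append, ← itp_append, ← itp_append] at this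
    exact this
  exact h1 0 0 (h.valid X)

theorem geo0 {E : List Ev} (h : WF E) {f : ℕ} (hf : f ∈ ids E) {X : ℕ → AT}
    (hX : Isotopic 0 4 (X f).dia [(.cup, 0), (.cup, 2)]) :
    Isotopic 0 0 (NFw E X) (NFw (del E f) X) := by
  obtain ⟨s, pre, mid, post, hE⟩ := h.split hf
  have honly := (h.only hE).2
  have hdel : del E f = pre ++ (mid ++ post) := by
    rw [hE]; exact del_eq rfl rfl honly
  have hD := fun i => geo_rw hX (AT.valid _) (dia_head _) i
  refine geo_close h ?_
  rw [hdel]
  cases s with
  | false =>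
    obtain ⟨ls, rs, ls', h1, h2, h3⟩ := h.chordR hE
    have e1 := h1.nfT_append fun _ => 0
    have e2 := h2.nfT_append fun _ => 0
    have hM := (h2.tv (fun _ => 0) 0).valid X
    simp only [List.length_nil, Nat.mul_zero, Nat.add_zero] at e1 hM
    rw [hE]
    simp only [nf, e1, nfT, e2, itp_append, itp, TK.body, rotN, shift_cons, shift_nil,
      Nat.zero_add, List.cons_append, List.nil_append]
    refine Rw.left (geo_right ?_ hM _) _
    have := hD (2 * ls.length + 1)
    simp only [shift_cons, shift_nil, Nat.zero_add] at this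
    rwa [show 2 + (2 * ls.length + 1) = 2 * ls.length + 3 by omega] at this
  | true =>
    obtain ⟨ls, rs, rs', h1, h2, h3⟩ := h.chordL hE
    have e1 := h1.nfT_append fun _ => 0
    have e2 := (h2.extL ls).nfT_append fun _ => 0
    have e3 := (h2.extL (f :: ls)).nfT_append fun _ => 0
    have e4 := h2.nfT_shift (fun _ => 0) ls.length
    have e5 := h2.nfT_shift (fun _ => 0) (ls.length + 1)
    simp only [List.length_nil, List.nil_append, List.length_cons, Nat.zero_add] at e1 e2 e3 e4 e5
    rw [hE]
    simp only [nf, e1, nfT, e2, e3, e4, e5, itp_append, itp, itp_tshift, TK.body, rotN,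
      shift_cons, shift_nil, Nat.zero_add, List.cons_append, List.nil_append,
      Nat.add_sub_cancel]
    rw [show 2 * (ls.length + 1) - 1 = 2 * ls.length + 1 by omega,
      show 2 * (ls.length + 1) = 2 * ls.length + 2 by omega]
    refine Rw.left (geo_left ?_ _) _
    have := hD (2 * ls.length)
    simp only [shift_cons, shift_nil, Nat.zero_add] at this
    rwa [show 2 + 2 * ls.length = 2 * ls.length + 2 by omega] at this

theorem geo1 {E pre post : List Ev} (h : WF E) {s : Bool} {e : ℕ}
    (hE : E = pre ++ ⟨s, true, e⟩ :: ⟨s, false, e⟩ :: post) {X : ℕ → AT}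
    (hX : Isotopic 0 2 ((X e).dia ++ [(.cap, 1)]) [(.cup, 0)]) :
    Isotopic 0 0 (NFw E X) (NFw (del E e) X) := by
  have hE' : E = pre ++ ⟨s, true, e⟩ :: ([] ++ ⟨s, false, e⟩ :: post) := hE
  have honly := (h.only hE').2
  have hdel : del E e = pre ++ post := by
    rw [hE']; exact del_eq rfl rfl honly
  have hv : Valid 0 ((X e).dia ++ [(.cap, 1)]) 2 :=
    valid_append.2 ⟨4, AT.valid _, by simp [Valid, Kind.inp, Kind.out]⟩
  have hh : ∃ w, (X e).dia ++ [(.cap, 1)] = (.cup, 0) :: w := by
    obtain ⟨w, hw⟩ := dia_head (X e)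
    exact ⟨_, by rw [hw]; rfl⟩
  have hD := fun i => geo_rw hX hv hh i
  refine geo_close h ?_
  rw [hdel]
  obtain ⟨ls, rs, h1, -⟩ := Run.split (hE ▸ h.1)
  have e1 := h1.nfT_append fun _ => 0
  simp only [List.length_nil] at e1
  rw [hE]
  cases s with
  | false =>
    simp only [nf, e1, nfT, itp_append, itp, TK.body, rotN, shift_cons, shift_nil,
      Nat.zero_add, List.cons_append, List.nil_append]
    refine Rw.left ?_ _
    refine ((Rw.commF .cap .cap (i := 2 * ls.length) (q := 2 * ls.length)
      (q' := 2 * ls.length + 2) (by simp [Kind.out]) (by simp [Kind.out, Kind.inp]) _).left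
      _).trans ?_
    have h2 := (hD (2 * ls.length + 1)).right
      ((.cap, 2 * ls.length) :: itp X (nfT (fun _ => 0) ls.length post))
    simp only [shift_append, shift_cons, shift_nil, Nat.zero_add, List.append_assoc,
      List.cons_append, List.nil_append] at h2
    rw [show 1 + (2 * ls.length + 1) = 2 * ls.length + 2 by omega] at h2
    exact h2.trans ((Rw.move (.zig _)).right _)
  | true =>
    simp only [nf, e1, nfT, itp_append, itp, TK.body, rotN, shift_cons, shift_nil,
      Nat.zero_add, List.cons_append, List.nil_append, Nat.add_sub_cancel]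
    rw [show 2 * (ls.length + 1) - 1 = 2 * ls.length + 1 by omega]
    refine Rw.left ?_ _
    refine ((Rw.commB .cap .cap (i := 2 * ls.length + 1) (q := 2 * ls.length + 1)
      (q' := 2 * ls.length + 3) (by simp [Kind.out]) (by simp [Kind.out, Kind.inp]) _).left
      _).trans ?_
    have h2 := (hD (2 * ls.length)).right
      ((.cap, 2 * ls.length + 1) :: itp X (nfT (fun _ => 0) ls.length post))
    simp only [shift_append, shift_cons, shift_nil, Nat.zero_add, List.append_assoc,
      List.cons_append, List.nil_append] at h2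
    rw [show 1 + 2 * ls.length = 2 * ls.length + 1 by omega] at h2
    exact h2.trans ((Rw.move (.zag _)).right _)

end Pool.Agent.Lib.MP_7bc610_gt
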