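import Pool.Agent.Lib.MP_7bc610_gt.H9Rot
import Pool.Agent.Lib.MP_7bc610_gt.H9Wf

/-!
Merging two boxes.
-/

namespace Pool.Agent.Lib.MP_7bc610_gt

open LaurentPolynomial

theorem geo2_fin {E E' : List Ev} (h : WF E) (h' : WF E') {X : ℕ → AT} {f q : ℕ} {Z : AT}
    {A B U V C : Tm} (e1 : (.cup, 0) :: nf 0 E ++ [(.cap, 0)] = A ++ U)
    (e2 : (.cup, 0) :: nf 0 E' ++ [(.cap, 0)] = A ++ (.box f 0, q) :: B)
    (hA : f ∉ tids A) (hB : f ∉ tids B) (hV : itp X V = shift q Z.dia)
    (r1 : TR U C) (r2 : TR (V ++ B) C) :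
    Isotopic 0 0 (NFw E X) (NFw E' (Function.update X f Z)) := by
  have v1 := h.valid X
  have v2 := h'.valid (Function.update X f Z)
  have k : ∀ T : Tm, f ∉ tids T → itp (Function.update X f Z) T = itp X T := fun T hT =>
    itp_congr fun j hj => Function.update_of_ne (by rintro rfl; exact hT hj) _ _
  have e3 : NFw E' (Function.update X f Z) = itp X (A ++ (V ++ B)) := by
    rw [NFw, e2, itp_append, itp_append, itp_append, hV, k A hA, itp, k B hB]
    simp [TK.body, rotN]
  rw [e3] at v2 ⊢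
  rw [NFw, e1] at v1 ⊢
  exact ((r1.left A).1 X 0 0 v1).trans ((r2.left A).1 X 0 0 v2).symm

theorem geo2_addL (X : ℕ → AT) (e f q : ℕ) :
    itp X [(.box f 0, q), (.box e 1, q + 4), (.cap, q + 3), (.cap, q + 2)] =
      shift q (mrg true (X e) (X f)).dia := by
  simp [itp, TK.body, rotN, mrg, AT.dia, Nat.add_comm, Nat.add_left_comm]

theorem geo2_addR (X : ℕ → AT) (e f q : ℕ) :
    itp X [(.box e 3, q), (.box f 0, q + 4), (.cap, q + 3), (.cap, q + 2)] =
      shift q (mrg false (X e) (X f)).dia := by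
  simp [itp, TK.body, rotN, mrg, AT.dia, Nat.add_comm]

theorem geo2_mem {ls rs ls' rs' : List ℕ} {E : List Ev} (h : Run ls rs E ls' rs') (j : ℕ) :
    (j ∈ ls' → j ∈ ls ∨ (⟨true, true, j⟩ : Ev) ∈ E) ∧
      (j ∈ rs' → j ∈ rs ∨ (⟨false, true, j⟩ : Ev) ∈ E) := by
  induction h with
  | nil => simp
  | oL _ ih => simp only [List.mem_cons, Ev.mk.injEq] at ih ⊢; tauto
  | cL _ ih => simp only [List.mem_cons, Ev.mk.injEq] at ih ⊢; tauto
  | oR _ ih => simp only [List.mem_cons, Ev.mk.injEq] at ih ⊢; tauto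
  | cR _ ih => simp only [List.mem_cons, Ev.mk.injEq] at ih ⊢; tauto

theorem geo2_cc {i q q' : ℕ} (h : i ≤ q) (h' : q' = q + 2) (s : Tm) :
    TR ((.cap, i) :: (.cap, q) :: s) ((.cap, q') :: (.cap, i) :: s) :=
  TR.commF .cap .cap h h' s

theorem geo2_cc' {i q q' : ℕ} (h : i ≤ q) (h' : q' = q + 2) (s : Tm) :
    TR ((.cap, q') :: (.cap, i) :: s) ((.cap, i) :: (.cap, q) :: s) :=
  TR.commB .cap .cap h h' s

theorem geo2_t1 (e f p : ℕ) (s : Tm) :
    TR ((.box e 0, p + 1) :: (.cap, p) :: (.box f 0, p) :: (.cap, p + 3) :: (.cap, p + 2) :: s)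
      ((.box f 0, p) :: (.box e 1, p + 4) :: (.cap, p + 3) :: (.cap, p + 2) :: (.cap, p + 3) ::
        s) := by
  refine ((tr_oR_oL e 0 p).right _).trans ?_
  refine ((TR.commB (.box f 0) .cap (q := p + 7) (by simp [TK.out]) rfl _).cons _).trans ?_
  refine (TR.commB (.box f 0) (.box e 1) (q := p + 4) le_rfl rfl _).trans ?_
  refine TR.cons (TR.cons ?_ _) _
  exact (geo2_cc' (q := p + 5) (by omega) rfl _).trans ((geo2_cc' (by omega) rfl _).cons _)

theorem geo2_t2 (e f p : ℕ) (s : Tm) :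
    TR ((.box e 0, p) :: (.cap, p + 3) :: (.box f 0, p + 3) :: (.cap, p + 2) :: (.cap, p + 1) :: s)
      ((.box e 3, p + 1) :: (.box f 0, p + 1 + 4) :: (.cap, p + 1 + 3) :: (.cap, p + 1 + 2) ::
        (.cap, p) :: s) := by
  refine ((tr_rot4 e 0 p).right _).trans (((tr_oL_oR e 3 p).right _).trans (TR.cons ?_ _))
  refine (TR.commF .cap (.box f 0) (q' := p + 1 + 4) (by simp only [TK.out]; omega) rfl _).trans
    (TR.cons ?_ _)
  exact (geo2_cc (by omega) rfl _).trans ((geo2_cc (by omega) rfl _).cons _)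

theorem geo2_t3 (e p : ℕ) (s : Tm) :
    TR ((.box e 0, p + 3) :: (.cap, p + 2) :: (.cap, p + 1) :: (.cap, p) :: s)
      ((.box e 3, p) :: (.cap, p + 3) :: (.cap, p + 2) :: (.cap, p + 1) :: s) := by
  refine ((tr_oR_oL e 0 (p + 2)).right _).trans ?_
  refine ((geo2_cc' (q := p + 3) (by omega) rfl _).cons _).trans ?_
  refine ((tr_oR_oL e 1 (p + 1)).right _).trans ?_
  refine (((geo2_cc' (q := p + 1) (by omega) rfl _).cons _).cons _).trans ?_
  refine ((geo2_cc' (q := p + 2) (by omega) rfl _).cons _).trans ?_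
  exact (tr_oR_oL e 2 p).right _

theorem geo2_t4 (e f p : ℕ) (M s : Tm) :
    TR ((.box e 3, p) :: (.box f 0, p + 4) :: (.cap, p + 3) :: (.cap, p + 2) :: (.cap, p + 3) ::
        (tshift (p + 2) M ++ s))
      ((.box f 0, p) :: (.cap, p + 3) :: (tshift (p + 2) M ++
        (.box e 3, p) :: (.cap, p + 3) :: (.cap, p + 2) :: s)) := by
  refine (TR.commF (.box e 3) (.box f 0) (q' := p) le_rfl rfl _).trans (TR.cons ?_ _)
  refine (((geo2_cc (q' := p + 5) (by omega) rfl _).cons _).cons _).trans ?_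
  refine ((geo2_cc (q' := p + 7) (by omega) rfl _).cons _).trans ?_
  refine (TR.commF (.box e 3) .cap (q' := p + 3) (by simp [TK.out]) rfl _).trans (TR.cons ?_ _)
  have hg : TV 2 [(.box e 3, 0), (.cap, 3), (.cap, 2)] 2 := by simp [TV, TK.inp, TK.out]
  simpa [Nat.add_comm] using (TR.inter hg p p le_rfl M).right s

theorem geo2_t5 (e p : ℕ) (s : Tm) :
    TR ((.box e 0, p) :: (.cap, p + 3) :: (.cap, p + 2) :: (.cap, p + 1) :: s)
      ((.box e 1, p + 3) :: (.cap, p + 2) :: (.cap, p + 1) :: (.cap, p) :: s) := by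
  refine ((tr_rot4 e 0 p).right _).trans (((tr_oL_oR e 3 p).right _).trans ?_)
  refine ((geo2_cc (q' := p + 4) (by omega) rfl _).cons _).trans ?_
  refine (((geo2_cc (q' := p + 3) (by omega) rfl _).cons _).cons _).trans ?_
  refine ((tr_oL_oR e 2 (p + 1)).right _).trans ?_
  refine ((geo2_cc (q' := p + 5) (by omega) rfl _).cons _).trans ?_
  exact (tr_oL_oR e 1 (p + 2)).right _

theorem geo2_t6 (e f p : ℕ) (s : Tm) :
    TR ((.box f 0, p + 1) :: (.box e 1, p + 1 + 4) :: (.cap, p + 1 + 3) :: (.cap, p + 1 + 2) ::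
        (.cap, p) :: s)
      ((.box f 0, p + 1) :: (.cap, p) :: (.box e 1, p + 3) :: (.cap, p + 2) :: (.cap, p + 1) ::
        s) := by
  refine TR.cons ?_ _
  refine (((geo2_cc' (q := p + 1) (by omega) rfl _).cons _).cons _).trans ?_
  refine ((geo2_cc' (q := p + 2) (by omega) rfl _).cons _).trans ?_
  exact TR.commB .cap (.box e 1) (by simp [TK.out]) rfl _

theorem geo2_t7 {M : Tm} {p p' : ℕ} (hM : TV (p + 1) M (p' + 1)) (e : ℕ) (s : Tm) :
    TR (M ++ (.box e 1, p' + 3) :: (.cap, p' + 2) :: (.cap, p' + 1) :: s)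
      ((.box e 1, p + 3) :: (.cap, p + 2) :: (.cap, p + 1) :: (M ++ s)) := by
  have := (TR.inter hM 0 0 le_rfl [(.box e 1, 2), (.cap, 1), (.cap, 0)]).right s
  simp only [tshift_zero, tshift_cons, tshift_nil, Nat.zero_add, List.append_assoc,
    List.cons_append, List.nil_append] at this
  rwa [show 2 + (p' + 1) = p' + 3 by omega, show 1 + (p' + 1) = p' + 2 by omega,
    show 2 + (p + 1) = p + 3 by omega, show 1 + (p + 1) = p + 2 by omega] at this

theorem geo2_tids (l : ℕ) (E : List Ev) : tids (nf l E) = opens E := tids_nfT _ l E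

theorem geo2_tc (i : ℕ) (T : Tm) :
    tids ((.cup, i) :: T) = tids T ∧ tids ((.cap, i) :: T) = tids T := ⟨rfl, rfl⟩

/-- The middle event opens its chord. -/
theorem geo2_open {E pre post : List Ev} (h : WF E) {s t : Bool} {e f : ℕ}
    (hE : E = pre ++ ⟨s, true, e⟩ :: ⟨t, true, f⟩ :: ⟨s, false, e⟩ :: post) (X : ℕ → AT) :
    Isotopic 0 0 (NFw E X) (NFw (del E e) (Function.update X f (mrg s.not (X e) (X f)))) := by
  have hd : del E e = pre ++ ⟨t, true, f⟩ :: post := by
    have := (h.only (mid := [⟨t, true, f⟩]) hE).2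
    rw [hE]
    exact del_eq (mid := [⟨t, true, f⟩]) rfl rfl this
  have hn := h.2
  have hr := h.1
  rw [hE] at hn hr
  obtain ⟨ls, rs, r1, r2⟩ := hr.split
  have ho : opens (⟨s, true, e⟩ :: ⟨t, true, f⟩ :: ⟨s, false, e⟩ :: post) = e :: f :: opens post :=
    rfl
  rw [opens_append, ho, List.nodup_append] at hn
  obtain ⟨-, n2, n3⟩ := hn
  have f1 : f ∉ opens pre := fun hf => n3 f hf f (by simp) rfl
  have f2 : f ∉ opens post := (List.nodup_cons.1 (List.nodup_cons.1 n2).2).1
  have f3 : e ≠ f := fun hf => (List.nodup_cons.1 n2).1 (by simp [hf])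
  have a1 := r1.nfT_append fun _ => 0
  simp only [List.length_nil] at a1
  have hA : f ∉ tids ((.cup, 0) :: nf 0 pre) := by rwa [(geo2_tc _ _).1, geo2_tids]
  have hB : ∀ i l, f ∉ tids ((.cap, i) :: (nf l post ++ [(.cap, 0)])) := fun i l => by
    rw [(geo2_tc _ _).2, tids_append, geo2_tids]
    simpa [tids, bp] using f2
  cases s <;> cases t
  · cases r2 with | oR r2 => cases r2 with | oR r2 => cases r2 with | cR r2 => exact absurd rfl f3
  · refine geo2_fin h (h.del e) (A := (.cup, 0) :: nf 0 pre) ?_ ?_ hA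
      (hB (2 * ls.length + 3) (ls.length + 1)) (geo2_addL X e f (2 * ls.length))
      (geo2_t1 e f (2 * ls.length) (nf (ls.length + 1) post ++ [(TK.cap, 0)])) ?_
    · simp [hE, nf, a1, nfT, Nat.mul_add]
    · simp [hd, nf, a1, nfT]
    · simp only [List.cons_append, List.nil_append]
      exact TR.refl _
  · refine geo2_fin h (h.del e) (A := (.cup, 0) :: nf 0 pre) ?_ ?_ hA
      (hB (2 * ls.length) ls.length) (geo2_addR X e f (2 * ls.length + 1))
      (geo2_t2 e f (2 * ls.length) (nf ls.length post ++ [(TK.cap, 0)])) ?_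
    · simp [hE, nf, a1, nfT, Nat.mul_add]
    · simp [hd, nf, a1, nfT]
    · simp only [List.cons_append, List.nil_append]
      exact TR.refl _
  · cases r2 with | oL r2 => cases r2 with | oL r2 => cases r2 with | cL r2 => exact absurd rfl f3

/-- The middle event closes its chord. -/
theorem geo2_close {E pre post : List Ev} (h : WF E) {s t : Bool} {e f : ℕ} (hef : f ≠ e)
    (hE : E = pre ++ ⟨s, true, e⟩ :: ⟨t, false, f⟩ :: ⟨s, false, e⟩ :: post) (X : ℕ → AT) :
    Isotopic 0 0 (NFw E X) (NFw (del E e) (Function.update X f (mrg s (X e) (X f)))) := by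
  have hd : del E e = pre ++ ⟨t, false, f⟩ :: post := by
    have := (h.only (mid := [⟨t, false, f⟩]) hE).2
    rw [hE]
    exact del_eq (mid := [⟨t, false, f⟩]) rfl rfl this
  have hr := h.1
  rw [hE] at hr
  obtain ⟨ls0, rs0, r1, r2⟩ := hr.split
  have hm : (⟨t, true, f⟩ : Ev) ∈ pre ∧ t = !s := by
    have k := geo2_mem r1 f
    cases s <;> cases t
    · cases r2 with | oR r2 => cases r2 with | cR r2 => exact absurd rfl hef
    · cases r2 with | oR r2 => cases r2 with | cL r2 => simpa using k.1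
    · cases r2 with | oL r2 => cases r2 with | cR r2 => simpa using k.2
    · cases r2 with | oL r2 => cases r2 with | cL r2 => exact absurd rfl hef
  obtain ⟨hm, rfl⟩ := hm
  obtain ⟨pre1, mid, rfl⟩ := List.append_of_mem hm
  have hw := h.del e
  have hn := hw.2
  have ho : opens (⟨!s, true, f⟩ :: mid) = f :: opens mid := rfl
  have ho' : opens (⟨!s, false, f⟩ :: post) = opens post := rfl
  rw [hd, opens_append, opens_append, ho, ho', List.append_assoc, List.nodup_append] at hn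
  obtain ⟨-, n2, n3⟩ := hn
  have f1 : f ∉ opens pre1 := fun hf => n3 f hf f (by simp) rfl
  have f2 : f ∉ opens mid ++ opens post := (List.nodup_cons.1 n2).1
  have hA : f ∉ tids ((.cup, 0) :: nf 0 pre1) := by rwa [(geo2_tc _ _).1, geo2_tids]
  have hB : ∀ i i' l l', f ∉ tids ((.cap, i) :: (nf l mid ++
      (.cap, i') :: (nf l' post ++ [(.cap, 0)]))) := fun i i' l l' => by
    rw [(geo2_tc _ _).2, tids_append, (geo2_tc _ _).2, tids_append, geo2_tids, geo2_tids]
    simpa [tids, bp] using f2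
  have hd' : del E e = pre1 ++ ⟨!s, true, f⟩ :: (mid ++ ⟨!s, false, f⟩ :: post) := by
    simp [hd]
  cases s
  · obtain ⟨ls, rs, rs', q1, q2, -⟩ := hw.chordL hd'
    have a1 := q1.nfT_append fun _ => 0
    have a2 := (q2.extL (f :: ls)).nfT_append fun _ => 0
    have a3 := q2.nfT_shift (fun _ => 0) (ls.length + 1)
    simp only [List.length_nil, List.nil_append, List.length_cons, Nat.zero_add,
      Nat.mul_add] at a1 a2 a3
    refine geo2_fin h hw (A := (.cup, 0) :: nf 0 pre1) ?_ ?_ hA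
      (hB (2 * ls.length + 3) (2 * ls.length + 1) (ls.length + 1) ls.length)
      (geo2_addR X e f (2 * ls.length))
      ((((geo2_t3 e (2 * ls.length) (nf ls.length post ++ [(TK.cap, 0)])).left
        (tshift (2 * ls.length + 2) (nf 0 mid))).cons (.cap, 2 * ls.length + 3)).cons
        (.box f 0, 2 * ls.length)) ?_
    · simp [hE, nf, a1, a2, a3, nfT, Nat.mul_add]
    · simp [hd', nf, a1, a2, nfT, Nat.mul_add]
    · rw [nf, a3]
      simp only [List.cons_append, List.nil_append]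
      exact geo2_t4 e f _ _ _
  · obtain ⟨ls, rs, ls', q1, q2, -⟩ := hw.chordR hd'
    have a1 := q1.nfT_append fun _ => 0
    have a2 := q2.nfT_append fun _ => 0
    have a3 := q2.tv (fun _ => 0) 0
    simp only [List.length_nil, Nat.mul_zero, Nat.add_zero] at a1 a2 a3
    refine geo2_fin h hw (A := (.cup, 0) :: nf 0 pre1) ?_ ?_ hA
      (hB (2 * ls.length) (2 * ls'.length) ls.length ls'.length)
      (geo2_addL X e f (2 * ls.length + 1))
      (((((geo2_t5 e (2 * ls'.length) (nf ls'.length post ++ [(TK.cap, 0)])).left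
        (nf ls.length mid)).trans (geo2_t7 a3 e _)).cons (.cap, 2 * ls.length)).cons
        (.box f 0, 2 * ls.length + 1)) ?_
    · simp [hE, nf, a1, a2, nfT, Nat.mul_add]
    · simp [hd', nf, a1, a2, nfT]
    · simp only [List.cons_append, List.nil_append]
      exact geo2_t6 e f _ _

theorem geo2 {E pre post : List Ev} (h : WF E) {s : Bool} {e : ℕ} {x : Ev} (hef : x.id ≠ e)
    (hE : E = pre ++ ⟨s, true, e⟩ :: x :: ⟨s, false, e⟩ :: post) :
    ∃ b : Bool, ∀ X : ℕ → AT, Isotopic 0 0 (NFw E X)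
      (NFw (del E e) (Function.update X x.id (mrg b (X e) (X x.id)))) := by
  obtain ⟨t, _ | _, f⟩ := x
  · exact ⟨_, geo2_close h hef hE⟩
  · exact ⟨_, geo2_open h hE⟩

end Pool.Agent.Lib.MP_7bc610_gt
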