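import Pool.Agent.Lib.MP_7bc610_gt.H9Wf

/-!
Interlaced chords.
-/

namespace Pool.Agent.Lib.MP_7bc610_gt

open LaurentPolynomial

variable {E : List Ev}

theorem ilx_dec {α : Type} {x : α} {l r : List α} (h : List.Sublist (x :: l) r) :
    ∃ p q, r = p ++ x :: q ∧ List.Sublist l q := by
  obtain ⟨r₁, r₂, rfl, h1, h2⟩ := List.cons_sublist_iff.1 h
  obtain ⟨p, q, rfl⟩ := List.append_of_mem h1
  exact ⟨p, q ++ r₂, by simp, h2.trans (List.sublist_append_right _ _)⟩

theorem ilx_close {ls rs ls' rs' : List ℕ} (h : Run ls rs E ls' rs') (b : ℕ) :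
    (b ∈ ls ∨ (⟨true, true, b⟩ : Ev) ∈ E → b ∈ ls' ∨ (⟨true, false, b⟩ : Ev) ∈ E) ∧
      (b ∈ rs ∨ (⟨false, true, b⟩ : Ev) ∈ E → b ∈ rs' ∨ (⟨false, false, b⟩ : Ev) ∈ E) := by
  induction h with
  | nil ls rs => simp
  | oL _ ih => simp only [List.mem_cons, Ev.mk.injEq] at ih ⊢; tauto
  | cL _ ih => simp only [List.mem_cons, Ev.mk.injEq] at ih ⊢; tauto
  | oR _ ih => simp only [List.mem_cons, Ev.mk.injEq] at ih ⊢; tauto
  | cR _ ih => simp only [List.mem_cons, Ev.mk.injEq] at ih ⊢; tauto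

theorem ilx_cross (h : WF E) {s : Bool} {a b : ℕ} :
    ¬List.Sublist [⟨s, true, a⟩, ⟨s, true, b⟩, ⟨s, false, a⟩, ⟨s, false, b⟩] E := by
  intro hs
  obtain ⟨p, _, rfl, h1⟩ := ilx_dec hs
  obtain ⟨q₁, _, rfl, h2⟩ := ilx_dec h1
  obtain ⟨q₂, q₃, rfl, h3⟩ := ilx_dec h2
  have hE : p ++ ⟨s, true, a⟩ :: (q₁ ++ ⟨s, true, b⟩ :: (q₂ ++ ⟨s, false, a⟩ :: q₃)) =
      p ++ (⟨s, true, a⟩ : Ev) :: ((q₁ ++ ⟨s, true, b⟩ :: q₂) ++ ⟨s, false, a⟩ :: q₃) := by simp
  have hm : (⟨s, false, b⟩ : Ev) ∈ q₁ ++ ⟨s, true, b⟩ :: q₂ := by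
    cases s
    · obtain ⟨_, _, _, -, h4, -⟩ := h.chordR hE
      simpa using (ilx_close h4 b).2 (Or.inr (by simp))
    · obtain ⟨_, _, _, -, h4, -⟩ := h.chordL hE
      simpa using (ilx_close h4 b).1 (Or.inr (by simp))
  have hn := h.nodup
  rw [hE] at hn
  exact List.disjoint_of_nodup_append (List.nodup_cons.1 (List.nodup_append.1 hn).2.1).2 hm
    (List.mem_cons_of_mem _ (List.singleton_sublist.1 h3))

theorem WF.il_side (h : WF E) {a b : ℕ} (hab : il E a b) : side E a ≠ side E b := by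
  intro hs
  obtain ⟨s, t, h1 | h1⟩ := hab
  all_goals
    have h2 := h.side_eq (x := ⟨s, true, a⟩) (h1.subset (by simp))
    have h3 := h.side_eq (x := ⟨t, true, b⟩) (h1.subset (by simp))
    obtain rfl : s = t := h2.symm.trans (hs.trans h3)
    exact ilx_cross h h1

theorem WF.il_irrefl (h : WF E) (a : ℕ) : ¬il E a a := fun h' => h.il_side h' rfl

theorem ilx_filter (h : WF E) {f : ℕ} (hf : f ∈ ids E) :
    ∃ t, (E.filter fun x => x.id = f) = [⟨t, true, f⟩, ⟨t, false, f⟩] := by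
  obtain ⟨t, pre, mid, post, hE⟩ := h.split hf
  have h1 := (h.only hE).2
  have h2 : ∀ l : List Ev, (∀ z ∈ l, z ∈ pre ++ mid ++ post) →
      (l.filter fun x => x.id = f) = [] := fun l hl =>
    List.filter_eq_nil_iff.2 fun z hz => by simpa using h1 z (hl z hz)
  refine ⟨t, ?_⟩
  rw [hE, List.filter_append, List.filter_cons_of_pos (by simp), List.filter_append,
    List.filter_cons_of_pos (by simp), h2 pre (by simp +contextual), h2 mid (by simp +contextual),
    h2 post (by simp +contextual)]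
  rfl

theorem ilx_len {α : Type} {L M : List α} (h : L.length = M.length) : List.Sublist L M ↔ L = M :=
  ⟨fun h' => h'.eq_of_length h, fun h' => h' ▸ List.Sublist.refl _⟩

theorem ilx_three {α : Type} {A B C : List α} {x y : α} (h : A ++ (B ++ C) = [x, y]) :
    (A = [] ∧ B = [] ∧ C = [x, y]) ∨ (A = [] ∧ B = [x] ∧ C = [y]) ∨
      (A = [] ∧ B = [x, y] ∧ C = []) ∨ (A = [x] ∧ B = [] ∧ C = [y]) ∨
        (A = [x] ∧ B = [y] ∧ C = []) ∨ (A = [x, y] ∧ B = [] ∧ C = []) := by
  rcases A with _ | ⟨a, _ | ⟨a', A⟩⟩ <;> rcases B with _ | ⟨b, _ | ⟨b', B⟩⟩ <;> simp_all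

/-- A chord is interlaced with `e` exactly when one of its two endpoints lies between the
endpoints of `e`. -/
theorem WF.il_iff (h : WF E) {s : Bool} {e f : ℕ} {pre mid post : List Ev}
    (hE : E = pre ++ ⟨s, true, e⟩ :: (mid ++ ⟨s, false, e⟩ :: post)) :
    il E e f ↔ (mid.filter fun x => x.id = f).length = 1 := by
  have h1 := (h.only hE).2
  by_cases hef : e = f
  · subst hef
    have h2 : (mid.filter fun x => x.id = e) = [] :=
      List.filter_eq_nil_iff.2 fun z hz => by simpa using h1 z (by simp [hz])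
    simp [h2, h.il_irrefl]
  by_cases hf : f ∈ ids E
  swap
  · have h2 : (mid.filter fun x => x.id = f) = [] :=
      List.filter_eq_nil_iff.2 fun z hz hz' => hf (by
        rw [← of_decide_eq_true hz']
        exact h.mem_ids (by simp [hE, hz]))
    rw [h2]
    exact iff_of_false (fun h3 => hf (il_mem h3).2) (by simp)
  obtain ⟨t, ht⟩ := ilx_filter h hf
  have h2 : ∀ l : List Ev, (∀ z ∈ l, z ∈ pre ++ mid ++ post) →
      (l.filter fun x => x.id = e ∨ x.id = f) = l.filter fun x => x.id = f := fun l hl =>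
    List.filter_congr fun z hz => by simp [h1 z (hl z hz)]
  have h3 : (E.filter fun x => x.id = e ∨ x.id = f) = (pre.filter fun x => x.id = f) ++
      ⟨s, true, e⟩ :: ((mid.filter fun x => x.id = f) ++
        ⟨s, false, e⟩ :: post.filter fun x => x.id = f) := by
    rw [hE, List.filter_append, List.filter_cons_of_pos (by simp), List.filter_append,
      List.filter_cons_of_pos (by simp), h2 pre (by simp +contextual), h2 mid (by simp +contextual),
      h2 post (by simp +contextual)]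
  have h4 : ∀ L : List Ev, (∀ x ∈ L, x.id = e ∨ x.id = f) →
      (List.Sublist L E ↔ List.Sublist L (E.filter fun x => x.id = e ∨ x.id = f)) := fun L hL =>
    ⟨fun h5 => by
      have h6 := h5.filter fun x => x.id = e ∨ x.id = f
      rwa [List.filter_eq_self.2 fun x hx => by simpa using hL x hx] at h6,
    fun h5 => h5.trans List.filter_sublist⟩
  rw [hE, List.filter_append, List.filter_cons_of_neg (by simpa using hef), List.filter_append,
    List.filter_cons_of_neg (by simpa using hef)] at ht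
  have h5 : il E e f ↔ ∃ s' t' : Bool, List.Sublist
      [⟨s', true, e⟩, ⟨t', true, f⟩, ⟨s', false, e⟩, ⟨t', false, f⟩]
        (E.filter fun x => x.id = e ∨ x.id = f) ∨ List.Sublist
      [⟨t', true, f⟩, ⟨s', true, e⟩, ⟨t', false, f⟩, ⟨s', false, e⟩]
        (E.filter fun x => x.id = e ∨ x.id = f) :=
    exists₂_congr fun s' t' => or_congr (h4 _ (by simp)) (h4 _ (by simp))
  rw [h5, h3]
  have hfe : ¬f = e := fun h6 => hef h6.symm
  rcases ilx_three ht with ⟨a, b, c⟩ | ⟨a, b, c⟩ | ⟨a, b, c⟩ | ⟨a, b, c⟩ | ⟨a, b, c⟩ | ⟨a, b, c⟩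
  all_goals
    rw [a, b, c]
    refine Iff.trans (exists₂_congr fun s' t' =>
      or_congr (ilx_len (by rfl)) (ilx_len (by rfl))) ?_
    simp [hef, hfe]

theorem WF.count_le (h : WF E) {mid : List Ev} (hm : List.Sublist mid E) (f : ℕ) :
    (mid.filter fun x => x.id = f).length ≤ 2 := by
  refine (hm.filter _).length_le.trans ?_
  by_cases hf : f ∈ ids E
  · obtain ⟨t, ht⟩ := ilx_filter h hf
    rw [ht]
    rfl
  · rw [List.filter_eq_nil_iff.2 fun z hz hz' => hf (by
      rw [← of_decide_eq_true hz']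
      exact h.mem_ids hz)]
    simp

end Pool.Agent.Lib.MP_7bc610_gt
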