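import Pool.Agent.Lib.MP_7bc610_gt.H9Base

/-!
Invariance of the state sum up to a unit.
-/

namespace Pool.Agent.Lib.MP_7bc610_gt

open LaurentPolynomial

variable {r : ℕ → ℕ → Prop}

theorem cupR_equiv (h : Equivalence r) (i : ℕ) : Equivalence (cupR i r) := by
  refine ⟨fun a => ?_, fun {a b} hab => ?_, fun {a b c} hab hbc => ?_⟩
  · have := h.refl (if a < i then a else a - 2)
    unfold cupR
    tauto
  · unfold cupR at hab ⊢
    rcases hab with ⟨h1, h2⟩ | ⟨h1, h2, h3, h4, h5⟩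
    · exact Or.inl ⟨h2, h1⟩
    · exact Or.inr ⟨h3, h4, h1, h2, h.symm h5⟩
  · unfold cupR at hab hbc ⊢
    rcases hab with ⟨h1, h2⟩ | ⟨h1, h2, h3, h4, h5⟩ <;>
      rcases hbc with ⟨g1, g2⟩ | ⟨g1, g2, g3, g4, g5⟩
    · exact Or.inl ⟨h1, g2⟩
    · tauto
    · tauto
    · exact Or.inr ⟨h1, h2, g3, g4, h.trans h5 g5⟩

theorem capR_equiv (h : Equivalence r) (i : ℕ) : Equivalence (capR i r) := by
  refine ⟨fun a => Or.inl (h.refl _), fun {a b} hab => ?_, fun {a b c} hab hbc => ?_⟩
  · unfold capR at hab ⊢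
    rcases hab with h1 | ⟨h1, h2⟩ | ⟨h1, h2⟩
    · exact Or.inl (h.symm h1)
    · exact Or.inr (Or.inr ⟨h.symm h2, h.symm h1⟩)
    · exact Or.inr (Or.inl ⟨h.symm h2, h.symm h1⟩)
  · unfold capR at hab hbc ⊢
    rcases hab with h1 | ⟨h1, h2⟩ | ⟨h1, h2⟩ <;> rcases hbc with g1 | ⟨g1, g2⟩ | ⟨g1, g2⟩
    · exact Or.inl (h.trans h1 g1)
    · exact Or.inr (Or.inl ⟨h.trans h1 g1, g2⟩)
    · exact Or.inr (Or.inr ⟨h.trans h1 g1, g2⟩)
    · exact Or.inr (Or.inl ⟨h1, h.trans h2 g1⟩)
    · exact Or.inr (Or.inl ⟨h1, g2⟩)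
    · exact Or.inl (h.trans h1 g2)
    · exact Or.inr (Or.inr ⟨h1, h.trans h2 g1⟩)
    · exact Or.inl (h.trans h1 g2)
    · exact Or.inr (Or.inr ⟨h1, g2⟩)

theorem capR_zig (h : Equivalence r) (i : ℕ) :
    capR i (cupR (i + 1) r) = r ∧ ¬cupR (i + 1) r i (i + 1) := by
  constructor
  · funext a b
    apply propext
    have := h.refl i
    unfold capR cupR
    grind (splits := 60)
  · unfold cupR
    grind (splits := 60)

theorem capR_zag (h : Equivalence r) (i : ℕ) :
    capR (i + 1) (cupR i r) = r ∧ ¬cupR i r (i + 1) (i + 1 + 1) := by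
  constructor
  · funext a b
    apply propext
    have := h.refl i
    unfold capR cupR
    grind (splits := 60)
  · unfold cupR
    grind (splits := 60)

theorem capR_cupR (i : ℕ) : capR i (cupR i r) = r ∧ cupR i r i (i + 1) := by
  constructor
  · funext a b
    apply propext
    unfold capR cupR
    grind (splits := 60)
  · unfold cupR
    grind (splits := 60)

theorem cupR_cupR {i j : ℕ} (h : i ≤ j) : cupR (j + 2) (cupR i r) = cupR i (cupR j r) := by
  funext a b
  apply propext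
  unfold cupR
  grind (splits := 60)

/-- A minimum at `i` and a maximum to its right. -/
theorem capR_cupR_right {i j : ℕ} (h : i ≤ j) :
    capR (j + 2) (cupR i r) = cupR i (capR j r) ∧
      (cupR i r (j + 2) (j + 2 + 1) ↔ r j (j + 1)) := by
  constructor
  · funext a b
    apply propext
    unfold capR cupR
    grind (splits := 60)
  · unfold cupR
    grind (splits := 60)

/-- A maximum at `i` and a minimum to its right. -/
theorem capR_cupR_left {i j : ℕ} (h : i ≤ j) :
    capR i (cupR (j + 2) r) = cupR j (capR i r) ∧ (cupR (j + 2) r i (i + 1) ↔ r i (i + 1)) := by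
  constructor
  · funext a b
    apply propext
    unfold capR cupR
    grind (splits := 60)
  · unfold cupR
    grind (splits := 60)

theorem inv_abs {r : ℕ → ℕ → Prop} (hr : Equivalence r) (p p' q q' a b : ℕ) :
    ((r a b ∨ (r a p ∧ r p' b) ∨ (r a p' ∧ r p b)) ∨
      ((r a q ∨ (r a p ∧ r p' q) ∨ (r a p' ∧ r p q)) ∧
        (r q' b ∨ (r q' p ∧ r p' b) ∨ (r q' p' ∧ r p b))) ∨
      ((r a q' ∨ (r a p ∧ r p' q') ∨ (r a p' ∧ r p q')) ∧
        (r q b ∨ (r q p ∧ r p' b) ∨ (r q p' ∧ r p b)))) →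
    ((r a b ∨ (r a q ∧ r q' b) ∨ (r a q' ∧ r q b)) ∨
      ((r a p ∨ (r a q ∧ r q' p) ∨ (r a q' ∧ r q p)) ∧
        (r p' b ∨ (r p' q ∧ r q' b) ∨ (r p' q' ∧ r q b))) ∨
      ((r a p' ∨ (r a q ∧ r q' p') ∨ (r a q' ∧ r q p')) ∧
        (r p b ∨ (r p q ∧ r q' b) ∨ (r p q' ∧ r q b)))) := by
  have he : ∀ x y, r x y ↔ Quotient.mk ⟨r, hr⟩ x = Quotient.mk ⟨r, hr⟩ y :=
    fun x y => (Quotient.eq (r := ⟨r, hr⟩)).symm
  simp only [he]
  generalize Quotient.mk ⟨r, hr⟩ p = P
  generalize Quotient.mk ⟨r, hr⟩ p' = P'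
  generalize Quotient.mk ⟨r, hr⟩ q = Q
  generalize Quotient.mk ⟨r, hr⟩ q' = Q'
  generalize Quotient.mk ⟨r, hr⟩ a = A
  generalize Quotient.mk ⟨r, hr⟩ b = B
  grind (splits := 60)

theorem inv_val {r : ℕ → ℕ → Prop} (hr : Equivalence r) (p p' q q' : ℕ) (d : ℤ[T;T⁻¹])
    {D1 D2 D3 D4} :
    (@ite _ (r p p') D1 d 1) * (@ite _ (r q q' ∨ (r q p ∧ r p' q') ∨ (r q p' ∧ r p q')) D2 d 1) =
      (@ite _ (r q q') D3 d 1) *
        (@ite _ (r p p' ∨ (r p q ∧ r q' p') ∨ (r p q' ∧ r q p')) D4 d 1) := by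
  have s := @hr.symm
  have t := @hr.trans
  by_cases h1 : r p p' <;> by_cases h2 : r q q'
  · rw [if_pos h1, if_pos h2, if_pos (Or.inl h1), if_pos (Or.inl h2)]
  · rw [if_pos h1, if_neg h2, if_pos (Or.inl h1), if_neg, mul_comm]
    rintro (h | ⟨h, h'⟩ | ⟨h, h'⟩)
    · exact h2 h
    · exact h2 (t h (t h1 h'))
    · exact h2 (t h (t (s h1) h'))
  · rw [if_neg h1, if_pos h2, if_pos (Or.inl h2), if_neg, mul_comm]
    rintro (h | ⟨h, h'⟩ | ⟨h, h'⟩)
    · exact h1 h
    · exact h1 (t h (t h2 h'))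
    · exact h1 (t h (t (s h2) h'))
  · rw [if_neg h1, if_neg h2]
    congr 1
    apply if_congr _ rfl rfl
    constructor
    · rintro (h | ⟨h, h'⟩ | ⟨h, h'⟩)
      · exact absurd h h2
      · exact Or.inr (Or.inl ⟨s h, s h'⟩)
      · exact Or.inr (Or.inr ⟨h', h⟩)
    · rintro (h | ⟨h, h'⟩ | ⟨h, h'⟩)
      · exact absurd h h1
      · exact Or.inr (Or.inl ⟨s h, s h'⟩)
      · exact Or.inr (Or.inr ⟨h', h⟩)

theorem capR_capR (hr : Equivalence r) {i j : ℕ} (h : i ≤ j) :
    capR j (capR i r) = capR i (capR (j + 2) r) ∧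
      capVal i r * capVal j (capR i r) = capVal (j + 2) r * capVal i (capR (j + 2) r) := by
  have e1 : (if j < i then j else j + 2) = j + 2 := if_neg (by omega)
  have e2 : (if j + 1 < i then j + 1 else j + 1 + 2) = j + 2 + 1 := if_neg (by omega)
  have e3 : (if i < j + 2 then i else i + 2) = i := if_pos (by omega)
  have e4 : (if i + 1 < j + 2 then i + 1 else i + 1 + 2) = i + 1 := if_pos (by omega)
  constructor
  · funext a b
    apply propext
    have e5 : ∀ a : ℕ, (if (if a < i then a else a + 2) < j + 2 then (if a < i then a else a + 2)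
        else (if a < i then a else a + 2) + 2) =
        (if (if a < j then a else a + 2) < i then (if a < j then a else a + 2)
        else (if a < j then a else a + 2) + 2) := by
      intro a
      split_ifs <;> omega
    unfold capR
    simp only [e1, e2, e3, e4, e5]
    exact ⟨inv_abs hr _ _ _ _ _ _, inv_abs hr _ _ _ _ _ _⟩
  · have f1 : capR i r j (j + 1) ↔ (r (j + 2) (j + 2 + 1) ∨ (r (j + 2) i ∧ r (i + 1) (j + 2 + 1)) ∨
        (r (j + 2) (i + 1) ∧ r i (j + 2 + 1))) := by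
      unfold capR
      rw [e1, e2]
    have f2 : capR (j + 2) r i (i + 1) ↔ (r i (i + 1) ∨ (r i (j + 2) ∧ r (j + 2 + 1) (i + 1)) ∨
        (r i (j + 2 + 1) ∧ r (j + 2) (i + 1))) := by
      unfold capR
      rw [e3, e4]
    unfold capVal
    rw [propext f1, propext f2]
    exact inv_val hr _ _ _ _ _

theorem IsSU.one : IsSU 1 := ⟨0, Or.inl T_zero.symm⟩

theorem IsSU.mul {c c' : ℤ[T;T⁻¹]} (h : IsSU c) (h' : IsSU c') : IsSU (c * c') := by
  obtain ⟨k, h⟩ := h
  obtain ⟨k', h'⟩ := h'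
  refine ⟨k + k', ?_⟩
  rw [T_add]
  rcases h with rfl | rfl <;> rcases h' with rfl | rfl
  · exact Or.inl rfl
  · exact Or.inr (by ring)
  · exact Or.inr (by ring)
  · exact Or.inl (by ring)

theorem IsSU.inv {c : ℤ[T;T⁻¹]} (h : IsSU c) : ∃ c', IsSU c' ∧ c' * c = 1 := by
  obtain ⟨k, h⟩ := h
  have e : (T (-k) : ℤ[T;T⁻¹]) * T k = 1 := by rw [← T_add, neg_add_cancel, T_zero]
  rcases h with rfl | rfl
  · exact ⟨T (-k), ⟨-k, Or.inl rfl⟩, e⟩
  · exact ⟨-T (-k), ⟨-k, Or.inr rfl⟩, by rw [neg_mul_neg, e]⟩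

theorem inv_val_right {i j : ℕ} (h : i ≤ j) : capVal (j + 2) (cupR i r) = capVal j r := by
  unfold capVal
  rw [propext (capR_cupR_right (r := r) h).2]

theorem inv_val_left {i j : ℕ} (h : i ≤ j) : capVal i (cupR (j + 2) r) = capVal i r := by
  unfold capVal
  rw [propext (capR_cupR_left (r := r) h).2]

theorem inv_val_zig (h : Equivalence r) (i : ℕ) : capVal i (cupR (i + 1) r) = 1 := by
  unfold capVal
  exact if_neg (capR_zig h i).2

theorem inv_val_zag (h : Equivalence r) (i : ℕ) : capVal (i + 1) (cupR i r) = 1 := by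
  unfold capVal
  exact if_neg (capR_zag h i).2

theorem inv_val_loop (i : ℕ) : capVal i (cupR i r) = loopVal := by
  unfold capVal
  exact if_pos (capR_cupR i).2

/-- The weight of a smoothing. -/
noncomputable def invA (e : Bool) : ℤ[T;T⁻¹] := T (if e then 1 else -1)

theorem inv_cup (i : ℕ) (w : Word) : ev ((.cup, i) :: w) r = ev w (cupR i r) := rfl

theorem inv_cap (i : ℕ) (w : Word) : ev ((.cap, i) :: w) r = capVal i r * ev w (capR i r) := rfl

theorem inv_cr (e : Bool) (i : ℕ) (w : Word) : ev ((.cr e, i) :: w) r =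
    invA e * ev w r + invA (!e) * (capVal i r * ev w (cupR i (capR i r))) := by
  cases e <;> rfl

theorem inv_A_mul (e : Bool) : invA e * invA (!e) = 1 := by
  unfold invA
  rw [← T_add, ← T_zero]
  cases e <;> rfl

theorem inv_loop (e : Bool) : loopVal = -invA e ^ 2 - invA (!e) ^ 2 := by
  unfold invA loopVal
  rw [T_pow, T_pow]
  cases e
  · exact (by ring : (-T 2 - T (-2) : ℤ[T;T⁻¹]) = -T (-2) - T 2)
  · rfl

theorem inv_A_su (e : Bool) : IsSU (-invA e ^ 3) := by
  refine ⟨3 * (if e then 1 else -1), Or.inr ?_⟩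
  simp [invA, T_pow]

theorem inv_comm (k l : Kind) {i j : ℕ} (h : i ≤ j) (w : Word) (hr : Equivalence r) :
    ev ((k, i) :: (l, j + k.out) :: w) r = ev ((l, j + k.inp) :: (k, i) :: w) r := by
  have c1 := (capR_capR hr h).1
  have c2 := (capR_capR hr h).2
  rcases k with _ | _ | e <;> rcases l with _ | _ | e' <;>
    simp only [Kind.inp, Kind.out, add_zero, inv_cup, inv_cap, inv_cr, cupR_cupR h,
      (capR_cupR_right h).1, (capR_cupR_left h).1, inv_val_right h, inv_val_left h, ← c1]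
  · linear_combination (ev w (capR j (capR i r))) * c2
  · linear_combination (invA (!e') * ev w (cupR j (capR j (capR i r)))) * c2
  · linear_combination (invA (!e) * ev w (cupR i (capR j (capR i r)))) * c2
  · linear_combination (invA (!e) * invA (!e') * ev w (cupR i (cupR j (capR j (capR i r))))) * c2

theorem ev_move {u v : Word} (h : Move u v) : ∃ c, IsSU c ∧
    ∀ (w : Word) (r : ℕ → ℕ → Prop), Equivalence r → ev (u ++ w) r = c * ev (v ++ w) r := by
  cases h with
  | comm k l i t =>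
    refine ⟨1, IsSU.one, fun w r hr => ?_⟩
    rw [one_mul]
    exact inv_comm k l (Nat.le_add_right i t) w hr
  | zig i =>
    refine ⟨1, IsSU.one, fun w r hr => ?_⟩
    simp only [List.cons_append, List.nil_append, inv_cup, inv_cap, inv_val_zig hr,
      (capR_zig hr i).1]
  | zag i =>
    refine ⟨1, IsSU.one, fun w r hr => ?_⟩
    simp only [List.cons_append, List.nil_append, inv_cup, inv_cap, inv_val_zag hr,
      (capR_zag hr i).1]
  | slideCup e i =>
    refine ⟨1, IsSU.one, fun w r hr => ?_⟩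
    simp only [List.cons_append, List.nil_append, inv_cup, inv_cr, inv_val_zig hr, inv_val_zag hr,
      (capR_zig hr i).1, (capR_zag hr i).1, Bool.not_not]
    ring
  | slideCap e i =>
    refine ⟨1, IsSU.one, fun w r hr => ?_⟩
    have h1 := capR_equiv hr i
    have h2 := capR_equiv hr (i + 1)
    simp only [List.cons_append, List.nil_append, inv_cap, inv_cr, inv_val_zig h2, inv_val_zag h1,
      (capR_zig h2 i).1, (capR_zag h1 i).1, Bool.not_not]
    ring
  | r1Cup e i =>
    refine ⟨_, inv_A_su (!e), fun w r hr => ?_⟩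
    simp only [List.cons_append, List.nil_append, inv_cup, inv_cr, inv_val_loop, (capR_cupR i).1,
      inv_loop e]
    linear_combination (-invA e * ev w (cupR i r)) * inv_A_mul e
  | r1Cap e i =>
    refine ⟨_, inv_A_su (!e), fun w r hr => ?_⟩
    simp only [List.cons_append, List.nil_append, inv_cap, inv_cr, inv_val_loop, (capR_cupR i).1,
      inv_loop e]
    linear_combination (-invA e * (capVal i r * ev w (capR i r))) * inv_A_mul e
  | r2 e i =>
    refine ⟨1, IsSU.one, fun w r hr => ?_⟩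
    simp only [List.cons_append, List.nil_append, inv_cr, inv_val_loop, (capR_cupR i).1,
      inv_loop e, Bool.not_not]
    linear_combination (ev w r - (invA e ^ 2 + invA (!e) ^ 2) *
      (capVal i r * ev w (cupR i (capR i r)))) * inv_A_mul e
  | r3 e i =>
    refine ⟨1, IsSU.one, fun w r hr => ?_⟩
    have h1 := capR_equiv hr i
    have h2 := capR_equiv hr (i + 1)
    simp only [List.cons_append, List.nil_append, inv_cr, inv_val_loop, (capR_cupR _).1,
      inv_val_zig h1, inv_val_zig h2, inv_val_zag h1, inv_val_zag h2, (capR_zig h1 i).1,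
      (capR_zig h2 i).1, (capR_zag h1 i).1, (capR_zag h2 i).1, inv_loop e]
    linear_combination ((invA e ^ 2 * invA (!e) + invA (!e) ^ 3) *
      (capVal (i + 1) r * ev w (cupR (i + 1) (capR (i + 1) r)) -
        capVal i r * ev w (cupR i (capR i r)))) * inv_A_mul e

theorem inv_push {x y : Word} {c : ℤ[T;T⁻¹]}
    (h : ∀ r : ℕ → ℕ → Prop, Equivalence r → ev x r = c * ev y r) (p : Word) :
    ∀ r : ℕ → ℕ → Prop, Equivalence r → ev (p ++ x) r = c * ev (p ++ y) r := by
  induction p with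
  | nil => exact h
  | cons g p ih =>
    intro r hr
    obtain ⟨k, i⟩ := g
    rcases k with _ | _ | e
    · simp only [List.cons_append, inv_cup]
      exact ih _ (cupR_equiv hr i)
    · simp only [List.cons_append, inv_cap]
      rw [ih _ (capR_equiv hr i)]
      ring
    · simp only [List.cons_append, inv_cr]
      rw [ih _ hr, ih _ (cupR_equiv (capR_equiv hr i) i)]
      ring

theorem ev_iso {n m : ℕ} {u v : Word} (h : Isotopic n m u v) : ∃ c, IsSU c ∧
    ∀ (w : Word) (r : ℕ → ℕ → Prop), Equivalence r → ev (u ++ w) r = c * ev (v ++ w) r := by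
  induction h with
  | rel u v h =>
    obtain ⟨-, -, p, l, l', s, hm, rfl, rfl⟩ := h
    obtain ⟨c, hc, h⟩ := ev_move hm
    refine ⟨c, hc, fun w r hr => ?_⟩
    simp only [List.append_assoc]
    exact inv_push (h (s ++ w)) p r hr
  | refl u => exact ⟨1, IsSU.one, fun w r _ => (one_mul _).symm⟩
  | symm u v _ ih =>
    obtain ⟨c, hc, h⟩ := ih
    obtain ⟨c', hc', e⟩ := hc.inv
    refine ⟨c', hc', fun w r hr => ?_⟩
    rw [h w r hr, ← mul_assoc, e, one_mul]
  | trans u v x _ _ ih ih' =>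
    obtain ⟨c, hc, h⟩ := ih
    obtain ⟨c', hc', h'⟩ := ih'
    refine ⟨c * c', hc.mul hc', fun w r hr => ?_⟩
    rw [h w r hr, h' w r hr, mul_assoc]

end Pool.Agent.Lib.MP_7bc610_gt
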