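import Pool.Agent.Lib.MP_7bc610_gt.H9Exp
import Pool.Agent.Lib.MP_7bc610_gt.EqFixFrac

/-!
Jets of state sums.
-/

namespace Pool.Agent.Lib.MP_7bc610_gt

open LaurentPolynomial

theorem frac_sl (X : AT) : Dt.Sl X.data X.frac := by
  induction X with
  | zero => simp [Dt.Sl, AT.data, AT.frac, Dt.zero]
  | twist i e X ih =>
    have e1 : (AT.twist i e X).frac = gen sx sy (decide (i ≠ 1), e) X.frac := by
      by_cases h : i = 1 <;> cases e <;>
        simp only [AT.frac, h, if_true, if_false, Bool.false_eq_true, ne_eq, not_true_eq_false,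
          not_false_eq_true, decide_true, decide_false, gen, sx_apply, sx_inv, sy_apply,
          sy_inv] <;> ext <;> simp only <;> ring
    rw [e1]
    exact ih.gen (decide (i ≠ 1), e)
  | add X Y ih ih' => exact ih.add ih'
  | rot X ih =>
    obtain ⟨h1, h2, h3⟩ := ih
    simp only [Dt.Sl, AT.data, AT.frac, Dt.rot, h1, h2, h3]
    push_cast
    refine ⟨?_, ?_, ?_⟩ <;> first | trivial | ring

theorem jd_data (X : AT) : X.data = X.jd.dt := (exists_jd X).choose_spec.2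

theorem jd_pq (X : AT) : ∃ v : J, J.Gl v ∧ ph X.pq.1 = v * X.jd.W ∧ ph X.pq.2 = v * X.jd.U :=
  (exists_jd X).choose_spec.1

theorem jd_pp (X : AT) : X.jd.p0 ^ 2 = (X.frac.1 : ℚ) ^ 2 := by
  have := (frac_sl X).1
  rwa [jd_data] at this

theorem jd_qp (X : AT) : X.jd.q0 * X.jd.p0 = ((X.frac.2 * X.frac.1 : ℤ) : ℚ) := by
  have := (frac_sl X).2.1
  rw [jd_data] at this
  push_cast
  exact this

theorem jd_qq (X : AT) : X.jd.q0 ^ 2 = (X.frac.2 : ℚ) ^ 2 := by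
  have := (frac_sl X).2.2
  rwa [jd_data] at this

theorem frac_rotN (ρ : ℕ) (X : AT) :
    (rotN ρ X).frac.2 * (rotN ρ X).frac.1 = (-1) ^ ρ * (X.frac.2 * X.frac.1) ∧
      (ρ % 2 = 0 → (rotN ρ X).frac.2 ^ 2 = X.frac.2 ^ 2) ∧
      (ρ % 2 = 1 → (rotN ρ X).frac.2 ^ 2 = X.frac.1 ^ 2) := by
  have key : ∀ ρ : ℕ,
      (rotN ρ X).frac.2 * (rotN ρ X).frac.1 = (-1) ^ ρ * (X.frac.2 * X.frac.1) ∧
      (ρ % 2 = 0 → (rotN ρ X).frac.2 ^ 2 = X.frac.2 ^ 2 ∧ (rotN ρ X).frac.1 ^ 2 = X.frac.1 ^ 2) ∧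
      (ρ % 2 = 1 → (rotN ρ X).frac.2 ^ 2 = X.frac.1 ^ 2 ∧
        (rotN ρ X).frac.1 ^ 2 = X.frac.2 ^ 2) := by
    intro ρ
    induction ρ with
    | zero => simp [rotN]
    | succ ρ ih =>
      obtain ⟨h1, h2, h3⟩ := ih
      simp only [rotN, AT.frac, neg_sq]
      refine ⟨?_, fun h => (h3 (by omega)).symm, fun h => (h2 (by omega)).symm⟩
      rw [pow_succ]
      linear_combination -h1
  exact ⟨(key ρ).1, fun h => ((key ρ).2.1 h).1, fun h => ((key ρ).2.2 h).1⟩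

theorem frac_mrg (b : Bool) {Y F : AT} (h : F.frac.1 = 0) :
    (mrg b Y F).frac.1 = 0 ∧ (mrg b Y F).frac.2 ^ 2 = Y.frac.2 ^ 2 * F.frac.2 ^ 2 := by
  cases b <;> simp only [mrg, AT.frac, h] <;> constructor <;> ring

theorem ph_loop : ph loopVal = dJ := phi_loop' _

theorem IsSU.gl {c : ℤ[T;T⁻¹]} (h : IsSU c) : J.Gl (ph c) := by
  obtain ⟨k, rfl | rfl⟩ := h
  · exact gl_T _ k
  · rw [map_neg]
    exact (gl_T _ k).neg

theorem jd_gl_prod (v : ℕ → J) (hv : ∀ j, J.Gl (v j)) (I : Finset ℕ) : J.Gl (∏ j ∈ I, v j) :=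
  Finset.prod_induction v J.Gl (fun _ _ => J.Gl.mul) J.Gl.one fun j _ => hv j

theorem ph_Zs (X : ℕ → AT) (I : Finset ℕ) (ℓ : Finset ℕ → ℕ) : ∃ v, J.Gl v ∧
    ph (Zs loopVal (fun j => (X j).pq.1) (fun j => (X j).pq.2) I ℓ) = v * Zj X I ℓ := by
  choose v hv h1 h2 using fun j => jd_pq (X j)
  refine ⟨∏ j ∈ I, v j, jd_gl_prod v hv I, ?_⟩
  rw [map_Zs, ph_loop, Zj, ← Zs_scale]
  simp only [h1, h2]

theorem gl_ZJ {E : List Ev} {X : ℕ → AT} (h : IsSU (ZL E X)) : J.Gl (ZJ E X) := by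
  obtain ⟨v, hv, e⟩ := ph_Zs X (ids E) (lam E)
  have := h.gl
  rw [ZL, e] at this
  exact hv.cancel this

theorem cc_gl {F : J} (h : J.Gl F) : cc F = 0 := sub_eq_zero.2 h.2

theorem jd_cc_mul (F G : J) : cc (F * G) = F.c0 ^ 2 * cc G + G.c0 ^ 2 * cc F := by
  simp only [cc, J.mul_def]
  ring

theorem cc_mul {F G : J} (hF : F.c0 ^ 2 = 1) (hG : G.c0 ^ 2 = 1) :
    cc (F * G) = cc F + cc G := by
  rw [jd_cc_mul, hF, hG]
  ring

theorem jd_c0_ne {F : J} (h : J.Gl F) : F.c0 ≠ 0 := fun e => by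
  have := h.1
  rw [e] at this
  norm_num at this

theorem cc_iso {E E' : List Ev} (h : WF E) (h' : WF E') {X X' : ℕ → AT}
    (hi : Isotopic 0 0 (NFw E X) (NFw E' X')) (h1 : (ZJ E X).c0 ^ 2 = 1)
    (h2 : (ZJ E' X').c0 ^ 2 = 1) : cc (ZJ E X) = cc (ZJ E' X') := by
  obtain ⟨c, hc, e⟩ := ZL_iso h h' hi
  obtain ⟨v, hv, e1⟩ := ph_Zs X (ids E) (lam E)
  obtain ⟨v', hv', e2⟩ := ph_Zs X' (ids E') (lam E')
  have e3 : v * ZJ E X = ph c * v' * ZJ E' X' := by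
    have := congrArg ph e
    rw [map_mul, ZL, ZL, e1, e2, ← mul_assoc] at this
    exact this
  have hg := hc.gl.mul hv'
  generalize ph c * v' = g at e3 hg
  have e4 : v.c0 * (ZJ E X).c0 = g.c0 * (ZJ E' X').c0 := congrArg J.c0 e3
  have e5 : v.c0 ^ 2 = g.c0 ^ 2 := by
    have := congrArg (· ^ 2) e4
    simpa only [mul_pow, h1, h2, mul_one] using this
  have e6 := congrArg cc e3
  rw [jd_cc_mul, jd_cc_mul, cc_gl hv, cc_gl hg, mul_zero, mul_zero, add_zero, add_zero,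
    ← e5] at e6
  exact mul_left_cancel₀ (pow_ne_zero 2 (jd_c0_ne hv)) e6

theorem UW_eq (x : JD) : x.U + dJ * x.W = ⟨x.q0, x.q1 - x.p0, x.q2 - x.p1⟩ := by
  have : dJ * x.W = -(J.hJ * ⟨x.p0, x.p1, x.p2⟩) := by
    rw [dJ, JD.W]
    linear_combination (J.hJ * (⟨x.p0, x.p1, x.p2⟩ : J)) * J.i_sq
  rw [this]
  ext <;> simp only [JD.U, J.add_def, J.mul_def, J.neg_def, J.hJ] <;> ring

theorem cc_UW (x : JD) : cc (x.U + dJ * x.W) = (x.dt.cl : ℂ) := by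
  rw [UW_eq]
  simp only [cc, JD.dt, Dt.cl, ofJets]
  push_cast
  ring

/-- A closed template with unit bracket has a one-loop state with nonzero coefficients. -/
theorem exists_state (X : ℕ → AT) {u : Tm} (hv : TV 0 u 0) (hn : (tids u).Nodup)
    {c : ℤ[T;T⁻¹]} (hc : IsSU c) (h : stateSum (itp X u) = c * loopVal) :
    ∃ A : Finset ℕ, loops (tl A u) Eq = 1 ∧
      ∀ j ∈ tids u, (j ∈ A → (X j).frac.1 ≠ 0) ∧ (j ∉ A → (X j).frac.2 ≠ 0) := by
  have hne : u ≠ [] := by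
    rintro rfl
    have h0 : (1 : ℤ[T;T⁻¹]) = c * loopVal := h
    have h1 := congrArg (fun x => (ph x).c0) h0
    simp only [map_one, map_mul, ph_loop, dJ, J.mul_def, J.one_def, J.hJ, mul_zero] at h1
    exact one_ne_zero h1
  rw [stateSum_itp X hv hn hne, mul_comm c] at h
  have h1 := mul_left_cancel₀ loopVal_ne h
  obtain ⟨v, hv', e⟩ := ph_Zs X (tids u).toFinset fun A => loops (tl A u) Eq - 1
  have hg := hc.gl
  rw [← h1, e] at hg
  have h2 := jd_c0_ne (hv'.cancel hg)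
  rw [Zj, Zs_c0] at h2
  obtain ⟨A, hA, h3⟩ := Finset.exists_ne_zero_of_sum_ne_zero h2
  obtain ⟨-, hA2⟩ := Finset.mem_filter.1 hA
  have h4 := loops_pos pm_eq (hv.valid_tl A) (noCr_tl A u) fun g => hne (tl_eq_nil.1 g)
  refine ⟨A, by omega, fun j hj => ⟨fun hjA e0 => ?_, fun hjA e0 => ?_⟩⟩
  · have p := jd_pp (X j)
    rw [e0, Int.cast_zero, zero_pow two_ne_zero, pow_eq_zero_iff two_ne_zero] at p
    refine Finset.prod_ne_zero_iff.1 (left_ne_zero_of_mul h3) j hjA ?_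
    simp [JD.W, J.mul_def, p]
  · have p := jd_qq (X j)
    rw [e0, Int.cast_zero, zero_pow two_ne_zero, pow_eq_zero_iff two_ne_zero] at p
    refine Finset.prod_ne_zero_iff.1 (right_ne_zero_of_mul h3) j
      (Finset.mem_sdiff.2 ⟨List.mem_toFinset.2 hj, hjA⟩) ?_
    simp [JD.U, p]

end Pool.Agent.Lib.MP_7bc610_gt
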