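import Pool.Agent.Lib.MP_7bc610_gt.H9Exp
import Pool.Agent.Lib.MP_7bc610_gt.H9Geo
import Pool.Agent.Lib.MP_7bc610_gt.H9Geo2

/-!
Loop counts under removal and merging of chords.
-/

namespace Pool.Agent.Lib.MP_7bc610_gt

open LaurentPolynomial

theorem lam_nil (A : Finset ℕ) : lam [] A = 0 := rfl

theorem lam_congr {E : List Ev} {A B : Finset ℕ} (h : ∀ j ∈ ids E, j ∈ A ↔ j ∈ B) :
    lam E A = lam E B := by
  unfold lam
  rw [tl_congr (A := A) (B := B) fun j hj => h j ?_]
  rw [nf, tids_nfT] at hj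
  exact List.mem_toFinset.2 hj

theorem lam_ZL {E : List Ev} {X : ℕ → AT} {A : Finset ℕ}
    (h : ∀ j ∈ ids E, (X j).pq = if j ∈ A then (1, 0) else (0, 1)) :
    ZL E X = loopVal ^ lam E A := by
  rw [lam_congr (E := E) (A := A) (B := A ∩ ids E) fun j hj => by simp [hj]]
  refine Zs_ind Finset.inter_subset_right (fun j hj => ?_) fun j hj => ?_
  · rw [h j hj]
    by_cases hA : j ∈ A <;> simp [hA, hj]
  · rw [h j hj]
    by_cases hA : j ∈ A <;> simp [hA, hj]

theorem lam_pq_sm (A : Finset ℕ) (j : ℕ) :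
    (sm A j).pq = if j ∈ A then (1, 0) else (0, 1) := by
  unfold sm
  split_ifs <;> rfl

theorem lam_iso {E E' : List Ev} (h : WF E) (h' : WF E') {X' : ℕ → AT} {A A' : Finset ℕ}
    (hi : Isotopic 0 0 (NFw E (sm A)) (NFw E' X'))
    (hX : ∀ j ∈ ids E', (X' j).pq = if j ∈ A' then (1, 0) else (0, 1)) :
    lam E A = lam E' A' := by
  obtain ⟨c, hc, e⟩ := ZL_iso h h' hi
  rw [lam_ZL (fun j _ => lam_pq_sm A j), lam_ZL hX] at e
  exact pow_loop_inj hc e

theorem lam_rot_zero : Isotopic 0 4 (AT.rot .zero).dia [(.cup, 0), (.cup, 2)] := by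
  have h1 : Rw [(.cup, 0), (.cup, 1), (.cup, 2), (.cap, 0)]
      [(.cup, 0), (.cup, 1), (.cap, 0), (.cup, 0)] :=
    ((Rw.commB .cap .cup (i := 0) (q := 0) (q' := 2) (by simp [Kind.out])
      (by simp [Kind.out, Kind.inp]) []).cons _).cons _
  have h2 : Rw [(.cup, 0), (.cup, 1), (.cap, 0), (.cup, 0)] [(.cup, 0), (.cup, 0)] :=
    (Rw.move (.zig 0)).ctx [(.cup, 0)] [(.cup, 0)]
  have h3 : Rw [(.cup, 0), (.cup, 0)] [(.cup, 0), (.cup, 2)] :=
    Rw.commB .cup .cup (i := 0) (q := 2) (q' := 0) (by simp [Kind.out])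
      (by simp [Kind.out, Kind.inp]) []
  exact (h1.trans (h2.trans h3)) 0 4 (AT.valid (.rot .zero))

theorem lam_del_comm (E : List Ev) (e f : ℕ) : del (del E e) f = del (del E f) e := by
  simp only [del, List.filter_filter]
  exact List.filter_congr fun x _ => Bool.and_comm _ _

theorem lam_loopR {r : ℕ → ℕ → Prop} (hr : Equivalence r) (q : ℕ) (w : Word) :
    loops ((.cup, q + 1) :: (.cup, q + 1 + 1) :: (.cap, q) :: (.cap, q) :: w) r =
      loops w r + 1 := by
  have h1 := capR_cupR_left (r := cupR (q + 1) r) (le_refl q)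
  have h2 := capR_zig hr q
  have h3 := capR_cupR (r := r) q
  simp only [loops]
  rw [show q + 1 + 1 = q + 2 from rfl, h1.1, h2.1, h3.1, if_neg fun h => h2.2 (h1.2.1 h),
    if_pos h3.2]
  omega

theorem lam_loopL {r : ℕ → ℕ → Prop} (hr : Equivalence r) (q : ℕ) (w : Word) :
    loops ((.cup, q) :: (.cup, q + 1) :: (.cap, q + 3) :: (.cap, q + 1) :: w) r =
      loops w r + 1 := by
  have h1 := capR_cupR_right (r := cupR q r) (le_refl (q + 1))
  have h2 := capR_zag hr q
  have h3 := capR_cupR (r := r) (q + 1)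
  simp only [loops]
  rw [show q + 3 = q + 1 + 2 from rfl, h1.1, h2.1, h3.1, if_neg fun h => h2.2 (h1.2.1 h),
    if_pos h3.2]
  omega

theorem lam_del {E : List Ev} (h : WF E) {f : ℕ} {A : Finset ℕ} (hA : f ∉ A) :
    lam E A = lam (del E f) A := by
  by_cases hf : f ∈ ids E
  · refine lam_iso h (h.del f) (geo0 h hf ?_) fun j _ => lam_pq_sm A j
    rw [sm, if_neg hA]
    exact lam_rot_zero
  · rw [del, List.filter_eq_self.2 fun x hx => ?_]
    have h1 := h.mem_ids hx
    simp only [ne_eq, decide_eq_true_eq]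
    rintro rfl
    exact hf h1

theorem lam_M1 {E pre post : List Ev} (h : WF E) {s : Bool} {e : ℕ}
    (hE : E = pre ++ ⟨s, true, e⟩ :: ⟨s, false, e⟩ :: post) (A : Finset ℕ) :
    lam E (insert e A) = lam (del E e) A + 1 := by
  have h1 := (h.only (mid := []) (s := s) (s' := s) (pre := pre) (post := post) hE).2
  have h2 : del E e = pre ++ post := by
    rw [hE]
    exact del_eq (mid := []) rfl rfl h1
  rw [lam_congr (E := del E e) (A := A) (B := insert e A) fun j hj => by
    rw [ids_del] at hj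
    simp [(Finset.mem_erase.1 hj).1], h2]
  have h3 := h.1
  rw [hE] at h3 ⊢
  obtain ⟨ls, rs, h4, -⟩ := h3.split
  have h5 := fun E' => h4.nfT_append (fun _ => 0) E'
  have h6 := after_equiv (tl (insert e A) (nfT (fun _ => 0) 0 pre))
    (cupR_equiv (r := Eq) eq_equivalence 0)
  simp only [List.length_nil] at h5
  simp only [lam, nf, h5, tl_append, loops_append]
  cases s
  · simp only [nfT, tl, Finset.mem_insert_self, Nat.zero_mod, iff_self, if_true]
    rw [lam_loopR h6]
    omega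
  · simp only [nfT, tl, Finset.mem_insert_self, Nat.zero_mod, iff_self, if_true,
      Nat.add_sub_cancel]
    rw [show 2 * (ls.length + 1) - 1 = 2 * ls.length + 1 by omega, lam_loopL h6]
    omega

theorem lam_M2a {E pre post : List Ev} (h : WF E) {s : Bool} {e : ℕ} {x : Ev} (hef : x.id ≠ e)
    (hE : E = pre ++ ⟨s, true, e⟩ :: x :: ⟨s, false, e⟩ :: post) {A : Finset ℕ}
    (hA : x.id ∉ A) : lam E (insert e A) = lam (del E e) A + 1 := by
  have h1 : del E x.id = del pre x.id ++ ⟨s, true, e⟩ :: ⟨s, false, e⟩ :: del post x.id := by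
    rw [hE]
    simp [del, hef.symm]
  rw [lam_del h (f := x.id) (A := insert e A) (by simp [hef, hA]), lam_M1 (h.del _) h1,
    lam_del (h.del e) hA, lam_del_comm]

theorem lam_M2b {E pre post : List Ev} (h : WF E) {s : Bool} {e : ℕ} {x : Ev} (hef : x.id ≠ e)
    (hE : E = pre ++ ⟨s, true, e⟩ :: x :: ⟨s, false, e⟩ :: post) {A : Finset ℕ}
    (hA : x.id ∉ A) : lam E (insert e (insert x.id A)) = lam (del E e) A := by
  obtain ⟨b, hb⟩ := geo2 h hef hE
  refine lam_iso h (h.del e) (hb _) fun j hj => ?_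
  rw [ids_del] at hj
  have hje := (Finset.mem_erase.1 hj).1
  by_cases hx : j = x.id
  · subst hx
    rw [Function.update_self, if_neg hA, sm, sm, if_pos (by simp), if_pos (by simp)]
    cases b <;> simp [mrg, AT.pq]
  · rw [Function.update_of_ne hx, lam_pq_sm]
    simp [hje, hx]

end Pool.Agent.Lib.MP_7bc610_gt
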