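import Pool.Agent.Lib.MP_7bc610_gt.H9Tm
import Pool.Agent.Lib.MP_7bc610_gt.H9Inv
import Pool.Agent.Lib.MP_7bc610_gt.EqFixRotN
import Pool.Agent.Lib.MP_7bc610_gt.EqFixTl

/-!
Loop counts of crossingless words.
-/

namespace Pool.Agent.Lib.MP_7bc610_gt

open LaurentPolynomial

theorem ev_noCr {w : Word} (h : NoCr w) (r : ℕ → ℕ → Prop) : ev w r = loopVal ^ loops w r := by
  induction w generalizing r with
  | nil => simp [ev, loops]
  | cons g w ih =>
    obtain ⟨k, i⟩ := g
    have h' : NoCr w := fun e j hj => h e j (List.mem_cons_of_mem _ hj)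
    cases k with
    | cup => exact ih h' _
    | cap =>
      rw [ev, loops, ih h', pow_add, capVal]
      split_ifs <;> simp
    | cr e => exact absurd List.mem_cons_self (h e i)

theorem NoCr.append {u v : Word} (hu : NoCr u) (hv : NoCr v) : NoCr (u ++ v) := by
  intro e i h
  rcases List.mem_append.1 h with h | h
  · exact hu e i h
  · exact hv e i h

theorem noCr_tl (A : Finset ℕ) (T : Tm) : NoCr (tl A T) := by
  intro e j
  induction T with
  | nil => simp [tl]
  | cons g T ih => obtain ⟨k, i⟩ := g; cases k <;> simp [tl, ih]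

theorem tl_append (A : Finset ℕ) (u v : Tm) : tl A (u ++ v) = tl A u ++ tl A v := by
  induction u with
  | nil => rfl
  | cons g u ih => obtain ⟨k, i⟩ := g; cases k <;> simp [tl, ih]

theorem tl_tshift (A : Finset ℕ) (k : ℕ) (u : Tm) : tl A (tshift k u) = shift k (tl A u) := by
  induction u with
  | nil => rfl
  | cons g u ih =>
    obtain ⟨g, i⟩ := g
    cases g with
    | box j ρ =>
      simp only [tshift_cons, tl, shift_cons, ih]
      split_ifs <;> simp [Nat.add_right_comm]
    | _ => simp [tl, ih]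

theorem tl_eq_nil {A : Finset ℕ} {u : Tm} : tl A u = [] ↔ u = [] := by
  rcases u with _ | ⟨⟨k, i⟩, u⟩
  · simp [tl]
  · cases k <;> simp [tl]

theorem tl_congr {A B : Finset ℕ} {u : Tm} (h : ∀ j ∈ tids u, j ∈ A ↔ j ∈ B) :
    tl A u = tl B u := by
  induction u with
  | nil => rfl
  | cons g u ih =>
    obtain ⟨k, i⟩ := g
    cases k with
    | box j ρ =>
      have h1 := h j (by simp [tids, bp])
      have h2 := ih fun x hx => h x (by simp only [tids, bp, List.map_cons]; exact .tail _ hx)
      simp only [tl, h1, h2]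
    | cup => simp only [tl]; rw [ih h]
    | cap => simp only [tl]; rw [ih h]

theorem TV.valid_tl {n m : ℕ} {u : Tm} (h : TV n u m) (A : Finset ℕ) : Valid n (tl A u) m := by
  induction u generalizing n with
  | nil => exact h
  | cons g u ih =>
    obtain ⟨k, i⟩ := g
    cases k with
    | box j ρ =>
      obtain ⟨h1, h2⟩ := h
      simp only [TK.inp, TK.out] at h1 h2
      refine ⟨h1, ?_, ih h2⟩
      simp only [Kind.inp, Kind.out]
      split_ifs <;> omega
    | cup => exact ⟨h.1, ih h.2⟩
    | cap => exact ⟨h.1, ih h.2⟩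

theorem loops_append (u v : Word) (r : ℕ → ℕ → Prop) :
    loops (u ++ v) r = loops u r + loops v (after u r) := by
  induction u generalizing r with
  | nil => simp [loops, after]
  | cons g u ih =>
    obtain ⟨k, i⟩ := g
    cases k <;> simp only [List.cons_append, loops, after, ih, Nat.add_assoc]

theorem after_equiv (u : Word) {r : ℕ → ℕ → Prop} (h : Equivalence r) :
    Equivalence (after u r) := by
  induction u generalizing r with
  | nil => exact h
  | cons g u ih =>
    obtain ⟨k, i⟩ := g
    cases k with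
    | cup => exact ih (cupR_equiv h i)
    | cap => exact ih (capR_equiv h i)
    | cr e => exact ih h

theorem pq_sm (A : Finset ℕ) (j ρ : ℕ) :
    (rotN ρ (sm A j)).pq = if (j ∈ A ↔ ρ % 2 = 0) then (1, 0) else (0, 1) := by
  induction ρ with
  | zero => by_cases h : j ∈ A <;> simp [rotN, sm, h, AT.pq]
  | succ ρ ih =>
    rw [rotN, AT.pq, ih]
    rcases Nat.mod_two_eq_zero_or_one ρ with h | h
    · have h' : (ρ + 1) % 2 = 1 := by omega
      by_cases hj : j ∈ A <;> simp [h, h', hj]
    · have h' : (ρ + 1) % 2 = 0 := by omega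
      by_cases hj : j ∈ A <;> simp [h, h', hj]

theorem ev_sm (A : Finset ℕ) (u : Tm) (w : Word) (r : ℕ → ℕ → Prop) :
    ev (itp (sm A) u ++ w) r = ev (tl A u ++ w) r := by
  induction u generalizing r with
  | nil => rfl
  | cons g u ih =>
    obtain ⟨k, i⟩ := g
    cases k with
    | box j ρ =>
      rw [itp, TK.body, List.append_assoc, ev_dia, pq_sm, ih, ih, tl]
      split_ifs <;> simp [ev, ins]
    | cup => simp [itp, TK.body, tl, ev, ih]
    | cap => simp [itp, TK.body, tl, ev, ih]

noncomputable def lp_one : ℤ[T;T⁻¹] →+* ℤ := LaurentPolynomial.eval₂ (RingHom.id ℤ) 1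

theorem lp_T (k : ℤ) : lp_one (T k) = 1 := by simp [lp_one]

theorem lp_loop : lp_one loopVal = -2 := by
  rw [loopVal, map_sub, map_neg, lp_T, lp_T]; rfl

theorem loopVal_ne : loopVal ≠ 0 := by
  intro h
  have := lp_loop
  rw [h, map_zero] at this
  omega

theorem pow_loop_inj {c : ℤ[T;T⁻¹]} (hc : IsSU c) {a b : ℕ} (h : loopVal ^ a = c * loopVal ^ b) :
    a = b := by
  have h1 := congrArg (fun x => (lp_one x).natAbs) h
  obtain ⟨k, rfl | rfl⟩ := hc <;>
    simp only [map_mul, map_pow, map_neg, lp_loop, lp_T, Int.natAbs_mul, Int.natAbs_pow,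
      Int.natAbs_neg, Int.natAbs_one, one_mul] at h1 <;>
    exact Nat.pow_right_injective (le_refl 2) h1

theorem TI.loops {n m : ℕ} {u v : Tm} (h : TI n m u v) (A : Finset ℕ) {w : Word} (hw : NoCr w)
    {r : ℕ → ℕ → Prop} (hr : Equivalence r) :
    loops (tl A u ++ w) r = MP_7bc610_gt.loops (tl A v ++ w) r := by
  obtain ⟨c, hc, h1⟩ := ev_iso (h.2.1 (sm A))
  have h2 := h1 w r hr
  rw [ev_sm, ev_sm, ev_noCr ((noCr_tl A u).append hw), ev_noCr ((noCr_tl A v).append hw)] at h2
  exact pow_loop_inj hc h2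

theorem PM.cup {n i : ℕ} {r : ℕ → ℕ → Prop} (h : PM n r) (hi : i ≤ n) :
    PM (n + 2) (cupR i r) := by
  refine ⟨cupR_equiv h.1 i, fun a ha => ?_⟩
  by_cases h1 : a = i
  · refine ⟨i + 1, by omega, by omega, .inl ⟨.inl h1, .inr rfl⟩, fun c hc => ?_⟩
    rcases hc with hc | hc <;> omega
  by_cases h2 : a = i + 1
  · refine ⟨i, by omega, by omega, .inl ⟨.inr h2, .inl rfl⟩, fun c hc => ?_⟩
    rcases hc with hc | hc <;> omega
  obtain ⟨b, hb, hne, hr, hu⟩ := h.2 (if a < i then a else a - 2) (by split_ifs <;> omega)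
  refine ⟨if b < i then b else b + 2, by split_ifs <;> omega, ?_,
    .inr ⟨h1, h2, by split_ifs <;> omega, by split_ifs <;> omega, ?_⟩, fun c hc => ?_⟩
  · revert hne; split_ifs <;> omega
  · convert hr using 1
    split_ifs <;> omega
  · rcases hc with hc | ⟨-, -, h3, h4, hc⟩
    · omega
    · have := hu _ hc
      revert this; split_ifs <;> omega

theorem PM.cap {n i : ℕ} {r : ℕ → ℕ → Prop} (h : PM (n + 2) r) (hi : i ≤ n) :
    PM n (capR i r) := by
  refine ⟨capR_equiv h.1 i, fun a ha => ?_⟩
  obtain ⟨b, hb, hne, hr, hu⟩ := h.2 (if a < i then a else a + 2) (by split_ifs <;> omega)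
  have e : ∀ d, d ≠ i → d ≠ i + 1 → (if (if d < i then d else d - 2) < i then
      (if d < i then d else d - 2) else (if d < i then d else d - 2) + 2) = d := by
    intro d h1 h2; split_ifs <;> omega
  by_cases h1 : b = i
  · have n1 : ¬r (if a < i then a else a + 2) (i + 1) := fun hc => by
      have := hu _ hc
      revert this; split_ifs <;> omega
    obtain ⟨d, hd, hdn, hdr, hdu⟩ := h.2 (i + 1) (by omega)
    have d1 : d ≠ i := fun h2 => n1 (h.1.trans (h1 ▸ hr) (h.1.symm (h2 ▸ hdr)))
    have d2 : d ≠ (if a < i then a else a + 2) := fun h2 => n1 (h.1.symm (h2 ▸ hdr))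
    refine ⟨if d < i then d else d - 2, by split_ifs <;> omega, ?_,
      .inr (.inl ⟨h1 ▸ hr, by rw [e d d1 hdn]; exact hdr⟩), fun c hc => ?_⟩
    · revert d2; split_ifs <;> omega
    · rcases hc with hc | ⟨-, hc⟩ | ⟨hc, -⟩
      · have := hu _ hc
        revert this; split_ifs <;> omega
      · have := hdu _ hc
        revert this; split_ifs <;> omega
      · exact absurd hc n1
  by_cases h2 : b = i + 1
  · have n1 : ¬r (if a < i then a else a + 2) i := fun hc => by
      have := hu _ hc
      revert this; split_ifs <;> omega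
    obtain ⟨d, hd, hdn, hdr, hdu⟩ := h.2 i (by omega)
    have d1 : d ≠ i + 1 := fun h3 => n1 (h.1.trans (h2 ▸ hr) (h.1.symm (h3 ▸ hdr)))
    have d2 : d ≠ (if a < i then a else a + 2) := fun h3 => n1 (h.1.symm (h3 ▸ hdr))
    refine ⟨if d < i then d else d - 2, by split_ifs <;> omega, ?_,
      .inr (.inr ⟨h2 ▸ hr, by rw [e d hdn d1]; exact hdr⟩), fun c hc => ?_⟩
    · revert d2; split_ifs <;> omega
    · rcases hc with hc | ⟨hc, -⟩ | ⟨-, hc⟩
      · have := hu _ hc
        revert this; split_ifs <;> omega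
      · exact absurd hc n1
      · have := hdu _ hc
        revert this; split_ifs <;> omega
  refine ⟨if b < i then b else b - 2, by split_ifs <;> omega, ?_,
    .inl (by rw [e b h1 h2]; exact hr), fun c hc => ?_⟩
  · revert hne; split_ifs <;> omega
  · rcases hc with hc | ⟨hc, -⟩ | ⟨hc, -⟩ <;>
    · have := hu _ hc
      revert this; split_ifs <;> omega

theorem pm_eq : PM 0 Eq := by
  exact ⟨eq_equivalence, fun a ha => absurd ha (Nat.not_lt_zero a)⟩

theorem PM.after {n m : ℕ} {r : ℕ → ℕ → Prop} {w : Word} (h : PM n r) (hv : Valid n w m)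
    (hw : NoCr w) : PM m (after w r) := by
  induction w generalizing n r with
  | nil => exact (show n = m from hv) ▸ h
  | cons g w ih =>
    obtain ⟨k, i⟩ := g
    have h' : NoCr w := fun e j hj => hw e j (List.mem_cons_of_mem _ hj)
    cases k with
    | cup => exact ih (h.cup hv.1) hv.2 h'
    | cap =>
      have h1 : i + 2 ≤ n := hv.1
      obtain ⟨n, rfl⟩ : ∃ k, n = k + 2 := ⟨n - 2, by omega⟩
      exact ih (h.cap (by omega)) hv.2 h'
    | cr e => exact absurd List.mem_cons_self (hw e i)

theorem loops_pos {n : ℕ} {r : ℕ → ℕ → Prop} {w : Word} (h : PM n r) (hv : Valid n w 0)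
    (hw : NoCr w) (hne : w ≠ []) : 1 ≤ loops w r := by
  induction w generalizing n r with
  | nil => exact absurd rfl hne
  | cons g w ih =>
    obtain ⟨k, i⟩ := g
    have h' : NoCr w := fun e j hj => hw e j (List.mem_cons_of_mem _ hj)
    cases k with
    | cup =>
      refine ih (h.cup hv.1) hv.2 h' ?_
      rintro rfl
      have : n - 0 + 2 = 0 := hv.2
      omega
    | cap =>
      have h1 : i + 2 ≤ n := hv.1
      obtain ⟨n, rfl⟩ : ∃ k, n = k + 2 := ⟨n - 2, by omega⟩
      rw [loops]
      by_cases hw0 : w = []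
      · subst hw0
        have h2 : n + 2 - 2 + 0 = 0 := hv.2
        obtain ⟨b, hb, hb1, hr, -⟩ := h.2 i (by omega)
        rw [if_pos (show r i (i + 1) by rwa [show i + 1 = b by omega])]
        omega
      · have := ih (h.cap (by omega : i ≤ n)) hv.2 h' hw0
        omega
    | cr e => exact absurd List.mem_cons_self (hw e i)

end Pool.Agent.Lib.MP_7bc610_gt
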