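import Pool.Agent.Lib.MP_7bc610_gt.H9Nu

/-!
The main induction.
-/

namespace Pool.Agent.Lib.MP_7bc610_gt

theorem Good.merge {E : List Ev} {X : ℕ → AT} (h : Good E X) {e f : ℕ} (he : e ∈ ids E)
    (hf : f ∈ ids E) (h0 : (X f).frac.1 = 0) (b : Bool) :
    Good (MP_7bc610_gt.del E e) (Function.update X f (mrg b (X e) (X f))) := by
  have h1 := h.del e
  obtain ⟨m1, m2⟩ := frac_mrg b (Y := X e) h0
  have hm : mm (Function.update X f (mrg b (X e) (X f))) f = 0 := by
    simp [mm, m1]
  have hm' : ∀ j, j ≠ f → mm (Function.update X f (mrg b (X e) (X f))) j = mm X j :=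
    fun j hj => by simp [mm, Function.update_of_ne hj]
  refine ⟨h1.wf, fun j hj => ?_, fun a c ha hc => ?_, fun a ha c hc hs => ?_⟩
  · by_cases hjf : j = f
    · subst hjf
      rw [Function.update_self, m2, h.unit e he, h.unit j hf, mul_one]
    · rw [Function.update_of_ne hjf]; exact h1.unit j hj
  · have ha' : a ≠ f := by rintro rfl; rw [Function.update_self] at ha; exact ha m1
    have hc' : c ≠ f := by rintro rfl; rw [Function.update_self] at hc; exact hc m1
    rw [Function.update_of_ne ha'] at ha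
    rw [Function.update_of_ne hc'] at hc
    exact h1.gen a c ha hc
  · by_cases ha' : a = f
    · rw [ha', hm, zero_mul]
    by_cases hc' : c = f
    · rw [hc', hm, mul_zero]
    rw [hm' a ha', hm' c hc']
    exact h1.sign a ha c hc hs

open Classical in
theorem star_of_kap {E : List Ev} {X : ℕ → AT} (h : Good E X) {f g : ℕ}
    (hk : kap E X f g = 0) : ¬il E f g ∧ ∀ e, (X e).frac.1 ≠ 0 → il E f e → ¬il E g e := by
  unfold kap at hk
  have h2 := sq_nonneg (∑ e ∈ (ids E).filter (fun e => il E f e ∧ il E g e), mm X e)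
  have h1 : ¬il E f g := fun hc => by rw [if_pos hc] at hk; omega
  refine ⟨h1, fun e he h3 h4 => ?_⟩
  rw [if_neg h1, zero_add, pow_eq_zero_iff two_ne_zero] at hk
  have hmem : e ∈ (ids E).filter (fun e => il E f e ∧ il E g e) :=
    Finset.mem_filter.2 ⟨(il_mem h3).2, h3, h4⟩
  have h5 : ∑ e' ∈ (ids E).filter (fun e => il E f e ∧ il E g e), mm X e * mm X e' = 0 := by
    rw [← Finset.mul_sum, hk, mul_zero]
  have h6 := (Finset.sum_eq_zero_iff_of_nonneg fun e' he' => by
    obtain ⟨p, q, -⟩ := Finset.mem_filter.1 he'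
    refine h.sign e (il_mem h3).2 e' p ?_
    have s1 := h.wf.il_side h3
    have s2 := h.wf.il_side q
    revert s1 s2
    cases side E f <;> cases side E e <;> cases side E e' <;> simp).1 h5 e hmem
  have h7 := h.unit e (il_mem h3).2
  rcases mul_eq_zero.1 (mul_self_eq_zero.1 h6) with h8 | h8
  · rw [h8] at h7; simp at h7
  · exact he h8

theorem main_aux (N : ℕ) : ∀ (E : List Ev) (X : ℕ → AT), E.length < N → Good E X →
    ∃ c : ℚ, c ≤ 0 ∧ cc (ZJ E X) = c ∧ (c = 0 → Isotopic 0 0 (NFw E X) circ) := by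
  induction N with
  | zero => intro E X h; omega
  | succ N ih =>
    intro E X hl h
    by_cases hne : E = []
    · subst hne
      refine ⟨0, le_rfl, ?_, fun _ => Isotopic.refl _⟩
      have : ZJ [] X = 1 := by
        rw [ZJ, Zj, show ids [] = ∅ from rfl, Zs_empty, lam_nil, pow_zero]
      rw [this, cc_gl J.Gl.one]; simp
    have step : ∀ e ∈ ids E, ∀ X', Good (del E e) X' → ∃ c : ℚ, c ≤ 0 ∧
        cc (ZJ (del E e) X') = c ∧ (c = 0 → Isotopic 0 0 (NFw (del E e) X') circ) :=
      fun e he X' h' => ih _ X' (by have := length_del_lt he; omega) h'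
    -- the two geometric reductions
    have red : ((∃ pre s e post, E = pre ++ ⟨s, true, e⟩ :: ⟨s, false, e⟩ :: post) ∨
        ∃ pre s e x post, E = pre ++ ⟨s, true, e⟩ :: x :: ⟨s, false, e⟩ :: post ∧
          (X e).frac.1 ≠ 0 ∧ ¬(X x.id).frac.1 ≠ 0 ∧ il E e x.id) →
        ∃ c : ℚ, c ≤ 0 ∧ cc (ZJ E X) = c ∧ (c = 0 → Isotopic 0 0 (NFw E X) circ) := by
      rintro (⟨pre, s, e, post, hE⟩ | ⟨pre, s, e, x, post, hE, he, hx, hex⟩)
      · have he := mem_ids_of_eq hE
        obtain ⟨c, c1, c2, c3⟩ := step e he X (h.del e)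
        obtain ⟨p1, p2⟩ := pf_cl (h.unit e he)
        have hq : ((X e).jd.U + dJ * (X e).jd.W).c0 ^ 2 = 1 := by
          rw [UW_eq]
          have := jd_qq (X e)
          have h1 : ((X e).frac.2 : ℚ) ^ 2 = 1 := by exact_mod_cast h.unit e he
          rw [h1] at this
          show (((X e).jd.q0 : ℚ) : ℂ) ^ 2 = 1
          exact_mod_cast this
        refine ⟨(X e).data.cl + c, by linarith, ?_, fun h0 => ?_⟩
        · rw [ZJ_M1 h.wf hE, cc_mul hq (ZJ_c0 (h.del e)), cc_UW, c2, ← jd_data]; push_cast; ring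
        · exact (geo1 h.wf hE (p2 (by linarith))).trans (c3 (by linarith))
      · have hfe : x.id ≠ e := fun e' => hx (e' ▸ he)
        obtain ⟨b, hb⟩ := geo2 h.wf hfe hE
        have hg := h.merge (il_mem hex).1 (il_mem hex).2 (not_not.1 hx) b
        obtain ⟨c, c1, c2, c3⟩ := step e (il_mem hex).1 _ hg
        exact ⟨c, c1, by rw [cc_iso h.wf hg.wf (hb X) (ZJ_c0 h) (ZJ_c0 hg), c2],
          fun h0 => (hb X).trans (c3 h0)⟩
    -- the splice formula at a special chord
    have spl : ∀ f ∈ ids E, (X f).frac.1 = 0 → ∃ c c' t : ℚ, c' ≤ 0 ∧ 0 ≤ t ∧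
        cc (ZJ E X) = c ∧ nu E X f = t ∧
        c = c' + cf (X f).data (lamb E X f) - (X f).data.w * t ∧
        (c' = 0 → Isotopic 0 0 (NFw (del E f) X) circ) := fun f hf h0 => by
      obtain ⟨c', c1, c2, c3⟩ := step f hf X (h.del f)
      obtain ⟨t, t1, t2⟩ := nu_nonneg h hf h0
      refine ⟨_, c', t, c1, t1, ?_, t2, rfl, c3⟩
      rw [splice9 h hf h0, c2, t2]; push_cast; ring
    by_cases hs : ∃ f ∈ ids E, (X f).frac.1 = 0
    swap
    · refine red (config h.wf hne (fun j => (X j).frac.1 ≠ 0) h.gen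
        (fun a b ha _ hab => hs ⟨a, (il_mem hab).1, not_not.1 ha⟩) fun e a b he ha _ => ?_)
      exact absurd ha (h.gen e a he fun h' => hs ⟨a, (il_mem ha).2, h'⟩)
    obtain ⟨f, hf, h0⟩ := hs
    obtain ⟨c, c', t, c1, t1, c2, -, c3, -⟩ := spl f hf h0
    obtain ⟨p1, p2, -⟩ := pf_special h0 (h.unit f hf) (lamb E X f)
    have hc : c ≤ 0 := by have := mul_nonneg p2 t1; linarith
    refine ⟨c, hc, c2, fun hc0 => ?_⟩
    subst hc0
    have key : ∀ g ∈ ids E, (X g).frac.1 = 0 → Isotopic 0 0 (NFw E X) circ ∨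
        (0 < (X g).data.w ∧ nu E X g = 0) := fun g hg h1 => by
      obtain ⟨d, d', u, d1, u1, d2, u2, d3, d4⟩ := spl g hg h1
      obtain ⟨q1, q2, q3⟩ := pf_special h1 (h.unit g hg) (lamb E X g)
      have hd : d = 0 := by
        have := d2.symm.trans c2
        exact_mod_cast this
      have hwu := mul_nonneg q2 u1
      rcases q2.eq_or_lt with hw | hw
      · exact Or.inl ((geo0 h.wf hg (q3 (by linarith) hw.symm)).trans (d4 (by linarith)))
      · refine Or.inr ⟨hw, ?_⟩
        have : (X g).data.w * u = 0 := by linarith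
        rw [u2, (mul_eq_zero.1 this).resolve_left hw.ne']; simp
    by_contra hcon
    have hk : ∀ a ∈ ids E, ∀ b ∈ ids E, a ≠ b → (X a).frac.1 = 0 → (X b).frac.1 = 0 →
        kap E X a b = 0 := fun a ha b hb hab a0 b0 => by
      have e1 := ((key a ha a0).resolve_left hcon).2
      have e2 := ((key b hb b0).resolve_left hcon).1
      obtain ⟨u, u1, u2⟩ := nu_nonneg (h.del b)
        (by rw [ids_del]; exact Finset.mem_erase.2 ⟨hab, ha⟩) a0
      rw [nu_rec h ha hb hab a0 b0, u2] at e1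
      have e3 : u + 2 * (X b).data.w * kap E X a b = 0 := by exact_mod_cast e1
      have e4 : (0 : ℚ) ≤ kap E X a b := by exact_mod_cast kap_nonneg E X a b
      have e5 : (kap E X a b : ℚ) = 0 := by nlinarith
      exact_mod_cast e5
    obtain ⟨d, -, d2, d3⟩ := red (config h.wf hne (fun j => (X j).frac.1 ≠ 0) h.gen
      (fun a b ha hb hab => by
        by_cases e : a = b
        · rw [e] at hab; exact h.wf.il_irrefl b hab
        · exact (star_of_kap h (hk a (il_mem hab).1 b (il_mem hab).2 e (not_not.1 ha)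
            (not_not.1 hb))).1 hab)
      fun e a b he ha hb => by
        by_contra hab
        exact (star_of_kap h (hk a (il_mem ha).2 b (il_mem hb).2 hab
          (not_not.1 fun h' => h.gen e a he h' ha)
          (not_not.1 fun h' => h.gen e b he h' hb))).2 e he (il_symm ha) (il_symm hb))
    refine hcon (d3 ?_)
    have := d2.symm.trans c2
    exact_mod_cast this

theorem main9 (E : List Ev) (X : ℕ → AT) (h : Good E X) :
    ∃ c : ℚ, c ≤ 0 ∧ cc (ZJ E X) = c ∧ (c = 0 → Isotopic 0 0 (NFw E X) circ) :=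
  main_aux _ E X (Nat.lt_succ_self _) h

end Pool.Agent.Lib.MP_7bc610_gt
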