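import Pool.Agent.Lib.MP_7bc610_gt.H9Nu2
import Pool.Agent.Lib.MP_7bc610_gt.H9Cfg

/-!
The sign of the first order term.
-/

namespace Pool.Agent.Lib.MP_7bc610_gt

variable {E : List Ev} {X : ℕ → AT}

theorem kap_nonneg (E : List Ev) (X : ℕ → AT) (f g : ℕ) : 0 ≤ kap E X f g := by
  unfold kap
  split_ifs <;> positivity

theorem mem_ids_of_eq {pre post : List Ev} {s : Bool} {e : ℕ}
    (hE : E = pre ++ ⟨s, true, e⟩ :: post) : e ∈ ids E :=
  mem_ids.2 ⟨s, by rw [hE]; simp⟩

theorem nu_aux (N : ℕ) : ∀ (E : List Ev), E.length < N → Good E X → ∀ f ∈ ids E,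
    (X f).frac.1 = 0 → ∃ t : ℚ, 0 ≤ t ∧ nu E X f = t := by
  induction N with
  | zero => intro E h; omega
  | succ N ih =>
    intro E hl h f hf h0
    have step : ∀ e ∈ ids E, f ≠ e → ∃ t : ℚ, 0 ≤ t ∧ nu (del E e) X f = t := fun e he hfe =>
      ih _ (by have := length_del_lt he; omega) (h.del e) f
        (by rw [ids_del]; exact Finset.mem_erase.2 ⟨hfe, hf⟩) h0
    by_cases hs : ∃ g ∈ ids E, f ≠ g ∧ (X g).frac.1 = 0
    · obtain ⟨g, hg, hfg, h1⟩ := hs
      obtain ⟨t, ht, e⟩ := step g hg hfg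
      have hw := (pf_special h1 (h.unit g hg) 0).2.1
      have hk : (0 : ℚ) ≤ kap E X f g := by exact_mod_cast kap_nonneg E X f g
      refine ⟨t + 2 * (X g).data.w * kap E X f g, by positivity, ?_⟩
      rw [nu_rec h hf hg hfg h0 h1, e]; push_cast; ring
    · have hs' : ∀ g ∈ ids E, ¬(X g).frac.1 ≠ 0 → g = f := fun g hg h1 => by
        by_contra hc
        exact hs ⟨g, hg, fun e => hc e.symm, not_not.1 h1⟩
      have hne : E ≠ [] := by rintro rfl; simp [ids, opens] at hf
      rcases config h.wf hne (fun j => (X j).frac.1 ≠ 0) h.gen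
        (fun a b ha hb hab => by
          have e1 := hs' a (il_mem hab).1 ha
          have e2 := hs' b (il_mem hab).2 hb
          rw [e1, e2] at hab
          exact h.wf.il_irrefl f hab)
        (fun e a b he ha hb => by
          rw [hs' a (il_mem ha).2 fun h' => h.gen e a he h' ha,
            hs' b (il_mem hb).2 fun h' => h.gen e b he h' hb]) with
        ⟨pre, s, e, post, hE⟩ | ⟨pre, s, e, x, post, hE, he, hx, hex⟩
      · by_cases hfe : f = e
        · subst hfe
          exact ⟨0, le_rfl, by rw [nu_self h hE]; simp⟩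
        · obtain ⟨t, ht, e'⟩ := step e (mem_ids_of_eq hE) hfe
          exact ⟨t, ht, by rw [nu_M1 h hE hfe, e']⟩
      · have hxf : x.id = f := hs' _ (il_mem hex).2 hx
        have hfe : x.id ≠ e := fun e' => hx (e' ▸ he)
        obtain ⟨t, ht, e'⟩ := step e (mem_ids_of_eq hE) (hxf ▸ hfe)
        have hn := pf_n (h.unit e (mem_ids_of_eq hE))
        refine ⟨t + (1 - Dt.n (X e).data), by linarith, ?_⟩
        rw [← hxf, nu_M2 h hfe hE, hxf, e']; push_cast; ring

theorem nu_nonneg (h : Good E X) {f : ℕ} (hf : f ∈ ids E) (h0 : (X f).frac.1 = 0) :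
    ∃ t : ℚ, 0 ≤ t ∧ nu E X f = t := nu_aux _ E (Nat.lt_succ_self _) h f hf h0

end Pool.Agent.Lib.MP_7bc610_gt
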