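import Pool.Agent.Lib.MP_7bc610_gt.H9Jd

/-!
What the arborescent theorem gives for one box.
-/

namespace Pool.Agent.Lib.MP_7bc610_gt

open LaurentPolynomial

def cf (D : Dt) (k : ℤ) : ℚ := D.cq + 2 * k * D.x + k ^ 2 * D.cp + D.w * (k ^ 2 + 2)

theorem pf_aa {X : AT} (h : X.frac.2 ^ 2 = 1) : X.data.aa = 1 := by
  rw [(frac_sl X).2.2]
  exact_mod_cast h

theorem pf_cc (D : Dt) : Dt.CC D (dat []) = (D.aa, Dt.cl D) := by
  rw [Dt.CC_comm]
  simp only [Dt.CC, dat, act_nil, Equiv.Perm.one_apply, Dt.zero_add']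

theorem pf_dat (k : ℤ) : (dat (pw true k)).bb = 1 ∧ (dat (pw true k)).ab = k ∧
    (dat (pw true k)).aa = k ^ 2 ∧ (dat (pw true k)).w = k ^ 2 / 2 ∧ (dat (pw true k)).cp = 0 := by
  have h1 := sl_dat (pw true k)
  have h2 := slope_pwx k []
  rw [List.append_nil] at h2
  rw [h2] at h1
  obtain ⟨e1, e2, e3⟩ := h1
  simp only [slope_nil, zero_add, mul_one, Int.cast_one, one_pow] at e1 e2 e3
  have h3 := n_dat (pw true k)
  rw [Dt.n, e1, e3] at h3
  refine ⟨e1, e2, e3, by linarith, ?_⟩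
  have h4 := (gam_tau_zpow k (sl_dat []) (n_dat [])).2
  have h5 : dat (pw true k) = (Dt.tau ^ k) (dat []) := by
    have := dat_append (pw true k) []
    rwa [List.append_nil, act_pw] at this
  rw [h5, h4]
  rfl

theorem pf_inf : Isotopic 0 4 [(.cup, 0), (.cup, 1), (.cr true, 2), (.cr true, 1), (.cr true, 2)]
    [(.cup, 0), (.cup, 2)] := by
  simpa [interp, AK.body] using cert c_inf valid_u valid_u valid_u

theorem pf_n {X : AT} (h : X.frac.2 ^ 2 = 1) : Dt.n X.data ≤ 1 := by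
  obtain ⟨m, hm⟩ := X.arb
  exact (Tg.all_P model m _ _ hm [] (by rw [pf_cc]; exact pf_aa h)).n_le

theorem pf_cl {X : AT} (h : X.frac.2 ^ 2 = 1) : X.data.cl ≤ 0 ∧
    (X.data.cl = 0 → Isotopic 0 2 (X.dia ++ [(.cap, 1)]) [(.cup, 0)]) := by
  obtain ⟨m, hm⟩ := X.arb
  have h1 := (Tg.all_P model m _ _ hm [] (by rw [pf_cc]; exact pf_aa h)).c_le
  rw [pf_cc] at h1
  exact ⟨h1, fun h2 => hm.triv (pf_aa h) h2⟩

theorem pf_special {X : AT} (h1 : X.frac.1 = 0) (h2 : X.frac.2 ^ 2 = 1) (k : ℤ) :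
    cf X.data k ≤ 0 ∧ 0 ≤ X.data.w ∧
      (cf X.data k = 0 → X.data.w = 0 → Isotopic 0 4 X.dia [(.cup, 0), (.cup, 2)]) := by
  obtain ⟨m, hm⟩ := X.arb
  obtain ⟨s1, s2, -⟩ := frac_sl X
  have s3 := pf_aa h2
  rw [h1] at s1 s2
  simp only [Int.cast_zero, mul_zero, ne_eq, OfNat.ofNat_ne_zero, not_false_eq_true,
    zero_pow] at s1 s2
  obtain ⟨d1, d2, d3, d4, d5⟩ := pf_dat k
  have e : Dt.CC X.data (dat (pw true k)) = (1, cf X.data k) := by
    simp only [Dt.CC, Dt.cl, Dt.add, cf, s1, s2, s3, d1, d2, d3, d4, d5, Prod.mk.injEq]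
    constructor <;> ring
  have R := Tg.all_P model m _ _ hm (pw true k) (by rw [e])
  have hn : Dt.n X.data = 1 - 2 * X.data.w := by rw [Dt.n, s1, s3]; ring
  have r1 := R.n_le
  have r2 := R.c_le
  rw [e] at r2
  refine ⟨r2, by linarith, fun z1 z2 => ?_⟩
  obtain ⟨r, hr, er⟩ := R.isRat (by rw [e]; exact z1) (by rw [hn, z2]; ring)
  have z3 : (slope r).1 = 0 := by
    have := hr.1
    rw [s1] at this
    exact_mod_cast pow_eq_zero_iff two_ne_zero |>.1 this.symm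
  rw [model.rat_inf z3] at er
  exact (mkX_exact er).trans pf_inf

end Pool.Agent.Lib.MP_7bc610_gt
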