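import Pool.Agent.Lib.MP_7bc610_gt.H9Zero
import Pool.Agent.Lib.MP_7bc610_gt.H9PF
import Pool.Agent.Lib.MP_7bc610_gt.H9Lam

/-!
The splice formula and the first order term.
-/

namespace Pool.Agent.Lib.MP_7bc610_gt

open LaurentPolynomial

variable {E : List Ev} {X : ℕ → AT}

theorem Good.del (h : Good E X) (e : ℕ) : Good (del E e) X := by
  refine ⟨h.wf.del e, fun j hj => ?_, fun a b ha hb hab => h.gen a b ha hb (il_del.1 hab).2.2,
    fun a ha b hb hs => ?_⟩
  · rw [ids_del] at hj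
    exact h.unit j (Finset.mem_of_mem_erase hj)
  · rw [ids_del] at ha hb
    rw [side_del E (Finset.ne_of_mem_erase ha), side_del E (Finset.ne_of_mem_erase hb)] at hs
    exact h.sign a (Finset.mem_of_mem_erase ha) b (Finset.mem_of_mem_erase hb) hs

theorem nu1_pq (h : Good E X) {f : ℕ} (hf : f ∈ ids E) (h0 : (X f).frac.1 = 0) :
    ((X f).jd.p0 : ℂ) = 0 ∧ ((X f).jd.q0 : ℂ) ^ 2 = 1 := by
  have a := jd_pp (X f)
  have b := jd_qq (X f)
  have c : ((X f).frac.2 : ℚ) ^ 2 = 1 := by exact_mod_cast h.unit f hf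
  rw [h0] at a
  rw [c] at b
  have a' : (X f).jd.p0 = 0 := by simpa using a
  exact ⟨by exact_mod_cast a', by exact_mod_cast b⟩

theorem nu1_del (h : Good E X) (f : ℕ) : Zj X ((ids E).erase f) (lam E) = ZJ (del E f) X := by
  rw [ZJ, ids_del]
  exact Zj_congr (fun _ _ => rfl) fun A hA =>
    lam_del h.wf fun hf => Finset.notMem_erase f _ (hA hf)

theorem nu1_filter (h : Good E X) (f : ℕ) (I : Finset ℕ) (p : ℕ → Prop) [DecidablePred p]
    (hp : ∀ e, p e → il E f e) : (I.erase f).filter p = I.filter p := by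
  ext e
  simp only [Finset.mem_filter, Finset.mem_erase]
  refine ⟨fun h' => ⟨h'.1.2, h'.2⟩, fun h' => ⟨⟨?_, h'.1⟩, h'.2⟩⟩
  rintro rfl
  exact h.wf.il_irrefl _ (hp _ h'.2)

theorem splice9 (h : Good E X) {f : ℕ} (hf : f ∈ ids E) (h0 : (X f).frac.1 = 0) :
    cc (ZJ E X) = cc (ZJ (del E f) X) + (cf (X f).data (lamb E X f) : ℂ) -
      ((X f).data.w : ℂ) * nu E X f := by
  classical
  obtain ⟨hp, hq⟩ := nu1_pq h hf h0
  have hx := z00 h (Finset.erase_subset f (ids E))
  have hy := z10 h hf (I := (ids E).erase f) subset_rfl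
  have hs := prod_q0_sq h (Finset.erase_subset f (ids E))
  rw [nu1_filter h f _ _ fun _ h' => h', ← hx] at hy
  rw [← hx] at hs
  have hl : ((lamb E X f : ℤ) : ℂ) = -((∑ e ∈ (ids E).filter (il E f), mm X e : ℤ) : ℂ) := by
    rw [lamb, Int.cast_neg]
  rw [← hl] at hy
  have hF : ZJ E X = (X f).jd.U * Zj X ((ids E).erase f) (lam E) +
      ⟨(X f).jd.p0, (X f).jd.p1, (X f).jd.p2⟩ *
        (J.iJ * Zj X ((ids E).erase f) fun A => lam E (insert f A)) := by
    rw [ZJ, Zj_erase hf, JD.W]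
    ring
  rw [hF, ← nu1_del h f, nu, jd_data]
  generalize (J.iJ * Zj X ((ids E).erase f) fun A => lam E (insert f A)) = Y at hy ⊢
  generalize Zj X ((ids E).erase f) (lam E) = F at hy hs ⊢
  simp only [cc, nuJ, cf, JD.dt, ofJets, JD.U, J.mul_def, J.add_def]
  push_cast
  rw [hp, hy]
  generalize ((lamb E X f : ℤ) : ℂ) = l
  generalize ((X f).jd.q0 : ℂ) = q0 at hq
  generalize ((X f).jd.q1 : ℂ) = q1
  generalize ((X f).jd.q2 : ℂ) = q2
  generalize ((X f).jd.p1 : ℂ) = p1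
  generalize ((X f).jd.p2 : ℂ) = p2
  linear_combination (2 * F.c0 * F.c2 - F.c1 ^ 2) * hq +
    (2 * q0 * q2 - q1 ^ 2 + 2 * l * (q0 * p2 - q1 * p1) - l ^ 2 * p1 ^ 2 - q0 * p1 * l ^ 2) * hs

theorem nu_rec (h : Good E X) {f g : ℕ} (hf : f ∈ ids E) (hg : g ∈ ids E) (hfg : f ≠ g)
    (h0 : (X f).frac.1 = 0) (h1 : (X g).frac.1 = 0) :
    nu E X f = nu (del E g) X f + 2 * ((X g).data.w : ℂ) * (kap E X f g : ℂ) := by
  classical
  obtain ⟨hp, hq⟩ := nu1_pq h hg h1
  have hg' : g ∈ (ids E).erase f := Finset.mem_erase.2 ⟨hfg.symm, hg⟩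
  set I := ((ids E).erase f).erase g with hI
  have i1 : I ⊆ (ids E).erase f := Finset.erase_subset _ _
  have i2 : I ⊆ (ids E).erase g := Finset.erase_subset_erase _ (Finset.erase_subset _ _)
  have i3 : I ⊆ ids E := i1.trans (Finset.erase_subset _ _)
  have gI : g ∉ I := Finset.notMem_erase _ _
  have h00 := z00 h i3
  have h10 := z10 h hf i1
  have h01 := z10 h hg i2
  have h11 := z11 h hf hg hfg (I := I) subset_rfl
  have hs := prod_q0_sq h i3
  have hk : ((kap E X f g : ℤ) : ℂ) = (((if il E f g then 1 else 0) +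
      (∑ e ∈ I.filter (fun e => il E f e ∧ il E g e), mm X e) ^ 2 : ℤ) : ℂ) := by
    rw [kap, hI, nu1_filter h g _ (fun e => il E f e ∧ il E g e) fun _ h' => h'.2,
      nu1_filter h f _ (fun e => il E f e ∧ il E g e) fun _ h' => h'.1]
  have e1 : nu (del E g) X f = nuJ (Zj X I (lam E)) (J.iJ * Zj X I fun A => lam E (insert f A)) := by
    rw [nu, ids_del, Finset.erase_right_comm]
    congr 1
    · exact Zj_congr (fun _ _ => rfl) fun A hA => (lam_del h.wf fun hh => gI (hA hh)).symm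
    · congr 1
      refine Zj_congr (fun _ _ => rfl) fun A hA => (lam_del h.wf fun hh => ?_).symm
      rcases Finset.mem_insert.1 hh with hh | hh
      · exact hfg hh.symm
      · exact gI (hA hh)
  have e2 : Zj X ((ids E).erase f) (lam E) = (X g).jd.U * Zj X I (lam E) +
      ⟨(X g).jd.p0, (X g).jd.p1, (X g).jd.p2⟩ * (J.iJ * Zj X I fun A => lam E (insert g A)) := by
    rw [Zj_erase hg', JD.W]
    ring
  have e3 : (J.iJ * Zj X ((ids E).erase f) fun A => lam E (insert f A)) =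
      (X g).jd.U * (J.iJ * Zj X I fun A => lam E (insert f A)) +
      -(⟨(X g).jd.p0, (X g).jd.p1, (X g).jd.p2⟩ *
        Zj X I fun A => lam E (insert f (insert g A))) := by
    rw [Zj_erase hg', JD.W]
    linear_combination (⟨(X g).jd.p0, (X g).jd.p1, (X g).jd.p2⟩ *
        Zj X I fun A => lam E (insert f (insert g A))) * J.i_sq
  rw [e1, nu, e2, e3, hk, jd_data]
  generalize (J.iJ * Zj X I fun A => lam E (insert f A)) = Y10 at h10 ⊢
  generalize (J.iJ * Zj X I fun A => lam E (insert g A)) = Y01 at h01 ⊢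
  generalize (Zj X I fun A => lam E (insert f (insert g A))) = X11 at h11 ⊢
  generalize Zj X I (lam E) = X00 at h00 ⊢
  simp only [nuJ, JD.dt, ofJets, JD.U, J.mul_def, J.add_def, J.neg_def]
  rw [hp, h00, h10, h01, h11]
  generalize ((∏ j ∈ I, (X j).jd.q0 : ℚ) : ℂ) = π at hs
  generalize (∑ e ∈ I.filter (il E f), mm X e) = l
  generalize (∑ e ∈ I.filter (il E g), mm X e) = l'
  generalize (∑ e ∈ I.filter (fun e => il E f e ∧ il E g e), mm X e) = μ
  generalize (if il E f g then (1 : ℤ) else 0) = ε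
  push_cast
  rw [hp]
  generalize ((X g).jd.q0 : ℂ) = q0 at hq
  generalize ((X g).jd.q1 : ℂ) = q1
  generalize ((X g).jd.p1 : ℂ) = p1
  linear_combination (2 * (π * Y10.c1 + X00.c1 * l * π) + l ^ 2 * π ^ 2) * hq -
    2 * q0 * p1 * (ε + μ ^ 2) * hs

end Pool.Agent.Lib.MP_7bc610_gt
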