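import Pool.Agent.Lib.MP_7bc610_gt.H9Nu1

/-!
First order terms under removal and merging.
-/

namespace Pool.Agent.Lib.MP_7bc610_gt

open LaurentPolynomial

variable {E : List Ev} {X : ℕ → AT}

theorem nu2_step {I : Finset ℕ} {ℓ ℓ0 ℓ1 : Finset ℕ → ℕ} {e : ℕ} (he : e ∈ I)
    (h0 : ∀ A ⊆ I.erase e, ℓ A = ℓ0 A) (h1 : ∀ A ⊆ I.erase e, ℓ (insert e A) = ℓ1 A) :
    Zj X I ℓ = (X e).jd.U * Zj X (I.erase e) ℓ0 + (X e).jd.W * Zj X (I.erase e) ℓ1 := by
  rw [Zj_erase he, Zj_congr (fun _ _ => rfl) h0, Zj_congr (fun _ _ => rfl) h1]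

theorem nu2_fac {I : Finset ℕ} {ℓ ℓ0 : Finset ℕ → ℕ} {e : ℕ} (he : e ∈ I)
    (h0 : ∀ A ⊆ I.erase e, ℓ A = ℓ0 A) (h1 : ∀ A ⊆ I.erase e, ℓ (insert e A) = ℓ0 A + 1) :
    Zj X I ℓ = ((X e).jd.U + dJ * (X e).jd.W) * Zj X (I.erase e) ℓ0 := by
  rw [nu2_step he h0 h1, Zj_succ]
  ring

theorem nu2_not {I A : Finset ℕ} {e : ℕ} (h : A ⊆ I.erase e) : e ∉ A :=
  fun g => Finset.notMem_erase e I (h g)

theorem nu2_q (h : Good E X) {e : ℕ} (he : e ∈ ids E) : ((X e).jd.q0 : ℂ) ^ 2 = 1 := by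
  have h1 := jd_qq (X e)
  have h2 : ((X e).frac.2 : ℚ) ^ 2 = 1 := by exact_mod_cast h.unit e he
  exact_mod_cast h1.trans h2

theorem nu2_c0 (h : Good E X) {I : Finset ℕ} (hI : I ⊆ ids E) : (Zj X I (lam E)).c0 ^ 2 = 1 := by
  rw [z00 h hI, prod_q0_sq h hI]

theorem ZJ_M1 (h : WF E) {pre post : List Ev} {s : Bool} {e : ℕ}
    (hE : E = pre ++ ⟨s, true, e⟩ :: ⟨s, false, e⟩ :: post) :
    ZJ E X = ((X e).jd.U + dJ * (X e).jd.W) * ZJ (del E e) X := by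
  rw [ZJ, ZJ, ids_del]
  exact nu2_fac (mem_ids.2 ⟨s, by simp [hE]⟩) (fun A hA => lam_del h (nu2_not hA))
    (fun A _ => lam_M1 h hE A)

theorem nu_self (h : Good E X) {pre post : List Ev} {s : Bool} {e : ℕ}
    (hE : E = pre ++ ⟨s, true, e⟩ :: ⟨s, false, e⟩ :: post) : nu E X e = 0 := by
  have h1 : (Zj X ((ids E).erase e) fun A => lam E (insert e A)) =
      dJ * Zj X ((ids E).erase e) (lam E) := by
    rw [← Zj_succ]
    exact Zj_congr (fun _ _ => rfl) fun A hA => by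
      rw [lam_M1 h.wf hE A, lam_del h.wf (nu2_not hA)]
  have h2 := nu2_c0 h (Finset.erase_subset e (ids E))
  rw [nu, h1]
  generalize Zj X ((ids E).erase e) (lam E) = F at h2
  have h3 : J.iJ * (dJ * F) = -J.hJ * F := by
    rw [dJ]
    linear_combination (J.hJ * F) * J.i_sq
  rw [h3]
  simp only [nuJ, J.mul_def, J.neg_def, J.hJ]
  linear_combination (-2) * h2

theorem nu_M1 (h : Good E X) {pre post : List Ev} {s : Bool} {e f : ℕ}
    (hE : E = pre ++ ⟨s, true, e⟩ :: ⟨s, false, e⟩ :: post) (hf : f ≠ e) :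
    nu E X f = nu (del E e) X f := by
  have he : e ∈ ids E := mem_ids.2 ⟨s, by simp [hE]⟩
  have he' : e ∈ (ids E).erase f := Finset.mem_erase.2 ⟨hf.symm, he⟩
  have h2 := nu2_q h he
  rw [nu, nu, ids_del, Finset.erase_right_comm,
    nu2_fac he' (fun A hA => lam_del h.wf (nu2_not hA)) (fun A _ => lam_M1 h.wf hE A),
    nu2_fac (ℓ0 := fun A => lam (del E e) (insert f A)) he'
      (fun A hA => lam_del h.wf (by simp [hf.symm, nu2_not hA]))
      (fun A _ => by rw [Finset.insert_comm, lam_M1 h.wf hE]), UW_eq, mul_left_comm]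
  generalize Zj X _ (lam (del E e)) = F
  generalize J.iJ * _ = Y
  simp only [nuJ, J.mul_def]
  linear_combination (2 * (F.c0 * Y.c1 - F.c1 * Y.c0) + Y.c0 ^ 2) * h2

theorem nu_M2 (h : Good E X) {pre post : List Ev} {s : Bool} {e : ℕ} {x : Ev} (hef : x.id ≠ e)
    (hE : E = pre ++ ⟨s, true, e⟩ :: x :: ⟨s, false, e⟩ :: post) :
    nu E X x.id = nu (del E e) X x.id + ((1 - Dt.n (X e).data : ℚ) : ℂ) := by
  have he : e ∈ ids E := mem_ids.2 ⟨s, by simp [hE]⟩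
  have he' : e ∈ (ids E).erase x.id := Finset.mem_erase.2 ⟨hef.symm, he⟩
  have hx : ∀ A ⊆ ((ids E).erase x.id).erase e, x.id ∉ A := fun A hA =>
    nu2_not (hA.trans (Finset.erase_subset _ _))
  have h2 := nu2_q h he
  have h3 := nu2_c0 (h.del e) (Finset.erase_subset x.id _)
  rw [ids_del, Finset.erase_right_comm] at h3
  rw [nu, nu, ids_del, Finset.erase_right_comm,
    nu2_fac he' (fun A hA => lam_del h.wf (nu2_not hA))
      (fun A hA => lam_M2a h.wf hef hE (hx A hA)),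
    nu2_step (ℓ0 := fun A => lam (del E e) (insert x.id A)) (ℓ1 := lam (del E e)) he'
      (fun A hA => lam_del h.wf (by simp [hef.symm, nu2_not hA]))
      (fun A hA => by rw [Finset.insert_comm, lam_M2b h.wf hef hE (hx A hA)]), UW_eq, jd_data]
  generalize Zj X _ (lam (del E e)) = F at h3 ⊢
  generalize (Zj X _ fun A => lam (del E e) (insert x.id A)) = G
  generalize (X e).jd = d at h2 ⊢
  have h4 : J.iJ * (d.U * G + d.W * F) = d.U * (J.iJ * G) + -(⟨d.p0, d.p1, d.p2⟩ : J) * F := by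
    rw [JD.W]
    linear_combination ((⟨d.p0, d.p1, d.p2⟩ : J) * F) * J.i_sq
  rw [h4]
  generalize J.iJ * G = Y
  simp only [nuJ, J.mul_def, J.add_def, J.neg_def, JD.U, JD.dt, ofJets, Dt.n]
  push_cast
  linear_combination (2 * (F.c0 * Y.c1 - F.c1 * Y.c0) + Y.c0 ^ 2 + 1) * h2 +
    (2 * ((d.q1 : ℂ) * d.p0 - d.q0 * d.p1) - (d.p0 : ℂ) ^ 2) * h3

end Pool.Agent.Lib.MP_7bc610_gt
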