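import Pool.Agent.Lib.MP_7bc610_gt.H9Tm
import Pool.Agent.Lib.MP_7bc610_gt.EqFixRotN

/-!
Rotation of boxes.
-/

namespace Pool.Agent.Lib.MP_7bc610_gt

open LaurentPolynomial

theorem rw_of_iso04 {u v : Word} (h : Isotopic 0 4 u v) (hu : ∃ w, u = (.cup, 0) :: w) (i : ℕ) :
    Rw (shift i u) (shift i v) := by
  intro n m hv
  obtain ⟨w, rfl⟩ := hu
  have hi : i ≤ n := by simpa [Kind.inp] using hv.1
  obtain ⟨c, rfl⟩ := Nat.exists_eq_add_of_le hi
  by_cases h0 : Valid 0 ((Kind.cup, 0) :: w) 4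
  · have h1 := h.shift i c
    have h2 := h0.shift i c
    rw [Nat.zero_add] at h1 h2
    rwa [hv.unique h2]
  · have key : ∀ a b : Word, Isotopic 0 4 a b → ¬Valid 0 a 4 → a = b := by
      intro a b hab
      induction hab with
      | rel x y hxy => exact fun hx => absurd hxy.1 hx
      | refl => exact fun _ => rfl
      | symm x y hxy ih =>
        exact fun hy => (ih fun hx => hy ((Isotopic.valid_iff hxy).1 hx)).symm
      | trans x y z hxy _ ih ih' =>
        exact fun hx => (ih hx).trans (ih' fun hy => hx ((Isotopic.valid_iff hxy).2 hy))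
    rw [← key _ _ h h0]
    exact Isotopic.refl _

theorem rot_c_zero : run 0 4 [(.cup, 0), (.cup, 1), (.cup, 2), (.cup, 3), (.cap, 1), (.cap, 0)]
    [(3, .comm .cap .cup 1 0, false), (2, .zig 1, true), (1, .comm .cup .cup 1 0, false),
     (2, .comm .cap .cup 0 1, false), (1, .zig 0, true)] =
    some [(.cup, 0), (.cup, 1)] := by decide

theorem rot_c_tw1 (e : Bool) : run 0 4 [(.cup, 0), (.box 0, 1), (.cr e, 2), (.cap, 0)]
    [(2, .comm .cap (.cr e) 0 0, false)] =
    some [(.cup, 0), (.box 0, 1), (.cap, 0), (.cr e, 0)] := by cases e <;> decide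

theorem rot_c_tw2 (e : Bool) : run 0 4 [(.cup, 0), (.box 0, 1), (.cr e, 3), (.cap, 0)]
    [(2, .comm .cap (.cr e) 0 1, false)] =
    some [(.cup, 0), (.box 0, 1), (.cap, 0), (.cr e, 1)] := by cases e <;> decide

theorem rot_c_tw0 (e : Bool) :
    run 0 4 [(.cup, 0), (.cup, 1), (.box 0, 2), (.cr e, 2), (.cap, 1), (.cap, 0)]
    [(3, .sp (!e) 1, false), (4, .comm .cap .cap 0 0, false), (3, .sp e 0, false),
     (2, .comm (.cr e) (.box 0) 0 0, false), (1, .sc e 0, true), (0, .comm .cup .cup 0 0, false),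
     (1, .sc (!e) 1, true), (2, .comm (.box 0) (.cr e) 2 0, false),
     (3, .comm .cap (.cr e) 1 3, false), (4, .comm .cap (.cr e) 0 2, false)] =
    some [(.cup, 0), (.cup, 1), (.box 0, 2), (.cap, 1), (.cap, 0), (.cr e, 2)] := by
  cases e <;> decide

theorem rot_c_unrot : run 0 4 [(.cup, 0), (.cup, 1), (.box 0, 2), (.cap, 1), (.cap, 4)]
    [(3, .comm .cap .cap 1 3, true), (2, .comm (.box 0) .cap 2 0, true), (1, .zag 1, true),
     (0, .comm .cup (.box 0) 0 0, true), (1, .zag 0, true)] =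
    some [(.box 0, 0)] := by decide

theorem rot_app1 (e : Bool) (x : TX) : rotX (appX e 1 x) = appX e 0 (rotX x) := by
  induction x using TX.ind with
  | h w hw =>
    exact mkX_eq (hu := valid_rot (valid_app hw e 1)) (hv := valid_app (valid_rot hw) e 0)
      (by simpa [interp, AK.body, bx3] using cert (rot_c_tw1 e) hw hw hw)

theorem rot_app2 (e : Bool) (x : TX) : rotX (appX e 2 x) = appX e 1 (rotX x) := by
  induction x using TX.ind with
  | h w hw =>
    exact mkX_eq (hu := valid_rot (valid_app hw e 2)) (hv := valid_app (valid_rot hw) e 1)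
      (by simpa [interp, AK.body, bx3] using cert (rot_c_tw2 e) hw hw hw)

theorem rot_app0 (e : Bool) (x : TX) : rotX (rotX (appX e 0 x)) = appX e 2 (rotX (rotX x)) := by
  induction x using TX.ind with
  | h w hw =>
    exact mkX_eq (hu := valid_rot (valid_rot (valid_app hw e 0)))
      (hv := valid_app (valid_rot (valid_rot hw)) e 2)
      (by simpa [interp, AK.body, bx3] using cert (rot_c_tw0 e) hw hw hw)

theorem rot_app (e : Bool) (i : Fin 3) (x : TX) :
    rotX (rotX (rotX (rotX (appX e i x)))) = appX e i (rotX (rotX (rotX (rotX x)))) := by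
  fin_cases i
  · exact (congrArg (fun y => rotX (rotX y)) (rot_app0 e x)).trans
      ((congrArg rotX (rot_app2 e _)).trans (rot_app1 e _))
  · exact (congrArg (fun y => rotX (rotX (rotX y))) (rot_app1 e x)).trans
      ((congrArg rotX (rot_app0 e _)).trans (rot_app2 e _))
  · exact (congrArg (fun y => rotX (rotX (rotX y))) (rot_app2 e x)).trans
      ((congrArg (fun y => rotX (rotX y)) (rot_app1 e _)).trans (rot_app0 e _))

theorem rot_add (S R : TX) :
    rotX (rotX (addX S R)) = addX (rotX (rotX R)) (rotX (rotX S)) := by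
  induction S using TX.ind with
  | h S hS =>
    induction R using TX.ind with
    | h R hR =>
      simp only [rotX_mk, addX_mk]
      exact mkX_eq (by simpa [interp, AK.body, bx3] using cert c_rot2 hS hR hR)

theorem rot_u : rotX (rotX uX) = uX := by
  simp only [uX, rotX_mk]
  exact mkX_eq (by simpa [interp, AK.body] using cert rot_c_zero valid_u valid_u valid_u)

theorem rot_four (X : AT) :
    rotX (rotX (rotX (rotX (mkX X.dia X.valid)))) = mkX X.dia X.valid := by
  induction X with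
  | zero =>
    change rotX (rotX (rotX (rotX uX))) = uX
    rw [rot_u, rot_u]
  | twist i e X ih =>
    change rotX (rotX (rotX (rotX (appX e i (mkX X.dia X.valid))))) = appX e i (mkX X.dia X.valid)
    rw [rot_app, ih]
  | add X Y ih ih' =>
    change rotX (rotX (rotX (rotX (addX (mkX X.dia X.valid) (mkX Y.dia Y.valid))))) =
      addX (mkX X.dia X.valid) (mkX Y.dia Y.valid)
    rw [rot_add, rot_add, ih, ih']
  | rot X ih =>
    change rotX (rotX (rotX (rotX (rotX (mkX X.dia X.valid))))) = rotX (mkX X.dia X.valid)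
    rw [ih]

theorem rot4_iso (X : AT) : Isotopic 0 4 X.dia (AT.rot (.rot (.rot (.rot X)))).dia :=
  mkX_exact (hu := X.valid) (hv := AT.valid _) (rot_four X).symm

theorem rot_rotN_congr {Y Y' : AT} (h : Isotopic 0 4 Y.dia Y'.dia) (ρ : ℕ) :
    Isotopic 0 4 (rotN ρ Y).dia (rotN ρ Y').dia := by
  induction ρ with
  | zero => exact h
  | succ ρ ih => exact (ih.shift 1 1).ctx valid_cup0 (valid_cap 4 0 (by omega))

theorem itp_iso_congr {X X' : ℕ → AT} {n m : ℕ} {T : Tm} (hv : TV n T m)
    (h : ∀ j ∈ tids T, Isotopic 0 4 (X j).dia (X' j).dia) :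
    Isotopic n m (itp X T) (itp X' T) := by
  induction T generalizing n with
  | nil => exact Isotopic.refl _
  | cons g T ih =>
    obtain ⟨k, i⟩ := g
    have v1 : Valid n (shift i (k.body X)) (n - k.inp + k.out) :=
      (valid_body_iff X k i _ _).2 ⟨hv.1, rfl⟩
    have v2 : Valid n (shift i (k.body X')) (n - k.inp + k.out) :=
      (valid_body_iff X' k i _ _).2 ⟨hv.1, rfl⟩
    have hh : Isotopic n (n - k.inp + k.out) (shift i (k.body X)) (shift i (k.body X')) ∧
        ∀ j ∈ tids T, Isotopic 0 4 (X j).dia (X' j).dia := by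
      cases k with
      | cup => exact ⟨Isotopic.refl _, h⟩
      | cap => exact ⟨Isotopic.refl _, h⟩
      | box j ρ =>
        simp only [tids, bp, List.map_cons, List.mem_cons, forall_eq_or_imp] at h
        exact ⟨rw_of_iso04 (rot_rotN_congr h.1 ρ) (dia_head _) i _ _ v1, h.2⟩
    refine (hh.1.right (TV.valid hv.2 X)).trans ?_
    simpa [itp] using (ih hv.2 hh.2).ctx (s := []) (b := m) v2 rfl

theorem rot_itp (X : ℕ → AT) (f ρ i : ℕ) :
    itp X [(.box f (ρ + 1), i)] = itp X [(.cup, i), (.box f ρ, i + 1), (.cap, i)] := by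
  simp [itp, TK.body, rotN, AT.dia, Nat.add_comm]

theorem tr_rot (f ρ i : ℕ) :
    TR [(.box f (ρ + 1), i)] [(.cup, i), (.box f ρ, i + 1), (.cap, i)] := by
  refine ⟨fun X => by rw [rot_itp]; exact Rw.refl _, ?_⟩
  simp only [bp]
  rw [show (i + (ρ + 1)) % 2 = (i + 1 + ρ) % 2 by omega]

theorem tr_rot' (f ρ i : ℕ) :
    TR [(.cup, i), (.box f ρ, i + 1), (.cap, i)] [(.box f (ρ + 1), i)] := by
  refine ⟨fun X => by rw [rot_itp]; exact Rw.refl _, ?_⟩
  simp only [bp]
  rw [show (i + (ρ + 1)) % 2 = (i + 1 + ρ) % 2 by omega]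

theorem tr_unrot (f ρ i : ℕ) :
    TR [(.box f ρ, i)] [(.cup, i), (.box f (ρ + 1), i + 1), (.cap, i + 4)] := by
  refine ⟨fun X => ?_, ?_⟩
  · have hw := AT.valid (rotN ρ (X f))
    have h1 := (cert rot_c_unrot hw hw hw).symm
    have h2 := rw_of_iso04 h1 (by simpa [interp, AK.body, bx3] using dia_head _) i
    simpa [interp, AK.body, bx3, itp, TK.body, rotN, AT.dia, Nat.add_comm, Nat.add_left_comm,
      ← Nat.add_assoc] using h2
  · simp only [bp]
    rw [show (i + ρ) % 2 = (i + 1 + (ρ + 1)) % 2 by omega]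

theorem tr_rot4 (f ρ i : ℕ) : TR [(.box f ρ, i)] [(.box f (ρ + 4), i)] := by
  refine ⟨fun X => ?_, ?_⟩
  · simpa [itp, TK.body, rotN] using rw_of_iso04 (rot4_iso (rotN ρ (X f))) (dia_head _) i
  · simp only [bp]
    rw [show (i + ρ) % 2 = (i + (ρ + 4)) % 2 by omega]

theorem tr_oL_oR (f ρ m : ℕ) :
    TR [(.box f (ρ + 1), m), (.cap, m + 3)] [(.box f ρ, m + 1), (.cap, m)] := by
  refine ((tr_rot f ρ m).right [(.cap, m + 3)]).trans ?_
  refine (((TR.commF .cap .cap (i := m) (q := m + 3) (q' := m + 5) (by simp [TK.out])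
    (by simp [TK.out, TK.inp]) []).cons _).cons _).trans ?_
  refine ((TR.commF (.box f ρ) .cap (i := m + 1) (q := m + 5) (q' := m + 1) (by simp [TK.out])
    (by simp [TK.out, TK.inp]) _).cons _).trans ?_
  exact (TR.zag m).right _

theorem tr_oR_oL (f ρ m : ℕ) :
    TR [(.box f ρ, m + 1), (.cap, m)] [(.box f (ρ + 1), m), (.cap, m + 3)] := by
  refine TR.back (tr_oL_oR f ρ m) fun n k hv => ?_
  simp only [TV, TK.inp, TK.out] at hv ⊢
  omega

end Pool.Agent.Lib.MP_7bc610_gt
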