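import Pool.Agent.Lib.MP_7bc610_gt.H9Thru
import Pool.Agent.Lib.MP_7bc610_gt.H9Drag

/-!
A strand that first turns to the left.
-/

namespace Pool.Agent.Lib.MP_7bc610_gt

open LaurentPolynomial

theorem stepL_cup (i : ℕ) (p M s : Tm) :
    TR (p ++ (.cup, i) :: tshift (i + 2) M ++ (.cap, i + 1) :: s) (p ++ tshift i M ++ s) := by
  have hc : TV 0 [(TK.cup, 0)] 2 := by simp [TV, TK.inp, TK.out]
  have e1 : TR (p ++ (.cup, i) :: tshift (i + 2) M ++ (.cap, i + 1) :: s)
      ((p ++ tshift i M) ++ [(.cup, i), (.cap, i + 1)] ++ s) := by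
    simpa using (TR.inter hc i i le_rfl M).ctx p ((.cap, i + 1) :: s)
  simpa using e1.trans ((TR.zag i).ctx (p ++ tshift i M) s)

/-- The case where the strand first turns to the left. -/
theorem stepL {N : ℕ} (ih : ∀ (R : Tm) (n m : ℕ), R.length < N → TV n R 0 → m < n → Out n m R)
    {n m b : ℕ} {L R3 : Tm} (hl : L.length + 1 + R3.length ≤ N) (hm : m < n)
    (hL : TV m L (b + 1)) (hv : TV n (L ++ (.cap, b) :: R3) 0) :
    Out n m (L ++ (.cap, b) :: R3) := by
  obtain ⟨k2, h1, h2⟩ := tv_append.1 hv
  rcases thru_down hL (Nat.lt_succ_self b) with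
    ⟨a, La, Rb, ha, ht⟩ | ⟨wa, k, i, j, wb, La, Rb, rfl, hk, hj, ht⟩
  · obtain ⟨c, rfl⟩ := Nat.exists_eq_add_of_lt ha
    have hL' : TV (a + 1 + c) L (b + 1) := by rwa [show a + 1 + c = a + c + 1 by omega]
    obtain ⟨c', e0, hRb⟩ := ht.tv_right hL'
    obtain rfl : c' = 0 := by omega
    have hlen := ht.length
    have e1 : TI n 0 (L ++ (.cap, b) :: R3) ((tshift (a + 1) Rb ++ La) ++ (.cap, b) :: R3) := by
      simpa using (ht.sortRL (by omega) h1).ctx (p := []) (a := n) rfl h2
    have e2 : TR ((tshift (a + 1) Rb ++ La) ++ (.cap, b) :: R3)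
        (tshift (a + 1) Rb ++ (.cap, a) :: (La ++ R3)) := by
      simpa using (TR.inter ht.tv_left 0 0 le_rfl [(.cap, 0)]).ctx (tshift (a + 1) Rb) R3
    exact .lft a c Rb (La ++ R3) (by omega) hRb (by simp; omega) (e1.tr e2)
  · obtain ⟨m1, hwa, h3⟩ := tv_append.1 hL
    obtain ⟨n1, hwa', h4⟩ := tv_append.1 h1
    have hn1 : n1 = m1 + (n - m) := by
      have h7 := hwa.tshift 0 (n - m)
      rw [tshift_zero, show m + 0 + (n - m) = n by omega] at h7
      simpa using hwa'.unique h7
    have hi : i ≤ m1 := by have := h3.1; omega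
    have h5 : TV (i + j + 1 + (m1 + k.out - i - j - 1)) wb (b + 1) := by
      have := h3.2
      rwa [show m1 - k.inp + k.out = i + j + 1 + (m1 + k.out - i - j - 1) by omega] at this
    obtain ⟨c', e0, hRb⟩ := ht.tv_right h5
    obtain rfl : c' = 0 := by omega
    have hlen := ht.length
    have hp : TV n (wa ++ [(k, i)]) (n1 - k.inp + k.out) := tv_append.2 ⟨_, hwa', h4.1, rfl⟩
    have e1 : TI n 0 (wa ++ (k, i) :: wb ++ (.cap, b) :: R3)
        ((wa ++ (k, i) :: tshift (i + j + 1) Rb) ++ La ++ (.cap, b) :: R3) := by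
      simpa using (ht.sortRL (by omega) h4.2).ctx hp h2
    have e2 : TR ((wa ++ (k, i) :: tshift (i + j + 1) Rb) ++ La ++ (.cap, b) :: R3)
        (wa ++ (k, i) :: tshift (i + j + 1) Rb ++ (.cap, i + j) :: (La ++ R3)) := by
      simpa using (TR.inter ht.tv_left 0 0 le_rfl [(.cap, 0)]).ctx
        (wa ++ (k, i) :: tshift (i + j + 1) Rb) R3
    have e := e1.tr e2
    simp only [List.length_append, List.length_cons] at hl
    cases k with
    | cap => simp [TK.inp] at hk
    | box f ρ =>
      simp only [TK.out] at hj hRb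
      obtain ⟨R', h6⟩ := dragL hj hwa hi (by
        rwa [show m1 + 4 - i - j - 1 = m1 + 3 - i - j by omega] at hRb) hm e.tv
      exact .box f (ρ + j) R' (e.trans h6)
    | cup =>
      simp only [TK.out, TK.inp] at hj hRb hp
      obtain rfl | rfl : j = 1 ∨ j = 0 := by omega
      · have e3 := e.tr (stepL_cup i wa Rb (La ++ R3))
        exact Out.of_ti e3 (by simp; omega) (ih _ n m (by simp; omega) e3.tv hm)
      · have lift : ∀ {W : Tm}, TI (m1 + 2 - i - 0 - 1) 0 Rb W →
            TI n 0 (wa ++ (.cup, i) :: wb ++ (.cap, b) :: R3)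
              (wa ++ (.cup, i) :: tshift (i + 1) W ++ (.cap, i) :: (La ++ R3)) := by
          intro W hW
          have a1 := hW.tshift (i + 1) (n - m)
          rw [show m1 + 2 - i - 0 - 1 + (i + 1) + (n - m) = n1 - 0 + 2 by omega] at a1
          have a2 : TV n ((wa ++ [(.cup, i)] ++ tshift (i + 1) Rb) ++ (.cap, i) :: (La ++ R3)) 0 := by
            simpa using e.tv
          obtain ⟨k3, a3, a4⟩ := tv_append.1 a2
          have a5 := a3.unique (tv_append.2 ⟨_, hp, a1.1⟩)
          rw [a5] at a4
          refine e.trans ?_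
          simpa using a1.ctx hp a4
        cases ih Rb _ 0 (by omega) hRb (by omega) with
        | box f ρ R' h6 =>
          have e3 := lift h6
          have e4 : TR (wa ++ (.cup, i) :: tshift (i + 1) ((.box f ρ, 0 + 1) :: (.cap, 0) :: R') ++
              (.cap, i) :: (La ++ R3))
              (wa ++ (.box f ρ, i) :: tshift (i + 0 + 1) R' ++ (.cap, i + 0) :: (La ++ R3)) := by
            have b1 := (TR.commF .cup (.box f ρ) (i := i) (q := i + 2) (q' := i) le_rfl rfl
              ((.cap, i + 1) :: tshift (i + 1) R' ++ (.cap, i) :: (La ++ R3))).left wa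
            have b2 := (TR.zag i).ctx (wa ++ [(.box f ρ, i)])
              (tshift (i + 1) R' ++ (.cap, i) :: (La ++ R3))
            simp only [List.append_assoc, List.cons_append, List.nil_append, tshift_cons,
              Nat.zero_add, Nat.add_zero] at b1 b2 ⊢
            rw [show 1 + (i + 1) = i + 2 by omega]
            exact b1.trans b2
          have e5 := e3.tr e4
          have h7 := h6.tv.2.2
          simp only [TK.inp, TK.out] at h7
          obtain ⟨R'', h8⟩ := dragL (j := 0) (by omega) hwa hi (by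
            rwa [show m1 + 2 - i - 0 - 1 - 0 + 4 - 2 + 0 = m1 + 3 - i - 0 by omega] at h7) hm e5.tv
          exact .box f (ρ + 0) R'' (e5.trans h8)
        | rgt k M1 M2 h6 h7 h8 =>
          have e3 := lift h8
          have e4 : TR (wa ++ (.cup, i) :: tshift (i + 1) (tshift (0 + 1) M1 ++ (.cap, 0) :: M2) ++
              (.cap, i) :: (La ++ R3))
              (wa ++ tshift i M1 ++ (tshift (i + 1) M2 ++ (.cap, i) :: (La ++ R3))) := by
            have b1 := stepL_cup i wa M1 (tshift (i + 1) M2 ++ (.cap, i) :: (La ++ R3))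
            simp only [List.append_assoc, List.cons_append, tshift_cons, tshift_append,
              tshift_tshift, Nat.zero_add] at b1 ⊢
            rw [show 1 + (i + 1) = i + 2 by omega]
            exact b1
          have e5 := e3.tr e4
          exact Out.of_ti e5 (by simp; omega) (ih _ n m (by simp; omega) e5.tv hm)
        | lft a k M R' h6 _ _ _ => omega

end Pool.Agent.Lib.MP_7bc610_gt
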