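import Pool.Agent.Lib.MP_7bc610_gt.H9StepR
import Pool.Agent.Lib.MP_7bc610_gt.H9StepL

/-!
Following a strand to its end.
-/

namespace Pool.Agent.Lib.MP_7bc610_gt

theorem step_aux (N : ℕ) : ∀ (R : Tm) (n m : ℕ), R.length < N → TV n R 0 → m < n → Out n m R := by
  induction N with
  | zero => intro R n m h; omega
  | succ N ih =>
    intro R n m hl hv hm
    obtain ⟨w, b, L, Rr, R2, ht, rfl | ⟨b', rfl, rfl⟩⟩ := thru_up hv hm
    · obtain ⟨k, h1, h2⟩ := tv_append.1 hv
      have hlen := ht.length
      have e1 : TI n 0 (w ++ (.cap, b) :: R2) ((tshift (m + 1) Rr ++ L) ++ (.cap, b) :: R2) := by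
        simpa using (ht.sortRL hm h1).ctx (p := []) (a := n) rfl h2
      have e2 : TR ((tshift (m + 1) Rr ++ L) ++ (.cap, b) :: R2)
          (tshift (m + 1) Rr ++ (.cap, m) :: (L ++ R2)) := by
        simpa using (TR.inter ht.tv_left 0 0 le_rfl [(.cap, 0)]).ctx (tshift (m + 1) Rr) R2
      have e := e1.tr e2
      simp only [List.length_append, List.length_cons] at hl
      refine Out.of_ti e (by simp; omega) (stepR ih (by simp; omega) hm e.tv)
    · obtain ⟨k, h1, h2⟩ := tv_append.1 hv
      have hlen := ht.length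
      have e1 : TI n 0 (w ++ (.cap, b') :: R2)
          ((L ++ tshift (b' + 1 + 1) Rr) ++ (.cap, b') :: R2) := by
        simpa using (ht.sortLR hm h1).ctx (p := []) (a := n) rfl h2
      obtain ⟨k1, h3, h4⟩ := tv_append.1 e1.tv
      obtain ⟨k2, h5, h6⟩ := tv_append.1 h3
      have h7 := ht.tv_left.tshift 0 (n - m)
      rw [tshift_zero, show m + 0 + (n - m) = n by omega] at h7
      have h8 := h5.unique h7
      have hc : TV 2 [(TK.cap, 0)] 0 := by simp [TV, TK.inp, TK.out]
      have h9 : TV k1 [(TK.cap, b')] (k1 - 2) := by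
        have := h4.1
        simp only [TV, TK.inp, TK.out] at this ⊢
        omega
      have e2 := TI.interB (W := Rr) (n := k2) (m := k1 - 2) hc (le_refl b') (by omega) (by
        simpa using tv_append.2 ⟨_, h6, h9⟩)
      have h10 : TV (k1 - 2) R2 0 := by simpa [TK.inp, TK.out] using h4.2
      have e3 : TI n 0 ((L ++ tshift (b' + 1 + 1) Rr) ++ (.cap, b') :: R2)
          (L ++ (.cap, b') :: (tshift b' Rr ++ R2)) := by
        simpa using e2.ctx h5 h10
      have e := e1.trans e3
      simp only [List.length_append, List.length_cons] at hl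
      refine Out.of_ti e (by simp; omega) (stepL ih (by simp; omega) hm ht.tv_left e.tv)

theorem step9 (R : Tm) (n m : ℕ) (hv : TV n R 0) (hm : m < n) : Out n m R :=
  step_aux _ R n m (Nat.lt_succ_self _) hv hm

end Pool.Agent.Lib.MP_7bc610_gt
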