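import Pool.Agent.Lib.MP_7bc610_gt.H9Thru
import Pool.Agent.Lib.MP_7bc610_gt.H9Drag

/-!
A strand that first turns to the right.
-/

namespace Pool.Agent.Lib.MP_7bc610_gt

open LaurentPolynomial

theorem stepR_sort {m p a c : ℕ} {wb M Rb R3 : Tm} (ht : Thru a wb 0 M Rb) (ha : a < p)
    (hw : TV p wb c) (h3 : TV (m + 1 + c) ((.cap, m) :: R3) 0) :
    TI (m + 1 + p) 0 (tshift (m + 1) wb ++ (.cap, m) :: R3)
      (tshift (m + 1) M ++ (.cap, m) :: (tshift m Rb ++ R3)) := by
  have e0 := (ht.sortLR ha hw).tshift (m + 1) 0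
  rw [show p + (m + 1) + 0 = m + 1 + p by omega, show c + (m + 1) + 0 = m + 1 + c by omega] at e0
  have e1 : TI (m + 1 + p) 0 (tshift (m + 1) wb ++ (.cap, m) :: R3)
      (tshift (m + 1) M ++ (tshift (m + 2) Rb ++ (.cap, m) :: R3)) := by
    have := e0.ctx (p := []) (a := m + 1 + p) rfl h3
    simp only [List.nil_append, tshift_append, tshift_tshift, List.append_assoc] at this
    rwa [show 0 + 1 + (m + 1) = m + 2 by omega] at this
  obtain ⟨k1, h4, h5⟩ := tv_append.1 e1.tv
  obtain ⟨k2, h6, h7⟩ := tv_append.1 h5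
  have h8 := ht.tv_left.net h4
  have hc : TV 2 [(TK.cap, 0)] 0 := by simp [TV, TK.inp, TK.out]
  have h9 : TV k2 [(TK.cap, m)] (k2 - 2) := by
    have := h7.1
    simp only [TV, TK.inp, TK.out] at this ⊢
    omega
  have e2 := TI.interB (W := Rb) (n := k1) (m := k2 - 2) hc (le_refl m) (by omega) (by
    simpa using tv_append.2 ⟨_, h6, h9⟩)
  have h10 : TV (k2 - 2) R3 0 := by simpa [TK.inp, TK.out] using h7.2
  refine e1.trans ?_
  simpa using e2.ctx h4 h10

theorem stepR_zig {n t s : ℕ} {P M S : Tm} (hM : TV s M 0)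
    (hv : TV n (P ++ (.cup, t + 1 + s) :: (tshift (t + 1) M ++ (.cap, t) :: S)) 0) :
    TI n 0 (P ++ (.cup, t + 1 + s) :: (tshift (t + 1) M ++ (.cap, t) :: S))
      (P ++ (tshift (t + 1) M ++ S)) := by
  obtain ⟨k1, h1, h2⟩ := tv_append.1 hv
  rw [← List.cons_append] at h2
  obtain ⟨k2, h3, h4⟩ := tv_append.1 h2
  have h5 : t + 1 + s ≤ k1 := by simpa [TK.inp] using h3.1
  have e1 := TI.interB (W := [(TK.cup, 0)]) (n := k1) (m := k2) hM (le_refl (t + 1)) h5 (by
    simpa using h3)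
  have e2 : TI n 0 (P ++ (.cup, t + 1 + s) :: (tshift (t + 1) M ++ (.cap, t) :: S))
      ((P ++ tshift (t + 1) M) ++ [(.cup, t + 1), (.cap, t)] ++ S) := by
    simpa using e1.ctx h1 h4
  simpa using e2.tr ((TR.zig t).ctx _ _)

theorem stepR_ctx {n m i : ℕ} {wa M M' S : Tm} (hm : m < n) (h : TI (i + 1) 0 M M')
    (hv : TV n (tshift (m + 1) (wa ++ (.cup, i) :: M) ++ S) 0) :
    TI n 0 (tshift (m + 1) (wa ++ (.cup, i) :: M) ++ S)
      (tshift (m + 1) (wa ++ (.cup, i) :: M') ++ S) := by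
  obtain ⟨k1, h1, h2⟩ := tv_append.1 hv
  obtain ⟨c, rfl⟩ : ∃ c, n = m + 1 + c := ⟨n - (m + 1), by omega⟩
  obtain ⟨c', rfl, h3⟩ := h1.unshift
  rw [show wa ++ (TK.cup, i) :: M = (wa ++ [(TK.cup, i)]) ++ M by simp] at h3
  obtain ⟨c1, h4, h5⟩ := tv_append.1 h3
  obtain ⟨c0, -, h6⟩ := tv_append.1 h4
  have h7 : i + 1 ≤ c1 := by
    simp only [TV, TK.inp, TK.out] at h6
    omega
  have e0 := h.tshift 0 (c1 - (i + 1))
  rw [tshift_zero, tshift_zero, show i + 1 + 0 + (c1 - (i + 1)) = c1 by omega,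
    ← h5.unique e0.1] at e0
  have e1 := (e0.ctx h4 (s := []) (b := c') rfl).tshift (m + 1) 0
  rw [show c + (m + 1) + 0 = m + 1 + c by omega, show c' + (m + 1) + 0 = m + 1 + c' by omega] at e1
  simpa using e1.ctx (p := []) (a := m + 1 + c) rfl h2

theorem stepR_core {N : ℕ}
    (ih : ∀ (R : Tm) (n m : ℕ), R.length < N → TV n R 0 → m < n → Out n m R)
    {n m i j : ℕ} {k : TK} {wa M R4 : Tm} (hl : wa.length + 1 + M.length + 1 + R4.length ≤ N)
    (hm : m < n) (hk : k.inp = 0) (hj : j < k.out) (hM : TV (i + j) M 0)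
    (hv : TV n (tshift (m + 1) (wa ++ (k, i) :: M) ++ (.cap, m) :: R4) 0) :
    Out n m (tshift (m + 1) (wa ++ (k, i) :: M) ++ (.cap, m) :: R4) := by
  cases k with
  | cap => simp [TK.inp] at hk
  | box f ρ =>
    obtain ⟨R', h⟩ := dragR hj hM hm hv
    exact .box _ _ R' h
  | cup =>
    obtain rfl | rfl : j = 0 ∨ j = 1 := by
      simp only [TK.out] at hj
      omega
    · have e : tshift (m + 1) (wa ++ (TK.cup, i) :: M) ++ (.cap, m) :: R4 =
          tshift (m + 1) wa ++ (.cup, m + 1 + i) :: (tshift (m + 1) M ++ (.cap, m) :: R4) := by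
        simp [Nat.add_comm]
      rw [e] at hv ⊢
      have e1 := stepR_zig (s := i) hM hv
      exact Out.of_ti e1 (by simp; omega) (ih _ _ _ (by simp; omega) e1.tv hm)
    · cases ih M (i + 1) i (by omega) hM (Nat.lt_succ_self i) with
      | box f ρ R' h =>
        have e1 := stepR_ctx hm h hv
        have e2 : TR (tshift (m + 1) (wa ++ (.cup, i) :: (.box f ρ, i + 1) :: (.cap, i) :: R') ++
            (.cap, m) :: R4) (tshift (m + 1) (wa ++ (.box f (ρ + 1), i) :: R') ++
            (.cap, m) :: R4) := by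
          have := (tr_rot' f ρ (i + (m + 1))).ctx (tshift (m + 1) wa)
            (tshift (m + 1) R' ++ (.cap, m) :: R4)
          rw [show i + (m + 1) + 1 = i + 1 + (m + 1) by omega] at this
          simpa using this
        have e3 := e1.tr e2
        have h1 : TV (i + 3) R' 0 := by simpa [TK.inp, TK.out] using h.tv.2.2
        obtain ⟨R'', h2⟩ := dragR (j := 3) (by norm_num) h1 hm e3.tv
        exact .box _ _ R'' (e3.trans h2)
      | rgt k M1 R' h1 _ h =>
        obtain ⟨q, h2, h3⟩ := tv_append.1 h.tv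
        have h4 := h1.net h2
        have h5 := h3.1
        simp only [TK.inp] at h5
        omega
      | lft a k M1 M2 h0 h1 h2 h =>
        have e1 := stepR_ctx hm h hv
        have e : tshift (m + 1) (wa ++ (TK.cup, i) :: (tshift (a + 1) M1 ++ (.cap, a) :: M2)) ++
            (.cap, m) :: R4 = tshift (m + 1) wa ++ (.cup, a + (m + 1) + 1 + k) ::
              (tshift (a + (m + 1) + 1) M1 ++ (.cap, a + (m + 1)) ::
                (tshift (m + 1) M2 ++ (.cap, m) :: R4)) := by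
          rw [show a + (m + 1) + 1 + k = i + (m + 1) by omega,
            show a + (m + 1) + 1 = a + 1 + (m + 1) by omega]
          simp
        rw [e] at e1
        have e2 := e1.trans (stepR_zig h1 e1.tv)
        exact Out.of_ti e2 (by simp; omega) (ih _ _ _ (by simp; omega) e2.tv hm)

/-- The case where the strand first turns to the right. -/
theorem stepR {N : ℕ} (ih : ∀ (R : Tm) (n m : ℕ), R.length < N → TV n R 0 → m < n → Out n m R)
    {n m : ℕ} {Rr R3 : Tm} (hl : Rr.length + 1 + R3.length ≤ N) (hm : m < n)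
    (hv : TV n (tshift (m + 1) Rr ++ (.cap, m) :: R3) 0) :
    Out n m (tshift (m + 1) Rr ++ (.cap, m) :: R3) := by
  obtain ⟨q, h1, h2⟩ := tv_append.1 hv
  obtain ⟨c, rfl⟩ : ∃ c, n = m + 1 + c := ⟨n - (m + 1), by omega⟩
  obtain ⟨c', rfl, h3⟩ := h1.unshift
  have hc : 0 < c' := by
    have := h2.1
    simp only [TK.inp] at this
    omega
  obtain ⟨a, M, Rb, ha, ht⟩ | ⟨wa, k, i, j, wb, M, Rb, rfl, hk, hj, ht⟩ := thru_down h3 hc
  · have := ht.length
    exact .rgt a M (tshift m Rb ++ R3) ht.tv_left (by simp; omega) (stepR_sort ht ha h3 h2)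
  · have hlen := ht.length
    rw [show wa ++ (k, i) :: wb = (wa ++ [(k, i)]) ++ wb by simp] at h3
    obtain ⟨c1, h4, h5⟩ := tv_append.1 h3
    obtain ⟨c0, -, h6⟩ := tv_append.1 h4
    have h7 : i + j < c1 := by
      simp only [TV] at h6
      omega
    have h8 := h4.tshift (m + 1) 0
    rw [show c + (m + 1) + 0 = m + 1 + c by omega,
      show c1 + (m + 1) + 0 = m + 1 + c1 by omega] at h8
    have e : TI (m + 1 + c) 0 (tshift (m + 1) (wa ++ (k, i) :: wb) ++ (.cap, m) :: R3)
        (tshift (m + 1) (wa ++ (k, i) :: M) ++ (.cap, m) :: (tshift m Rb ++ R3)) := by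
      simpa using (stepR_sort ht h7 h5 h2).ctx h8 (s := []) (b := 0) rfl
    simp only [List.length_append, List.length_cons] at hl
    exact Out.of_ti e (by simp; omega)
      (stepR_core ih (by simp; omega) hm hk hj ht.tv_left e.tv)

end Pool.Agent.Lib.MP_7bc610_gt
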