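import Pool.Agent.Lib.MP_7bc610_gt.H9Tm

/-!
Strands passing through a template.
-/

namespace Pool.Agent.Lib.MP_7bc610_gt

open LaurentPolynomial

theorem Thru.tv_left {a b : ℕ} {w L R : Tm} (h : Thru a w b L R) : TV a L b := by
  induction h with
  | nil a => rfl
  | left hi _ ih => exact ⟨hi, ih⟩
  | right _ ih => exact ih

theorem Thru.tv_right {a b c n' : ℕ} {w L R : Tm} (h : Thru a w b L R)
    (hv : TV (a + 1 + c) w n') : ∃ c', n' = b + 1 + c' ∧ TV c R c' := by
  induction h generalizing c with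
  | nil a => exact ⟨c, Eq.symm hv, rfl⟩
  | @left a i b k w L R hi _ ih =>
    have h2 := hv.2
    rw [show a + 1 + c - k.inp + k.out = a - k.inp + k.out + 1 + c by omega] at h2
    exact ih h2
  | @right a i b k w L R _ ih =>
    have h1 := hv.1
    have h2 := hv.2
    rw [show a + 1 + c - k.inp + k.out = a + 1 + (c - k.inp + k.out) by omega] at h2
    obtain ⟨c', e, h3⟩ := ih h2
    exact ⟨c', e, by omega, h3⟩

theorem Thru.length {a b : ℕ} {w L R : Tm} (h : Thru a w b L R) :
    L.length + R.length = w.length := by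
  induction h with
  | nil a => rfl
  | left _ _ ih => simp only [List.length_cons]; omega
  | right _ ih => simp only [List.length_cons]; omega

theorem thru_ti_cons {n m : ℕ} {k : TK} {i : ℕ} {u v : Tm} (hi : i + k.inp ≤ n)
    (h : TI (n - k.inp + k.out) m u v) : TI n m ((k, i) :: u) ((k, i) :: v) := by
  have hp : TV n [(k, i)] (n - k.inp + k.out) := ⟨hi, rfl⟩
  have hs : TV m [] m := rfl
  simpa using h.ctx hp hs

theorem Thru.sortLR {a b n n' : ℕ} {w L R : Tm} (h : Thru a w b L R) (hn : a < n)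
    (hv : TV n w n') : TI n n' w (L ++ tshift (b + 1) R) := by
  induction h generalizing n with
  | nil a => exact TI.refl hv
  | @left a i b k w L R hi _ ih =>
    have h1 := hv.1
    exact thru_ti_cons h1 (ih (by omega) hv.2)
  | @right a i b k w L R ht ih =>
    have h1 := hv.1
    have h2 := thru_ti_cons h1 (ih (by omega) hv.2)
    refine h2.trans ?_
    have h3 : TV n (((k, i + (a + 1)) :: L) ++ tshift (b + 1) R) n' := h2.tv
    obtain ⟨m, h4, h5⟩ := tv_append.1 h3
    have h6 : TV n (tshift (1 + a) [(k, i)] ++ tshift 0 L) m := by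
      simpa [Nat.add_comm 1 a] using h4
    have h7 := TI.interB ht.tv_left (Nat.zero_le 1) (by omega) h6
    have hp : TV n [] n := rfl
    have h8 := h7.ctx hp h5
    simpa [Nat.add_comm 1 a, Nat.add_comm 1 b] using h8

theorem Thru.sortRL {a b n n' : ℕ} {w L R : Tm} (h : Thru a w b L R) (hn : a < n)
    (hv : TV n w n') : TI n n' w (tshift (a + 1) R ++ L) := by
  refine (h.sortLR hn hv).tr ?_
  simpa [Nat.add_comm 1 a, Nat.add_comm 1 b] using TR.inter h.tv_left 0 1 (Nat.zero_le 1) R

theorem thru_up {n m : ℕ} {R : Tm} (hv : TV n R 0) (hm : m < n) :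
    ∃ w b L Rr R2, Thru m w b L Rr ∧
      (R = w ++ (.cap, b) :: R2 ∨ ∃ b', b = b' + 1 ∧ R = w ++ (.cap, b') :: R2) := by
  induction R generalizing n m with
  | nil =>
    have h0 : n = 0 := hv
    omega
  | cons g R ih =>
    obtain ⟨k, i⟩ := g
    have h1 := hv.1
    by_cases hl : i + k.inp ≤ m
    · obtain ⟨w, b, L, Rr, R2, ht, hR⟩ := ih (m := m - k.inp + k.out) hv.2 (by omega)
      refine ⟨(k, i) :: w, b, (k, i) :: L, Rr, R2, .left hl ht, ?_⟩
      rcases hR with hR | ⟨b', e, hR⟩
      · exact Or.inl (by rw [hR]; rfl)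
      · exact Or.inr ⟨b', e, by rw [hR]; rfl⟩
    · by_cases hr : m + 1 ≤ i
      · obtain ⟨i', rfl⟩ : ∃ i', i = i' + (m + 1) := ⟨i - (m + 1), by omega⟩
        obtain ⟨w, b, L, Rr, R2, ht, hR⟩ := ih (m := m) hv.2 (by omega)
        refine ⟨(k, i' + (m + 1)) :: w, b, L, (k, i') :: Rr, R2, .right ht, ?_⟩
        rcases hR with hR | ⟨b', e, hR⟩
        · exact Or.inl (by rw [hR]; rfl)
        · exact Or.inr ⟨b', e, by rw [hR]; rfl⟩
      · cases k with
        | cup => simp only [TK.inp] at hl; omega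
        | box j ρ => simp only [TK.inp] at hl; omega
        | cap =>
          simp only [TK.inp] at hl
          by_cases he : i = m
          · subst he
            exact ⟨[], i, [], [], R, .nil i, Or.inl rfl⟩
          · exact ⟨[], m, [], [], R, .nil m, Or.inr ⟨i, by omega, rfl⟩⟩

theorem thru_down {n n' b : ℕ} {w : Tm} (hv : TV n w n') (hb : b < n') :
    (∃ a L Rr, a < n ∧ Thru a w b L Rr) ∨
      ∃ wa k i j wb L Rr, w = wa ++ (k, i) :: wb ∧ k.inp = 0 ∧ j < k.out ∧
        Thru (i + j) wb b L Rr := by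
  induction w generalizing n with
  | nil =>
    have h0 : n = n' := hv
    exact Or.inl ⟨b, [], [], by omega, .nil b⟩
  | cons g w ih =>
    obtain ⟨k, i⟩ := g
    have h1 := hv.1
    rcases ih hv.2 with ⟨a, L, Rr, ha, ht⟩ | ⟨wa, k', i', j, wb, L, Rr, e, h2, h3, ht⟩
    · by_cases hr : a + 1 ≤ i
      · obtain ⟨i', rfl⟩ : ∃ i', i = i' + (a + 1) := ⟨i - (a + 1), by omega⟩
        exact Or.inl ⟨a, L, (k, i') :: Rr, by omega, .right ht⟩
      · by_cases hl : i + k.out ≤ a
        · refine Or.inl ⟨a - k.out + k.inp, (k, i) :: L, Rr, by omega, .left (by omega) ?_⟩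
          rwa [show a - k.out + k.inp - k.inp + k.out = a by omega]
        · refine Or.inr ⟨[], k, i, a - i, w, L, Rr, rfl, ?_, by omega, ?_⟩
          · cases k with
            | cup => rfl
            | box j ρ => rfl
            | cap => simp only [TK.out] at hl; omega
          · rwa [show i + (a - i) = a by omega]
    · exact Or.inr ⟨(k, i) :: wa, k', i', j, wb, L, Rr, by rw [e]; rfl, h2, h3, ht⟩

end Pool.Agent.Lib.MP_7bc610_gt
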