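import Pool.Agent.Lib.MP_7bc610_gt.H9Base

/-!
Basic facts about templates.
-/

namespace Pool.Agent.Lib.MP_7bc610_gt

theorem itp_append (X : ℕ → AT) (u v : Tm) : itp X (u ++ v) = itp X u ++ itp X v := by
  induction u with
  | nil => rfl
  | cons g u ih => obtain ⟨k, i⟩ := g; simp [itp, ih]

@[simp] theorem tshift_nil (k : ℕ) : tshift k [] = [] := rfl

@[simp] theorem tshift_cons (k : ℕ) (g : TK) (i : ℕ) (w : Tm) :
    tshift k ((g, i) :: w) = (g, i + k) :: tshift k w := rfl

@[simp] theorem tshift_append (k : ℕ) (u v : Tm) :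
    tshift k (u ++ v) = tshift k u ++ tshift k v := List.map_append

@[simp] theorem tshift_zero (w : Tm) : tshift 0 w = w := by simp [tshift]

@[simp] theorem tshift_tshift (k j : ℕ) (w : Tm) : tshift k (tshift j w) = tshift (j + k) w := by
  simp [tshift, Nat.add_assoc]

@[simp] theorem length_tshift (k : ℕ) (w : Tm) : (tshift k w).length = w.length := by
  simp [tshift]

theorem itp_tshift (X : ℕ → AT) (k : ℕ) (u : Tm) : itp X (tshift k u) = shift k (itp X u) := by
  induction u with
  | nil => rfl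
  | cons g u ih => obtain ⟨g, i⟩ := g; simp [itp, ih]

theorem tv_append {n m : ℕ} {u v : Tm} : TV n (u ++ v) m ↔ ∃ k, TV n u k ∧ TV k v m := by
  induction u generalizing n with
  | nil => simp [TV]
  | cons g u ih =>
    obtain ⟨k, i⟩ := g
    simp only [List.cons_append, TV, ih]
    constructor
    · rintro ⟨h, j, h1, h2⟩; exact ⟨j, ⟨h, h1⟩, h2⟩
    · rintro ⟨j, ⟨h, h1⟩, h2⟩; exact ⟨h, j, h1, h2⟩

theorem tbody_valid (X : ℕ → AT) (k : TK) : Valid k.inp (k.body X) k.out := by
  cases k with
  | box j ρ => exact AT.valid _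
  | _ => simp [TK.body, TK.inp, TK.out, Valid, Kind.inp, Kind.out]

theorem dia_head (X : AT) : ∃ w, X.dia = (.cup, 0) :: w := by
  induction X with
  | zero => exact ⟨_, rfl⟩
  | twist i e X ih => obtain ⟨w, h⟩ := ih; exact ⟨_, by rw [AT.dia, h]; rfl⟩
  | add X Y ih _ => obtain ⟨w, h⟩ := ih; exact ⟨_, by rw [AT.dia, h]; rfl⟩
  | rot X _ => exact ⟨_, rfl⟩

theorem valid_body_iff (X : ℕ → AT) (k : TK) (i n m : ℕ) :
    Valid n (shift i (k.body X)) m ↔ i + k.inp ≤ n ∧ n - k.inp + k.out = m := by
  have h1 : i + k.inp ≤ n → Valid n (shift i (k.body X)) (n - k.inp + k.out) := fun h => by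
    have := (tbody_valid X k).shift i (n - k.inp - i)
    rwa [show k.inp + i + (n - k.inp - i) = n by omega,
      show k.out + i + (n - k.inp - i) = n - k.inp + k.out by omega] at this
  refine ⟨fun h => ?_, fun h => h.2 ▸ h1 h.1⟩
  have h2 : i + k.inp ≤ n := by
    cases k with
    | cup => simpa [TK.body, TK.inp, Kind.inp] using h.1
    | cap => simpa [TK.body, TK.inp, Kind.inp] using h.1
    | box j ρ =>
      obtain ⟨w, e⟩ := dia_head (rotN ρ (X j))
      rw [TK.body, e] at h
      simpa [TK.inp, Kind.inp] using h.1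
  exact ⟨h2, (h1 h2).unique h⟩

theorem tv_iff (X : ℕ → AT) {n m : ℕ} {T : Tm} : TV n T m ↔ Valid n (itp X T) m := by
  induction T generalizing n with
  | nil => rfl
  | cons g T ih =>
    obtain ⟨k, i⟩ := g
    simp only [TV, itp, valid_append, valid_body_iff, ih]
    exact ⟨fun h => ⟨_, ⟨h.1, rfl⟩, h.2⟩, fun ⟨_, h, h'⟩ => ⟨h.1, h.2 ▸ h'⟩⟩

theorem TV.valid {n m : ℕ} {T : Tm} (h : TV n T m) (X : ℕ → AT) : Valid n (itp X T) m :=
  (tv_iff X).1 h

theorem TV.unique {n m m' : ℕ} {T : Tm} (h : TV n T m) (h' : TV n T m') : m = m' :=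
  (h.valid fun _ => .zero).unique (h'.valid _)

theorem TV.tshift {n m : ℕ} {T : Tm} (h : TV n T m) (k j : ℕ) :
    TV (n + k + j) (tshift k T) (m + k + j) := by
  rw [tv_iff fun _ => .zero, itp_tshift]; exact (h.valid _).shift k j

theorem TV.net {n m n' m' s : ℕ} {T : Tm} (h : TV n T m) (h' : TV n' (MP_7bc610_gt.tshift s T) m') :
    m' + n = m + n' := by
  induction T generalizing n n' with
  | nil => simp only [TV, tshift_nil] at h h'; omega
  | cons g T ih =>
    obtain ⟨k, i⟩ := g
    simp only [TV, tshift_cons] at h h'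
    have := ih h.2 h'.2
    omega

theorem TV.parity {n m : ℕ} {T : Tm} (h : TV n T m) : n % 2 = m % 2 := by
  induction T generalizing n with
  | nil => simp only [TV] at h; omega
  | cons g T ih =>
    obtain ⟨k, i⟩ := g
    have h1 := h.1
    have := ih h.2
    cases k <;> simp only [TK.inp, TK.out] at h1 this <;> omega

theorem bp_append (u v : Tm) : bp (u ++ v) = bp u ++ bp v := by
  induction u with
  | nil => rfl
  | cons g u ih => obtain ⟨k, i⟩ := g; cases k <;> simp [bp, ih]

theorem bp_tshift (k : ℕ) (u : Tm) :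
    bp (tshift k u) = (bp u).map fun x => (x.1, (x.2 + k) % 2) := by
  induction u with
  | nil => rfl
  | cons g u ih =>
    obtain ⟨g, i⟩ := g
    cases g <;> simp only [tshift_cons, bp, ih, List.map_cons]
    congr 2; omega

theorem bp_tshift_congr {k k' : ℕ} (h : k % 2 = k' % 2) (u : Tm) :
    bp (tshift k u) = bp (tshift k' u) := by
  rw [bp_tshift, bp_tshift]
  refine List.map_congr_left fun x _ => ?_
  congr 1; omega

theorem tids_append (u v : Tm) : tids (u ++ v) = tids u ++ tids v := by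
  simp [tids, bp_append]

theorem tids_tshift (k : ℕ) (u : Tm) : tids (tshift k u) = tids u := by
  simp [tids, bp_tshift, Function.comp_def]

theorem itp_congr {X X' : ℕ → AT} {T : Tm} (h : ∀ j ∈ tids T, X j = X' j) :
    itp X T = itp X' T := by
  induction T with
  | nil => rfl
  | cons g T ih =>
    obtain ⟨k, i⟩ := g
    cases k with
    | box j ρ =>
      simp only [tids, bp, List.map_cons, List.mem_cons, forall_eq_or_imp] at h
      simp only [itp, TK.body, h.1, ih h.2]
    | cup => simp only [itp, TK.body, ih h]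
    | cap => simp only [itp, TK.body, ih h]

namespace TR

variable {u v w : Tm}

theorem refl (u : Tm) : TR u u := ⟨fun _ => Rw.refl _, List.Perm.refl _⟩

theorem trans (h : TR u v) (h' : TR v w) : TR u w :=
  ⟨fun X => (h.1 X).trans (h'.1 X), h.2.trans h'.2⟩

theorem ctx (h : TR u v) (p s : Tm) : TR (p ++ u ++ s) (p ++ v ++ s) :=
  ⟨fun X => by simpa only [itp_append] using (h.1 X).ctx _ _, by
    simp only [bp_append]; exact (h.2.append_left _).append_right _⟩

theorem left (h : TR u v) (p : Tm) : TR (p ++ u) (p ++ v) := by simpa using h.ctx p []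

theorem right (h : TR u v) (s : Tm) : TR (u ++ s) (v ++ s) := by simpa using h.ctx [] s

theorem cons (h : TR u v) (g : TK × ℕ) : TR (g :: u) (g :: v) := h.left [g]

theorem back (h : TR v u) (hv : ∀ n m, TV n u m → TV n v m) : TR u v :=
  ⟨fun X => (h.1 X).back fun n m h' => (hv n m ((tv_iff X).2 h')).valid X, h.2.symm⟩

theorem ti (h : TR u v) {n m : ℕ} (hv : TV n u m) : TI n m u v :=
  ⟨hv, fun X => h.1 X n m (hv.valid X), h.2⟩

theorem tv (h : TR u v) {n m : ℕ} (hv : TV n u m) : TV n v m :=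
  (tv_iff fun _ => .zero).2 ((h.1 _ n m (hv.valid _)).valid_iff.1 (hv.valid _))

/-- Interchange of heights: `Y` is to the left of `W`. -/
theorem inter {Y : Tm} {n0 m0 : ℕ} (hY : TV n0 Y m0) (i j : ℕ) (h : i ≤ j) (W : Tm) :
    TR (tshift i Y ++ tshift (j + m0) W) (tshift (j + n0) W ++ tshift i Y) :=
  ⟨fun X => by
    simpa only [itp_append, itp_tshift] using MP_7bc610_gt.inter (hY.valid X) i j h _, by
    have := hY.parity
    rw [bp_append, bp_append, bp_tshift_congr (k := j + m0) (k' := j + n0) (by omega)]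
    exact List.perm_append_comm⟩

theorem zig (i : ℕ) : TR [(.cup, i + 1), (.cap, i)] [] :=
  ⟨fun X => by simpa [itp, TK.body] using Rw.move (.zig i), List.Perm.refl _⟩

theorem zag (i : ℕ) : TR [(.cup, i), (.cap, i + 1)] [] :=
  ⟨fun X => by simpa [itp, TK.body] using Rw.move (.zag i), List.Perm.refl _⟩

theorem commF (k l : TK) {i q q' : ℕ} (h : i + k.out ≤ q) (h' : q' + k.out = q + k.inp)
    (s : Tm) : TR ((k, i) :: (l, q) :: s) ((l, q') :: (k, i) :: s) := by
  have hk : TV k.inp [(k, 0)] k.out := by simp [TV]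
  have := (inter hk i (q - k.out) (by omega) [(l, 0)]).right s
  simp only [tshift_cons, tshift_nil, Nat.zero_add, List.cons_append, List.nil_append] at this
  rwa [show q - k.out + k.out = q by omega, show q - k.out + k.inp = q' by omega] at this

theorem commB (k l : TK) {i q q' : ℕ} (h : i + k.out ≤ q) (h' : q' + k.out = q + k.inp)
    (s : Tm) : TR ((l, q') :: (k, i) :: s) ((k, i) :: (l, q) :: s) := by
  have : TR [(l, q'), (k, i)] [(k, i), (l, q)] := by
    refine back (commF k l h h' []) fun n m hv => ?_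
    simp only [TV] at hv ⊢
    omega
  exact this.right s

end TR

namespace TI

variable {n m : ℕ} {u v w : Tm}

theorem tv (h : TI n m u v) : TV n v m :=
  (tv_iff fun _ => .zero).2 ((h.2.1 _).valid_iff.1 (h.1.valid _))

theorem refl (h : TV n u m) : TI n m u u := ⟨h, fun _ => Isotopic.refl _, List.Perm.refl _⟩

theorem symm (h : TI n m u v) : TI n m v u := ⟨h.tv, fun X => (h.2.1 X).symm, h.2.2.symm⟩

theorem trans (h : TI n m u v) (h' : TI n m v w) : TI n m u w :=
  ⟨h.1, fun X => (h.2.1 X).trans (h'.2.1 X), h.2.2.trans h'.2.2⟩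

theorem tr (h : TI n m u v) (h' : TR v w) : TI n m u w := h.trans (h'.ti h.tv)

theorem ctx (h : TI n m u v) {a b : ℕ} {p s : Tm} (hp : TV a p n) (hs : TV m s b) :
    TI a b (p ++ u ++ s) (p ++ v ++ s) :=
  ⟨tv_append.2 ⟨_, tv_append.2 ⟨_, hp, h.1⟩, hs⟩,
    fun X => by simpa only [itp_append] using (h.2.1 X).ctx (hp.valid X) (hs.valid X), by
    simp only [bp_append]; exact (h.2.2.append_left _).append_right _⟩

theorem tshift (h : TI n m u v) (k j : ℕ) :
    TI (n + k + j) (m + k + j) (tshift k u) (tshift k v) :=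
  ⟨h.1.tshift k j, fun X => by simpa only [itp_tshift] using (h.2.1 X).shift k j, by
    rw [bp_tshift, bp_tshift]; exact h.2.2.map _⟩

theorem tids (h : TI n m u v) : (tids u).Perm (tids v) := h.2.2.map _

/-- Interchange of heights in the other direction, at a level that is wide enough. -/
theorem interB {Y W : Tm} {n0 m0 i j : ℕ} (hY : TV n0 Y m0) (h : i ≤ j) (hn : j + n0 ≤ n)
    (hv : TV n (MP_7bc610_gt.tshift (j + n0) W ++ MP_7bc610_gt.tshift i Y) m) :
    TI n m (MP_7bc610_gt.tshift (j + n0) W ++ MP_7bc610_gt.tshift i Y)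
      (MP_7bc610_gt.tshift i Y ++ MP_7bc610_gt.tshift (j + m0) W) := by
  refine ((TR.inter hY i j h W).ti ?_).symm
  obtain ⟨k, h1, h2⟩ := tv_append.1 hv
  have key : ∀ (W : Tm) (c k : ℕ), TV (j + n0 + c) (MP_7bc610_gt.tshift (j + n0) W) k →
      ∃ c', k = j + n0 + c' ∧ TV c W c' := by
    intro W
    induction W with
    | nil => intro c k h; exact ⟨c, h.symm, rfl⟩
    | cons g W ih =>
      intro c k h
      obtain ⟨g, q⟩ := g
      simp only [tshift_cons, TV] at h
      obtain ⟨c', e, h'⟩ := ih (c - g.inp + g.out) k (by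
        have := h.2
        rwa [show j + n0 + c - g.inp + g.out = j + n0 + (c - g.inp + g.out) by omega] at this)
      exact ⟨c', e, by omega, h'⟩
  obtain ⟨c, rfl⟩ := Nat.exists_eq_add_of_le hn
  obtain ⟨c', rfl, h3⟩ := key W c k h1
  have h4 := hY.tshift i (j - i + c')
  rw [show n0 + i + (j - i + c') = j + n0 + c' by omega] at h4
  have h5 := hY.tshift i (j - i + c)
  rw [show n0 + i + (j - i + c) = j + n0 + c by omega] at h5
  have h6 := h3.tshift (j + m0) 0
  refine tv_append.2 ⟨_, h5, ?_⟩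
  rw [show m0 + i + (j - i + c) = c + (j + m0) + 0 by omega, h2.unique h4,
    show m0 + i + (j - i + c') = c' + (j + m0) + 0 by omega]
  exact h6

end TI

theorem TV.unshift {s c k : ℕ} {W : Tm} (h : TV (s + c) (MP_7bc610_gt.tshift s W) k) :
    ∃ c', k = s + c' ∧ TV c W c' := by
  induction W generalizing c with
  | nil => exact ⟨c, h.symm, rfl⟩
  | cons g W ih =>
    obtain ⟨g, q⟩ := g
    simp only [tshift_cons, TV] at h
    obtain ⟨c', e, h'⟩ := ih (c := c - g.inp + g.out) (by
      have := h.2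
      rwa [show s + c - g.inp + g.out = s + (c - g.inp + g.out) by omega] at this)
    exact ⟨c', e, by omega, h'⟩

theorem Out.of_ti {n m : ℕ} {R R' : Tm} (h : TI n 0 R R') (hl : R'.length ≤ R.length)
    (o : Out n m R') : Out n m R := by
  cases o with
  | box f ρ R'' h' => exact .box f ρ R'' (h.trans h')
  | rgt k M R'' h1 h2 h3 => exact .rgt k M R'' h1 (h2.trans hl) (h.trans h3)
  | lft a k M R'' h0 h1 h2 h3 => exact .lft a k M R'' h0 h1 (h2.trans hl) (h.trans h3)

end Pool.Agent.Lib.MP_7bc610_gt
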