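import Pool.Agent.Lib.MP_7bc610_gt.H9Jd
import Pool.Agent.Lib.MP_7bc610_gt.H9CL
import Pool.Agent.Lib.MP_7bc610_gt.H9Ker

/-!
Constant terms.
-/

namespace Pool.Agent.Lib.MP_7bc610_gt

open LaurentPolynomial

theorem zer_one (m : ℕ → ℂ) (p : ℕ → Prop) [DecidablePred p]
    [∀ B : Finset ℕ, Decidable (∃ e, B = {e} ∧ p e)] (I : Finset ℕ) :
    (∑ B ∈ I.powerset, if ∃ e, B = {e} ∧ p e then ∏ j ∈ B, m j else 0) =
      ∑ e ∈ I.filter p, m e := by
  have h : I.powerset.filter (fun B => ∃ e, B = {e} ∧ p e) =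
      (I.filter p).image fun e => ({e} : Finset ℕ) := by
    ext B
    simp only [Finset.mem_filter, Finset.mem_powerset, Finset.mem_image]
    constructor
    · rintro ⟨h1, e, rfl, h2⟩
      exact ⟨e, ⟨Finset.singleton_subset_iff.1 h1, h2⟩, rfl⟩
    · rintro ⟨e, ⟨h1, h2⟩, rfl⟩
      exact ⟨Finset.singleton_subset_iff.2 h1, e, rfl, h2⟩
  rw [← Finset.sum_filter, h, Finset.sum_image fun a _ b _ h => Finset.singleton_injective h]
  simp only [Finset.prod_singleton]

theorem zer_pair {a b : ℕ → Prop} {x : ℕ} {B : Finset ℕ} (hx : x ∉ B) :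
    (∃ e e', e ≠ e' ∧ insert x B = {e, e'} ∧ Xor (a e ∧ b e') (b e ∧ a e')) ↔
      ∃ e, B = {e} ∧ Xor (a x ∧ b e) (b x ∧ a e) := by
  constructor
  · rintro ⟨e, e', h1, h2, h3⟩
    have h4 : x ∈ ({e, e'} : Finset ℕ) := h2 ▸ Finset.mem_insert_self x B
    have h5 : B = ({e, e'} : Finset ℕ).erase x := by rw [← h2, Finset.erase_insert hx]
    rcases Finset.mem_insert.1 h4 with rfl | h4
    · exact ⟨e', by rw [h5, Finset.erase_insert (by simpa using h1)], h3⟩
    · obtain rfl := Finset.mem_singleton.1 h4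
      refine ⟨e, by rw [h5, Finset.pair_comm, Finset.erase_insert (by simpa using h1.symm)], ?_⟩
      unfold Xor at h3 ⊢
      tauto
  · rintro ⟨e, rfl, h⟩
    exact ⟨x, e, by simpa using hx, rfl, h⟩

open Classical in
theorem zer_two (m : ℕ → ℂ) (a b : ℕ → Prop) (I : Finset ℕ) :
    (∑ B ∈ I.powerset, if ∃ e e', e ≠ e' ∧ B = {e, e'} ∧ Xor (a e ∧ b e') (b e ∧ a e') then
      ∏ j ∈ B, m j else 0) = (∑ e ∈ I.filter a, m e) * (∑ e ∈ I.filter b, m e) -
        (∑ e ∈ I.filter (fun e => a e ∧ b e), m e) ^ 2 := by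
  induction I using Finset.induction_on with
  | empty =>
    rw [Finset.powerset_empty, Finset.sum_singleton, if_neg]
    · simp
    · rintro ⟨e, e', -, h, -⟩
      exact Finset.insert_ne_empty _ _ h.symm
  | insert x I hx ih =>
    have h1 : (∑ B ∈ I.powerset, if ∃ e e', e ≠ e' ∧ insert x B = {e, e'} ∧
        Xor (a e ∧ b e') (b e ∧ a e') then ∏ j ∈ insert x B, m j else 0) =
        m x * ∑ e ∈ I.filter (fun e => Xor (a x ∧ b e) (b x ∧ a e)), m e := by
      rw [← zer_one, Finset.mul_sum]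
      refine Finset.sum_congr rfl fun B hB => ?_
      have hx' : x ∉ B := fun h => hx (Finset.mem_powerset.1 hB h)
      rw [Finset.prod_insert hx', mul_ite, mul_zero]
      exact if_congr (zer_pair hx') rfl rfl
    have h2 : ∑ e ∈ I.filter (fun e => Xor (a x ∧ b e) (b x ∧ a e)), m e =
        (if a x then 1 else 0) * ∑ e ∈ I.filter b, m e +
        (if b x then 1 else 0) * ∑ e ∈ I.filter a, m e - 2 * (if a x ∧ b x then 1 else 0) *
          ∑ e ∈ I.filter (fun e => a e ∧ b e), m e := by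
      simp only [Finset.sum_filter, Finset.mul_sum, ← Finset.sum_add_distrib,
        ← Finset.sum_sub_distrib]
      refine Finset.sum_congr rfl fun e _ => ?_
      by_cases c1 : a x <;> by_cases c2 : b x <;> by_cases c3 : a e <;> by_cases c4 : b e <;>
        simp [c1, c2, c3, c4, two_mul]
    rw [Finset.sum_powerset_insert hx, ih, h1, h2]
    simp only [Finset.sum_filter, Finset.sum_insert hx]
    by_cases c1 : a x <;> by_cases c2 : b x <;> simp only [c1, c2, if_true, if_false, and_self,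
      and_true, and_false] <;> ring

theorem zer_q0 {E : List Ev} {X : ℕ → AT} (h : Good E X) {j : ℕ} (hj : j ∈ ids E) :
    (((X j).jd.q0 : ℚ) : ℂ) ^ 2 = 1 := by
  have h1 := jd_qq (X j)
  have h2 : (((X j).frac.2 : ℤ) : ℚ) ^ 2 = 1 := by exact_mod_cast h.unit j hj
  rw [h2] at h1
  exact_mod_cast h1

theorem zer_c0 {E : List Ev} {X : ℕ → AT} (h : Good E X) {I : Finset ℕ} (hI : I ⊆ ids E)
    (ℓ : Finset ℕ → ℕ) (P : Finset ℕ → Prop) [DecidablePred P]
    (hP : ∀ B ⊆ I, (∀ a ∈ B, ∀ b ∈ B, ¬il E a b) → (ℓ B = 0 ↔ P B)) :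
    (Zj X I ℓ).c0 = (∑ B ∈ I.powerset, if P B then ∏ j ∈ B, Complex.I * (mm X j : ℂ) else 0) *
      ((∏ j ∈ I, (X j).jd.q0 : ℚ) : ℂ) := by
  rw [Zj, Zs_c0, Finset.sum_filter, Finset.sum_mul]
  refine Finset.sum_congr rfl fun B hB => ?_
  have hB' := Finset.mem_powerset.1 hB
  have e : (∏ j ∈ B, ((X j).jd.W).c0) * ∏ j ∈ I \ B, ((X j).jd.U).c0 =
      (∏ j ∈ B, Complex.I * (mm X j : ℂ)) * ((∏ j ∈ I, (X j).jd.q0 : ℚ) : ℂ) := by
    rw [Rat.cast_prod, ← Finset.prod_sdiff hB', mul_comm (∏ j ∈ I \ B, _), ← mul_assoc,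
      ← Finset.prod_mul_distrib]
    congr 1
    refine Finset.prod_congr rfl fun j hj => ?_
    have h1 := zer_q0 h (hI (hB' hj))
    have h2 : (((X j).jd.q0 : ℚ) : ℂ) * ((X j).jd.p0 : ℚ) = (mm X j : ℂ) := by
      have := congrArg (Rat.cast : ℚ → ℂ) (jd_qp (X j))
      rwa [Rat.cast_mul, Rat.cast_intCast] at this
    show Complex.I * (((X j).jd.p0 : ℚ) : ℂ) = _
    rw [← h2]
    linear_combination (-Complex.I * (((X j).jd.p0 : ℚ) : ℂ)) * h1
  rw [e]
  by_cases hz : ∀ j ∈ B, (X j).frac.1 ≠ 0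
  · rw [ite_mul, zero_mul]
    exact if_congr (hP B hB' fun a ha b hb => h.gen a b (hz a ha) (hz b hb)) rfl rfl
  · simp only [not_forall, not_not] at hz
    obtain ⟨j, hj, h0⟩ := hz
    rw [Finset.prod_eq_zero hj (by simp [mm, h0])]
    simp

open Classical in
theorem z00 {E : List Ev} {X : ℕ → AT} (h : Good E X) {I : Finset ℕ} (hI : I ⊆ ids E) :
    (Zj X I (lam E)).c0 = ((∏ j ∈ I, (X j).jd.q0 : ℚ) : ℂ) := by
  rw [zer_c0 h hI _ (fun B => B = ∅) fun B hB hn =>
    (lam_eq_zero h.wf (hB.trans hI)).trans (KT_gen hn), Finset.sum_ite_eq',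
    if_pos (Finset.empty_mem_powerset I), Finset.prod_empty, one_mul]

open Classical in
theorem z10 {E : List Ev} {X : ℕ → AT} (h : Good E X) {f : ℕ} (hf : f ∈ ids E)
    {I : Finset ℕ} (hI : I ⊆ (ids E).erase f) :
    (J.iJ * Zj X I fun A => lam E (insert f A)).c0 =
      -((∑ e ∈ I.filter (il E f), mm X e : ℤ) : ℂ) * ((∏ j ∈ I, (X j).jd.q0 : ℚ) : ℂ) := by
  have hI' := hI.trans (Finset.erase_subset _ _)
  show Complex.I * (Zj X I fun A => lam E (insert f A)).c0 = _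
  rw [zer_c0 h hI' _ (fun B => ∃ e, B = {e} ∧ il E f e) fun B hB hn =>
    (lam_eq_zero h.wf (Finset.insert_subset hf (hB.trans hI'))).trans
      (KT_one (r := il E) (fun _ _ => il_symm) h.wf.il_irrefl
        (fun hm => Finset.notMem_erase f _ (hI (hB hm))) hn), zer_one, ← Finset.mul_sum,
    Int.cast_sum]
  linear_combination ((∑ e ∈ I.filter (il E f), (mm X e : ℂ)) *
    ((∏ j ∈ I, (X j).jd.q0 : ℚ) : ℂ)) * Complex.I_sq

open Classical in
theorem z11 {E : List Ev} {X : ℕ → AT} (h : Good E X) {f g : ℕ} (hf : f ∈ ids E)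
    (hg : g ∈ ids E) (hfg : f ≠ g) {I : Finset ℕ} (hI : I ⊆ ((ids E).erase f).erase g) :
    (Zj X I fun A => lam E (insert f (insert g A))).c0 =
      (((if il E f g then 1 else 0) -
        (∑ e ∈ I.filter (il E f), mm X e) * (∑ e ∈ I.filter (il E g), mm X e) +
        (∑ e ∈ I.filter (fun e => il E f e ∧ il E g e), mm X e) ^ 2 : ℤ) : ℂ) *
        ((∏ j ∈ I, (X j).jd.q0 : ℚ) : ℂ) := by
  have hI1 := hI.trans (Finset.erase_subset _ _)
  have hI' := hI1.trans (Finset.erase_subset _ _)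
  rw [zer_c0 h hI' _ (fun B => (B = ∅ ∧ il E f g) ∨ ∃ e e', e ≠ e' ∧ B = {e, e'} ∧
      Xor (il E f e ∧ il E g e') (il E g e ∧ il E f e')) fun B hB hn =>
    (lam_eq_zero h.wf (Finset.insert_subset hf (Finset.insert_subset hg (hB.trans hI')))).trans
      (KT_two (r := il E) (fun _ _ => il_symm) h.wf.il_irrefl hfg
        (fun hm => Finset.notMem_erase f _ (hI1 (hB hm)))
        (fun hm => Finset.notMem_erase g _ (hI (hB hm))) hn)]
  congr 1
  have e : ∀ B ∈ I.powerset, (if (B = ∅ ∧ il E f g) ∨ ∃ e e', e ≠ e' ∧ B = {e, e'} ∧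
      Xor (il E f e ∧ il E g e') (il E g e ∧ il E f e') then
      ∏ j ∈ B, Complex.I * (mm X j : ℂ) else 0) =
      (if B = ∅ then (if il E f g then 1 else 0) else 0) + if ∃ e e', e ≠ e' ∧ B = {e, e'} ∧
      Xor (il E f e ∧ il E g e') (il E g e ∧ il E f e') then
      ∏ j ∈ B, Complex.I * (mm X j : ℂ) else 0 := by
    intro B _
    by_cases hB : B = ∅
    · subst hB
      have : ¬∃ e e', e ≠ e' ∧ (∅ : Finset ℕ) = {e, e'} ∧
          Xor (il E f e ∧ il E g e') (il E g e ∧ il E f e') := by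
        rintro ⟨e, e', -, h, -⟩
        exact Finset.insert_ne_empty _ _ h.symm
      simp only [this, or_false, true_and, if_true, if_false, add_zero, Finset.prod_empty]
    · simp only [hB, false_and, false_or, if_false, zero_add]
  rw [Finset.sum_congr rfl e, Finset.sum_add_distrib, zer_two, Finset.sum_ite_eq', if_pos (Finset.empty_mem_powerset I),
    ← Finset.mul_sum, ← Finset.mul_sum, ← Finset.mul_sum]
  push_cast
  linear_combination ((∑ e ∈ I.filter (il E f), (mm X e : ℂ)) * (∑ e ∈ I.filter (il E g),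
    (mm X e : ℂ)) - (∑ e ∈ I.filter (fun e => il E f e ∧ il E g e), (mm X e : ℂ)) ^ 2) *
    Complex.I_sq

theorem prod_q0_sq {E : List Ev} {X : ℕ → AT} (h : Good E X) {I : Finset ℕ} (hI : I ⊆ ids E) :
    ((∏ j ∈ I, (X j).jd.q0 : ℚ) : ℂ) ^ 2 = 1 := by
  rw [Rat.cast_prod, ← Finset.prod_pow]
  exact Finset.prod_eq_one fun j hj => zer_q0 h (hI hj)

theorem ZJ_c0 {E : List Ev} {X : ℕ → AT} (h : Good E X) : (ZJ E X).c0 ^ 2 = 1 := by
  rw [ZJ, z00 h subset_rfl, prod_q0_sq h subset_rfl]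

end Pool.Agent.Lib.MP_7bc610_gt
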