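import Pool.Agent.Lib.MP_7bc610_gt.Ht.Main

/-!
Sufficiently twisted diagrams whose state graph has tree-width at most two have a Kauffman
bracket different from that of the unknot, of every unlink, and from any given polynomial.
-/

namespace Pool.Agent.Results.MP_7bc610_gt.HighlyTwisted

open Pool.Agent.Lib.MP_7bc610_gt Pool.Agent.Lib.MP_7bc610_gt.Ht LaurentPolynomial

theorem result (t : ℕ) (ht : 0 < t) (f : ℤ[T;T⁻¹]) : ∃ N : ℕ, ∀ (D : Word) (n : ℕ → ℕ),
    Valid 0 D 0 → (crossings D).ncard = t → ThreeConnected D → TreewidthTwo (stateGraph D) →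
    (∀ l ∈ crossings D, N ≤ n l) → ∀ (c : ℕ) (k : ℤ),
      stateSum (twist D n) ≠ loopVal * (loopVal ^ c * T k * f) ∧
      stateSum (twist D n) ≠ -(loopVal * (loopVal ^ c * T k * f)) := by
  obtain ⟨N, h⟩ := main t f
  exact ⟨N, fun D n v c => h D n v c ht⟩

end Pool.Agent.Results.MP_7bc610_gt.HighlyTwisted
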