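import Pool.Agent.Lib.MP_7bc610_gt.Data

/-!
Bounds for the data of rational tangles and negativity of the second-order term for a sum of
three rational tangles with denominators at least two.
-/

namespace Pool.Agent.Lib.MP_7bc610_gt

open Equiv Dt

theorem gam_step (A B ab g g' : ℚ) (hA : A = 1 ∨ 2 ≤ A) (hB : 2 * A ≤ B) (hab : |ab| = A * B)
    (h : A ^ 2 * g = B ^ 2 * g' + ab * (A ^ 4 + B ^ 4 - 5 * A ^ 2 * B ^ 2 + 3))
    (hg : |g'| ≤ A ^ 5) : |g| ≤ B ^ 5 := by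
  have hA1 : 1 ≤ A := by rcases hA with h | h <;> linarith
  have hB2 : 2 ≤ B := by linarith
  have hA0 : 0 < A := by linarith
  have hB0 : 0 < B := by linarith
  have h2 : A ^ 2 ≤ B ^ 2 / 4 := by nlinarith
  have h3 : A ^ 3 ≤ B ^ 3 / 8 := by
    have := pow_le_pow_left₀ (by positivity : 0 ≤ 2 * A) hB 3
    nlinarith
  have h4 : B * A ^ 4 ≤ A * B ^ 4 / 8 := by
    have : B * A * A ^ 3 ≤ B * A * (B ^ 3 / 8) := mul_le_mul_of_nonneg_left h3 (by positivity)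
    nlinarith
  have hB4 : 0 < B ^ 4 := by positivity
  have h5 : B ^ 4 ≤ A * B ^ 4 := by nlinarith
  have hA2 : 1 ≤ A ^ 2 := by nlinarith
  have hB22 : 4 ≤ B ^ 2 := by nlinarith
  have h6 : A ^ 2 * B ^ 2 ≤ B ^ 4 / 4 := by nlinarith
  have h7 : A ^ 4 ≤ A ^ 2 * B ^ 2 := by nlinarith
  have h8 : 4 ≤ A ^ 2 * B ^ 2 := by nlinarith
  have key : B * A ^ 4 + |A ^ 4 + B ^ 4 - 5 * A ^ 2 * B ^ 2 + 3| ≤ A * B ^ 4 := by
    rcases abs_cases (A ^ 4 + B ^ 4 - 5 * A ^ 2 * B ^ 2 + 3) with ⟨e, -⟩ | ⟨e, -⟩ <;> rw [e]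
    · rcases hA with rfl | hA
      · nlinarith
      · have : 2 * B ^ 4 ≤ A * B ^ 4 := by nlinarith
        nlinarith
    · have : 0 ≤ A ^ 4 := by positivity
      nlinarith
  have h9 : A ^ 2 * |g| ≤ A ^ 2 * B ^ 5 := by
    calc A ^ 2 * |g| = |A ^ 2 * g| := by rw [abs_mul, abs_of_pos (by positivity : 0 < A ^ 2)]
      _ ≤ |B ^ 2 * g'| + |ab * (A ^ 4 + B ^ 4 - 5 * A ^ 2 * B ^ 2 + 3)| := by
        rw [h]; exact abs_add_le _ _
      _ = B ^ 2 * |g'| + A * B * |A ^ 4 + B ^ 4 - 5 * A ^ 2 * B ^ 2 + 3| := by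
        rw [abs_mul, abs_mul, hab, abs_of_pos (by positivity : 0 < B ^ 2)]
      _ ≤ B ^ 2 * A ^ 5 + A * B * |A ^ 4 + B ^ 4 - 5 * A ^ 2 * B ^ 2 + 3| := by
        gcongr
      _ = A * B * (B * A ^ 4 + |A ^ 4 + B ^ 4 - 5 * A ^ 2 * B ^ 2 + 3|) := by ring
      _ ≤ A * B * (A * B ^ 4) := by gcongr
      _ = _ := by ring
  exact le_of_mul_le_mul_left h9 (by positivity)

theorem cp_step (A B ab g cp cq w : ℚ) (hA : A = 1 ∨ 2 ≤ A) (hB : 2 * A ≤ B) (hab : |ab| = A * B)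
    (hw : w = (A ^ 2 + B ^ 2 - 1) / 2)
    (h : 6 * B ^ 2 * A ^ 2 * cp = 6 * B ^ 2 * (B ^ 2 * cq + w ^ 2 - 2 * A ^ 2 * w +
      2 * A ^ 4 / 3 + A ^ 2 * B ^ 2 / 12) - ab * g)
    (hg : |g| ≤ B ^ 5) (hq : cq ≤ A ^ 4 / 2) : cp ≤ B ^ 4 / 2 := by
  have hA1 : 1 ≤ A := by rcases hA with h | h <;> linarith
  have hB2 : 2 ≤ B := by linarith
  have hA0 : 0 < A := by linarith
  have hB0 : 0 < B := by linarith
  have h2 : A ^ 2 ≤ B ^ 2 / 4 := by nlinarith
  have hA2 : 1 ≤ A ^ 2 := by nlinarith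
  have hB22 : 4 ≤ B ^ 2 := by nlinarith
  have h3 : -(ab * g) ≤ A * B * B ^ 5 := by
    calc -(ab * g) ≤ |ab * g| := neg_le_abs _
      _ = A * B * |g| := by rw [abs_mul, hab]
      _ ≤ _ := by gcongr
  have h4 : B ^ 2 * cq ≤ B ^ 2 * (A ^ 4 / 2) := by gcongr
  have key : 6 * (B ^ 2 * (A ^ 4 / 2) + w ^ 2 - 2 * A ^ 2 * w + 2 * A ^ 4 / 3 +
      A ^ 2 * B ^ 2 / 12) + A * B ^ 4 ≤ 3 * A ^ 2 * B ^ 4 := by
    rcases hA with rfl | hA
    · rw [hw]; nlinarith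
    · have hA4 : 4 ≤ A ^ 2 := by nlinarith
      have hB4 : 0 < B ^ 4 := by positivity
      have e1 : B ^ 2 * A ^ 4 ≤ A ^ 2 * B ^ 4 / 4 := by
        have : A ^ 2 * B ^ 2 * A ^ 2 ≤ A ^ 2 * B ^ 2 * (B ^ 2 / 4) := by gcongr
        nlinarith
      have hw0 : 0 ≤ w := by rw [hw]; nlinarith
      have hw1 : w ≤ 5 / 8 * B ^ 2 := by rw [hw]; nlinarith
      have e2 : w ^ 2 ≤ (5 / 8 * B ^ 2) ^ 2 := by gcongr
      have e3 : 4 * B ^ 4 ≤ A ^ 2 * B ^ 4 := by gcongr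
      have e4 : 2 * (A * B ^ 4) ≤ A ^ 2 * B ^ 4 := by nlinarith
      have e5 : 2 * A ^ 4 / 3 + A ^ 2 * B ^ 2 / 12 ≤ 2 * A ^ 2 * w := by
        have : 2 * A ^ 2 / 3 + B ^ 2 / 12 ≤ 2 * w := by rw [hw]; nlinarith
        have : A ^ 2 * (2 * A ^ 2 / 3 + B ^ 2 / 12) ≤ A ^ 2 * (2 * w) := by gcongr
        nlinarith
      nlinarith
  have h5 : B ^ 2 * (6 * (B ^ 2 * cq + w ^ 2 - 2 * A ^ 2 * w + 2 * A ^ 4 / 3 +
      A ^ 2 * B ^ 2 / 12) + A * B ^ 4) ≤ B ^ 2 * (3 * A ^ 2 * B ^ 4) := by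
    gcongr; linarith
  have h6 : 6 * B ^ 2 * A ^ 2 * cp ≤ 6 * B ^ 2 * A ^ 2 * (B ^ 4 / 2) := by nlinarith
  exact le_of_mul_le_mul_left h6 (by positivity)

theorem gam_tau_zpow (k : ℤ) {d : Dt} {v : ℤ × ℤ} (h : Sl d v) (hn : n d = 1) :
    gam ((tau ^ k) d) = gam d ∧ ((tau ^ k) d).cp = d.cp := by
  have h1 : ∀ j : ℤ, Sl ((tau ^ j) d) (act sx sy (pw true j) v) := fun j => by
    have := h.act (pw true j)
    rwa [act_pw] at this
  have h2 : ∀ j : ℤ, n ((tau ^ j) d) = 1 := fun j => by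
    have := n_act (pw true j) d
    rw [act_pw] at this
    exact this.trans hn
  induction k using Int.induction_on with
  | zero => simp
  | succ k ih =>
    rw [add_comm (k : ℤ) 1, zpow_one_add, Perm.mul_apply, ← ih.1, ← ih.2]
    obtain ⟨e1, e2, e3⟩ := h1 k
    refine ⟨?_, rfl⟩
    simp only [gam, tau_apply, e1, e2, e3]; ring
  | pred k ih =>
    rw [sub_eq_neg_add, zpow_add, zpow_neg_one, Perm.mul_apply, ← ih.1, ← ih.2]
    obtain ⟨e1, e2, e3⟩ := h1 (-k)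
    refine ⟨?_, rfl⟩
    simp only [gam, tau_inv, e1, e2, e3]; ring

theorem rat_bounds (g : BW) :
    |gam (dat g)| ≤ |((slope g).1 : ℚ)| ^ 5 ∧ (dat g).cp ≤ |((slope g).1 : ℚ)| ^ 4 / 2 := by
  induction hN : (slope g).1.natAbs using Nat.strong_induction_on generalizing g with
  | _ N ih =>
    have hcop := slope_coprime g
    by_cases h0 : (slope g).1 = 0
    · rw [h0] at hcop
      have ha : (slope g).2 ^ 2 = 1 := by
        rcases Int.isUnit_iff.1 (isCoprime_zero_left.1 hcop) with h | h <;> simp [h]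
      rw [dat_orb (sq3_coint ha), h0]
      simp only [mul_zero, neg_zero, pw, Int.natAbs_zero, List.replicate_zero, List.nil_append,
        dat_append, act_rw3, rho_apply]
      simp [gam, rot, dat, Dt.zero]
    by_cases h1 : (slope g).1 ^ 2 = 1
    · have hz : Sl Dt.zero (1, 0) := by simp [Sl, Dt.zero]
      have := gam_tau_zpow ((slope g).2 * (slope g).1) hz (by simp [n, Dt.zero])
      rw [dat_int h1, this.1, this.2]
      simp only [gam, Dt.zero]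
      constructor
      · simp
      · positivity
    set b := (slope g).1 with hb
    set a := (slope g).2 with ha
    have hb2 : 2 ≤ b.natAbs := by
      by_contra hc
      have : b = 1 ∨ b = -1 := by omega
      rcases this with h | h <;> simp [h] at h1
    obtain ⟨k, hk⟩ : ∃ k : ℤ, 2 * (a + k * b).natAbs ≤ b.natAbs := by
      have e1 := Int.emod_nonneg a h0
      have e2 := Int.emod_lt_abs a h0
      have e3 := Int.emod_add_mul_ediv a b
      have e4 : |b| = b.natAbs := Int.abs_eq_natAbs b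
      by_cases hc : 2 * (a % b) ≤ b.natAbs
      · refine ⟨-(a / b), ?_⟩
        have : a + -(a / b) * b = a % b := by linear_combination -e3
        rw [this]; omega
      · by_cases hp : 0 < b
        · refine ⟨-(a / b) - 1, ?_⟩
          have : a + (-(a / b) - 1) * b = a % b - b := by linear_combination -e3
          rw [this]; omega
        · refine ⟨-(a / b) + 1, ?_⟩
          have : a + (-(a / b) + 1) * b = a % b + b := by linear_combination -e3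
          rw [this]; omega
    set a' := a + k * b with ha'
    have hs1 : slope (pw true k ++ g) = (b, a') := by rw [slope_pwx]
    have hs2 : slope (rw3 ++ (pw true k ++ g)) = (-a', b) := by rw [slope_rw3, hs1]
    have ha0 : a' ≠ 0 := by
      intro hz
      have := slope_coprime (pw true k ++ g)
      rw [hs1, hz] at this
      rcases Int.isUnit_iff.1 (isCoprime_zero_right.1 this) with h | h <;>
        simp only at h <;> omega
    have ih' := ih a'.natAbs (by omega) (rw3 ++ (pw true k ++ g)) (by rw [hs2]; simp)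
    rw [hs2, dat_append, act_rw3, rho_apply] at ih'
    have hd : dat (pw true k ++ g) = (tau ^ k) (dat g) := by rw [dat_append, act_pw]; rfl
    obtain ⟨e1, e2⟩ := gam_tau_zpow k (sl_dat g) (n_dat g)
    rw [← e1, ← e2, ← hd]
    have s := sl_dat (pw true k ++ g)
    have sn := n_dat (pw true k ++ g)
    have sr := R2_dat (pw true k ++ g)
    rw [hs1] at s
    generalize dat (pw true k ++ g) = d at *
    obtain ⟨s1, s2, s3⟩ := s
    simp only at s1 s2 s3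
    have hA : |(a' : ℚ)| = 1 ∨ 2 ≤ |(a' : ℚ)| := by
      have : |a'| = 1 ∨ 2 ≤ |a'| := by rw [Int.abs_eq_natAbs]; omega
      exact_mod_cast this
    have hB : 2 * |(a' : ℚ)| ≤ |(b : ℚ)| := by
      have : 2 * |a'| ≤ |b| := by rw [Int.abs_eq_natAbs, Int.abs_eq_natAbs]; omega
      exact_mod_cast this
    have hab : |d.ab| = |(a' : ℚ)| * |(b : ℚ)| := by rw [s2, abs_mul]
    have q1 : |(a' : ℚ)| ^ 2 = (a' : ℚ) ^ 2 := sq_abs _
    have q2 : |(b : ℚ)| ^ 2 = (b : ℚ) ^ 2 := sq_abs _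
    have q3 : |(a' : ℚ)| ^ 4 = (a' : ℚ) ^ 4 := by
      rw [show (4 : ℕ) = 2 * 2 from rfl, pow_mul, q1, ← pow_mul]
    have q4 : |(b : ℚ)| ^ 4 = (b : ℚ) ^ 4 := by
      rw [show (4 : ℕ) = 2 * 2 from rfl, pow_mul, q2, ← pow_mul]
    simp only [Int.cast_neg, abs_neg] at ih'
    simp only [n, s1, s3] at sn
    have hw : d.w = ((a' : ℚ) ^ 2 + (b : ℚ) ^ 2 - 1) / 2 := by linarith
    simp only [R2, s1, s2, s3] at sr
    have g1 : |gam d| ≤ |(b : ℚ)| ^ 5 := by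
      refine gam_step _ _ d.ab _ _ hA hB hab ?_ ih'.1
      rw [q1, q2, q3, q4]
      simp only [gam, rot, s1, s2, s3]
      rw [hw] at sr ⊢
      linear_combination (-12 * (a' : ℚ) * b) * sr
    refine ⟨g1, cp_step _ _ d.ab _ _ d.cq d.w hA hB hab (by rw [q1, q2, hw]) ?_ g1 ih'.2⟩
    rw [q1, q2, q3]
    simp only [gam, s1, s2, s3]
    linear_combination (-6 * (b : ℚ) ^ 2) * sr

namespace Dt

def sg (d : Dt) : ℚ := d.cp / d.bb
def ee (d : Dt) : ℚ := d.ab / d.bb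
def ll (d : Dt) : ℚ := d.w / d.bb - ee d ^ 2 / 2
def mm (d : Dt) : ℚ := d.x / d.bb - ee d * sg d - ee d * (d.w / d.bb) + ee d ^ 3 / 3

theorem add_logs {d e : Dt} (hd : d.bb ≠ 0) (he : e.bb ≠ 0) :
    sg (add d e) = sg d + sg e ∧ ee (add d e) = ee d + ee e ∧ ll (add d e) = ll d + ll e ∧
      mm (add d e) = mm d + mm e := by
  simp only [sg, ee, ll, mm, add]
  refine ⟨?_, ?_, ?_, ?_⟩ <;> field_simp <;> ring

theorem cl_logs {d : Dt} {v : ℤ × ℤ} (h : Sl d v) (hd : d.bb ≠ 0) (hr : R2 d = 0) :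
    cl d = d.bb * (ee d ^ 2 * sg d + 2 * ee d * (mm d + ee d * ll d + ee d ^ 3 / 6) -
      (ll d - 1 + ee d ^ 2 / 2) ^ 2) ∧ d.bb * ee d ^ 2 = d.aa := by
  obtain ⟨h1, h2, h3⟩ := h
  have hb : (v.1 : ℚ) ≠ 0 := by intro hz; apply hd; rw [h1, hz]; ring
  simp only [R2, h1, h2, h3] at hr
  simp only [cl, sg, ee, ll, mm, h1, h2, h3]
  constructor
  · field_simp
    linear_combination (72 : ℚ) * hr
  · field_simp

theorem rat_logs {d : Dt} {v : ℤ × ℤ} (h : Sl d v) (hd : d.bb ≠ 0) (hn : n d = 1) :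
    ll d = (1 - 1 / d.bb) / 2 ∧ mm d = gam d / (12 * d.bb ^ 2) - ee d / 24 := by
  obtain ⟨h1, h2, h3⟩ := h
  have hb : (v.1 : ℚ) ≠ 0 := by intro hz; apply hd; rw [h1, hz]; ring
  simp only [n, h1, h3] at hn
  have hw : d.w = ((v.2 : ℚ) ^ 2 + (v.1 : ℚ) ^ 2 - 1) / 2 := by linarith
  simp only [gam, sg, ee, ll, mm, h1, h2, h3]
  constructor
  · rw [hw]; field_simp; ring
  · field_simp; ring

end Dt

end Pool.Agent.Lib.MP_7bc610_gt
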