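import Pool.Agent.Lib.MP_7bc610_gt.Defs

/-!
Number of components, orientations and the writhe of a diagram.
-/

namespace Pool.Agent.Lib.MP_7bc610_gt

/-- The update of the connections below after the strands at positions `i, i+1` cross. -/
def swR (i : ℕ) (r : ℕ → ℕ → Prop) (a b : ℕ) : Prop :=
  r (Equiv.swap i (i + 1) a) (Equiv.swap i (i + 1) b)

open Classical in
/-- The number of components: the number of maxima that close up a component. -/
noncomputable def comps : Word → (ℕ → ℕ → Prop) → ℕ
  | [], _ => 0
  | (.cup, i) :: w, r => comps w (cupR i r)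
  | (.cap, i) :: w, r => (if r i (i + 1) then 1 else 0) + comps w (capR i r)
  | (.cr _, i) :: w, r => comps w (swR i r)

/-- `Ori l w l' k`: the diagram `w` has an orientation with directions `l` at the bottom and
`l'` at the top (`true` is upwards), and the sum of the signs of its crossings is `k`. -/
def Ori : List Bool → Word → List Bool → ℤ → Prop
  | l, [], l', k => l = l' ∧ k = 0
  | l, (.cup, i) :: w, l', k =>
      ∃ p s b, p.length = i ∧ l = p ++ s ∧ Ori (p ++ b :: (!b) :: s) w l' k
  | l, (.cap, i) :: w, l', k =>
      ∃ p s b, p.length = i ∧ l = p ++ b :: (!b) :: s ∧ Ori (p ++ s) w l' k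
  | l, (.cr e, i) :: w, l', k =>
      ∃ p s a b, p.length = i ∧ l = p ++ a :: b :: s ∧
        Ori (p ++ b :: a :: s) w l' (k - if (a == b) = e then 1 else -1)

end Pool.Agent.Lib.MP_7bc610_gt
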