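import Pool.Agent.Lib.MP_7bc610_gt.Bracket
import Pool.Agent.Lib.MP_7bc610_gt.M29Defs

/-!
Computing state sums and components of explicit diagrams.
-/

namespace Pool.Agent.Lib.MP_7bc610_gt

open LaurentPolynomial

def rel (c : List ℕ) (a b : ℕ) : Prop := c.getD a 0 = c.getD b 0

def tab (n : ℕ) (f : ℕ → ℕ) : List ℕ := (List.range n).map f

theorem tab_len (n : ℕ) (f : ℕ → ℕ) : (tab n f).length = n := by simp [tab]

theorem tab_get {n a : ℕ} (f : ℕ → ℕ) (h : a < n) : (tab n f).getD a 0 = f a := by
  simp [tab, List.getD_eq_getElem?_getD, h]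

def canon (c : List ℕ) : List ℕ := c.map fun x => c.idxOf x

theorem canon_len (c : List ℕ) : (canon c).length = c.length := by simp [canon]

theorem rel_canon {c : List ℕ} {a b : ℕ} (ha : a < c.length) (hb : b < c.length) :
    rel (canon c) a b ↔ rel c a b := by
  simp only [rel, canon, List.getD_eq_getElem?_getD, List.getElem?_map,
    List.getElem?_eq_getElem ha, List.getElem?_eq_getElem hb, Option.map_some, Option.getD_some]
  exact List.idxOf_inj (List.getElem_mem ha)

def cupL (j : ℕ) (c : List ℕ) : List ℕ :=
  canon (tab (c.length + 2) fun a =>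
    if a = j ∨ a = j + 1 then c.sum + 1 else c.getD (if a < j then a else a - 2) 0)

def capL (j : ℕ) (c : List ℕ) : List ℕ :=
  canon (tab (c.length - 2) fun a =>
    if c.getD (if a < j then a else a + 2) 0 = c.getD (j + 1) 0 then c.getD j 0
    else c.getD (if a < j then a else a + 2) 0)

def swL (j : ℕ) (c : List ℕ) : List ℕ :=
  canon (tab c.length fun a => c.getD (if a = j then j + 1 else if a = j + 1 then j else a) 0)

theorem cupL_len (j : ℕ) (c : List ℕ) : (cupL j c).length = c.length + 2 := by
  simp [cupL, canon_len, tab_len]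

theorem capL_len (j : ℕ) (c : List ℕ) : (capL j c).length = c.length - 2 := by
  simp [capL, canon_len, tab_len]

theorem swL_len (j : ℕ) (c : List ℕ) : (swL j c).length = c.length := by
  simp [swL, canon_len, tab_len]

theorem getD_le (l : List ℕ) (a : ℕ) : l.getD a 0 ≤ l.sum := by
  rw [List.getD_eq_getElem?_getD]
  rcases h : l[a]? with _ | x
  · simp
  · exact List.le_sum_of_mem (List.mem_of_getElem? h)

theorem cup_rel {i j p : ℕ} {c : List ℕ} (hp : p = i + j) (hj : j ≤ c.length)
    (r : ℕ → ℕ → Prop) :
    cupR p (blk i c.length (rel c) r) = blk i (cupL j c).length (rel (cupL j c)) r := by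
  rw [cup_blk hp hj, cupL_len]
  refine blk_congr _ fun a ha b hb => ?_
  rw [cupL, rel_canon (by rwa [tab_len]) (by rwa [tab_len]), rel, tab_get _ ha, tab_get _ hb, cupR,
    rel]
  have h1 := getD_le c (if a < j then a else a - 2)
  have h2 := getD_le c (if b < j then b else b - 2)
  generalize c.getD (if a < j then a else a - 2) 0 = x at *
  generalize c.getD (if b < j then b else b - 2) 0 = y at *
  split_ifs <;> omega

theorem cap_rel {i j p : ℕ} {c : List ℕ} (hp : p = i + j) (hj : j + 2 ≤ c.length)
    (r : ℕ → ℕ → Prop) :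
    capR p (blk i c.length (rel c) r) = blk i (capL j c).length (rel (capL j c)) r := by
  obtain ⟨k, hk⟩ : ∃ k, c.length = k + 2 := ⟨c.length - 2, by omega⟩
  rw [capL_len, hk, cap_blk hp (by omega), Nat.add_sub_cancel]
  refine blk_congr _ fun a ha b hb => ?_
  have ha' : a < c.length - 2 := by omega
  have hb' : b < c.length - 2 := by omega
  rw [capL, rel_canon (by rwa [tab_len]) (by rwa [tab_len]), rel, tab_get _ ha', tab_get _ hb',
    capR]
  simp only [rel]
  generalize c.getD (if a < j then a else a + 2) 0 = x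
  generalize c.getD (if b < j then b else b + 2) 0 = y
  split_ifs <;> omega

theorem loop_rel {i j p : ℕ} {c : List ℕ} (hp : p = i + j) (hj : j + 2 ≤ c.length)
    (r : ℕ → ℕ → Prop) :
    blk i c.length (rel c) r p (p + 1) ↔ c.getD j 0 = c.getD (j + 1) 0 := by
  simp only [blk, loc_in hp (show j < c.length by omega),
    loc_in (show p + 1 = i + (j + 1) by omega) (show j + 1 < c.length by omega),
    Sum.liftRel_inl_inl, rel]

theorem sw_rel {i j p : ℕ} {c : List ℕ} (hp : p = i + j) (hj : j + 2 ≤ c.length)
    (r : ℕ → ℕ → Prop) :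
    swR p (blk i c.length (rel c) r) = blk i (swL j c).length (rel (swL j c)) r := by
  have e : ∀ a, loc i c.length (Equiv.swap p (p + 1) a) =
      Sum.map (fun a => if a = j then j + 1 else if a = j + 1 then j else a) id
        (loc i c.length a) := fun a => by
    rw [Equiv.swap_apply_def]
    unfold loc
    split_ifs <;> simp only [Sum.map_inl, Sum.map_inr, id, Sum.inl.injEq, Sum.inr.injEq,
      reduceCtorEq] <;> first | omega | (split_ifs <;> omega)
  have : swR p (blk i c.length (rel c) r) = blk i c.length (fun a b => rel c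
      (if a = j then j + 1 else if a = j + 1 then j else a)
      (if b = j then j + 1 else if b = j + 1 then j else b)) r := by
    funext a b
    simp only [swR, blk, e]
    rcases loc i c.length a with x | x <;> rcases loc i c.length b with y | y <;> simp
  rw [this, swL_len]
  refine blk_congr _ fun a ha b hb => ?_
  rw [swL, rel_canon (by rwa [tab_len]) (by rwa [tab_len]), rel, rel, tab_get _ ha, tab_get _ hb]

/-! Laurent polynomials as an exponent and a list of coefficients in `A^4`. -/

noncomputable def toL : List ℤ → ℤ[T;T⁻¹]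
  | [] => 0
  | a :: l => C a + T 4 * toL l

abbrev LP : Type := ℤ × List ℤ

noncomputable def toP (x : LP) : ℤ[T;T⁻¹] := T x.1 * toL x.2

def consZ (a : ℤ) (l : List ℤ) : List ℤ := if a = 0 ∧ l = [] then [] else a :: l

theorem toL_consZ (a : ℤ) (l : List ℤ) : toL (consZ a l) = C a + T 4 * toL l := by
  unfold consZ
  split_ifs with h
  · simp [h.1, h.2, toL]
  · rfl

def addL : List ℤ → List ℤ → List ℤ
  | [], m => m
  | l, [] => l
  | a :: l, b :: m => consZ (a + b) (addL l m)

theorem toL_addL : ∀ l m, toL (addL l m) = toL l + toL m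
  | [], m => by simp [addL, toL]
  | _ :: _, [] => by simp [addL, toL]
  | a :: l, b :: m => by
    simp only [addL, toL_consZ, toL, toL_addL l m, map_add]
    ring

theorem toL_mul (m : ℤ) (l : List ℤ) : toL (l.map (m * ·)) = C m * toL l := by
  induction l with
  | nil => simp [toL]
  | cons a l ih => simp only [List.map_cons, toL, ih, map_mul]; ring

theorem toL_pad (n : ℕ) (l : List ℤ) : toL (List.replicate n 0 ++ l) = T (4 * n) * toL l := by
  induction n with
  | zero => simp
  | succ n ih =>
    simp only [List.replicate_succ, List.cons_append, toL, ih, map_zero, zero_add, ← mul_assoc,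
      ← T_add]
    congr 2
    push_cast
    ring

def trim : ℤ → List ℤ → LP
  | o, [] => (o, [])
  | o, a :: l => if a = 0 then trim (o + 4) l else (o, a :: l)

theorem toP_trim (o : ℤ) (l : List ℤ) : toP (trim o l) = toP (o, l) := by
  induction l generalizing o with
  | nil => rfl
  | cons a l ih =>
    unfold trim
    split_ifs with h
    · rw [ih]
      simp only [toP, toL, h, T_add, mul_assoc, map_zero, zero_add]
    · rfl

def mulD (x : LP) : LP := (x.1 - 2, (addL x.2 (0 :: x.2)).map (-1 * ·))

theorem toP_mulD (x : LP) : toP (mulD x) = loopVal * toP x := by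
  have h1 : (T x.1 : ℤ[T;T⁻¹]) = T (x.1 - 2) * T 2 := by rw [← T_add]; simp
  have h2 : (T 4 : ℤ[T;T⁻¹]) = T 2 * T 2 := by rw [← T_add]; simp
  have h3 : (T (-2) : ℤ[T;T⁻¹]) * T 2 = 1 := by rw [← T_add]; simp
  simp only [toP, mulD, toL_mul, toL_addL, toL, loopVal, map_zero, map_neg, map_one]
  rw [h1, h2]
  linear_combination (T (x.1 - 2) * toL x.2) * h3

def mulT (k : ℤ) (x : LP) : LP := (x.1 + k, x.2)

theorem toP_mulT (k : ℤ) (x : LP) : toP (mulT k x) = T k * toP x := by
  simp only [toP, mulT, T_add]
  ring

def okP (x y : LP) : Bool :=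
  x.1 - 4 * ((x.1 - y.1) / 4).toNat == y.1 - 4 * ((y.1 - x.1) / 4).toNat

def addP (x y : LP) : LP :=
  trim (x.1 - 4 * ((x.1 - y.1) / 4).toNat)
    (addL (List.replicate ((x.1 - y.1) / 4).toNat 0 ++ x.2)
      (List.replicate ((y.1 - x.1) / 4).toNat 0 ++ y.2))

theorem toP_addP {x y : LP} (h : okP x y = true) : toP (addP x y) = toP x + toP y := by
  simp only [okP, beq_iff_eq] at h
  rw [addP, toP_trim, toP, toL_addL, toL_pad, toL_pad, mul_add, ← mul_assoc, ← mul_assoc, ← T_add]
  simp only [h]
  rw [← T_add, ← h]
  simp only [sub_add_cancel, toP]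
  rw [h]
  simp only [sub_add_cancel]

abbrev St : Type := List (List ℕ × LP)

def ins1 (c : List ℕ) (x : LP) : St → St
  | [] => [(c, x)]
  | y :: S => if c = y.1 ∧ okP x y.2 = true then (c, addP x y.2) :: S else y :: ins1 c x S

noncomputable def sem (F : List ℕ → ℤ[T;T⁻¹]) (S : St) : ℤ[T;T⁻¹] :=
  (S.map fun y => toP y.2 * F y.1).sum

theorem sem_nil (F : List ℕ → ℤ[T;T⁻¹]) : sem F [] = 0 := rfl

theorem sem_cons (F : List ℕ → ℤ[T;T⁻¹]) (y : List ℕ × LP) (S : St) :
    sem F (y :: S) = toP y.2 * F y.1 + sem F S := by simp [sem]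

theorem sem_ins1 (F : List ℕ → ℤ[T;T⁻¹]) (c : List ℕ) (x : LP) (S : St) :
    sem F (ins1 c x S) = toP x * F c + sem F S := by
  induction S with
  | nil => simp [ins1, sem]
  | cons y S ih =>
    unfold ins1
    split_ifs with h
    · rw [sem_cons, sem_cons, toP_addP h.2, ← h.1]
      ring
    · rw [sem_cons, sem_cons, ih]
      ring

def capP (j : ℕ) (c : List ℕ) (x : LP) : LP := if c.getD j 0 = c.getD (j + 1) 0 then mulD x else x

def stp (g : Kind) (j : ℕ) : St → Option St
  | [] => some []
  | y :: S =>
    if y.2.2 = [] then stp g j S else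
    if j + g.inp ≤ y.1.length then
      (stp g j S).map fun R =>
        match g with
        | .cup => ins1 (cupL j y.1) y.2 R
        | .cap => ins1 (capL j y.1) (capP j y.1 y.2) R
        | .cr e => ins1 y.1 (mulT (if e then 1 else -1) y.2)
            (ins1 (cupL j (capL j y.1)) (mulT (if e then -1 else 1) (capP j y.1 y.2)) R)
    else none

noncomputable def evF (i : ℕ) (w : Word) (r : ℕ → ℕ → Prop) (c : List ℕ) : ℤ[T;T⁻¹] :=
  ev w (blk i c.length (rel c) r)

theorem toP_capP {i j : ℕ} {c : List ℕ} (hj : j + 2 ≤ c.length) (r : ℕ → ℕ → Prop) (x : LP) :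
    toP (capP j c x) = capVal (j + i) (blk i c.length (rel c) r) * toP x := by
  unfold capP capVal
  rw [propext (loop_rel (add_comm j i) hj r)]
  split_ifs
  · exact toP_mulD x
  · exact (one_mul _).symm

theorem sem_stp (g : Kind) (j i : ℕ) (w : Word) (r : ℕ → ℕ → Prop) :
    ∀ (S R : St), stp g j S = some R → sem (evF i ((g, j + i) :: w) r) S = sem (evF i w r) R
  | [], R, h => by
    cases h
    rfl
  | y :: S, R, h => by
    unfold stp at h
    split_ifs at h with h0 h1
    · rw [sem_cons, sem_stp g j i w r S R h, toP, h0, toL]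
      simp
    · obtain ⟨R', hR, rfl⟩ := Option.map_eq_some_iff.1 h
      rw [sem_cons, sem_stp g j i w r S R' hR]
      rcases g with _ | _ | e
      · simp only [sem_ins1, evF, ev, cup_rel (add_comm j i) h1]
      · simp only [sem_ins1, evF, ev, toP_capP (i := i) h1 r, cap_rel (add_comm j i) h1]
        ring
      · have h2 : j ≤ (capL j y.1).length := by
          rw [capL_len]
          simp only [Kind.inp] at h1
          omega
        simp only [sem_ins1, evF, ev, toP_mulT, toP_capP (i := i) h1 r, cap_rel (add_comm j i) h1,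
          cup_rel (add_comm j i) h2]
        ring

def frcN {α : Type} (n : ℕ) (k : ℕ → α) : α :=
  match n with
  | 0 => k 0
  | n + 1 => k (n + 1)

def frcI {α : Type} (x : ℤ) (k : ℤ → α) : α :=
  match x with
  | .ofNat n => frcN n fun n => k (.ofNat n)
  | .negSucc n => frcN n fun n => k (.negSucc n)

def frcL {α β : Type} (f : β → (β → α) → α) : List β → (List β → α) → α
  | [], k => k []
  | a :: l, k => f a fun a => frcL f l fun l => k (a :: l)

theorem frcN_eq {α : Type} (n : ℕ) (k : ℕ → α) : frcN n k = k n := by cases n <;> rfl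

theorem frcI_eq {α : Type} (x : ℤ) (k : ℤ → α) : frcI x k = k x := by
  cases x <;> simp [frcI, frcN_eq]

theorem frcL_eq {α β : Type} {f : β → (β → α) → α} (h : ∀ a k, f a k = k a) (l : List β)
    (k : List β → α) : frcL f l k = k l := by
  induction l generalizing k with
  | nil => rfl
  | cons a l ih => simp [frcL, h, ih]

def frcS {α : Type} (S : St) (k : St → α) : α :=
  frcL (fun y k => frcL frcN y.1 fun c => frcI y.2.1 fun o => frcL frcI y.2.2 fun l =>
    k (c, o, l)) S k

theorem frcS_eq {α : Type} (S : St) (k : St → α) : frcS S k = k S :=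
  frcL_eq (fun y k => by simp [frcL_eq frcN_eq, frcI_eq, frcL_eq frcI_eq]) S k

def runS : Word → St → Option St
  | [], S => some (S.filter fun y => y.2.2 ≠ [])
  | g :: W, S =>
    match stp g.1 g.2 S with
    | none => none
    | some R => frcS R (runS W)

theorem sem_filter (F : List ℕ → ℤ[T;T⁻¹]) (S : St) :
    sem F (S.filter fun y => y.2.2 ≠ []) = sem F S := by
  induction S with
  | nil => rfl
  | cons y S ih =>
    rw [List.filter_cons]
    split_ifs with h
    · rw [sem_cons, sem_cons, ih]
    · have : y.2.2 = [] := by simpa using h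
      rw [sem_cons, ih, toP, this, toL]
      simp

theorem sem_runS (i : ℕ) (w : Word) (r : ℕ → ℕ → Prop) :
    ∀ (W : Word) (S R : St), runS W S = some R →
      sem (evF i (shift i W ++ w) r) S = sem (evF i w r) R
  | [], S, R, h => by
    cases h
    exact (sem_filter _ _).symm
  | (g, j) :: W, S, R, h => by
    unfold runS at h
    split at h
    · cases h
    · rename_i R' hR
      rw [frcS_eq] at h
      rw [shift_cons, List.cons_append, sem_stp g j i _ r S R' hR, sem_runS i w r W R' R h]

theorem ev_runS {W : Word} {R : St} (h : runS W [([], 0, [1])] = some R) (i : ℕ) (w : Word)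
    (r : ℕ → ℕ → Prop) : ev (shift i W ++ w) r = sem (evF i w r) R := by
  rw [← sem_runS i w r W _ R h]
  simp [sem, toP, toL, evF, blk_zero]

def runC : Word → List ℕ → Option (ℕ × List ℕ)
  | [], c => some (0, c)
  | (.cup, j) :: W, c => if j ≤ c.length then frcL frcN (cupL j c) (runC W) else none
  | (.cap, j) :: W, c =>
    if j + 2 ≤ c.length then
      (frcL frcN (capL j c) (runC W)).map fun x =>
        ((if c.getD j 0 = c.getD (j + 1) 0 then 1 else 0) + x.1, x.2)
    else none
  | (.cr _, j) :: W, c => if j + 2 ≤ c.length then frcL frcN (swL j c) (runC W) else none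

theorem comps_runC (i : ℕ) (w : Word) (r : ℕ → ℕ → Prop) :
    ∀ (W : Word) (c : List ℕ) (x : ℕ × List ℕ), runC W c = some x →
      comps (shift i W ++ w) (blk i c.length (rel c) r) =
        x.1 + comps w (blk i x.2.length (rel x.2) r)
  | [], c, x, h => by
    cases h
    simp
  | (.cup, j) :: W, c, x, h => by
    simp only [runC, frcL_eq frcN_eq] at h
    split_ifs at h with h1
    rw [shift_cons, List.cons_append, comps, cup_rel (add_comm j i) h1, comps_runC i w r W _ x h]
  | (.cap, j) :: W, c, x, h => by
    simp only [runC, frcL_eq frcN_eq] at h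
    split_ifs at h with h1 h2
    all_goals
      obtain ⟨y, hy, rfl⟩ := Option.map_eq_some_iff.1 h
      rw [shift_cons, List.cons_append, comps, cap_rel (add_comm j i) h1,
        comps_runC i w r W _ y hy, propext (loop_rel (add_comm j i) h1 r)]
      simp only [h2, add_assoc, if_true, if_false]
  | (.cr _, j) :: W, c, x, h => by
    simp only [runC, frcL_eq frcN_eq] at h
    split_ifs at h with h1
    rw [shift_cons, List.cons_append, comps, sw_rel (add_comm j i) h1, comps_runC i w r W _ x h]

theorem ins_true_rel (i : ℕ) (r : ℕ → ℕ → Prop) :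
    blk i 4 (rel [0, 1, 1, 0]) r = ins true i r := by
  rw [ins_eq]
  refine blk_congr _ fun a ha b hb => ?_
  interval_cases a <;> interval_cases b <;> simp [rel, ins, cupR, bot2]

theorem ins_false_rel (i : ℕ) (r : ℕ → ℕ → Prop) :
    blk i 4 (rel [0, 0, 2, 2]) r = ins false i r := by
  rw [ins_eq]
  refine blk_congr _ fun a ha b hb => ?_
  interval_cases a <;> interval_cases b <;> simp [rel, ins, cupR, bot2]

end Pool.Agent.Lib.MP_7bc610_gt
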