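import Pool.Agent.Lib.MP_7bc610_gt.M29Top
import Pool.Agent.Lib.MP_7bc610_gt.H9Inv

/-!
Tangles with a trivial closure that are trivial modulo `m`; the set of such `m` is closed under
multiplication.
-/

namespace Pool.Agent.Lib.MP_7bc610_gt

open LaurentPolynomial

noncomputable def uW (k : ℤ) : ℤ[T;T⁻¹] := C (k.negOnePow : ℤ) * T (3 * k)

theorem uW_add (k l : ℤ) : uW (k + l) = uW k * uW l := by
  simp only [uW, Int.negOnePow_add, Units.val_mul, map_mul, mul_add, T_add]
  ring

theorem uW_zero : uW 0 = 1 := by simp [uW]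

theorem uW_su (k : ℤ) : IsSU (uW k) := by
  refine ⟨3 * k, ?_⟩
  rcases Int.units_eq_one_or k.negOnePow with h | h <;> simp [uW, h]

def alt : List Bool := [true, false, true, false]

def GoodT (m : ℕ) (X : Word) : Prop :=
  ∃ (p q : ℤ[T;T⁻¹]) (k : ℤ), Sk X p (m * q) ∧ p + loopVal * (m * q) = uW k ∧ q ≠ 0 ∧
    Ori [] X alt k ∧ Cn X

def chk (m : ℕ) (W : Word) (ch : List Bool) : Bool :=
  match skel W, runO W ch [] with
  | some (x, y), some (l, k) =>
    l == alt && runC W [] == some (0, [0, 1, 1, 0]) && okP x (mulD y) &&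
      addP x (mulD y) == (3 * k, [if k % 2 = 0 then 1 else -1]) &&
      y.2 == (y.2.map (· / (m : ℤ))).map ((m : ℤ) * ·) && (y.2.map (· / (m : ℤ))).headD 0 != 0
  | _, _ => false

theorem good_chk {m : ℕ} {W : Word} {ch : List Bool} (h : chk m W ch = true) : GoodT m W := by
  unfold chk at h
  split at h
  · rename_i x y l k h1 h2
    simp only [Bool.and_eq_true, beq_iff_eq, bne_iff_ne] at h
    obtain ⟨⟨⟨⟨⟨rfl, h3⟩, h4⟩, h5⟩, h6⟩, h7⟩ := h
    have e : toP y = m * toP (y.1, y.2.map (· / (m : ℤ))) := by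
      rw [toP, h6, toL_mul, ← h6, toP]
      simp only [map_natCast]
      ring
    refine ⟨toP x, toP (y.1, y.2.map (· / (m : ℤ))), k, e ▸ sk_skel h1, ?_, ?_,
      ori_runO W ch [] _ h2, cn_runC h3⟩
    · rw [← e, ← toP_mulD, ← toP_addP h4, h5, uW, toP, toL, toL, mul_zero, add_zero, mul_comm]
      congr 2
      rcases Int.even_or_odd k with hk | hk
      · rw [Int.negOnePow_even k hk, if_pos (Int.even_iff.1 hk)]
        rfl
      · rw [Int.negOnePow_odd k hk, if_neg (by have := Int.odd_iff.1 hk; omega)]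
        rfl
    · rcases hl : y.2.map (· / (m : ℤ)) with _ | ⟨a, l⟩
      · simp [hl] at h7
      · exact toP_ne (by simpa [hl] using h7) _ _
  · cases h

def W0 : Word := [(.cup, 0), (.cup, 1), (.cup, 3), (.cup, 5), (.cr true, 2), (.cr false, 6),
  (.cr true, 5), (.cr false, 6)]

def W1 : Word := [(.cap, 5), (.cap, 4), (.cr false, 5), (.cr true, 3), (.cr false, 6),
  (.cr true, 3), (.cr true, 2), (.cr false, 6), (.cr true, 4), (.cr false, 6), (.cr false, 5),
  (.cr true, 3), (.cr false, 4)]

def W2 : Word := [(.cap, 4), (.cap, 3), (.cr true, 4), (.cr true, 5), (.cr false, 3),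
  (.cr false, 2), (.cr false, 4), (.cr false, 4), (.cr true, 0), (.cr false, 5), (.cr false, 3),
  (.cap, 6), (.cap, 4)]

/-- A diagram with two holes which becomes trivial as soon as one hole is filled trivially. -/
def brun (X Y : Word) : Word := W0 ++ (shift 6 X ++ (W1 ++ (shift 5 Y ++ W2)))

def fP : LP := (-28, [-1, 2, 0, -4, 6, -2, -4, 10, -4, -2, 6, -4, 0, 2, -1])

def fQ : LP := (-26, [-1, 3, -3, -1, 7, -9, 4, 4, -9, 7, -1, -3, 3, -1])

theorem b11 : skel (brun nst nst) = some ((0, [1]), 0, []) := by decide +kernel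

theorem b12 : skel (brun nst sid) = some (mulD (0, [1]), 0, []) := by decide +kernel

theorem b21 : skel (brun sid nst) = some (mulD (0, [1]), 0, []) := by decide +kernel

theorem b22 : skel (brun sid sid) = some (fP, fQ) := by decide +kernel

theorem toP_one : toP (0, [1]) = 1 := by simp [toP, toL]

theorem toP_zero : toP (0, []) = 0 := by simp [toP, toL]

theorem fPQ : toP fP + loopVal * toP fQ = loopVal * loopVal := by
  rw [← toP_mulD, ← toP_addP (by decide +kernel),
    show addP fP (mulD fQ) = mulD (mulD (0, [1])) by decide +kernel, toP_mulD, toP_mulD, toP_one,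
    mul_one]

theorem brun_sub (X Y : Word) (i : ℕ) (w : Word) : shift i (brun X Y) ++ w =
    shift i W0 ++ (shift (6 + i) X ++ (shift i W1 ++ (shift (5 + i) Y ++ (shift i W2 ++ w)))) := by
  simp [brun]

theorem sk_left {X : Word} {p q : ℤ[T;T⁻¹]} (h : Sk X p q) (Y : Word) (i : ℕ) (w : Word)
    (r : ℕ → ℕ → Prop) : ev (shift i (brun X Y) ++ w) r =
      p * ev (shift i (brun nst Y) ++ w) r + q * ev (shift i (brun sid Y) ++ w) r := by
  have e : ∀ Z, shift (6 + i) Z = shift i (shift 6 Z) := fun Z => (shift_shift _ _ _).symm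
  simp only [brun_sub]
  exact ev_push (h _ _) _ r

theorem sk_right {Y : Word} {p q : ℤ[T;T⁻¹]} (h : Sk Y p q) (X : Word) (i : ℕ) (w : Word)
    (r : ℕ → ℕ → Prop) : ev (shift i (brun X Y) ++ w) r =
      p * ev (shift i (brun X nst) ++ w) r + q * ev (shift i (brun X sid) ++ w) r := by
  simp only [brun_sub]
  exact ev_push (ev_push (ev_push (h _ _) _) _) _ r

theorem GoodT.mul {m n : ℕ} {X Y : Word} (h : GoodT m X) (h' : GoodT n Y) :
    GoodT (m * n) (brun X Y) := by
  obtain ⟨p, q, k, h1, h2, h3, h4, h5⟩ := h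
  obtain ⟨p', q', k', h1', h2', h3', h4', h5'⟩ := h'
  refine ⟨p * p' + loopVal * (p * (n * q') + m * q * p') + m * q * (n * q') * toP fP,
    q * q' * toP fQ, k + k', fun i w r => ?_, ?_, ?_, ?_, fun i w r => ?_⟩
  · rw [sk_left h1, sk_right h1' nst, sk_right h1' sid, sk_skel b11, sk_skel b12, sk_skel b21,
      sk_skel b22]
    simp only [toP_mulD, toP_one, toP_zero]
    push_cast
    ring
  · rw [uW_add, ← h2, ← h2']
    push_cast
    linear_combination (m * q * (n * q')) * fPQ
  · exact mul_ne_zero (mul_ne_zero h3 h3') (toP_ne (by decide) _ _)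
  · have o0 := ori_runO W0 [false, true, true, true] []
      ([false, true, true, false, false, true, false, true], 2) (by decide +kernel)
    have o1 := ori_runO W1 []
      [false, true, true, false, false, true, false, true, false, true, false, true]
      ([false, true, false, false, true, true, false, true], -1) (by decide +kernel)
    have o2 := ori_runO W2 []
      [false, true, false, false, true, false, true, false, true, true, false, true]
      (alt, -1) (by decide +kernel)
    have a1 := h4.flip.ctx [false, true, true, false, false, true] [false, true]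
    have a2 := h4'.flip.ctx [false, true, false, false, true] [true, false, true]
    have := o0.append (Ori.append a1 (o1.append (Ori.append a2 o2)))
    rw [show k + k' = 2 + (k + (-1 + (k' + -1))) by ring]
    exact this
  · have e1 : comps (shift i (brun X Y) ++ w) r = comps (shift i (brun nst Y) ++ w) r := by
      simp only [brun_sub]
      exact comps_push (h5 _ _) _ r
    have e2 : comps (shift i (brun nst Y) ++ w) r = comps (shift i (brun nst nst) ++ w) r := by
      simp only [brun_sub]
      exact comps_push (comps_push (comps_push (h5' _ _) _) _) _ r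
    rw [e1, e2]
    exact cn_runC (by decide +kernel) i w r

def tailW : Word := [(.cr true, 1), (.cr true, 1), (.cap, 2), (.cap, 0)]

theorem ev_closed {W : Word} {x : LP} (h : runS W [([], 0, [1])] = some [([], x)]) :
    ev W Eq = toP x := by
  have := ev_runS h 0 [] Eq
  simpa [sem, evF, ev] using this

theorem cast_ne {m : ℕ} (h : m ≠ 0) : (m : ℤ[T;T⁻¹]) ≠ 0 := by
  simpa [toL] using toL_ne (a := m) (by exact_mod_cast h) []

theorem one_add_su {g c : ℤ[T;T⁻¹]} (hc : IsSU c) (h : 1 + 3 * g = c) : g = 0 := by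
  obtain ⟨k, hk⟩ := hc
  have h0 : ∀ f : ℤ[T;T⁻¹], (1 + 3 * f).coeff 0 = 1 + 3 * f.coeff 0 := fun f => by
    rw [show (3 : ℤ[T;T⁻¹]) * f = f + f + f by ring]
    simp only [AddMonoidAlgebra.coeff_add, Finsupp.add_apply, AddMonoidAlgebra.one_def,
      AddMonoidAlgebra.coeff_single, Finsupp.single_eq_same]
    ring
  have h1 := h0 g
  have h2 : (T k : ℤ[T;T⁻¹]).coeff 0 = if k = 0 then 1 else 0 := by
    rw [T, AddMonoidAlgebra.coeff_single, Finsupp.single_apply]
  rcases hk with rfl | rfl
  · rw [h, h2] at h1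
    split_ifs at h1 with hk
    · subst hk
      have : (3 : ℤ[T;T⁻¹]) * g = 0 := by simpa using h
      refine (mul_eq_zero.1 this).resolve_left ?_
      exact_mod_cast cast_ne (m := 3) (by decide)
    · omega
  · rw [h, AddMonoidAlgebra.coeff_neg, Finsupp.neg_apply, h2] at h1
    split_ifs at h1 <;> omega

theorem knot_of_good {m : ℕ} {X : Word} (hm : m ≠ 0) (h : GoodT (m * 3) X) :
    ∃ (D : Word) (w : ℤ) (g : ℤ[T;T⁻¹]), Valid 0 D 0 ∧ comps D Eq = 1 ∧ Ori [] D [] w ∧
      stateSum D = loopVal * (C (w.negOnePow : ℤ) * T (3 * w)) * (1 + (m : ℤ[T;T⁻¹]) * g) ∧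
      g ≠ 0 ∧
      ¬Isotopic 0 0 D [(Kind.cup, 0), (Kind.cap, 0)] := by
  obtain ⟨p, q, k, h1, h2, h3, h4, h5⟩ := h
  have o := h4.append (ori_runO tailW [] alt ([], -2) (by decide +kernel))
  have e1 : ev (nst ++ tailW) Eq = loopVal * uW (-2) := by
    rw [ev_closed (x := mulD (-6, [1])) (by decide +kernel), toP_mulD]
    simp [toP, toL, uW, Int.negOnePow_even (-2) (by decide)]
  have e2 : ev (sid ++ tailW) Eq =
      loopVal * (loopVal * uW (-2) + toP (-8, [1, 0, 0, -1])) := by
    have : uW (-2) = toP (-6, [1]) := by simp [toP, toL, uW, Int.negOnePow_even (-2) (by decide)]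
    rw [this, ← toP_mulD, ← toP_addP (by decide +kernel), ← toP_mulD]
    exact ev_closed (by decide +kernel)
  have hu : uW (k + -2) * uW (-(k + -2)) = 1 := by rw [← uW_add, add_neg_cancel, uW_zero]
  have hu0 : uW (-(k + -2)) ≠ 0 := fun h0 => by
    rw [h0, mul_zero] at hu
    exact zero_ne_one hu
  have hg : uW (-(k + -2)) * q * toP (-8, [1, 0, 0, -1]) ≠ 0 :=
    mul_ne_zero (mul_ne_zero hu0 h3) (toP_ne (by decide) _ _)
  have e : stateSum (X ++ tailW) = loopVal * uW (k + -2) *
      (1 + 3 * (m * (uW (-(k + -2)) * q * toP (-8, [1, 0, 0, -1])))) := by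
    have := h1 0 tailW Eq
    simp only [shift_zero] at this
    rw [stateSum, this, e1, e2]
    have h6 := uW_add k (-2)
    push_cast at h2 ⊢
    linear_combination (loopVal * uW (-2)) * h2 - loopVal * h6 -
      (loopVal * (3 * m) * q * toP (-8, [1, 0, 0, -1])) * hu
  have hd : loopVal ≠ 0 := by
    rw [← mul_one loopVal, ← toP_one, ← toP_mulD,
      show mulD (0, [1]) = (-2, [-1, -1]) by decide +kernel]
    exact toP_ne (by decide) _ _
  refine ⟨X ++ tailW, k + -2, 3 * (uW (-(k + -2)) * q * toP (-8, [1, 0, 0, -1])), o.valid, ?_, o,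
    ?_, mul_ne_zero ?_ hg, fun hi => ?_⟩
  · have := h5 0 tailW Eq
    simp only [shift_zero] at this
    rw [this]
    have h7 := comps_runC 0 [] Eq (nst ++ tailW) [] (1, []) (by decide +kernel)
    simpa [blk_zero, comps] using h7
  · rw [e, uW]
    ring
  · exact_mod_cast cast_ne (m := 3) (by decide)
  · obtain ⟨c, ⟨j, hc⟩, h8⟩ := ev_iso hi
    have h9 := h8 [] Eq eq_equivalence
    have e3 : ev [(Kind.cup, 0), (Kind.cap, 0)] Eq = loopVal := by simp [ev, capVal, cupR]
    simp only [List.append_nil] at h9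
    rw [e3, ← stateSum, e, mul_assoc, mul_comm c] at h9
    have h10 := mul_left_cancel₀ hd h9
    have h11 := one_add_su (g := m * (uW (-(k + -2)) * q * toP (-8, [1, 0, 0, -1])))
      (IsSU.mul (uW_su (-(k + -2))) ⟨j, hc⟩) (by
        linear_combination uW (-(k + -2)) * h10 -
          (1 + 3 * (m * (uW (-(k + -2)) * q * toP (-8, [1, 0, 0, -1])))) * hu)
    exact mul_ne_zero (cast_ne hm) hg h11

theorem good2 : GoodT 2
    [(.cup, 0), (.cup, 1), (.cup, 3), (.cr true, 1), (.cr true, 0), (.cr false, 2),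
    (.cr false, 1), (.cr true, 3), (.cr true, 2), (.cr true, 2), (.cr true, 3), (.cr true, 1),
    (.cr true, 0), (.cr true, 0), (.cr false, 2), (.cr false, 2), (.cr false, 1), (.cap, 0),
    (.cr true, 0), (.cr true, 0), (.cr true, 0), (.cr true, 0), (.cr true, 0), (.cr true, 0)] :=
  good_chk (ch := [true, false, false]) (by decide +kernel)

theorem good3 : GoodT 3
    [(.cup, 0), (.cup, 1), (.cup, 3), (.cup, 5), (.cr true, 4), (.cr true, 0), (.cr false, 2),
    (.cr false, 6), (.cr false, 3), (.cr true, 5), (.cr false, 2), (.cr true, 5),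
    (.cr true, 1), (.cr true, 4), (.cr true, 3), (.cr false, 2), (.cr true, 5), (.cr true, 6),
    (.cr false, 1), (.cr false, 4), (.cr false, 4), (.cr false, 5), (.cap, 0), (.cap, 4),
    (.cr true, 0), (.cr true, 0)] :=
  good_chk (ch := [false, true, true, true]) (by decide +kernel)

theorem good5 : GoodT 5
    [(.cup, 0), (.cup, 1), (.cup, 3), (.cup, 5), (.cr false, 0), (.cr true, 1), (.cr false, 2),
    (.cr true, 3), (.cr false, 0), (.cr false, 4), (.cr true, 1), (.cr true, 0),
    (.cr false, 2), (.cr false, 3), (.cr true, 1), (.cr false, 4), (.cr true, 2),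
    (.cr false, 1), (.cr true, 3), (.cr false, 1), (.cr true, 5), (.cr true, 0),
    (.cr false, 2), (.cr true, 6), (.cr false, 1), (.cr true, 3), (.cr true, 6), (.cr true, 2),
    (.cr true, 5), (.cr true, 4), (.cr true, 3), (.cap, 1), (.cap, 0), (.cr true, 0),
    (.cr true, 0), (.cr true, 0), (.cr true, 0)] :=
  good_chk (ch := [true, true, true, false]) (by decide +kernel)

theorem good7 : GoodT 7
    [(.cup, 0), (.cup, 1), (.cup, 2), (.cup, 5), (.cr true, 3), (.cr true, 3), (.cr true, 4),
    (.cr false, 6), (.cr true, 5), (.cr true, 5), (.cr false, 3), (.cr false, 4),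
    (.cr true, 5), (.cr true, 3), (.cr true, 6), (.cr true, 2), (.cr false, 1), (.cr false, 4),
    (.cr false, 4), (.cr true, 3), (.cr false, 5), (.cr false, 2), (.cr false, 0),
    (.cr false, 1), (.cr true, 6), (.cr true, 5), (.cr true, 4), (.cr false, 2),
    (.cr false, 3), (.cr true, 4), (.cr true, 5), (.cr true, 2), (.cr true, 6), (.cr true, 4),
    (.cr true, 4), (.cr true, 3), (.cr false, 2), (.cr false, 4), (.cr false, 5), (.cap, 6),
    (.cap, 1), (.cr true, 0), (.cr true, 0), (.cr true, 0), (.cr true, 0)] :=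
  good_chk (ch := [true, false, true, false]) (by decide +kernel)

theorem good_smooth (m : ℕ) (hm : ∀ p : ℕ, p.Prime → p ∣ m → p ≤ 7) : ∃ X, GoodT (m * 3) X := by
  induction m using induction_on_primes with
  | zero => exact absurd (hm 11 (by norm_num) (dvd_zero _)) (by norm_num)
  | one => exact ⟨_, good3⟩
  | prime_mul p a hp ih =>
    obtain ⟨X, hX⟩ := ih fun q hq hd => hm q hq (hd.mul_left p)
    have h7 := hm p hp (dvd_mul_right p a)
    have : ∃ Y, GoodT p Y := by
      interval_cases p
      · exact absurd hp (by norm_num)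
      · exact absurd hp (by norm_num)
      · exact ⟨_, good2⟩
      · exact ⟨_, good3⟩
      · exact absurd hp (by norm_num)
      · exact ⟨_, good5⟩
      · exact absurd hp (by norm_num)
      · exact ⟨_, good7⟩
    obtain ⟨Y, hY⟩ := this
    exact ⟨_, mul_assoc p a 3 ▸ hY.mul hX⟩

end Pool.Agent.Lib.MP_7bc610_gt
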