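import Pool.Agent.Lib.MP_7bc610_gt.M29Ev

/-!
Orientations, and substitution of tangles into diagrams.
-/

namespace Pool.Agent.Lib.MP_7bc610_gt

open LaurentPolynomial

theorem Ori.append : ∀ {u v : Word} {l l' l'' : List Bool} {k k' : ℤ},
    Ori l u l' k → Ori l' v l'' k' → Ori l (u ++ v) l'' (k + k')
  | [], _, _, _, _, _, _, h, h' => by
    obtain ⟨rfl, rfl⟩ := h
    simpa using h'
  | (.cup, _) :: _, _, _, _, _, _, _, ⟨p, s, b, h1, h2, h⟩, h' => ⟨p, s, b, h1, h2, h.append h'⟩
  | (.cap, _) :: _, _, _, _, _, _, _, ⟨p, s, b, h1, h2, h⟩, h' => ⟨p, s, b, h1, h2, h.append h'⟩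
  | (.cr _, _) :: _, _, _, _, _, _, _, ⟨p, s, a, b, h1, h2, h⟩, h' =>
    ⟨p, s, a, b, h1, h2, by rw [add_sub_right_comm]; exact h.append h'⟩

theorem Ori.ctx (x y : List Bool) : ∀ {w : Word} {l l' : List Bool} {k : ℤ},
    Ori l w l' k → Ori (x ++ l ++ y) (shift x.length w) (x ++ l' ++ y) k
  | [], _, _, _, h => ⟨by rw [h.1], h.2⟩
  | (.cup, _) :: _, _, _, _, ⟨p, s, b, h1, h2, h⟩ =>
    ⟨x ++ p, s ++ y, b, by simp [← h1, add_comm], by simp [h2], by simpa [shift] using Ori.ctx x y h⟩
  | (.cap, _) :: _, _, _, _, ⟨p, s, b, h1, h2, h⟩ =>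
    ⟨x ++ p, s ++ y, b, by simp [← h1, add_comm], by simp [h2], by simpa [shift] using Ori.ctx x y h⟩
  | (.cr _, _) :: _, _, _, _, ⟨p, s, a, b, h1, h2, h⟩ =>
    ⟨x ++ p, s ++ y, a, b, by simp [← h1, add_comm], by simp [h2], by simpa [shift] using Ori.ctx x y h⟩

theorem Ori.flip : ∀ {w : Word} {l l' : List Bool} {k : ℤ},
    Ori l w l' k → Ori (l.map not) w (l'.map not) k
  | [], _, _, _, h => ⟨by rw [h.1], h.2⟩
  | (.cup, _) :: _, _, _, _, ⟨p, s, b, h1, h2, h⟩ =>
    ⟨p.map not, s.map not, !b, by simp [h1], by simp [h2], by simpa using h.flip⟩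
  | (.cap, _) :: _, _, _, _, ⟨p, s, b, h1, h2, h⟩ =>
    ⟨p.map not, s.map not, !b, by simp [h1], by simp [h2], by simpa using h.flip⟩
  | (.cr _, _) :: _, _, _, _, ⟨p, s, a, b, h1, h2, h⟩ =>
    ⟨p.map not, s.map not, !a, !b, by simp [h1], by simp [h2], by
      have e : ((!a) == (!b)) = (a == b) := by cases a <;> cases b <;> rfl
      rw [e]
      simpa using h.flip⟩

theorem Ori.valid : ∀ {w : Word} {l l' : List Bool} {k : ℤ},
    Ori l w l' k → Valid l.length w l'.length
  | [], _, _, _, h => by rw [h.1]; rfl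
  | (.cup, _) :: _, _, _, _, ⟨p, s, b, h1, h2, h⟩ => by
    refine ⟨by simp [h2, ← h1, Kind.inp], ?_⟩
    convert h.valid using 1
    simp [h2, Kind.inp, Kind.out]
    omega
  | (.cap, _) :: _, _, _, _, ⟨p, s, b, h1, h2, h⟩ => by
    refine ⟨by simp [h2, ← h1, Kind.inp], ?_⟩
    convert h.valid using 1
    simp [h2, Kind.inp, Kind.out]
    omega
  | (.cr _, _) :: _, _, _, _, ⟨p, s, a, b, h1, h2, h⟩ => by
    refine ⟨by simp [h2, ← h1, Kind.inp], ?_⟩
    convert h.valid using 1
    simp [h2, Kind.inp, Kind.out]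
    omega

def runO : Word → List Bool → List Bool → Option (List Bool × ℤ)
  | [], _, l => some (l, 0)
  | (.cup, j) :: W, ch, l =>
    if j ≤ l.length then
      runO W ch.tail (l.take j ++ ch.headD true :: (!ch.headD true) :: l.drop j)
    else none
  | (.cap, j) :: W, ch, l =>
    match l.drop j with
    | a :: b :: s => if b = !a then runO W ch (l.take j ++ s) else none
    | _ => none
  | (.cr e, j) :: W, ch, l =>
    match l.drop j with
    | a :: b :: s => (runO W ch (l.take j ++ b :: a :: s)).map fun x =>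
        (x.1, x.2 + if (a == b) = e then 1 else -1)
    | _ => none

theorem take_len {l s : List Bool} {j : ℕ} {a : Bool} (h : l.drop j = a :: s) :
    (l.take j).length = j := by
  have := congrArg List.length h
  simp only [List.length_drop, List.length_cons] at this
  rw [List.length_take]
  omega

theorem ori_runO : ∀ (W : Word) (ch l : List Bool) (x : List Bool × ℤ),
    runO W ch l = some x → Ori l W x.1 x.2
  | [], _, _, _, h => by
    cases h
    exact ⟨rfl, rfl⟩
  | (.cup, j) :: W, ch, l, x, h => by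
    unfold runO at h
    split_ifs at h with h1
    exact ⟨l.take j, l.drop j, _, by simp [h1], by simp, ori_runO W _ _ x h⟩
  | (.cap, j) :: W, ch, l, x, h => by
    unfold runO at h
    split at h
    · rename_i a b s hd
      split_ifs at h with h1
      exact ⟨l.take j, s, a, take_len hd, by rw [← h1, ← hd]; simp, ori_runO W _ _ x h⟩
    · cases h
  | (.cr e, j) :: W, ch, l, x, h => by
    unfold runO at h
    split at h
    · rename_i a b s hd
      obtain ⟨y, hy, rfl⟩ := Option.map_eq_some_iff.1 h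
      exact ⟨l.take j, s, a, b, take_len hd, by rw [← hd]; simp, by
        simpa using ori_runO W _ _ y hy⟩
    · cases h

theorem ev_push {x y z : Word} {p q : ℤ[T;T⁻¹]}
    (h : ∀ r, ev x r = p * ev y r + q * ev z r) (u : Word) :
    ∀ r, ev (u ++ x) r = p * ev (u ++ y) r + q * ev (u ++ z) r := by
  induction u with
  | nil => exact h
  | cons g u ih =>
    intro r
    obtain ⟨k, i⟩ := g
    rcases k with _ | _ | e <;> simp only [List.cons_append, ev, ih] <;> ring

theorem comps_push {x y : Word} (h : ∀ r, comps x r = comps y r) (u : Word) :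
    ∀ r, comps (u ++ x) r = comps (u ++ y) r := by
  induction u with
  | nil => exact h
  | cons g u ih =>
    intro r
    obtain ⟨k, i⟩ := g
    rcases k with _ | _ | e <;> simp only [List.cons_append, comps, ih]

def nst : Word := [(.cup, 0), (.cup, 1)]

def sid : Word := [(.cup, 0), (.cup, 2)]

/-- The tangle is `p` times the nested and `q` times the side-by-side crossingless tangle. -/
def Sk (X : Word) (p q : ℤ[T;T⁻¹]) : Prop :=
  ∀ i w r, ev (shift i X ++ w) r = p * ev (shift i nst ++ w) r + q * ev (shift i sid ++ w) r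

/-- The tangle joins its ends like the nested tangle and has no closed component. -/
def Cn (X : Word) : Prop := ∀ i w r, comps (shift i X ++ w) r = comps (shift i nst ++ w) r

theorem evF_nst (i : ℕ) (w : Word) (r : ℕ → ℕ → Prop) :
    evF i w r [0, 1, 1, 0] = ev (shift i nst ++ w) r := by
  rw [evF, show [0, 1, 1, 0].length = 4 from rfl, ins_true_rel]
  simp [nst, ev, ins, add_comm]

theorem evF_sid (i : ℕ) (w : Word) (r : ℕ → ℕ → Prop) :
    evF i w r [0, 0, 2, 2] = ev (shift i sid ++ w) r := by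
  rw [evF, show [0, 0, 2, 2].length = 4 from rfl, ins_false_rel]
  simp [sid, ev, ins, add_comm]

def pick (c : List ℕ) : St → LP
  | [] => (0, [])
  | y :: S => if y.1 = c then y.2 else pick c S

def shape (R : St) : Bool :=
  R.map Prod.fst == [[0, 1, 1, 0]] || R.map Prod.fst == [[0, 1, 1, 0], [0, 0, 2, 2]] ||
    R.map Prod.fst == [[0, 0, 2, 2], [0, 1, 1, 0]]

def skel (W : Word) : Option (LP × LP) :=
  match runS W [([], 0, [1])] with
  | none => none
  | some R => if shape R then some (pick [0, 1, 1, 0] R, pick [0, 0, 2, 2] R) else none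

theorem sk_skel {W : Word} {x y : LP} (h : skel W = some (x, y)) : Sk W (toP x) (toP y) := by
  unfold skel at h
  split at h
  · cases h
  · rename_i R hR
    split_ifs at h with h1
    obtain ⟨rfl, rfl⟩ := Prod.mk.inj (Option.some.inj h)
    intro i w r
    rw [ev_runS hR, ← evF_nst, ← evF_sid]
    simp only [shape, Bool.or_eq_true, beq_iff_eq, List.map_eq_cons_iff, List.map_eq_nil_iff] at h1
    rcases h1 with (⟨⟨a, x⟩, _, rfl, rfl, rfl⟩ | ⟨⟨a, x⟩, _, rfl, rfl, ⟨b, y⟩, _, rfl, rfl, rfl⟩) |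
      ⟨⟨a, x⟩, _, rfl, rfl, ⟨b, y⟩, _, rfl, rfl, rfl⟩
    · simp [sem, pick, toP, toL]
    · simp [sem, pick]
    · simp [sem, pick, add_comm]

theorem cn_runC {W : Word} (h : runC W [] = some (0, [0, 1, 1, 0])) : Cn W := by
  intro i w r
  have := comps_runC i w r W [] _ h
  rw [show ([] : List ℕ).length = 0 from rfl, blk_zero] at this
  rw [this, show [0, 1, 1, 0].length = 4 from rfl, ins_true_rel]
  simp [nst, comps, ins, add_comm]

theorem toL_ne {a : ℤ} (ha : a ≠ 0) (l : List ℤ) : toL (a :: l) ≠ 0 := by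
  have key : ∀ l : List ℤ, ∃ f : Polynomial ℤ, toL l = Polynomial.toLaurent f := fun l => by
    induction l with
    | nil => exact ⟨0, by simp [toL]⟩
    | cons b l ih =>
      obtain ⟨f, hf⟩ := ih
      exact ⟨Polynomial.C b + Polynomial.X ^ 4 * f, by simp [toL, hf]⟩
  obtain ⟨f, hf⟩ := key l
  intro h
  have h1 : Polynomial.toLaurent (Polynomial.C a + Polynomial.X ^ 4 * f) = 0 := by
    simpa [toL, hf] using h
  have h2 := congrArg (fun g => Polynomial.coeff g 0) (Polynomial.toLaurent_eq_zero.1 h1)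
  simp at h2
  exact ha h2

theorem toP_ne {a : ℤ} (ha : a ≠ 0) (o : ℤ) (l : List ℤ) : toP (o, a :: l) ≠ 0 :=
  mul_ne_zero (isUnit_T o).ne_zero (toL_ne ha l)

end Pool.Agent.Lib.MP_7bc610_gt
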