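import Pool.Agent.Lib.MP_7bc610_gt.Three

/-!
The main induction, carried out in an abstract algebra of tangles.
-/

namespace Pool.Agent.Lib.MP_7bc610_gt

open Equiv

section Grp

variable {G : Type} [Group G] {x y z : G}

theorem conj_z (h1 : x * y * x = y * x * y) (h2 : z * y * z = y * z * y) :
    z * (y * (x * z⁻¹) * y⁻¹) * z⁻¹ = (x * z⁻¹)⁻¹ * (y * (x * z⁻¹) * y⁻¹) := by
  calc z * (y * (x * z⁻¹) * y⁻¹) * z⁻¹ = z * y * x * (z * y * z)⁻¹ := by group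
    _ = z * x⁻¹ * (x * y * x) * y⁻¹ * z⁻¹ * y⁻¹ := by rw [h2]; group
    _ = _ := by rw [h1]; group

theorem conj_y (h1 : x * y * x = y * x * y) (h2 : z * y * z = y * z * y) (h3 : x * z = z * x) :
    y * (y * (x * z⁻¹) * y⁻¹) * y⁻¹ =
      (y * (x * z⁻¹) * y⁻¹) * (x * z⁻¹)⁻¹ * (y * (x * z⁻¹) * y⁻¹) := by
  have e1 : z⁻¹ * y⁻¹ * z = y * z⁻¹ * y⁻¹ := by
    calc z⁻¹ * y⁻¹ * z = y * (z * y * z)⁻¹ * z * y * y⁻¹ * z * z⁻¹ := by rw [h2]; group
      _ = _ := by group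
  have e2 : x⁻¹ * y * x = y * x * y⁻¹ := by
    calc x⁻¹ * y * x = x⁻¹ * (y * x * y) * y⁻¹ := by group
      _ = _ := by rw [← h1]; group
  have e3 : z⁻¹ * x = x * z⁻¹ := by
    calc z⁻¹ * x = z⁻¹ * (x * z) * z⁻¹ := by group
      _ = _ := by rw [h3]; group
  symm
  calc (y * (x * z⁻¹) * y⁻¹) * (x * z⁻¹)⁻¹ * (y * (x * z⁻¹) * y⁻¹)
      = y * x * (z⁻¹ * y⁻¹ * z) * (x⁻¹ * y * x) * z⁻¹ * y⁻¹ := by group
    _ = y * x * y * (z⁻¹ * x) * y⁻¹ * z⁻¹ * y⁻¹ := by rw [e1, e2]; group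
    _ = y * (x * y * x) * z⁻¹ * y⁻¹ * z⁻¹ * y⁻¹ := by rw [e3]; group
    _ = y * y * x * (y * z⁻¹ * y⁻¹) * z⁻¹ * y⁻¹ := by rw [h1]; group
    _ = _ := by rw [← e1]; group

end Grp

/-- An abstract algebra of four-ended tangles. -/
structure Tg (X : Type) where
  s1 : Perm X
  s2 : Perm X
  s3 : Perm X
  u : X
  add : X → X → X
  triv : X → Prop
  br12 : s1 * s2 * s1 = s2 * s1 * s2
  br23 : s3 * s2 * s3 = s2 * s3 * s2
  c13 : s1 * s3 = s3 * s1
  u1 : s1 u = s3 u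
  u2 : s2 u = u
  u3 : (s3 * s2 * s3) ((s3 * s2 * s3) u) = u
  add_u : ∀ S, add S u = S
  u_add : ∀ S, add u S = S
  a1 : ∀ S R, add (s1 S) R = s1 (add S R)
  a2 : ∀ S R, triv (add (s2 S) R) ↔ triv (add S (s2 R))
  a3 : ∀ S R, add S (s3 R) = s3 (add S R)
  a4 : ∀ S R, add (s3 S) R = add S (s1 R)
  assoc : ∀ S R Q, add (add S R) Q = add S (add R Q)
  ainf : ∀ S, triv (add S ((s3 * s2 * s3) u)) → add S ((s3 * s2 * s3) u) = (s3 * s2 * s3) u
  infa : ∀ S, triv (add ((s3 * s2 * s3) u) S) → add ((s3 * s2 * s3) u) S = (s3 * s2 * s3) u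
  cadd : ∀ S R, (s2 * (s1 * s3⁻¹) * s2⁻¹) (add S R) =
    add ((s2 * (s1 * s3⁻¹) * s2⁻¹) R) ((s2 * (s1 * s3⁻¹) * s2⁻¹) S)
  t2 : ∀ S, triv (s2 S) ↔ triv S
  tinf : triv ((s3 * s2 * s3) u)

namespace Tg

open Dt

variable {X : Type} (M : Tg X)

def a : Perm X := M.s1 * M.s3⁻¹
def c : Perm X := M.s2 * (M.s1 * M.s3⁻¹) * M.s2⁻¹
def K : Subgroup (Perm X) := Subgroup.closure {M.a, M.c}
def rat (g : BW) : X := act M.s3 M.s2 g M.u

theorem a_mem : M.a ∈ M.K := Subgroup.subset_closure (by simp)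
theorem c_mem : M.c ∈ M.K := Subgroup.subset_closure (by simp)

theorem conj_gen (l : Bool × Bool) {k : Perm X} (hk : k ∈ M.K) :
    (gen M.s3 M.s2 l)⁻¹ * k * gen M.s3 M.s2 l ∈ M.K := by
  have ha := M.a_mem
  have hc := M.c_mem
  have z1 : M.s3 * M.c * M.s3⁻¹ = M.a⁻¹ * M.c := conj_z M.br12 M.br23
  have y1 : M.s2 * M.c * M.s2⁻¹ = M.c * M.a⁻¹ * M.c := conj_y M.br12 M.br23 M.c13
  have z0 : M.s3 * M.a * M.s3⁻¹ = M.a := by
    calc M.s3 * M.a * M.s3⁻¹ = (M.s3 * M.s1) * M.s3⁻¹ * M.s3⁻¹ := by rw [a]; group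
      _ = _ := by rw [← M.c13, a]; group
  have y0 : M.s2 * M.a * M.s2⁻¹ = M.c := rfl
  have z0' : M.s3⁻¹ * M.a * M.s3 = M.a := by
    conv_lhs => rw [← z0]
    group
  have z1' : M.s3⁻¹ * M.c * M.s3 = M.a * M.c := by
    calc M.s3⁻¹ * M.c * M.s3 = M.s3⁻¹ * M.a * (M.a⁻¹ * M.c) * M.s3 := by group
      _ = (M.s3⁻¹ * M.a * M.s3) * M.c := by rw [← z1]; group
      _ = _ := by rw [z0']
  have y0' : M.s2⁻¹ * M.c * M.s2 = M.a := by rw [← y0]; group
  have y1' : M.s2⁻¹ * M.a * M.s2 = M.a * M.c⁻¹ * M.a := by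
    calc M.s2⁻¹ * M.a * M.s2 = (M.s2⁻¹ * M.c * M.s2) *
          (M.s2⁻¹ * (M.c * M.a⁻¹ * M.c)⁻¹ * M.s2) * (M.s2⁻¹ * M.c * M.s2) := by group
      _ = _ := by rw [← y1, y0']; group
  induction hk using Subgroup.closure_induction with
  | mem k hk =>
    simp only [Set.mem_insert_iff, Set.mem_singleton_iff] at hk
    rcases hk with rfl | rfl <;> rcases l with ⟨_ | _, _ | _⟩ <;>
      simp only [gen, inv_inv, z0, z1, y0, y1, z0', z1', y0', y1'] <;>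
      first
        | exact ha
        | exact hc
        | exact mul_mem ha hc
        | exact mul_mem (inv_mem ha) hc
        | exact mul_mem (mul_mem ha (inv_mem hc)) ha
        | exact mul_mem (mul_mem hc (inv_mem ha)) hc
  | one => simp
  | mul k k' _ _ h h' =>
    have := M.K.mul_mem h h'
    convert this using 1; group
  | inv k _ h =>
    have := M.K.inv_mem h
    convert this using 1; group

theorem conj_act (h : BW) {k : Perm X} (hk : k ∈ M.K) :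
    (act M.s3 M.s2 h)⁻¹ * k * act M.s3 M.s2 h ∈ M.K := by
  induction h generalizing k with
  | nil => simpa using hk
  | cons l h ih =>
    have := ih (M.conj_gen l hk)
    convert this using 1
    rw [act_cons]; group

theorem K_closed (P : X → Prop) (h1 : ∀ Y, P Y → P (M.a Y)) (h2 : ∀ Y, P Y → P (M.a⁻¹ Y))
    (h3 : ∀ Y, P Y → P (M.c Y)) (h4 : ∀ Y, P Y → P (M.c⁻¹ Y)) {k : Perm X} (hk : k ∈ M.K) :
    ∀ Y, P Y → P (k Y) := by
  suffices h : (∀ Y, P Y → P (k Y)) ∧ (∀ Y, P Y → P (k⁻¹ Y)) from h.1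
  induction hk using Subgroup.closure_induction with
  | mem k hk =>
    simp only [Set.mem_insert_iff, Set.mem_singleton_iff] at hk
    rcases hk with rfl | rfl
    · exact ⟨h1, h2⟩
    · exact ⟨h3, h4⟩
  | one => simp
  | mul k k' _ _ h h' =>
    exact ⟨fun Y hY => h.1 _ (h'.1 Y hY), fun Y hY => by
      rw [mul_inv_rev]; exact h'.2 _ (h.2 Y hY)⟩
  | inv k _ h => exact ⟨h.2, by simpa using h.1⟩

theorem gen1_eq (l : Bool × Bool) (h : BW) :
    ∃ k ∈ M.K, ∀ Z, gen M.s1 M.s2 l (act M.s3 M.s2 h Z) = act M.s3 M.s2 (l :: h) (k Z) := by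
  have : ∃ k ∈ M.K, gen M.s1 M.s2 l = k * gen M.s3 M.s2 l := by
    rcases l with ⟨_ | _, _ | _⟩
    · exact ⟨1, M.K.one_mem, by simp [gen]⟩
    · exact ⟨1, M.K.one_mem, by simp [gen]⟩
    · refine ⟨M.a⁻¹, M.K.inv_mem M.a_mem, ?_⟩
      simp only [gen, a]
      calc M.s1⁻¹ = M.s3 * (M.s3 * M.s1)⁻¹ * M.s3 * M.s3⁻¹ * M.s3⁻¹ * M.s3 := by
            rw [← M.c13]; group
        _ = M.s3 * (M.s1⁻¹ * M.s3⁻¹) := by group
        _ = _ := by group
    · exact ⟨M.a, M.a_mem, by simp [gen, a]⟩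
  obtain ⟨k, hk, e⟩ := this
  refine ⟨_, M.conj_act (l :: h) hk, fun Z => ?_⟩
  rw [e]
  simp [Perm.mul_apply]

theorem a_u : M.a M.u = M.u := by
  have : M.a = M.s3⁻¹ * M.s1 := by
    calc M.a = M.s3⁻¹ * (M.s3 * M.s1) * M.s3⁻¹ := by rw [a]; group
      _ = _ := by rw [← M.c13]; group
  rw [this, Perm.mul_apply, M.u1]; simp

theorem c_u : M.c M.u = M.u := by
  have h : M.s2⁻¹ M.u = M.u := by rw [Perm.inv_eq_iff_eq, M.u2]
  show M.s2 (M.a (M.s2⁻¹ M.u)) = _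
  rw [h, a_u, M.u2]

theorem K_u {k : Perm X} (hk : k ∈ M.K) : k M.u = M.u := by
  refine M.K_closed (fun Y => Y = M.u) ?_ ?_ ?_ ?_ hk _ rfl <;> rintro Y rfl
  · exact M.a_u
  · rw [Perm.inv_eq_iff_eq, M.a_u]
  · exact M.c_u
  · rw [Perm.inv_eq_iff_eq, M.c_u]

theorem act1_rat (h g : BW) : act M.s1 M.s2 h (M.rat g) = M.rat (h ++ g) := by
  induction h with
  | nil => rfl
  | cons l h ih =>
    obtain ⟨k, hk, e⟩ := M.gen1_eq l (h ++ g)
    rw [act_cons, Perm.mul_apply, ih, rat, e, M.K_u hk]; rfl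

theorem rat_append (h g : BW) : M.rat (h ++ g) = act M.s3 M.s2 h (M.rat g) := by
  simp [rat, act_append]

theorem rat_orb {g g' : BW} (h : sq3 (slope g) = sq3 (slope g')) : M.rat g = M.rat g' :=
  orb M.br23 M.u2 M.u3 g g' h

theorem rat_inf {g : BW} (h : (slope g).1 = 0) : M.rat g = (M.s3 * M.s2 * M.s3) M.u := by
  have hc := slope_coprime g
  rw [h] at hc
  have ha : (slope g).2 ^ 2 = 1 := by
    rcases Int.isUnit_iff.1 (isCoprime_zero_left.1 hc) with h | h <;> simp [h]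
  rw [M.rat_orb (sq3_coint ha), h]
  simp [pw, rat, act_rw3]

theorem rat_int {g : BW} (h : (slope g).1 ^ 2 = 1) :
    M.rat g = (M.s3 ^ ((slope g).2 * (slope g).1)) M.u := by
  rw [M.rat_orb (sq3_int h), rat_append, act_pw]; rfl

theorem a1' (S R : X) : M.add (M.s1⁻¹ S) R = M.s1⁻¹ (M.add S R) := by
  rw [Perm.eq_inv_iff_eq, ← M.a1]; simp

theorem a3' (S R : X) : M.add S (M.s3⁻¹ R) = M.s3⁻¹ (M.add S R) := by
  rw [Perm.eq_inv_iff_eq, ← M.a3]; simp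

theorem a4' (S R : X) : M.add (M.s3⁻¹ S) R = M.add S (M.s1⁻¹ R) := by
  have := M.a4 (M.s3⁻¹ S) (M.s1⁻¹ R)
  simpa using this.symm

theorem a2' (S R : X) : M.triv (M.add (M.s2⁻¹ S) R) ↔ M.triv (M.add S (M.s2⁻¹ R)) := by
  have := M.a2 (M.s2⁻¹ S) (M.s2⁻¹ R)
  simpa using this.symm

theorem a3_zpow (k : ℤ) (S R : X) : M.add S ((M.s3 ^ k) R) = (M.s3 ^ k) (M.add S R) := by
  induction k using Int.induction_on with
  | zero => simp
  | succ k ih => rw [add_comm (k : ℤ) 1, zpow_one_add, Perm.mul_apply, M.a3, ih]; rfl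
  | pred k ih => rw [sub_eq_neg_add, zpow_add, zpow_neg_one, Perm.mul_apply, M.a3', ih]; rfl

theorem a4_zpow (k : ℤ) (S R : X) : M.add ((M.s3 ^ k) S) R = M.add S ((M.s1 ^ k) R) := by
  induction k using Int.induction_on generalizing R with
  | zero => simp
  | succ k ih =>
    conv_lhs => rw [add_comm (k : ℤ) 1, zpow_one_add, Perm.mul_apply, M.a4, ih]
    rw [zpow_add_one]; rfl
  | pred k ih =>
    conv_lhs => rw [sub_eq_neg_add, zpow_add, zpow_neg_one, Perm.mul_apply, M.a4', ih]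
    rw [zpow_sub_one]; rfl

theorem t2_zpow (k : ℤ) (S : X) : M.triv ((M.s2 ^ k) S) ↔ M.triv S := by
  induction k using Int.induction_on with
  | zero => simp
  | succ k ih => rw [add_comm (k : ℤ) 1, zpow_one_add, Perm.mul_apply, M.t2, ih]
  | pred k ih =>
    rw [sub_eq_neg_add, zpow_add, zpow_neg_one, Perm.mul_apply, ← M.t2, ← ih]; simp

theorem transfer (h : BW) (S R : X) :
    M.triv (M.add (act M.s3 M.s2 h S) R) ↔ M.triv (M.add S (act M.s1 M.s2 h.reverse R)) := by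
  induction h generalizing R with
  | nil => simp
  | cons l h ih =>
    have : M.triv (M.add (gen M.s3 M.s2 l (act M.s3 M.s2 h S)) R) ↔
        M.triv (M.add (act M.s3 M.s2 h S) (gen M.s1 M.s2 l R)) := by
      rcases l with ⟨_ | _, _ | _⟩ <;> simp only [gen]
      · exact M.a2' _ _
      · exact M.a2 _ _
      · rw [M.a4']
      · rw [M.a4]
    rw [act_cons, Perm.mul_apply, this, ih, List.reverse_cons, act_append]
    simp

/-- Arborescent tangles with their number of sums and their data. -/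
inductive Arb : ℕ → X → Dt → Prop where
  | zero : Arb 0 M.u Dt.zero
  | g3 {m Y D} (l : Bool × Bool) : Arb m Y D → Arb m (gen M.s3 M.s2 l Y) (gen tau sig l D)
  | g1 {m Y D} (l : Bool × Bool) : Arb m Y D → Arb m (gen M.s1 M.s2 l Y) (gen tau sig l D)
  | add {m1 m2 Y1 Y2 D1 D2} : Arb m1 Y1 D1 → Arb m2 Y2 D2 →
      Arb (m1 + m2 + 1) (M.add Y1 Y2) (Dt.add D1 D2)

variable {M}

theorem Arb.sl {m Y D} (h : M.Arb m Y D) : ∃ v, Sl D v := by
  induction h with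
  | zero => exact ⟨(1, 0), by simp [Sl, Dt.zero]⟩
  | g3 l _ ih => obtain ⟨v, hv⟩ := ih; exact ⟨_, hv.gen l⟩
  | g1 l _ ih => obtain ⟨v, hv⟩ := ih; exact ⟨_, hv.gen l⟩
  | add _ _ ih1 ih2 => obtain ⟨v, hv⟩ := ih1; obtain ⟨v', hv'⟩ := ih2; exact ⟨_, hv.add hv'⟩

theorem Arb.act3 {m Y D} (h : M.Arb m Y D) (g : BW) :
    M.Arb m (act M.s3 M.s2 g Y) (act tau sig g D) := by
  induction g with
  | nil => exact h
  | cons l g ih => simpa only [act_cons, Perm.mul_apply] using ih.g3 l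

theorem Arb.act1 {m Y D} (h : M.Arb m Y D) (g : BW) :
    M.Arb m (act M.s1 M.s2 g Y) (act tau sig g D) := by
  induction g with
  | nil => exact h
  | cons l g ih => simpa only [act_cons, Perm.mul_apply] using ih.g1 l

theorem Arb.K {m Y D} (h : M.Arb m Y D) {k : Perm X} (hk : k ∈ M.K) : M.Arb m (k Y) D := by
  have ha : ∀ Y D, M.Arb m Y D → M.Arb m (M.a Y) D := fun Y D h => by
    have := (h.g3 (true, false)).g1 (true, true)
    simpa [gen, a] using this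
  have ha' : ∀ Y D, M.Arb m Y D → M.Arb m (M.a⁻¹ Y) D := fun Y D h => by
    have := (h.g1 (true, false)).g3 (true, true)
    simpa [gen, a] using this
  refine M.K_closed (fun Y => M.Arb m Y D) (fun Y => ha Y D) (fun Y => ha' Y D) ?_ ?_ hk Y h
  · intro Y h
    have := (ha _ _ (h.g3 (false, false))).g3 (false, true)
    simpa [gen, a, c] using this
  · intro Y h
    have := (ha' _ _ (h.g3 (false, false))).g3 (false, true)
    simpa [gen, a, c] using this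

def Core (M : Tg X) (m : ℕ) (E : Dt) (Z : X) : Prop :=
  (m = 0 ∧ Z = M.u ∧ E = Dt.zero) ∨ ∃ m1 m2 Y1 Y2 D1 D2, m = m1 + m2 + 1 ∧ M.Arb m1 Y1 D1 ∧
    M.Arb m2 Y2 D2 ∧ Z = M.add Y1 Y2 ∧ E = Dt.add D1 D2

theorem aadd (S R : X) : M.a (M.add S R) = M.add (M.a S) (M.a R) := by
  have e : M.a S = M.s3⁻¹ (M.s1 S) := by
    have : M.a = M.s3⁻¹ * M.s1 := by
      calc M.a = M.s3⁻¹ * (M.s3 * M.s1) * M.s3⁻¹ := by rw [a]; group
        _ = _ := by rw [← M.c13]; group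
    rw [this]; rfl
  rw [e, M.a4', M.a1]
  simp only [a, Perm.mul_apply, Perm.coe_inv, symm_apply_apply]
  congr 1
  exact (M.a3' S R).symm

theorem Core.K {m E Z} (h : M.Core m E Z) {k : Perm X} (hk : k ∈ M.K) : M.Core m E (k Z) := by
  have ha := M.a_mem
  have hc := M.c_mem
  refine M.K_closed (M.Core m E) ?_ ?_ ?_ ?_ hk Z h <;>
    rintro Y (⟨rfl, rfl, rfl⟩ | ⟨m1, m2, Y1, Y2, D1, D2, rfl, h1, h2, rfl, rfl⟩)
  · exact Or.inl ⟨rfl, M.K_u ha, rfl⟩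
  · exact Or.inr ⟨m1, m2, _, _, D1, D2, rfl, h1.K ha, h2.K ha, aadd _ _, rfl⟩
  · exact Or.inl ⟨rfl, M.K_u (M.K.inv_mem ha), rfl⟩
  · refine Or.inr ⟨m1, m2, _, _, D1, D2, rfl, h1.K (M.K.inv_mem ha), h2.K (M.K.inv_mem ha), ?_,
      rfl⟩
    rw [Perm.inv_eq_iff_eq, aadd]; simp
  · exact Or.inl ⟨rfl, M.K_u hc, rfl⟩
  · exact Or.inr ⟨m2, m1, _, _, D2, D1, by ring, h2.K hc, h1.K hc, M.cadd _ _, add_comm' _ _⟩
  · exact Or.inl ⟨rfl, M.K_u (M.K.inv_mem hc), rfl⟩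
  · refine Or.inr ⟨m2, m1, _, _, D2, D1, by ring, h2.K (M.K.inv_mem hc), h1.K (M.K.inv_mem hc),
      ?_, add_comm' _ _⟩
    rw [Perm.inv_eq_iff_eq]
    have := M.cadd (M.c⁻¹ Y2) (M.c⁻¹ Y1)
    change M.c _ = M.add (M.c _) (M.c _) at this
    rw [this]; simp

theorem Arb.core {m Y D} (h : M.Arb m Y D) :
    ∃ h Z E, Y = act M.s3 M.s2 h Z ∧ D = act tau sig h E ∧ M.Core m E Z := by
  induction h with
  | zero => exact ⟨[], _, _, rfl, rfl, Or.inl ⟨rfl, rfl, rfl⟩⟩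
  | g3 l _ ih =>
    obtain ⟨h, Z, E, rfl, rfl, hc⟩ := ih
    exact ⟨l :: h, Z, E, by simp, by simp, hc⟩
  | g1 l _ ih =>
    obtain ⟨h, Z, E, rfl, rfl, hc⟩ := ih
    obtain ⟨k, hk, e⟩ := M.gen1_eq l h
    exact ⟨l :: h, k Z, E, e Z, by simp, hc.K hk⟩
  | add h1 h2 _ _ => exact ⟨[], _, _, rfl, rfl, Or.inr ⟨_, _, _, _, _, _, rfl, h1, h2, rfl, rfl⟩⟩

theorem Arb.add_left {m Y D} (h : M.Arb m Y D) {r : BW} (hr : (slope r).1 ^ 2 = 1) :
    M.Arb m (M.add (M.rat r) Y) (Dt.add (dat r) D) := by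
  rw [M.rat_int hr, dat_int hr, M.a4_zpow, M.u_add, add_tau_zpow, zero_add']
  have := h.act1 (pw true ((slope r).2 * (slope r).1))
  rwa [act_pw, act_pw] at this

theorem Arb.add_right {m Y D} (h : M.Arb m Y D) {r : BW} (hr : (slope r).1 ^ 2 = 1) :
    M.Arb m (M.add Y (M.rat r)) (Dt.add D (dat r)) := by
  rw [M.rat_int hr, dat_int hr, M.a3_zpow, M.add_u, add_comm', add_tau_zpow, zero_add']
  have := h.act3 (pw true ((slope r).2 * (slope r).1))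
  rwa [act_pw, act_pw] at this

theorem add_rat {r g r' : BW} (h : (slope r).1 ^ 2 = 1 ∨ (slope g).1 ^ 2 = 1)
    (h' : Sl (Dt.add (dat r) (dat g)) (slope r')) :
    M.add (M.rat r) (M.rat g) = M.rat r' ∧ Dt.add (dat r) (dat g) = dat r' := by
  rcases h with h | h
  · have e : Dt.add (dat r) (dat g) = dat (pw true ((slope r).2 * (slope r).1) ++ g) := by
      rw [dat_int h, add_tau_zpow, zero_add', dat_append, act_pw]; rfl
    rw [e] at h' ⊢
    have e2 := (sl_dat _).sq3_eq h'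
    refine ⟨?_, dat_orb e2⟩
    rw [← M.rat_orb e2, M.rat_int h, M.a4_zpow, M.u_add, ← M.act1_rat, act_pw]; rfl
  · have e : Dt.add (dat r) (dat g) = dat (pw true ((slope g).2 * (slope g).1) ++ r) := by
      rw [add_comm', dat_int h, add_tau_zpow, zero_add', dat_append, act_pw]; rfl
    rw [e] at h' ⊢
    have e2 := (sl_dat _).sq3_eq h'
    refine ⟨?_, dat_orb e2⟩
    rw [← M.rat_orb e2, M.rat_int h, M.a3_zpow, M.add_u, M.rat_append, act_pw]; rfl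

end Tg

end Pool.Agent.Lib.MP_7bc610_gt
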