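import Pool.Agent.Lib.MP_7bc610_gt.Defs

/-!
General facts about the local moves: context, interchange and naturality.
-/

namespace Pool.Agent.Lib.MP_7bc610_gt

theorem valid_append {n m : ℕ} {u v : Word} :
    Valid n (u ++ v) m ↔ ∃ k, Valid n u k ∧ Valid k v m := by
  induction u generalizing n with
  | nil => simp [Valid]
  | cons g u ih =>
    obtain ⟨k, i⟩ := g
    simp only [List.cons_append, Valid, ih]
    constructor
    · rintro ⟨h, j, h1, h2⟩; exact ⟨j, ⟨h, h1⟩, h2⟩
    · rintro ⟨j, ⟨h, h1⟩, h2⟩; exact ⟨h, j, h1, h2⟩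

theorem Valid.unique {n m m' : ℕ} {u : Word} (h : Valid n u m) (h' : Valid n u m') : m = m' := by
  induction u generalizing n with
  | nil => exact h.symm.trans h'
  | cons g u ih => exact ih h.2 h'.2

theorem Move.valid {l r : Word} (h : Move l r) {n m : ℕ} (hv : Valid n l m) : Valid n r m := by
  cases h <;> simp only [Valid, Kind.inp, Kind.out] at hv ⊢ <;> omega

namespace Isotopic

variable {n m : ℕ} {u v w : Word}

theorem refl (u : Word) : Isotopic n m u u := Relation.EqvGen.refl u

theorem symm (h : Isotopic n m u v) : Isotopic n m v u := Relation.EqvGen.symm _ _ h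

theorem trans (h : Isotopic n m u v) (h' : Isotopic n m v w) : Isotopic n m u w :=
  Relation.EqvGen.trans _ _ _ h h'

theorem valid_iff (h : Isotopic n m u v) : Valid n u m ↔ Valid n v m := by
  induction h with
  | rel _ _ h => exact ⟨fun _ => h.2.1, fun _ => h.1⟩
  | refl => rfl
  | symm _ _ _ ih => exact ih.symm
  | trans _ _ _ _ _ ih ih' => exact ih.trans ih'

theorem ctx (h : Isotopic n m u v) {a b : ℕ} {p s : Word} (hp : Valid a p n) (hs : Valid m s b) :
    Isotopic a b (p ++ u ++ s) (p ++ v ++ s) := by
  induction h with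
  | rel x y h =>
    obtain ⟨h1, h2, p', l, r, s', hm, rfl, rfl⟩ := h
    refine Relation.EqvGen.rel _ _ ⟨?_, ?_, p ++ p', l, r, s' ++ s, hm, by simp, by simp⟩
    · exact valid_append.2 ⟨_, valid_append.2 ⟨_, hp, h1⟩, hs⟩
    · exact valid_append.2 ⟨_, valid_append.2 ⟨_, hp, h2⟩, hs⟩
  | refl => exact refl _
  | symm _ _ _ ih => exact ih.symm
  | trans _ _ _ _ _ ih ih' => exact ih.trans ih'

end Isotopic

@[simp] theorem shift_nil (k : ℕ) : shift k [] = [] := rfl

@[simp] theorem shift_cons (k : ℕ) (g : Kind) (i : ℕ) (w : Word) :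
    shift k ((g, i) :: w) = (g, i + k) :: shift k w := rfl

@[simp] theorem shift_append (k : ℕ) (u v : Word) : shift k (u ++ v) = shift k u ++ shift k v :=
  List.map_append

@[simp] theorem shift_zero (w : Word) : shift 0 w = w := by simp [shift]

@[simp] theorem shift_shift (k j : ℕ) (w : Word) : shift k (shift j w) = shift (j + k) w := by
  simp [shift, Nat.add_assoc]

theorem Valid.shift {n m : ℕ} {u : Word} (h : Valid n u m) (k j : ℕ) :
    Valid (n + k + j) (shift k u) (m + k + j) := by
  induction u generalizing n with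
  | nil => simp only [Valid, shift_nil] at h ⊢; omega
  | cons g u ih =>
    obtain ⟨g, i⟩ := g
    simp only [shift_cons, Valid] at h ⊢
    refine ⟨by omega, ?_⟩
    have := ih h.2
    rwa [show n + k + j - g.inp + g.out = n - g.inp + g.out + k + j by omega]

theorem Move.shift {l r : Word} (h : Move l r) (k : ℕ) : Move (shift k l) (shift k r) := by
  cases h with
  | comm a b i t =>
    simp only [shift_cons, shift_nil]
    rw [show i + t + a.out + k = i + k + t + a.out by omega,
      show i + t + a.inp + k = i + k + t + a.inp by omega]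
    exact .comm _ _ _ _
  | zig i => simpa only [shift_cons, shift_nil, Nat.add_right_comm i 1 k] using .zig (i + k)
  | zag i => simpa only [shift_cons, shift_nil, Nat.add_right_comm i 1 k] using .zag (i + k)
  | slideCup e i =>
    simpa only [shift_cons, shift_nil, Nat.add_right_comm i 1 k] using .slideCup e (i + k)
  | slideCap e i =>
    simpa only [shift_cons, shift_nil, Nat.add_right_comm i 1 k] using .slideCap e (i + k)
  | r1Cup e i => exact .r1Cup e (i + k)
  | r1Cap e i => exact .r1Cap e (i + k)
  | r2 e i => exact .r2 e (i + k)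
  | r3 e i => simpa only [shift_cons, shift_nil, Nat.add_right_comm i 1 k] using .r3 e (i + k)

theorem Isotopic.shift {n m : ℕ} {u v : Word} (h : Isotopic n m u v) (k j : ℕ) :
    Isotopic (n + k + j) (m + k + j) (shift k u) (shift k v) := by
  induction h with
  | rel x y h =>
    obtain ⟨h1, h2, p, l, r, s, hm, rfl, rfl⟩ := h
    exact Relation.EqvGen.rel _ _ ⟨h1.shift k j, h2.shift k j, _, _, _, MP_7bc610_gt.shift k s,
      hm.shift k, by simp; rfl, by simp⟩
  | refl => exact Isotopic.refl _
  | symm _ _ _ ih => exact ih.symm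
  | trans _ _ _ _ _ ih ih' => exact ih.trans ih'

/-- `u` may be replaced by `v` wherever `u` makes sense. -/
def Rw (u v : Word) : Prop := ∀ n m, Valid n u m → Isotopic n m u v

namespace Rw

variable {u v w : Word}

theorem refl (u : Word) : Rw u u := fun _ _ _ => Isotopic.refl u

theorem trans (h : Rw u v) (h' : Rw v w) : Rw u w := fun n m hv =>
  (h n m hv).trans (h' n m ((h n m hv).valid_iff.1 hv))

theorem ctx (h : Rw u v) (p s : Word) : Rw (p ++ u ++ s) (p ++ v ++ s) := fun _ _ hv => by
  obtain ⟨k, h1, h2⟩ := valid_append.1 hv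
  obtain ⟨j, h3, h4⟩ := valid_append.1 h1
  exact (h j k h4).ctx h3 h2

theorem left (h : Rw u v) (p : Word) : Rw (p ++ u) (p ++ v) := by simpa using h.ctx p []

theorem right (h : Rw u v) (s : Word) : Rw (u ++ s) (v ++ s) := by simpa using h.ctx [] s

theorem cons (h : Rw u v) (g : Kind × ℕ) : Rw (g :: u) (g :: v) := h.left [g]

theorem move (h : Move u v) : Rw u v := fun _ _ hv =>
  Relation.EqvGen.rel _ _ ⟨hv, h.valid hv, [], u, v, [], h, by simp, by simp⟩

theorem back (h : Rw v u) (hv : ∀ n m, Valid n u m → Valid n v m) : Rw u v := fun n m h' =>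
  (h n m (hv n m h')).symm

theorem commF (k l : Kind) {i q q' : ℕ} (h : i + k.out ≤ q) (h' : q' + k.out = q + k.inp)
    (s : Word) : Rw ((k, i) :: (l, q) :: s) ((l, q') :: (k, i) :: s) := by
  have := (move (Move.comm k l i (q - k.out - i))).right s
  rwa [show i + (q - k.out - i) + k.out = q by omega,
    show i + (q - k.out - i) + k.inp = q' by omega] at this

theorem commB (k l : Kind) {i q q' : ℕ} (h : i + k.out ≤ q) (h' : q' + k.out = q + k.inp)
    (s : Word) : Rw ((l, q') :: (k, i) :: s) ((k, i) :: (l, q) :: s) := by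
  have : Rw [(l, q'), (k, i)] [(k, i), (l, q)] := by
    refine back (commF k l h h' []) fun n m hv => ?_
    simp only [Valid] at hv ⊢
    omega
  exact this.right s

end Rw

theorem inter1 (k : Kind) (i a b : ℕ) (h : i + k.out ≤ a) (h' : b + k.out = a + k.inp)
    (W : Word) : Rw ((k, i) :: shift a W) (shift b W ++ [(k, i)]) := by
  induction W with
  | nil => exact Rw.refl _
  | cons g W ih =>
    obtain ⟨l, q⟩ := g
    exact (Rw.commF k l (by omega) (by omega) _).trans (ih.cons _)

/-- Interchange of heights of two diagrams placed side by side. -/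
theorem inter {Y : Word} {n0 m0 : ℕ} (hY : Valid n0 Y m0) (i j : ℕ) (h : i ≤ j) (W : Word) :
    Rw (shift i Y ++ shift (j + m0) W) (shift (j + n0) W ++ shift i Y) := by
  induction Y generalizing n0 with
  | nil =>
    simp only [Valid] at hY
    subst hY
    simpa using Rw.refl _
  | cons g Y ih =>
    obtain ⟨k, q⟩ := g
    refine ((ih hY.2).cons _).trans ?_
    have h1 := hY.1
    have := (inter1 k (q + i) (j + (n0 - k.inp + k.out)) (j + n0) (by omega) (by omega) W).right
      (shift i Y)
    simpa using this

/-- One strand moving to the right across `n` strands. -/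
def cross (e : Bool) : ℕ → ℕ → Word
  | _, 0 => []
  | i, n + 1 => (.cr e, i) :: cross e (i + 1) n

theorem cross_add (e : Bool) (i a b : ℕ) : cross e i (a + b) = cross e i a ++ cross e (i + a) b := by
  induction a generalizing i with
  | zero => simp [cross]
  | succ a ih =>
    rw [show a + 1 + b = (a + b) + 1 by omega]
    simp only [cross, ih, List.cons_append]
    rw [show i + 1 + a = i + (a + 1) by omega]

theorem cross_shift (e : Bool) (i k n : ℕ) : shift k (cross e i n) = cross e (i + k) n := by
  induction n generalizing i with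
  | zero => rfl
  | succ n ih => simp only [cross, shift_cons, ih, Nat.add_right_comm i 1 k]

theorem nat_local (e : Bool) (k : Kind) (i : ℕ) :
    Rw ((k, i + 1) :: cross e i k.out) (cross e i k.inp ++ [(k, i)]) := by
  cases k with
  | cup =>
    exact ((Rw.move (.slideCup e i)).right [(.cr e, i + 1)]).trans (by
      have := (Rw.move (.r2 (!e) (i + 1))).cons (.cup, i)
      simpa [cross, Kind.inp] using this)
  | cap =>
    refine Rw.back ?_ fun n m hv => ?_
    · have h1 : Rw [(.cr e, i + 1), (.cap, i)] [(.cr (!e), i), (.cap, i + 1)] := by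
        refine Rw.back (by simpa using Rw.move (.slideCap (!e) i)) fun n m hv => ?_
        simp only [Valid, Kind.inp, Kind.out] at hv ⊢; omega
      exact (h1.cons (.cr e, i)).trans ((Rw.move (.r2 e i)).right [(.cap, i + 1)])
    · simp only [Valid, Kind.inp, Kind.out, cross, List.cons_append, List.nil_append] at hv ⊢
      omega
  | cr d =>
    have h3 : ∀ e, Rw [(.cr e, i + 1), (.cr e, i), (.cr e, i + 1)]
        [(.cr e, i), (.cr e, i + 1), (.cr e, i)] := fun e => by
      refine Rw.back (Rw.move (.r3 e i)) fun n m hv => ?_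
      simp only [Valid, Kind.inp, Kind.out] at hv ⊢; omega
    by_cases hd : d = e
    · subst hd; exact h3 d
    · have hd' : d = !e := by cases d <;> cases e <;> simp_all
      subst hd'
      have h1 : Rw [(.cr (!e), i + 1), (.cr e, i), (.cr e, i + 1)]
          [(.cr (!e), i + 1), (.cr e, i), (.cr e, i + 1), (.cr e, i), (.cr (!e), i)] := by
        refine Rw.back ((Rw.move (.r2 e i)).left [_, _, _]) fun n m hv => ?_
        simp only [Valid, Kind.inp, Kind.out] at hv ⊢; omega
      refine h1.trans (((Rw.move (.r3 e i)).ctx [_] [_]).trans ?_)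
      have := (Rw.move (.r2 (!e) (i + 1))).right [(.cr e, i), (.cr e, i + 1), (.cr (!e), i)]
      simpa [cross, Kind.inp] using this

theorem nat1 (e : Bool) (k : Kind) (q j i : ℕ) :
    Rw ((k, q + (i + 1)) :: cross e i (q + k.out + j)) (cross e i (q + k.inp + j) ++ [(k, q + i)]) := by
  induction q generalizing i with
  | zero =>
    simp only [Nat.zero_add, cross_add]
    refine ((nat_local e k i).right _).trans ?_
    rw [List.append_assoc, List.append_assoc]
    refine Rw.left ?_ _
    have := inter1 k i (i + k.out) (i + k.inp) le_rfl (by omega) (cross e 0 j)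
    simpa [cross_shift] using this
  | succ q ih =>
    rw [show q + 1 + k.out + j = (q + k.out + j) + 1 by omega,
      show q + 1 + k.inp + j = (q + k.inp + j) + 1 by omega]
    simp only [cross]
    refine (Rw.commB (.cr e) k (q := q + (i + 1 + 1)) (by simp only [Kind.out]; omega)
      (by simp [Kind.out, Kind.inp]; omega) _).trans ?_
    rw [show q + 1 + i = q + (i + 1) by omega]
    exact (ih (i + 1)).cons _

/-- A strand can be moved across a whole diagram. -/
theorem natural (e : Bool) {Y : Word} {n0 m0 : ℕ} (hY : Valid n0 Y m0) (i : ℕ) :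
    Rw (shift (i + 1) Y ++ cross e i m0) (cross e i n0 ++ shift i Y) := by
  induction Y generalizing n0 with
  | nil =>
    simp only [Valid] at hY
    subst hY
    simpa using Rw.refl _
  | cons g Y ih =>
    obtain ⟨k, q⟩ := g
    refine ((ih hY.2).cons _).trans ?_
    have h1 := hY.1
    have := (nat1 e k q (n0 - k.inp - q) i).right (shift i Y)
    rw [show q + k.out + (n0 - k.inp - q) = n0 - k.inp + k.out by omega,
      show q + k.inp + (n0 - k.inp - q) = n0 by omega] at this
    simpa using this

end Pool.Agent.Lib.MP_7bc610_gt
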