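import Mathlib

/-!
Orbits of the three-strand braid group: two words with the same slope act in the same way on a
point fixed by `y` and by `(xyx)^2`.
-/

namespace Pool.Agent.Lib.MP_7bc610_gt

open Equiv

/-- Words in `x, x⁻¹, y, y⁻¹`. -/
abbrev BW : Type := List (Bool × Bool)

def gen {X : Type} (x y : Perm X) : Bool × Bool → Perm X
  | (true, true) => x
  | (true, false) => x⁻¹
  | (false, true) => y
  | (false, false) => y⁻¹

def act {X : Type} (x y : Perm X) (g : BW) : Perm X := (g.map (gen x y)).prod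

@[simp] theorem act_nil {X : Type} (x y : Perm X) : act x y [] = 1 := rfl

@[simp] theorem act_cons {X : Type} (x y : Perm X) (l : Bool × Bool) (g : BW) :
    act x y (l :: g) = gen x y l * act x y g := by simp [act]

theorem act_append {X : Type} (x y : Perm X) (g h : BW) :
    act x y (g ++ h) = act x y g * act x y h := by simp [act]

def sx : Perm (ℤ × ℤ) where
  toFun v := (v.1, v.2 + v.1)
  invFun v := (v.1, v.2 - v.1)
  left_inv v := by simp
  right_inv v := by simp

def sy : Perm (ℤ × ℤ) where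
  toFun v := (v.1 - v.2, v.2)
  invFun v := (v.1 + v.2, v.2)
  left_inv v := by simp
  right_inv v := by simp

@[simp] theorem sx_apply (v : ℤ × ℤ) : sx v = (v.1, v.2 + v.1) := rfl
@[simp] theorem sx_inv (v : ℤ × ℤ) : sx⁻¹ v = (v.1, v.2 - v.1) := rfl
@[simp] theorem sy_apply (v : ℤ × ℤ) : sy v = (v.1 - v.2, v.2) := rfl
@[simp] theorem sy_inv (v : ℤ × ℤ) : sy⁻¹ v = (v.1 + v.2, v.2) := rfl

/-- The slope `(b, a)` of a word. -/
def slope (g : BW) : ℤ × ℤ := act sx sy g (1, 0)

def tx : Perm (ℤ × ℤ × ℤ) where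
  toFun v := (v.1, v.2.1 + v.1, v.2.2 + 2 * v.2.1 + v.1)
  invFun v := (v.1, v.2.1 - v.1, v.2.2 - 2 * v.2.1 + v.1)
  left_inv v := by ext <;> simp; ring
  right_inv v := by ext <;> simp; ring

def ty : Perm (ℤ × ℤ × ℤ) where
  toFun v := (v.1 - 2 * v.2.1 + v.2.2, v.2.1 - v.2.2, v.2.2)
  invFun v := (v.1 + 2 * v.2.1 + v.2.2, v.2.1 + v.2.2, v.2.2)
  left_inv v := by ext <;> simp; ring
  right_inv v := by ext <;> simp; ring

theorem tx_apply (v : ℤ × ℤ × ℤ) : tx v = (v.1, v.2.1 + v.1, v.2.2 + 2 * v.2.1 + v.1) := rfl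
theorem tx_inv (v : ℤ × ℤ × ℤ) : tx⁻¹ v = (v.1, v.2.1 - v.1, v.2.2 - 2 * v.2.1 + v.1) := rfl
theorem ty_apply (v : ℤ × ℤ × ℤ) : ty v = (v.1 - 2 * v.2.1 + v.2.2, v.2.1 - v.2.2, v.2.2) := rfl
theorem ty_inv (v : ℤ × ℤ × ℤ) : ty⁻¹ v = (v.1 + 2 * v.2.1 + v.2.2, v.2.1 + v.2.2, v.2.2) := rfl

def sq3 (v : ℤ × ℤ) : ℤ × ℤ × ℤ := (v.1 ^ 2, v.2 * v.1, v.2 ^ 2)

theorem sq3_gen (l : Bool × Bool) (v : ℤ × ℤ) : sq3 (gen sx sy l v) = gen tx ty l (sq3 v) := by
  rcases l with ⟨_ | _, _ | _⟩ <;>
    simp only [gen, sx_apply, sx_inv, sy_apply, sy_inv, tx_apply, tx_inv, ty_apply, ty_inv, sq3] <;>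
    (ext <;> simp <;> ring)

theorem sq3_act (g : BW) (v : ℤ × ℤ) : sq3 (act sx sy g v) = act tx ty g (sq3 v) := by
  induction g with
  | nil => simp
  | cons l g ih => simp [sq3_gen, ih]

section Can

variable {X : Type} (x y : Perm X) (u : X)

def pos : List Bool → X
  | [] => x u
  | true :: p => x (pos p)
  | false :: p => y⁻¹ (pos p)

def can : Option (List Bool) × Bool → X
  | (none, false) => u
  | (none, true) => (x * y * x) u
  | (some p, false) => pos x y u p
  | (some p, true) => (x * y * x) (pos x y u p)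

variable {x y u}

theorem rho_x (hbr : x * y * x = y * x * y) : x * y * x * x = y * (x * y * x) := by
  calc x * y * x * x = (y * x * y) * x := by rw [hbr]
    _ = _ := by group

theorem rho_y (hbr : x * y * x = y * x * y) : x * y * x * y = x * (x * y * x) := by
  calc x * y * x * y = x * (y * x * y) := by group
    _ = _ := by rw [← hbr]

theorem can_closed (hbr : x * y * x = y * x * y) (hu : y u = u)
    (hu2 : (x * y * x) ((x * y * x) u) = u) (g : BW) : ∃ c, act x y g u = can x y u c := by
  set r := x * y * x with hr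
  have h1 : ∀ z, r (x z) = y (r z) := fun z =>
    congrArg (fun f : Perm X => f z) (rho_x hbr)
  have h2 : ∀ z, r (y z) = x (r z) := fun z =>
    congrArg (fun f : Perm X => f z) (rho_y hbr)
  have h1' : ∀ z, r (x⁻¹ z) = y⁻¹ (r z) := fun z => by
    rw [Perm.eq_inv_iff_eq, ← h1]; simp
  have h2' : ∀ z, r (y⁻¹ z) = x⁻¹ (r z) := fun z => by
    rw [Perm.eq_inv_iff_eq, ← h2]; simp
  have hu' : y⁻¹ u = u := by rw [Perm.inv_eq_iff_eq, hu]
  have hp : ∀ p, r (r (pos x y u p)) = pos x y u p := by
    intro p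
    induction p with
    | nil => simp only [pos]; rw [h1, h2, hu2]
    | cons b p ih =>
      cases b
      · simp only [pos]; rw [h2', h1', ih]
      · simp only [pos]; rw [h1, h2, ih]
  have hc : ∀ c, r (r (can x y u c)) = can x y u c := by
    rintro ⟨_ | p, _ | _⟩ <;> simp only [can, ← hr, hu2, hp]
  have hrz : ∀ z, r z = x (y (x z)) := fun z => rfl
  have cr : ∀ c, ∃ c', r (can x y u c) = can x y u c' := by
    rintro ⟨_ | p, _ | _⟩
    · exact ⟨(none, true), rfl⟩
    · exact ⟨(none, false), hu2⟩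
    · exact ⟨(some p, true), rfl⟩
    · exact ⟨(some p, false), hp p⟩
  -- `x⁻¹ y⁻¹ z = r (x z)` whenever `r (r (x z)) = x z`
  have key : ∀ z, r (r (x z)) = x z → x⁻¹ (y⁻¹ z) = r (x z) := by
    intro z hz
    apply r.injective
    rw [hz, hrz]; simp
  have cx : ∀ c, ∃ c', x (can x y u c) = can x y u c' := by
    rintro ⟨_ | p, _ | _⟩
    · exact ⟨(some [], false), rfl⟩
    · refine ⟨(none, true), ?_⟩
      simp only [can, ← hr]; rw [← h2, hu]
    · exact ⟨(some (true :: p), false), rfl⟩
    · simp only [can, ← hr]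
      have e : ∀ z, r (r z) = z → x (r (x z)) = y⁻¹ z := by
        intro z hz
        rw [← h2]
        have : y (x z) = x⁻¹ (r z) := by rw [hrz]; simp
        rw [this, h1', hz]
      rcases p with _ | ⟨_ | _, p⟩
      · refine ⟨(none, false), ?_⟩
        simp only [pos]; rw [e u hu2, hu']
      · refine ⟨(some p, true), ?_⟩
        simp only [pos]; rw [← h2]; simp
      · refine ⟨(some (false :: p), false), ?_⟩
        simp only [pos]; rw [e _ (hp p)]
  have cx' : ∀ c, ∃ c', x⁻¹ (can x y u c) = can x y u c' := by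
    rintro ⟨_ | p, _ | _⟩
    · refine ⟨(some [], true), ?_⟩
      simp only [can, ← hr, pos]
      rw [← key u (hp []), hu']
    · refine ⟨(none, true), ?_⟩
      simp only [can, ← hr]; rw [← h2', hu']
    · rcases p with _ | ⟨_ | _, p⟩
      · exact ⟨(none, false), by simp [can, pos]⟩
      · refine ⟨(some (true :: p), true), ?_⟩
        simp only [can, ← hr, pos]
        exact key _ (hp (true :: p))
      · exact ⟨(some p, false), by simp [can, pos]⟩
    · refine ⟨(some (false :: p), true), ?_⟩
      simp only [can, ← hr, pos]; rw [h2']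
  induction g with
  | nil => exact ⟨(none, false), rfl⟩
  | cons l g ih =>
    obtain ⟨c, hc'⟩ := ih
    simp only [act_cons, Perm.mul_apply, hc']
    rcases l with ⟨_ | _, _ | _⟩ <;> simp only [gen]
    · obtain ⟨c1, e1⟩ := cr c
      obtain ⟨c2, e2⟩ := cx' c1
      obtain ⟨c3, e3⟩ := cr c2
      exact ⟨c3, by rw [← e3, ← e2, ← e1, h1', hc]⟩
    · obtain ⟨c1, e1⟩ := cr c
      obtain ⟨c2, e2⟩ := cx c1
      obtain ⟨c3, e3⟩ := cr c2
      exact ⟨c3, by rw [← e3, ← e2, ← e1, h1, hc]⟩
    · exact cx' c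
    · exact cx c

end Can

theorem pos_pos (p : List Bool) : 0 < (pos sx sy (1, 0) p).1 ∧ 0 < (pos sx sy (1, 0) p).2 := by
  induction p with
  | nil => simp [pos]
  | cons b p ih => cases b <;> simp only [pos, sx_apply, sy_inv] <;> omega

theorem pos_inj (p q : List Bool) (h : pos sx sy (1, 0) p = pos sx sy (1, 0) q) : p = q := by
  induction p generalizing q with
  | nil =>
    rcases q with _ | ⟨_ | _, q⟩
    · rfl
    all_goals
      have := pos_pos q
      simp only [pos, sx_apply, sy_inv, Prod.mk.injEq] at h; omega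
  | cons b p ih =>
    have hp := pos_pos p
    rcases q with _ | ⟨c, q⟩
    · cases b <;> simp only [pos, sx_apply, sy_inv, Prod.mk.injEq] at h <;> omega
    · have hq := pos_pos q
      cases b <;> cases c <;> simp only [pos, sx_apply, sy_inv, Prod.mk.injEq] at h
      · rw [ih q (Prod.ext (by omega) (by omega))]
      · omega
      · omega
      · rw [ih q (Prod.ext (by omega) (by omega))]

theorem pos_t (p : List Bool) : pos tx ty (1, 0, 0) p = sq3 (pos sx sy (1, 0) p) := by
  induction p with
  | nil => simp [pos, sq3, tx_apply]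
  | cons b p ih =>
    cases b
    · simp only [pos, ih]; exact (sq3_gen (false, false) _).symm
    · simp only [pos, ih]; exact (sq3_gen (true, true) _).symm

theorem rho_t (v : ℤ × ℤ × ℤ) : (tx * ty * tx) v = (v.2.2, -v.2.1, v.1) := by
  simp only [Perm.mul_apply, tx_apply, ty_apply]
  ext <;> simp <;> ring

theorem sq3_pos_inj (p q : List Bool)
    (h1 : (pos sx sy (1, 0) p).1 ^ 2 = (pos sx sy (1, 0) q).1 ^ 2)
    (h2 : (pos sx sy (1, 0) p).2 ^ 2 = (pos sx sy (1, 0) q).2 ^ 2) : p = q := by
  have hp := pos_pos p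
  have hq := pos_pos q
  apply pos_inj
  exact Prod.ext ((pow_left_inj₀ hp.1.le hq.1.le two_ne_zero).1 h1)
    ((pow_left_inj₀ hp.2.le hq.2.le two_ne_zero).1 h2)

theorem can_inj (c c' : Option (List Bool) × Bool)
    (h : can tx ty (1, 0, 0) c = can tx ty (1, 0, 0) c') : c = c' := by
  have hm : ∀ p, 0 < (pos sx sy (1, 0) p).2 * (pos sx sy (1, 0) p).1 := fun p =>
    mul_pos (pos_pos p).2 (pos_pos p).1
  rcases c with ⟨_ | p, _ | _⟩ <;> rcases c' with ⟨_ | q, _ | _⟩ <;>
    simp only [can, rho_t, pos_t, sq3, Prod.mk.injEq] at h ⊢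
  all_goals first
    | (simp; done)
    | omega
    | (have := hm p; omega)
    | (have := hm q; omega)
    | (have := hm p; have := hm q; omega)
    | (simp only [Option.some.injEq, and_true]; exact sq3_pos_inj p q (by omega) (by omega))

theorem gen_prod {X Y : Type} (x y : Perm X) (x' y' : Perm Y) (l : Bool × Bool) (a : X) (b : Y) :
    gen (Equiv.prodCongr x x') (Equiv.prodCongr y y') l (a, b) = (gen x y l a, gen x' y' l b) := by
  rcases l with ⟨_ | _, _ | _⟩ <;> rfl

theorem act_prod {X Y : Type} (x y : Perm X) (x' y' : Perm Y) (g : BW) (a : X) (b : Y) :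
    act (Equiv.prodCongr x x') (Equiv.prodCongr y y') g (a, b) = (act x y g a, act x' y' g b) := by
  induction g with
  | nil => rfl
  | cons l g ih => simp only [act_cons, Perm.mul_apply, ih, gen_prod]

theorem can_prod {X Y : Type} (x y : Perm X) (x' y' : Perm Y) (a : X) (b : Y) (c) :
    can (Equiv.prodCongr x x') (Equiv.prodCongr y y') (a, b) c = (can x y a c, can x' y' b c) := by
  have hp : ∀ p, pos (Equiv.prodCongr x x') (Equiv.prodCongr y y') (a, b) p =
      (pos x y a p, pos x' y' b p) := by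
    intro p
    induction p with
    | nil => rfl
    | cons e p ih => cases e <;> simp only [pos, ih] <;> rfl
  rcases c with ⟨_ | p, _ | _⟩ <;> simp only [can, hp] <;> rfl

/-- Words with the same slope up to sign act in the same way. -/
theorem orb {X : Type} {x y : Perm X} {u : X} (hbr : x * y * x = y * x * y) (hu : y u = u)
    (hu2 : (x * y * x) ((x * y * x) u) = u) (g g' : BW) (h : sq3 (slope g) = sq3 (slope g')) :
    act x y g u = act x y g' u := by
  have hb : (Equiv.prodCongr x tx : Perm _) * Equiv.prodCongr y ty * Equiv.prodCongr x tx =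
      (Equiv.prodCongr y ty : Perm _) * Equiv.prodCongr x tx * Equiv.prodCongr y ty := by
    ext1 ⟨a, b⟩
    have h1 := congrArg (fun f : Perm X => f a) hbr
    simp only [Perm.mul_apply] at h1 ⊢
    refine Prod.ext h1 ?_
    show tx (ty (tx b)) = ty (tx (ty b))
    simp only [tx_apply, ty_apply]
    ext <;> simp <;> ring
  have hv : (Equiv.prodCongr y ty : Perm _) (u, ((1, 0, 0) : ℤ × ℤ × ℤ)) = (u, (1, 0, 0)) := by
    refine Prod.ext hu ?_
    show ty (1, 0, 0) = _
    simp [ty_apply]
  have hv2 : ((Equiv.prodCongr x tx : Perm _) * Equiv.prodCongr y ty * Equiv.prodCongr x tx)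
      (((Equiv.prodCongr x tx : Perm _) * Equiv.prodCongr y ty * Equiv.prodCongr x tx)
        (u, ((1, 0, 0) : ℤ × ℤ × ℤ))) = (u, (1, 0, 0)) := by
    refine Prod.ext hu2 ?_
    show (tx * ty * tx) ((tx * ty * tx) (1, 0, 0)) = _
    simp [rho_t]
  obtain ⟨c, hc⟩ := can_closed hb hv hv2 g
  obtain ⟨c', hc'⟩ := can_closed hb hv hv2 g'
  rw [act_prod, can_prod, Prod.mk.injEq] at hc hc'
  have e1 : ∀ g, act tx ty g (1, 0, 0) = sq3 (slope g) := fun g => by
    rw [slope, sq3_act]; rfl
  have : c = c' := can_inj c c' (by rw [← hc.2, ← hc'.2, e1, e1, h])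
  rw [hc.1, hc'.1, this]

/-- Powers of one letter. -/
def pw (b : Bool) (k : ℤ) : BW := List.replicate k.natAbs (b, decide (0 ≤ k))

theorem act_pw {X : Type} (x y : Perm X) (b : Bool) (k : ℤ) :
    act x y (pw b k) = (if b then x else y) ^ k := by
  simp only [act, pw, List.map_replicate, List.prod_replicate]
  rcases Int.natAbs_eq k with h | h
  · have h0 : 0 ≤ k := by omega
    rw [decide_eq_true h0]
    conv_rhs => rw [h, zpow_natCast]
    cases b <;> simp [gen]
  · by_cases h0 : 0 ≤ k
    · have : k = 0 := by omega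
      subst this; simp
    · rw [decide_eq_false h0]
      conv_rhs => rw [h, zpow_neg, zpow_natCast]
      cases b <;> simp [gen]

theorem sx_zpow (k : ℤ) (v : ℤ × ℤ) : (sx ^ k) v = (v.1, v.2 + k * v.1) := by
  induction k using Int.induction_on generalizing v with
  | zero => simp
  | succ k ih => rw [zpow_add_one, Perm.mul_apply, ih]; ext <;> simp; ring
  | pred k ih => rw [zpow_sub_one, Perm.mul_apply, ih]; ext <;> simp; ring

theorem sy_zpow (k : ℤ) (v : ℤ × ℤ) : (sy ^ k) v = (v.1 - k * v.2, v.2) := by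
  induction k using Int.induction_on generalizing v with
  | zero => simp
  | succ k ih => rw [zpow_add_one, Perm.mul_apply, ih]; ext <;> simp; ring
  | pred k ih => rw [zpow_sub_one, Perm.mul_apply, ih]; ext <;> simp; ring

/-- The word `xyx`. -/
def rw3 : BW := [(true, true), (false, true), (true, true)]

theorem act_rw3 {X : Type} (x y : Perm X) : act x y rw3 = x * y * x := by
  simp [rw3, gen, mul_assoc]

theorem slope_append (g h : BW) : slope (g ++ h) = act sx sy g (slope h) := by
  simp [slope, act_append]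

theorem slope_rw3 (h : BW) : slope (rw3 ++ h) = (-(slope h).2, (slope h).1) := by
  rw [slope_append, act_rw3]; ext <;> simp

theorem slope_pwx (k : ℤ) (h : BW) :
    slope (pw true k ++ h) = ((slope h).1, (slope h).2 + k * (slope h).1) := by
  rw [slope_append, act_pw]; simp [sx_zpow]

theorem slope_pwy (k : ℤ) (h : BW) :
    slope (pw false k ++ h) = ((slope h).1 - k * (slope h).2, (slope h).2) := by
  rw [slope_append, act_pw]; simp [sy_zpow]

@[simp] theorem slope_nil : slope [] = (1, 0) := rfl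

theorem slope_coprime (g : BW) : IsCoprime (slope g).1 (slope g).2 := by
  induction g with
  | nil => simp [isCoprime_one_left]
  | cons l g ih =>
    have : slope (l :: g) = gen sx sy l (slope g) := by simp [slope]
    rw [this]
    obtain ⟨p, q, h⟩ := ih
    rcases l with ⟨_ | _, _ | _⟩ <;> simp only [gen, sx_apply, sx_inv, sy_apply, sy_inv]
    · exact ⟨p, q - p, by linear_combination h⟩
    · exact ⟨p, q + p, by linear_combination h⟩
    · exact ⟨p + q, q, by linear_combination h⟩
    · exact ⟨p - q, q, by linear_combination h⟩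

/-- Every coprime pair is a slope, up to sign. -/
theorem exists_slope (v : ℤ × ℤ) (h : IsCoprime v.1 v.2) : ∃ g, sq3 (slope g) = sq3 v := by
  obtain ⟨b, a⟩ := v
  induction hn : b.natAbs using Nat.strong_induction_on generalizing b a with
  | _ n ih =>
    by_cases hb : b = 0
    · subst hb
      have ha : a = 1 ∨ a = -1 := Int.isUnit_iff.1 (isCoprime_zero_left.1 h)
      refine ⟨rw3 ++ [], ?_⟩
      rw [slope_rw3]
      rcases ha with rfl | rfl <;> simp [sq3]
    · have h1 : (a % b).natAbs < n := by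
        have := Int.emod_nonneg a hb
        have := Int.emod_lt_abs a hb
        rw [← hn]
        have : |b| = b.natAbs := Int.abs_eq_natAbs b
        omega
      have h2 : IsCoprime (a % b) (-b) := by
        obtain ⟨p, q, h⟩ := h
        refine ⟨q, -(p + q * (a / b)), ?_⟩
        have := Int.emod_add_mul_ediv a b
        simp only at h
        linear_combination h + q * this
      obtain ⟨g, hg⟩ := ih _ h1 (a % b) (-b) h2 rfl
      refine ⟨pw true (a / b) ++ (rw3 ++ g), ?_⟩
      rw [slope_pwx, slope_rw3]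
      simp only [sq3, Prod.mk.injEq] at hg ⊢
      have := Int.emod_add_mul_ediv a b
      obtain ⟨e1, e2, e3⟩ := hg
      refine ⟨by linear_combination e3, ?_, ?_⟩
      · linear_combination (-1 : ℤ) * e2 + (a / b) * e3 + b * this
      · linear_combination e1 - 2 * (a / b) * e2 + (a / b) ^ 2 * e3 +
          (a % b + b * (a / b) + a) * this

end Pool.Agent.Lib.MP_7bc610_gt
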