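import Pool.Agent.Lib.MP_7bc610_gt.M29Defs

/-!
Diagrams of links in real projective 3-space (Drobotukhina): tangles in a disc whose `2 n` ends
are identified in antipodal pairs.
-/

namespace Pool.Agent.Lib.MP_7bc610_gt

/-- The identification of antipodal ends: the end `i` is joined to the end `i + n`. -/
def anti (n a b : ℕ) : Prop := a = b ∨ (a < n ∧ b = a + n) ∨ (b < n ∧ a = b + n)

/-- A pair `(n, w)` is a diagram `w` in the half-plane with `2 n` ends on the boundary line, the
ends `i` and `i + n` being identified.  One step is a local move inside the disc, the passage of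
a crossing or of an arc through the boundary circle to the antipodal place, or the passage of
the leftmost end through the point at infinity of the boundary line. -/
inductive PStep : ℕ × Word → ℕ × Word → Prop where
  | move {n : ℕ} {u v : Word} : Step (2 * n) 0 u v → PStep (n, u) (n, v)
  | cross {n i : ℕ} {e : Bool} {w : Word} : i + 2 ≤ n → Valid (2 * n) w 0 →
      PStep (n, (.cr e, i) :: w) (n, (.cr e, i + n) :: w)
  | arcL {n i : ℕ} {w : Word} : i ≤ n → Valid (2 * n + 2) w 0 →
      PStep (n + 2, (.cap, i) :: w) (n, (.cup, i + n) :: w)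
  | arcR {n i : ℕ} {w : Word} : i ≤ n → Valid (2 * n + 2) w 0 →
      PStep (n + 2, (.cap, i + n + 2) :: w) (n, (.cup, i) :: w)
  | turn {n : ℕ} {w : Word} : Valid (2 * (n + 1)) w 0 →
      PStep (n + 1, w) (n + 1, (.cup, 0) :: shift 1 w ++ [(.cap, 0)])

end Pool.Agent.Lib.MP_7bc610_gt
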