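import Pool.Agent.Lib.MP_7bc610_gt.Morse
import Pool.Agent.Lib.MP_7bc610_gt.RpDefs

/-!
Colourings of a diagram by pairs of permutations: the first entry is a colouring of the diagram by
the core quandle, the second one a colouring of the diagram with all crossings switched.
-/

namespace Pool.Agent.Lib.MP_7bc610_gt.Rp

open Finset

abbrev G : Type := Equiv.Perm (Fin 6)

abbrev F : Type := G × G

def op (a b : G) : G := a * b⁻¹ * a

theorem op_self (a : G) : op a a = a := by simp [op]

theorem op_op (a b : G) : op a (op a b) = b := by simp [op, mul_assoc]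

theorem op_dist (a b c : G) : op (op a b) (op a c) = op a (op b c) := by simp [op, mul_assoc]

theorem op_eq {a b c : G} : op a b = c ↔ b = op a c :=
  ⟨fun h => by rw [← h, op_op], fun h => by rw [h, op_op]⟩

def lft (e : Bool) (x y : F) : F := if e then (op x.1 y.1, y.2) else (y.1, op x.2 y.2)

def rgt (e : Bool) (x y : F) : F := if e then (x.1, op y.2 x.2) else (op y.1 x.1, x.2)

theorem lft_self (e : Bool) (x : F) : lft e x x = x := by cases e <;> simp [lft, op_self]

theorem rgt_self (e : Bool) (x : F) : rgt e x x = x := by cases e <;> simp [rgt, op_self]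

theorem lft_inv (e : Bool) (x y : F) : lft (!e) (lft e x y) (rgt e x y) = x := by
  cases e <;> simp [lft, rgt, op_op]

theorem rgt_inv (e : Bool) (x y : F) : rgt (!e) (lft e x y) (rgt e x y) = y := by
  cases e <;> simp [lft, rgt, op_op]

theorem lft_eq_rgt (e : Bool) (x y : F) : lft e x y = rgt e x y ↔ x = y := by
  refine ⟨fun h => ?_, fun h => by rw [h, lft_self, rgt_self]⟩
  have h1 := lft_inv e x y
  have h2 := rgt_inv e x y
  rw [h, lft_self] at h1
  rw [h, rgt_self] at h2
  exact h1.symm.trans h2

theorem lft_lft (e : Bool) (x y : F) : lft e x (lft e x y) = y := by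
  cases e <;> simp [lft, op_op]

theorem lft_turn (e : Bool) (x y : F) : lft (!e) (lft e x y) x = rgt e x y := by
  cases e <;> simp [lft, rgt, op, mul_assoc]

theorem rgt_turn (e : Bool) (x y : F) : rgt (!e) (lft e x y) x = y := by
  cases e <;> simp [lft, rgt, op_op]

theorem cap_iff (e : Bool) (x y z : F) : rgt e x y = z ↔ x = lft (!e) y z := by
  cases e <;> simp [lft, rgt, Prod.ext_iff, op_eq]

theorem cap_val (e : Bool) (y z : F) : lft e (lft (!e) y z) y = rgt (!e) y z := by
  simpa using lft_turn (!e) y z

theorem yb1 (e : Bool) (x y z : F) :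
    lft e (lft e x y) (lft e (rgt e x y) z) = lft e x (lft e y z) := by
  cases e <;> simp [lft, rgt, op, mul_assoc]

theorem yb2 (e : Bool) (x y z : F) : rgt e (lft e x y) (lft e (rgt e x y) z) =
    lft e (rgt e x (lft e y z)) (rgt e y z) := by
  cases e <;> simp [lft, rgt, op, mul_assoc]

theorem yb3 (e : Bool) (x y z : F) :
    rgt e (rgt e x y) z = rgt e (rgt e x (lft e y z)) (rgt e y z) := by
  cases e <;> simp [lft, rgt, op, mul_assoc]

theorem lft_swap (e : Bool) (x y : F) : (lft e x y).swap = lft (!e) x.swap y.swap := by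
  cases e <;> simp [lft]

theorem rgt_swap (e : Bool) (x y : F) : (rgt e x y).swap = rgt (!e) x.swap y.swap := by
  cases e <;> simp [rgt]

def insC (i : ℕ) (a : F) (x : ℕ → F) (n : ℕ) : F :=
  if n < i then x n else if n < i + 2 then a else x (n - 2)

def delC (i : ℕ) (x : ℕ → F) (n : ℕ) : F := if n < i then x n else x (n + 2)

def crC (e : Bool) (i : ℕ) (x : ℕ → F) (n : ℕ) : F :=
  if n = i then lft e (x i) (x (i + 1))
  else if n = i + 1 then rgt e (x i) (x (i + 1)) else x n

/-- The sum of `f` over the top colours of all colourings with bottom colours `x`. -/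
def pull : Word → ((ℕ → F) → ℕ) → (ℕ → F) → ℕ
  | [], f, x => f x
  | (.cup, i) :: w, f, x => ∑ a, pull w f (insC i a x)
  | (.cap, i) :: w, f, x => if x i = x (i + 1) then pull w f (delC i x) else 0
  | (.cr e, i) :: w, f, x => pull w f (crC e i x)

theorem pull_append (u v : Word) (f : (ℕ → F) → ℕ) : pull (u ++ v) f = pull u (pull v f) := by
  induction u with
  | nil => rfl
  | cons g u ih =>
    obtain ⟨k, i⟩ := g
    funext x
    rcases k with _ | _ | e <;> simp only [List.cons_append, pull, ih]

theorem ins_ins (i t : ℕ) (a b : F) (x : ℕ → F) :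
    insC (i + t + 2) b (insC i a x) = insC i a (insC (i + t) b x) := by
  funext n
  simp only [insC]
  split_ifs <;> first | rfl | omega

theorem del_ins (i t : ℕ) (a : F) (x : ℕ → F) :
    delC (i + t + 2) (insC i a x) = insC i a (delC (i + t) x) := by
  funext n
  simp only [insC, delC]
  split_ifs <;> first | rfl | omega | (congr 1; omega)

theorem ins_up (i n : ℕ) (a : F) (x : ℕ → F) (h : i ≤ n) : insC i a x (n + 2) = x n := by
  simp only [insC]
  split_ifs <;> first | rfl | omega

theorem ins_lo {i n : ℕ} (a : F) (x : ℕ → F) (h : n < i) : insC i a x n = x n := if_pos h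

theorem del_lo {i n : ℕ} (x : ℕ → F) (h : n < i) : delC i x n = x n := if_pos h

theorem del_up {i n : ℕ} (x : ℕ → F) (h : i ≤ n) : delC i x n = x (n + 2) := if_neg (by omega)

theorem cr_ne {i n : ℕ} (e : Bool) (x : ℕ → F) (h : n ≠ i) (h' : n ≠ i + 1) :
    crC e i x n = x n := by rw [crC, if_neg h, if_neg h']

theorem cr_ins (e : Bool) (i t : ℕ) (a : F) (x : ℕ → F) :
    crC e (i + t + 2) (insC i a x) = insC i a (crC e (i + t) x) := by
  funext n
  have h1 := ins_up i (i + t) a x (by omega)
  have h2 := ins_up i (i + t + 1) a x (by omega)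
  simp only [crC, h1, show i + t + 2 + 1 = i + t + 1 + 2 from rfl, h2]
  simp only [insC, crC]
  split_ifs <;> first | rfl | omega

theorem ins_del (i t : ℕ) (a : F) (x : ℕ → F) :
    insC (i + t) a (delC i x) = delC i (insC (i + t + 2) a x) := by
  funext n
  simp only [insC, delC]
  split_ifs <;> first | rfl | omega | (congr 1; omega)

theorem del_del (i t : ℕ) (x : ℕ → F) :
    delC (i + t) (delC i x) = delC i (delC (i + t + 2) x) := by
  funext n
  simp only [delC]
  split_ifs <;> first | rfl | omega

theorem cr_del (e : Bool) (i t : ℕ) (x : ℕ → F) :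
    crC e (i + t) (delC i x) = delC i (crC e (i + t + 2) x) := by
  funext n
  simp only [crC, del_up x (show i ≤ i + t by omega), del_up x (show i ≤ i + t + 1 by omega)]
  simp only [delC, crC]
  split_ifs <;> first | rfl | omega

theorem ins_cr (e : Bool) (i t : ℕ) (a : F) (x : ℕ → F) :
    insC (i + t + 2) a (crC e i x) = crC e i (insC (i + t + 2) a x) := by
  funext n
  simp only [crC, ins_lo a x (show i < i + t + 2 by omega),
    ins_lo a x (show i + 1 < i + t + 2 by omega)]
  simp only [insC, crC]
  split_ifs <;> first | rfl | omega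

theorem del_cr (e : Bool) (i t : ℕ) (x : ℕ → F) :
    delC (i + t + 2) (crC e i x) = crC e i (delC (i + t + 2) x) := by
  funext n
  simp only [crC, del_lo x (show i < i + t + 2 by omega),
    del_lo x (show i + 1 < i + t + 2 by omega)]
  simp only [delC, crC]
  split_ifs <;> first | rfl | omega

theorem cr_cr (e e' : Bool) (i t : ℕ) (x : ℕ → F) :
    crC e' (i + t + 2) (crC e i x) = crC e i (crC e' (i + t + 2) x) := by
  funext n
  rw [crC, cr_ne e x (n := i + t + 2) (by omega) (by omega),
    cr_ne e x (n := i + t + 2 + 1) (by omega) (by omega)]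
  conv_rhs => rw [crC, cr_ne e' x (n := i) (by omega) (by omega),
    cr_ne e' x (n := i + 1) (by omega) (by omega)]
  simp only [crC]
  split_ifs <;> first | rfl | omega

theorem pull_comm (k l : Kind) (i t : ℕ) (f : (ℕ → F) → ℕ) (x : ℕ → F) :
    pull [(k, i), (l, i + t + k.out)] f x = pull [(l, i + t + k.inp), (k, i)] f x := by
  rcases k with _ | _ | e <;> rcases l with _ | _ | e' <;>
    simp only [pull, Kind.inp, Kind.out, Nat.add_zero]
  · rw [sum_comm]
    simp only [ins_ins]
  · simp only [ins_up i (i + t) _ x (by omega), del_ins,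
      show i + t + 2 + 1 = i + t + 1 + 2 from rfl, ins_up i (i + t + 1) _ x (by omega)]
    split_ifs <;> simp
  · simp only [cr_ins]
  · simp only [ins_del, ins_lo _ x (show i < i + t + 2 by omega),
      ins_lo _ x (show i + 1 < i + t + 2 by omega)]
    split_ifs <;> simp
  · simp only [del_del, del_up x (show i ≤ i + t by omega), del_up x (show i ≤ i + t + 1 by omega),
      del_lo x (show i < i + t + 2 by omega), del_lo x (show i + 1 < i + t + 2 by omega),
      show i + t + 2 + 1 = i + t + 1 + 2 from rfl]
    split_ifs <;> rfl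
  · rw [cr_del, cr_ne e' x (n := i) (by omega) (by omega),
      cr_ne e' x (n := i + 1) (by omega) (by omega)]
  · simp only [ins_cr]
  · rw [del_cr, cr_ne e x (n := i + t + 2) (by omega) (by omega),
      cr_ne e x (n := i + t + 2 + 1) (by omega) (by omega)]
  · rw [cr_cr]

theorem cr_fst (e : Bool) (i : ℕ) (x : ℕ → F) : crC e i x i = lft e (x i) (x (i + 1)) :=
  if_pos rfl

theorem cr_snd (e : Bool) (i : ℕ) (x : ℕ → F) :
    crC e i x (i + 1) = rgt e (x i) (x (i + 1)) := by
  rw [crC, if_neg (by omega), if_pos rfl]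

theorem ins_fst (i : ℕ) (a : F) (x : ℕ → F) : insC i a x i = a := by simp [insC]

theorem ins_snd (i : ℕ) (a : F) (x : ℕ → F) : insC i a x (i + 1) = a := by simp [insC]

theorem ext3 {x y : ℕ → F} (i : ℕ) (h0 : x i = y i) (h1 : x (i + 1) = y (i + 1))
    (h2 : x (i + 2) = y (i + 2)) (h : ∀ n, n ≠ i → n ≠ i + 1 → n ≠ i + 2 → x n = y n) :
    x = y := by
  funext n
  by_cases a : n = i
  · rwa [a]
  by_cases b : n = i + 1
  · rwa [b]
  by_cases c : n = i + 2
  · rwa [c]
  exact h n a b c

theorem pull_move {l r : Word} (h : Move l r) (f : (ℕ → F) → ℕ) : pull l f = pull r f := by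
  funext x
  cases h with
  | comm k l i t => exact pull_comm k l i t f x
  | zig i =>
    simp only [pull, ins_lo _ x (Nat.lt_succ_self i), ins_fst, sum_ite_eq, mem_univ, if_true]
    congr 1
    funext n
    simp only [insC, delC]
    split_ifs <;> first | rfl | omega | (congr 1; omega)
  | zag i =>
    simp only [pull, ins_snd, ins_up i i _ x le_rfl, sum_ite_eq', mem_univ, if_true]
    congr 1
    funext n
    simp only [insC, delC]
    split_ifs <;> first | rfl | omega | (congr 1; omega)
  | slideCup e i =>
    have h1 : i ≠ i + 1 + 1 := by omega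
    have h2 : ¬ i + 1 + 1 < i := by omega
    have h3 : ∀ a b n, n ≠ i → n ≠ i + 1 → n ≠ i + 2 → crC e i (insC (i + 1) a x) n =
        crC (!e) (i + 1) (insC i b x) n := fun a b n h h' h'' => by
      rw [cr_ne _ _ h h', cr_ne _ _ h' h'']
      simp only [insC]
      split_ifs <;> first | rfl | omega
    simp only [pull]
    rw [← Equiv.sum_comp (Function.Involutive.toPerm (lft e (x i)) (lft_lft e (x i)))
      fun b => f (crC (!e) (i + 1) (insC i b x))]
    refine sum_congr rfl fun a _ => congrArg f (ext3 i ?_ ?_ ?_ (h3 a _)) <;>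
      simp [crC, insC, h1, h2, lft_turn, rgt_turn]
  | slideCap e i =>
    have h1 : i + 1 + 1 ≠ i := by omega
    simp only [pull, cr_fst, cr_snd, cr_ne _ x h1 (by omega),
      cr_ne _ x (n := i) (i := i + 1) (by omega) (by omega)]
    refine if_ctx_congr (cap_iff e _ _ _) (fun h => congrArg f (funext fun n => ?_)) fun _ => rfl
    by_cases hn : n = i
    · subst hn
      rw [del_lo _ (Nat.lt_succ_self n), del_up _ le_rfl, cr_fst, cr_snd, h, cap_val]
    · simp only [delC, crC]
      split_ifs <;> first | rfl | omega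
  | r1Cup e i =>
    simp only [pull]
    refine sum_congr rfl fun a _ => congrArg f ?_
    refine ext3 i ?_ ?_ (cr_ne _ _ (by omega) (by omega)) fun n a b _ => cr_ne _ _ a b
    · rw [cr_fst, ins_fst, ins_snd, lft_self]
    · rw [cr_snd, ins_fst, ins_snd, rgt_self]
  | r1Cap e i =>
    simp only [pull, cr_fst, cr_snd]
    have h1 : delC i (crC e i x) = delC i x := by
      funext n
      simp only [delC, crC]
      split_ifs <;> first | rfl | omega
    rw [h1]
    exact if_congr (lft_eq_rgt e _ _) rfl rfl
  | r2 e i =>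
    simp only [pull]
    refine congrArg f (ext3 i ?_ ?_ ?_ fun n a b _ => by rw [cr_ne _ _ a b, cr_ne _ _ a b])
    · rw [cr_fst, cr_fst, cr_snd, lft_inv]
    · rw [cr_snd, cr_fst, cr_snd, rgt_inv]
    · rw [cr_ne _ _ (by omega) (by omega), cr_ne _ _ (by omega) (by omega)]
  | r3 e i =>
    have h1 : i + 1 + 1 ≠ i := by omega
    simp only [pull]
    refine congrArg f (ext3 i ?_ ?_ ?_ fun n a b c => ?_)
    · simp [crC, h1, h1.symm, yb1]
    · simp [crC, h1, h1.symm, yb2]
    · simp [crC, h1, h1.symm, ← yb3]
    · simp [crC, a, b, c]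

end Pool.Agent.Lib.MP_7bc610_gt.Rp
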