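import Pool.Agent.Lib.MP_7bc610_gt.RpCol

/-!
The number of colourings of the lift to the 3-sphere is an invariant of projective diagrams.
-/

namespace Pool.Agent.Lib.MP_7bc610_gt.Rp

open Finset

def dual : Kind → Kind
  | .cup => .cap
  | .cap => .cup
  | .cr e => .cr e

def rev (w : Word) : Word := (w.map fun g => (dual g.1, g.2)).reverse

theorem rev_cons (k : Kind) (i : ℕ) (w : Word) : rev ((k, i) :: w) = rev w ++ [(dual k, i)] := by
  simp [rev]

theorem rev_append (u v : Word) : rev (u ++ v) = rev v ++ rev u := by simp [rev]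

theorem rev_shift (k : ℕ) (w : Word) : rev (shift k w) = shift k (rev w) := by
  simp [rev, shift, Function.comp_def]

theorem dual_inp (k : Kind) : (dual k).inp = k.out := by cases k <;> rfl

theorem dual_out (k : Kind) : (dual k).out = k.inp := by cases k <;> rfl

theorem valid_rev : ∀ {w : Word} {n m : ℕ}, Valid n w m → Valid m (rev w) n
  | [], _, _, h => h.symm
  | (k, i) :: w, n, m, h => by
    rw [rev_cons, valid_append]
    refine ⟨_, valid_rev h.2, ?_⟩
    have := h.1
    simp only [Valid, dual_inp, dual_out]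
    omega

theorem pull_rev {l r : Word} (h : Move l r) (f : (ℕ → F) → ℕ) :
    pull (rev l) f = pull (rev r) f := by
  cases h with
  | comm k l i t =>
    have := pull_move (.comm (dual k) (dual l) i t) f
    rw [dual_inp, dual_out] at this
    exact this.symm
  | zig i => exact pull_move (.zag i) f
  | zag i => exact pull_move (.zig i) f
  | slideCup e i => exact pull_move (.slideCap e i) f
  | slideCap e i => exact pull_move (.slideCup e i) f
  | r1Cup e i => exact pull_move (.r1Cap e i) f
  | r1Cap e i => exact pull_move (.r1Cup e i) f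
  | r2 e i =>
    have := pull_move (.r2 (!e) i) f
    rw [Bool.not_not] at this
    exact this
  | r3 e i => exact pull_move (.r3 e i) f

/-- Antipodal ends carry exchanged colours. -/
def Anti (n : ℕ) (x : ℕ → F) : Prop := ∀ j < n, x (j + n) = (x j).swap

instance (n : ℕ) (x : ℕ → F) : Decidable (Anti n x) := Nat.decidableBallLT _ _

def chi (n : ℕ) (x : ℕ → F) : ℕ := if Anti n x then 1 else 0

def cnt (p : ℕ × Word) : ℕ := pull (rev p.2) (chi p.1) fun _ => 1

theorem swap_iff (e : Bool) (a b c d : F) : c = (lft e a b).swap ∧ d = (rgt e a b).swap ↔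
    lft e c d = a.swap ∧ rgt e c d = b.swap := by
  rw [lft_swap, rgt_swap]
  constructor
  · rintro ⟨rfl, rfl⟩
    simpa using And.intro (lft_inv (!e) a.swap b.swap) (rgt_inv (!e) a.swap b.swap)
  · rintro ⟨h, h'⟩
    rw [← h, ← h', lft_inv, rgt_inv]
    exact ⟨rfl, rfl⟩

theorem ball_split {n i : ℕ} (h : i + 2 ≤ n) (P : ℕ → Prop) :
    (∀ j < n, P j) ↔ (P i ∧ P (i + 1)) ∧ ∀ j < n, j ≠ i → j ≠ i + 1 → P j := by
  refine ⟨fun H => ⟨⟨H _ (by omega), H _ (by omega)⟩, fun j hj _ _ => H j hj⟩, fun H j hj => ?_⟩
  by_cases a : j = i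
  · exact a ▸ H.1.1
  by_cases b : j = i + 1
  · exact b ▸ H.1.2
  exact H.2 j hj a b

theorem anti_cross {n i : ℕ} (h : i + 2 ≤ n) (e : Bool) (x : ℕ → F) :
    Anti n (crC e i x) ↔ Anti n (crC e (i + n) x) := by
  unfold Anti
  refine (ball_split h _).trans (Iff.trans ?_ (ball_split h _).symm)
  refine and_congr ?_ (forall_congr' fun j => forall_congr' fun hj => forall_congr' fun a =>
    forall_congr' fun b => ?_)
  · rw [cr_fst, cr_snd, cr_fst, show i + 1 + n = i + n + 1 by omega, cr_snd,
      cr_ne e x (n := i + n) (by omega) (by omega),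
      cr_ne e x (n := i + n + 1) (by omega) (by omega), cr_ne e x (n := i) (by omega) (by omega),
      cr_ne e x (n := i + 1) (by omega) (by omega)]
    exact swap_iff e _ _ _ _
  · rw [cr_ne e x a b, cr_ne e x (n := j + n) (by omega) (by omega),
      cr_ne e x (n := j + n) (by omega) (by omega), cr_ne e x (n := j) (by omega) (by omega)]

theorem anti_arcL {n i : ℕ} (h : i ≤ n) (a : F) (x : ℕ → F) :
    Anti (n + 2) (insC i a x) ↔
      a = (x (i + n)).swap ∧ x (i + n) = x (i + n + 1) ∧ Anti n (delC (i + n) x) := by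
  unfold Anti
  rw [ball_split (show i + 2 ≤ n + 2 by omega), ins_fst, ins_snd, ← and_assoc,
    show i + (n + 2) = i + n + 2 from rfl, ins_up _ _ _ _ (by omega),
    show i + 1 + (n + 2) = i + n + 1 + 2 by omega, ins_up _ _ _ _ (by omega)]
  refine and_congr ?_ ⟨fun H j hj => ?_, fun H j hj a b => ?_⟩
  · constructor
    · rintro ⟨h1, h2⟩
      rw [h1, h2]
      exact ⟨rfl, rfl⟩
    · rintro ⟨h1, h2⟩
      rw [h1, ← h2]
      exact ⟨rfl, rfl⟩
  · rw [del_lo (n := j) _ (by omega)]
    by_cases hi : j < i
    · have := H j (by omega) (by omega) (by omega)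
      rwa [show j + (n + 2) = j + n + 2 from rfl, ins_up _ _ _ _ (by omega), ins_lo _ _ hi,
        ← del_lo (i := i + n) (n := j + n) x (by omega)] at this
    · have := H (j + 2) (by omega) (by omega) (by omega)
      rwa [show j + 2 + (n + 2) = j + n + 2 + 2 by omega, ins_up _ _ _ _ (by omega),
        ins_up _ _ _ _ (by omega), ← del_up (i := i + n) (n := j + n) x (by omega)] at this
  · rw [show j + (n + 2) = j + n + 2 from rfl, ins_up _ _ _ _ (by omega)]
    by_cases hi : j < i
    · have := H j (by omega)
      rwa [del_lo _ (by omega), del_lo _ (by omega), ← ins_lo _ x hi] at this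
    · obtain ⟨k, rfl⟩ : ∃ k, j = k + 2 := ⟨j - 2, by omega⟩
      have := H k (by omega)
      rw [del_up _ (by omega), del_lo _ (by omega)] at this
      rw [ins_up _ _ _ _ (by omega), ← this]
      congr 1
      omega

theorem anti_arcR {n i : ℕ} (h : i ≤ n) (a : F) (x : ℕ → F) :
    Anti (n + 2) (insC (i + n + 2) a x) ↔
      a = (x i).swap ∧ x i = x (i + 1) ∧ Anti n (delC i x) := by
  unfold Anti
  rw [ball_split (show i + 2 ≤ n + 2 by omega), ← and_assoc,
    show i + (n + 2) = i + n + 2 from rfl, ins_fst,
    show i + 1 + (n + 2) = i + n + 2 + 1 by omega, ins_snd, ins_lo _ _ (by omega),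
    ins_lo _ _ (by omega)]
  refine and_congr ?_ ⟨fun H j hj => ?_, fun H j hj a b => ?_⟩
  · constructor
    · rintro ⟨h1, h2⟩
      exact ⟨h1, Prod.swap_injective (h1.symm.trans h2)⟩
    · rintro ⟨h1, h2⟩
      exact ⟨h1, h2 ▸ h1⟩
  · rw [del_up (n := j + n) _ (by omega)]
    by_cases hi : j < i
    · have := H j (by omega) (by omega) (by omega)
      rwa [ins_lo _ _ (by omega), ins_lo _ _ (by omega), ← del_lo x hi] at this
    · have := H (j + 2) (by omega) (by omega) (by omega)
      rwa [show j + 2 + (n + 2) = j + n + 2 + 2 by omega, ins_up _ _ _ _ (by omega),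
        ins_lo _ _ (by omega), ← del_up (i := i) (n := j) x (by omega)] at this
  · rw [ins_lo (n := j) _ _ (by omega)]
    by_cases hi : j < i
    · have := H j (by omega)
      rw [del_up _ (by omega), del_lo _ hi] at this
      rwa [ins_lo _ _ (by omega)]
    · obtain ⟨k, rfl⟩ : ∃ k, j = k + 2 := ⟨j - 2, by omega⟩
      have := H k (by omega)
      rw [del_up _ (by omega), del_up _ (by omega)] at this
      rwa [show k + 2 + (n + 2) = k + n + 2 + 2 by omega, ins_up _ _ _ _ (by omega)]

theorem sum_pick {P : F → Prop} [DecidablePred P] {Q R : Prop} [Decidable Q] [Decidable R] {c : F}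
    (h : ∀ a, P a ↔ a = c ∧ Q ∧ R) :
    ∑ a, (if P a then 1 else 0) = if Q then (if R then 1 else 0) else 0 := by
  simp only [h, ite_and, sum_ite_eq', mem_univ, if_true]

def cons (a : F) (x : ℕ → F) : ℕ → F
  | 0 => a
  | n + 1 => x n

def app (n : ℕ) (x t : ℕ → F) (i : ℕ) : F := if i < n then x i else t (i - n)

theorem pull_shift (a : F) (f : (ℕ → F) → ℕ) : ∀ (w : Word) (x : ℕ → F),
    pull (shift 1 w) f (cons a x) = pull w (fun y => f (cons a y)) x
  | [], _ => rfl
  | (.cup, i) :: w, x => by
    simp only [shift_cons, pull, ← pull_shift a f w]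
    refine sum_congr rfl fun b _ => congrArg _ (funext fun n => ?_)
    rcases n with _ | _ | _ | n <;> simp only [insC, cons] <;> split_ifs <;>
      first | rfl | omega
  | (.cap, i) :: w, x => by
    simp only [shift_cons, pull, ← pull_shift a f w]
    refine if_congr Iff.rfl (congrArg _ (funext fun n => ?_)) rfl
    rcases n with _ | n <;> simp only [delC, cons] <;> split_ifs <;> first | rfl | omega
  | (.cr e, i) :: w, x => by
    simp only [shift_cons, pull, ← pull_shift a f w]
    refine congrArg _ (funext fun n => ?_)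
    rcases n with _ | n
    · rw [cr_ne _ _ (by omega) (by omega)]
      rfl
    · simp only [crC, cons]
      split_ifs <;> first | rfl | omega

theorem pull_tail (t : ℕ → F) (f : (ℕ → F) → ℕ) {m : ℕ} : ∀ (w : Word) {n : ℕ}, Valid n w m →
    ∀ x : ℕ → F, pull w f (app n x t) = pull w (fun y => f (app m y t)) x
  | [], n, h, x => by
    obtain rfl : n = m := h
    rfl
  | (.cup, i) :: w, n, h, x => by
    have h1 : i ≤ n := h.1
    have h2 : ∀ b, insC i b (app n x t) = app (n + 2) (insC i b x) t := fun b => by
      funext j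
      simp only [insC, app]
      split_ifs <;> first | rfl | omega | (congr 1; omega)
    simp only [pull, h2, pull_tail t f w (n := n + 2) h.2]
  | (.cap, i) :: w, n, h, x => by
    have h1 : i + 2 ≤ n := h.1
    simp only [pull, ← pull_tail t f w h.2]
    refine if_congr ?_ (congrArg _ (funext fun j => ?_)) rfl
    · rw [app, app, if_pos (by omega), if_pos (by omega)]
    · simp only [delC, app, Kind.inp, Kind.out]
      split_ifs <;> first | rfl | omega | (congr 1; omega)
  | (.cr e, i) :: w, n, h, x => by
    have h1 : i + 2 ≤ n := h.1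
    simp only [pull, ← pull_tail t f w h.2]
    refine congrArg _ (funext fun j => ?_)
    simp only [crC, app, Kind.inp, Kind.out]
    split_ifs <;> first | rfl | omega | (congr 1; omega)

theorem pull_sum (f : F → (ℕ → F) → ℕ) : ∀ (w : Word) (x : ℕ → F),
    ∑ a, pull w (f a) x = pull w (fun y => ∑ a, f a y) x
  | [], _ => rfl
  | (.cup, i) :: w, x => by
    simp only [pull, ← pull_sum f w]
    exact sum_comm
  | (.cap, i) :: w, x => by
    simp only [pull, ← pull_sum f w]
    split_ifs <;> simp
  | (.cr e, i) :: w, x => by simp only [pull, ← pull_sum f w]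

theorem anti_turn (n : ℕ) (y t : ℕ → F) :
    Anti (n + 1) (delC 0 (cons (y 0) (app (2 * (n + 1)) y (cons (y 0) t)))) ↔ Anti (n + 1) y := by
  have e : ∀ j, delC 0 (cons (y 0) (app (2 * (n + 1)) y (cons (y 0) t))) j =
      app (2 * (n + 1)) y (cons (y 0) t) (j + 1) := fun j => rfl
  have e1 : ∀ j, j < 2 * (n + 1) → app (2 * (n + 1)) y (cons (y 0) t) j = y j :=
    fun j hj => if_pos hj
  have e2 : app (2 * (n + 1)) y (cons (y 0) t) (n + (n + 1) + 1) = y 0 := by
    rw [app, if_neg (by omega), show n + (n + 1) + 1 - 2 * (n + 1) = 0 by omega]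
    rfl
  simp only [Anti, e]
  refine ⟨fun H j hj => ?_, fun H j hj => ?_⟩
  · rcases j with _ | j
    · have := H n (by omega)
      rw [e2, e1 _ (by omega)] at this
      rw [this, Nat.zero_add]
      rfl
    · have := H j (by omega)
      rw [e1 _ (by omega), e1 _ (by omega)] at this
      rw [← this]
      congr 1
      omega
  · by_cases hn : j = n
    · have := H 0 (by omega)
      rw [Nat.zero_add] at this
      rw [hn, e2, e1 _ (by omega), this]
      rfl
    · rw [e1 _ (by omega), e1 _ (by omega), ← H (j + 1) (by omega)]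
      congr 1
      omega

theorem cnt_step {p q : ℕ × Word} (h : PStep p q) : cnt p = cnt q := by
  cases h with
  | move h =>
    obtain ⟨-, -, p, l, r, s, hm, rfl, rfl⟩ := h
    simp only [cnt, rev_append, pull_append, pull_rev hm]
  | cross h _ =>
    simp only [cnt, rev_cons, pull_append]
    refine congrArg (fun f => pull _ f _) (funext fun x => ?_)
    exact if_congr (anti_cross h _ x) rfl rfl
  | arcL h _ =>
    simp only [cnt, rev_cons, pull_append]
    refine congrArg (fun f => pull _ f _) (funext fun x => ?_)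
    exact sum_pick fun a => anti_arcL h a x
  | arcR h _ =>
    simp only [cnt, rev_cons, pull_append]
    refine congrArg (fun f => pull _ f _) (funext fun x => ?_)
    exact sum_pick fun a => anti_arcR h a x
  | @turn n w h =>
    have e : ∀ a : F, insC 0 a (fun _ => 1) = cons a (app 0 (fun _ => 1) (cons a fun _ => 1)) :=
      fun a => funext fun j => by rcases j with _ | _ | j <;> rfl
    have e0 : rev ((Kind.cup, 0) :: shift 1 w ++ [(Kind.cap, 0)]) =
        (Kind.cup, 0) :: (shift 1 (rev w) ++ [(Kind.cap, 0)]) := by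
      rw [rev_append, rev_cons .cup, rev_shift]
      rfl
    simp only [cnt, e0, pull, pull_append, e, pull_shift, pull_tail _ _ _ (valid_rev h), pull_sum]
    refine congrArg (fun f => pull _ f _) (funext fun y => ?_)
    have e1 : ∀ a t, cons a (app (2 * (n + 1)) y t) (0 + 1) = y 0 := fun a t => by
      rw [cons, app, if_pos (by omega)]
    rw [sum_eq_single (y 0)]
    · rw [e1]
      exact (if_congr (anti_turn n y _).symm rfl rfl).trans (if_pos rfl).symm
    · intro a _ ha
      rw [e1]
      exact if_neg ha
    · simp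

theorem cnt_eqv {p q : ℕ × Word} (h : Relation.EqvGen PStep p q) : cnt p = cnt q := by
  induction h with
  | rel _ _ h => exact cnt_step h
  | refl => rfl
  | symm _ _ _ ih => exact ih.symm
  | trans _ _ _ _ _ ih ih' => exact ih.trans ih'

theorem pull_const (c : F) (f : (ℕ → F) → ℕ) : ∀ w : Word, f (fun _ => c) ≤ pull w f fun _ => c
  | [] => le_rfl
  | (.cup, i) :: w => by
    have : insC i c (fun _ => c) = fun _ => c := funext fun j => by simp [insC]
    refine (pull_const c f w).trans ?_
    rw [pull, ← this]
    exact single_le_sum (f := fun a => pull w f (insC i a (insC i c fun _ => c)))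
      (fun _ _ => Nat.zero_le _) (mem_univ c) |>.trans' (by simp only [this]; exact le_rfl)
  | (.cap, i) :: w => by
    have : delC i (fun _ => c) = fun _ => c := funext fun j => by simp [delC]
    rw [pull, if_pos rfl, this]
    exact pull_const c f w
  | (.cr e, i) :: w => by
    have : crC e i (fun _ => c) = fun _ => c := funext fun j => by simp [crC, lft_self, rgt_self]
    rw [pull, this]
    exact pull_const c f w

end Pool.Agent.Lib.MP_7bc610_gt.Rp
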