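import Pool.Agent.Lib.MP_7bc610_gt.RpInv
import Pool.Agent.Lib.MP_7bc610_gt.M29Top

/-!
An eight-crossing knot in projective space with the bracket of the projective line.
-/

namespace Pool.Agent.Lib.MP_7bc610_gt.Rp

open Finset LaurentPolynomial

def D8 : Word := [(.cr true, 1), (.cr false, 2), (.cr false, 3), (.cr false, 3), (.cr true, 0),
  (.cr true, 0), (.cr true, 0), (.cr false, 1), (.cap, 4), (.cap, 2), (.cap, 0)]

theorem anti_three : anti 3 = blk 0 [0, 1, 2, 0, 1, 2].length (rel [0, 1, 2, 0, 1, 2]) Eq := by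
  funext a b
  simp only [anti, blk, loc, List.length_cons, List.length_nil, Nat.not_lt_zero, if_false,
    eq_iff_iff]
  by_cases ha : a < 6 <;> by_cases hb : b < 6
  · interval_cases a <;> interval_cases b <;> simp [rel]
  · simp [ha, hb]
    omega
  · simp [ha, hb]
    omega
  · simp [ha, hb]
    omega

theorem valid_D8 : Valid (2 * 3) D8 0 := by simp [D8, Valid, Kind.inp, Kind.out]

theorem comps_D8 : comps D8 (anti 3) = 1 := by
  have := comps_runC 0 [] Eq D8 [0, 1, 2, 0, 1, 2] (1, []) (by decide +kernel)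
  rw [shift_zero, List.append_nil, ← anti_three] at this
  exact this

theorem ori_D8 : Ori ([true, false, true] ++ [true, false, true].map not) D8 [] 4 :=
  ori_runO D8 [] _ ([], 4) (by decide +kernel)

theorem ev_D8 : ev D8 (anti 3) = loopVal * T 12 := by
  have := sem_runS 0 [] Eq D8 [([0, 1, 2, 0, 1, 2], 0, [1])] [([], mulD (12, [1]))]
    (by decide +kernel)
  rw [shift_zero, List.append_nil, sem_cons, sem_cons, toP_mulD, evF, ← anti_three] at this
  simpa [sem_nil, toP, toL, evF, ev] using this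

def g1 : G := ⟨![0, 1, 3, 2, 5, 4], ![0, 1, 3, 2, 5, 4], by decide, by decide⟩

def g2 : G := ⟨![5, 4, 2, 0, 3, 1], ![3, 5, 2, 4, 1, 0], by decide, by decide⟩

def g3 : G := ⟨![2, 3, 0, 4, 5, 1], ![2, 5, 0, 1, 3, 4], by decide, by decide⟩

def B8 : Word := [(.cr false, 1), (.cr true, 0), (.cr true, 0), (.cr true, 0), (.cr false, 3),
  (.cr false, 3), (.cr false, 2), (.cr true, 1)]

theorem special : pull B8 (chi 3)
    (insC 4 (g3, 1) (insC 2 (g1, g2) (insC 0 (1, g1) fun _ => 1))) = 1 := by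
  decide +kernel

theorem le_sum {α : Type} [Fintype α] (f : α → ℕ) (a : α) : f a ≤ ∑ b, f b :=
  single_le_sum (fun _ _ => Nat.zero_le _) (mem_univ a)

theorem cnt_lt : cnt (1, [(Kind.cap, 0)]) < cnt (3, D8) := by
  have e1 : cnt (1, [(Kind.cap, 0)]) = ∑ a : F, chi 1 (insC 0 a fun _ => 1) := rfl
  have e2 : cnt (3, D8) = ∑ a : F, pull ((.cup, 2) :: (.cup, 4) :: B8) (chi 3)
      (insC 0 a fun _ => 1) := rfl
  have e3 : ∀ a : F, Anti 1 (insC 0 a fun _ => 1) ↔ a = a.swap := fun a => by
    simp [Anti, insC]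
  rw [e1, e2]
  refine sum_lt_sum (fun a _ => ?_) ⟨(1, g1), by simp, ?_⟩
  · rw [chi]
    split_ifs with h
    · have hv : Valid 2 ((.cup, 2) :: (.cup, 4) :: B8) 6 := by
        simp [B8, Valid, Kind.inp, Kind.out]
      have e4 : insC 0 a (fun _ => 1) = app 2 (fun _ => a) fun _ => 1 := by
        funext j
        simp [insC, app]
      rw [e4, pull_tail _ _ _ hv]
      have e5 : Anti 3 (app 6 (fun _ => a) fun _ => 1) := fun j hj => by
        rw [app, app, if_pos (by omega), if_pos (by omega)]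
        exact (e3 a).1 h
      refine le_trans ?_ (pull_const a (fun y => chi 3 (app 6 y fun _ => 1)) _)
      rw [chi, if_pos e5]
    · exact Nat.zero_le _
  · rw [chi, if_neg fun h => absurd ((e3 _).1 h) (by decide +kernel), pull]
    refine lt_of_lt_of_le ?_ (le_sum _ (g1, g2))
    rw [pull]
    refine lt_of_lt_of_le ?_ (le_sum _ (g3, 1))
    rw [special]
    exact Nat.one_pos

theorem not_line : ¬Relation.EqvGen PStep (3, D8) (1, [(Kind.cap, 0)]) := fun h =>
  cnt_lt.ne' (cnt_eqv h)

end Pool.Agent.Lib.MP_7bc610_gt.Rp
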