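import Pool.Agent.Lib.MP_7bc610_gt.Ineq

/-!
Negativity of the second-order term for a sum of three rational tangles.
-/

namespace Pool.Agent.Lib.MP_7bc610_gt

open Equiv Dt

theorem sorted_ineq (x y z : ℚ) (hx : 2 ≤ x) (hy : 3 ≤ y) (hz : 5 ≤ z) :
    450 * (x ^ 2 + y ^ 2 + z ^ 2) ≤ 19 * (x * y * z) ^ 2 ∧ 3 * (x + y + z) ≤ x * y * z ∧
      1 / x ^ 2 + 1 / y ^ 2 + 1 / z ^ 2 ≤ 361 / 900 ∧ 30 ≤ x * y * z := by
  have h1 : 6 ≤ x * y := by nlinarith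
  have h2 : 10 ≤ x * z := by nlinarith
  have h3 : 15 ≤ y * z := by nlinarith
  have h4 : 6 * z ≤ x * y * z := by nlinarith
  have h5 : 10 * y ≤ x * y * z := by nlinarith
  have h6 : 15 * x ≤ x * y * z := by nlinarith
  refine ⟨?_, by linarith, ?_, by linarith⟩
  · have e4 : (6 * z) ^ 2 ≤ (x * y * z) ^ 2 := by gcongr
    have e5 : (10 * y) ^ 2 ≤ (x * y * z) ^ 2 := by gcongr
    have e6 : (15 * x) ^ 2 ≤ (x * y * z) ^ 2 := by gcongr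
    nlinarith
  · have e1 : 1 / x ^ 2 ≤ 1 / 2 ^ 2 := by gcongr
    have e2 : 1 / y ^ 2 ≤ 1 / 3 ^ 2 := by gcongr
    have e3 : 1 / z ^ 2 ≤ 1 / 5 ^ 2 := by gcongr
    linarith

theorem coprime_ineq (b1 b2 b3 D : ℤ) (hD : D ^ 2 = 1) (h1 : 2 ≤ b1.natAbs) (h2 : 2 ≤ b2.natAbs)
    (h3 : 2 ≤ b3.natAbs) (a1 a2 a3 : ℤ) (e : D = a1 * b2 * b3 + b1 * a2 * b3 + b1 * b2 * a3) :
    450 * (|(b1 : ℚ)| ^ 2 + |(b2 : ℚ)| ^ 2 + |(b3 : ℚ)| ^ 2) ≤
        19 * (|(b1 : ℚ)| * |(b2 : ℚ)| * |(b3 : ℚ)|) ^ 2 ∧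
      3 * (|(b1 : ℚ)| + |(b2 : ℚ)| + |(b3 : ℚ)|) ≤ |(b1 : ℚ)| * |(b2 : ℚ)| * |(b3 : ℚ)| ∧
      1 / |(b1 : ℚ)| ^ 2 + 1 / |(b2 : ℚ)| ^ 2 + 1 / |(b3 : ℚ)| ^ 2 ≤ 361 / 900 ∧
      30 ≤ |(b1 : ℚ)| * |(b2 : ℚ)| * |(b3 : ℚ)| := by
  have hu : ∀ k : ℤ, k ∣ D → k.natAbs = 1 := fun k hk => by
    have : k ∣ 1 := by rw [← hD]; exact Dvd.dvd.pow hk two_ne_zero
    exact Int.isUnit_iff_natAbs_eq.1 (isUnit_of_dvd_one this)
  have c12 : ∀ k : ℤ, k ∣ b1 → k ∣ b2 → k.natAbs = 1 := fun k p q => hu k (by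
    rw [e]; exact ((((q.mul_left _).mul_right _).add ((p.mul_right _).mul_right _)).add
      ((p.mul_right _).mul_right _)))
  have c13 : ∀ k : ℤ, k ∣ b1 → k ∣ b3 → k.natAbs = 1 := fun k p q => hu k (by
    rw [e]; exact (((q.mul_left _).add (q.mul_left _)).add ((p.mul_right _).mul_right _)))
  have c23 : ∀ k : ℤ, k ∣ b2 → k ∣ b3 → k.natAbs = 1 := fun k p q => hu k (by
    rw [e]; exact (((q.mul_left _).add (q.mul_left _)).add ((p.mul_left _).mul_right _)))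
  have n12 : b1.natAbs ≠ b2.natAbs := fun h => by
    have := c12 b1 dvd_rfl (Int.natAbs_dvd_natAbs.1 (h ▸ dvd_rfl)); omega
  have n13 : b1.natAbs ≠ b3.natAbs := fun h => by
    have := c13 b1 dvd_rfl (Int.natAbs_dvd_natAbs.1 (h ▸ dvd_rfl)); omega
  have n23 : b2.natAbs ≠ b3.natAbs := fun h => by
    have := c23 b2 dvd_rfl (Int.natAbs_dvd_natAbs.1 (h ▸ dvd_rfl)); omega
  have p12 : ¬(2 ∣ b1 ∧ 2 ∣ b2) := fun h => by have := c12 2 h.1 h.2; omega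
  have p13 : ¬(2 ∣ b1 ∧ 2 ∣ b3) := fun h => by have := c13 2 h.1 h.2; omega
  have p23 : ¬(2 ∣ b2 ∧ 2 ∣ b3) := fun h => by have := c23 2 h.1 h.2; omega
  have hc : ∀ (b : ℤ) (k : ℕ), k ≤ b.natAbs → (k : ℚ) ≤ |(b : ℚ)| := fun b k h => by
    have : (k : ℤ) ≤ |b| := by rw [Int.abs_eq_natAbs]; omega
    exact_mod_cast this
  have hcase : (3 ≤ b2.natAbs ∧ 5 ≤ b3.natAbs) ∨ (3 ≤ b3.natAbs ∧ 5 ≤ b2.natAbs) ∨
      (3 ≤ b1.natAbs ∧ 5 ≤ b3.natAbs) ∨ (3 ≤ b3.natAbs ∧ 5 ≤ b1.natAbs) ∨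
      (3 ≤ b1.natAbs ∧ 5 ≤ b2.natAbs) ∨ (3 ≤ b2.natAbs ∧ 5 ≤ b1.natAbs) := by omega
  have k1 := hc b1 2 h1
  have k2 := hc b2 2 h2
  have k3 := hc b3 2 h3
  rcases hcase with ⟨p, q⟩ | ⟨p, q⟩ | ⟨p, q⟩ | ⟨p, q⟩ | ⟨p, q⟩ | ⟨p, q⟩
  · exact sorted_ineq _ _ _ k1 (hc _ 3 p) (hc _ 5 q)
  · obtain ⟨r1, r2, r3, r4⟩ := sorted_ineq _ _ _ k1 (hc _ 3 p) (hc _ 5 q)
    refine ⟨?_, ?_, ?_, ?_⟩ <;> linarith
  · obtain ⟨r1, r2, r3, r4⟩ := sorted_ineq _ _ _ k2 (hc _ 3 p) (hc _ 5 q)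
    refine ⟨?_, ?_, ?_, ?_⟩ <;> linarith
  · obtain ⟨r1, r2, r3, r4⟩ := sorted_ineq _ _ _ k2 (hc _ 3 p) (hc _ 5 q)
    refine ⟨?_, ?_, ?_, ?_⟩ <;> linarith
  · obtain ⟨r1, r2, r3, r4⟩ := sorted_ineq _ _ _ k3 (hc _ 3 p) (hc _ 5 q)
    refine ⟨?_, ?_, ?_, ?_⟩ <;> linarith
  · obtain ⟨r1, r2, r3, r4⟩ := sorted_ineq _ _ _ k3 (hc _ 3 p) (hc _ 5 q)
    refine ⟨?_, ?_, ?_, ?_⟩ <;> linarith

theorem final_ineq (B e S M l : ℚ) (hB : 30 ≤ B) (he : B ^ 2 * e ^ 2 = 1)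
    (hS : S ≤ 19 / 900 * B ^ 2) (hM : |M| ≤ B / 36) (hl1 : 3 / 2 - 361 / 1800 ≤ l)
    (hl2 : l ≤ 3 / 2) :
    B ^ 2 * (e ^ 2 * S + 2 * e * ((M - e / 24) + e * l + e ^ 3 / 6) - (l - 1 + e ^ 2 / 2) ^ 2)
      < 0 := by
  have hB0 : 0 < B := by linarith
  have h1 : B * |e| = 1 := by
    have : (B * |e|) ^ 2 = 1 ^ 2 := by rw [mul_pow, sq_abs, he]; ring
    exact (pow_left_inj₀ (by positivity) zero_le_one two_ne_zero).1 this
  have h2 : B ^ 2 * (e * M) ≤ B ^ 2 / 36 := by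
    calc B ^ 2 * (e * M) ≤ B ^ 2 * |e * M| := by gcongr; exact le_abs_self _
      _ = B * (B * |e|) * |M| := by rw [abs_mul]; ring
      _ ≤ B * (B * |e|) * (B / 36) := by gcongr
      _ = _ := by rw [h1]; ring
  have h3 : 900 ≤ B ^ 2 := by nlinarith
  have h4 : e ^ 2 ≤ 1 := by nlinarith [sq_nonneg e]
  have h5 : (539 / 1800 : ℚ) ^ 2 ≤ (l - 1) ^ 2 := by gcongr; linarith
  have h6 : B ^ 2 * (539 / 1800 : ℚ) ^ 2 ≤ B ^ 2 * (l - 1) ^ 2 := by gcongr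
  have h7 : B ^ 2 * (e ^ 2 * S + 2 * e * ((M - e / 24) + e * l + e ^ 3 / 6) -
      (l - 1 + e ^ 2 / 2) ^ 2) = S + 2 * (B ^ 2 * (e * M)) - 1 / 12 + l + 1 + e ^ 2 / 12 -
      B ^ 2 * (l - 1) ^ 2 := by
    linear_combination (S - 1 / 12 + l + 1 + e ^ 2 / 12) * he
  rw [h7]
  nlinarith

/-- A sum of three rational tangles with denominators at least two and determinant one has
negative second-order term. -/
theorem three_neg (g1 g2 g3 : BW) (h : (CC (add (dat g1) (dat g2)) (dat g3)).1 = 1)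
    (h1 : 2 ≤ (slope g1).1.natAbs) (h2 : 2 ≤ (slope g2).1.natAbs)
    (h3 : 2 ≤ (slope g3).1.natAbs) : (CC (add (dat g1) (dat g2)) (dat g3)).2 < 0 := by
  have s1 := sl_dat g1
  have s2 := sl_dat g2
  have s3 := sl_dat g3
  have s12 := s1.add s2
  have s123 := s12.add s3
  have hdet := CC_fst s12 s3
  rw [h] at hdet
  obtain ⟨i1, i2, i3, i4⟩ := coprime_ineq (slope g1).1 (slope g2).1 (slope g3).1 _
    (by exact_mod_cast hdet.symm) h1 h2 h3 (slope g1).2 (slope g2).2 (slope g3).2 (by ring)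
  have hc : ∀ b : ℤ, 2 ≤ b.natAbs → 0 < |(b : ℚ)| := fun b h => by
    have : (0 : ℤ) < |b| := by rw [Int.abs_eq_natAbs]; omega
    exact_mod_cast this
  have hq : ∀ g, (dat g).bb = |((slope g).1 : ℚ)| ^ 2 := fun g => by
    rw [sq_abs]; exact (sl_dat g).1
  have hs : ∀ g, 2 ≤ (slope g).1.natAbs → sg (dat g) ≤ |((slope g).1 : ℚ)| ^ 2 / 2 ∧
      |gam (dat g) / (12 * (dat g).bb ^ 2)| ≤ |((slope g).1 : ℚ)| / 12 := fun g h => by
    have p := hc _ h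
    obtain ⟨r1, r2⟩ := rat_bounds g
    rw [sg, hq, abs_div]
    generalize |((slope g).1 : ℚ)| = X at *
    constructor
    · rw [div_le_iff₀ (by positivity)]; linarith
    · rw [abs_of_pos (by positivity : 0 < 12 * (X ^ 2) ^ 2), div_le_iff₀ (by positivity)]
      linarith
  have p1 := hc _ h1
  have p2 := hc _ h2
  have p3 := hc _ h3
  have z1 : (dat g1).bb ≠ 0 := by rw [hq]; positivity
  have z2 : (dat g2).bb ≠ 0 := by rw [hq]; positivity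
  have z3 : (dat g3).bb ≠ 0 := by rw [hq]; positivity
  have z12 : (add (dat g1) (dat g2)).bb ≠ 0 := mul_ne_zero z1 z2
  have z123 : (add (add (dat g1) (dat g2)) (dat g3)).bb ≠ 0 := mul_ne_zero z12 z3
  have r : R2 (add (add (dat g1) (dat g2)) (dat g3)) = 0 := by
    rw [R2_add s12 s3, R2_add s1 s2, R2_dat, R2_dat, R2_dat]; ring
  obtain ⟨c1, c2⟩ := cl_logs s123 z123 r
  obtain ⟨a1, a2, a3, a4⟩ := add_logs z12 z3
  obtain ⟨a5, a6, a7, a8⟩ := add_logs z1 z2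
  obtain ⟨l1, m1⟩ := rat_logs s1 z1 (n_dat g1)
  obtain ⟨l2, m2⟩ := rat_logs s2 z2 (n_dat g2)
  obtain ⟨l3, m3⟩ := rat_logs s3 z3 (n_dat g3)
  obtain ⟨t1, u1⟩ := hs g1 h1
  obtain ⟨t2, u2⟩ := hs g2 h2
  obtain ⟨t3, u3⟩ := hs g3 h3
  have hbb : (add (add (dat g1) (dat g2)) (dat g3)).bb =
      (|((slope g1).1 : ℚ)| * |((slope g2).1 : ℚ)| * |((slope g3).1 : ℚ)|) ^ 2 := by
    show (dat g1).bb * (dat g2).bb * (dat g3).bb = _
    rw [hq, hq, hq]; ring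
  have hm : mm (add (add (dat g1) (dat g2)) (dat g3)) =
      (gam (dat g1) / (12 * (dat g1).bb ^ 2) + gam (dat g2) / (12 * (dat g2).bb ^ 2) +
        gam (dat g3) / (12 * (dat g3).bb ^ 2)) - ee (add (add (dat g1) (dat g2)) (dat g3)) / 24 := by
    rw [a4, a8, a2, a6, m1, m2, m3]; ring
  show cl _ < 0
  have h' : (add (add (dat g1) (dat g2)) (dat g3)).aa = 1 := h
  rw [h', hbb] at c2
  rw [c1, hbb, hm]
  rw [hq] at l1 l2 l3
  have v1 : 0 < 1 / |((slope g1).1 : ℚ)| ^ 2 := by positivity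
  have v2 : 0 < 1 / |((slope g2).1 : ℚ)| ^ 2 := by positivity
  have v3 : 0 < 1 / |((slope g3).1 : ℚ)| ^ 2 := by positivity
  refine final_ineq _ _ _ _ _ i4 c2 ?_ ?_ ?_ ?_
  · rw [a1, a5]; linarith
  · refine ((abs_add_le _ _).trans (add_le_add_left (abs_add_le _ _) _)).trans ?_
    linarith
  · rw [a3, a7, l1, l2, l3]; linarith
  · rw [a3, a7, l1, l2, l3]; linarith

/-- For three rational tangles of determinant one the second-order term is at most zero, and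
it vanishes only if one denominator is one. -/
theorem three_le (g1 g2 g3 : BW) (h : (CC (add (dat g1) (dat g2)) (dat g3)).1 = 1) :
    (CC (add (dat g1) (dat g2)) (dat g3)).2 ≤ 0 ∧
      ((CC (add (dat g1) (dat g2)) (dat g3)).2 = 0 →
        (slope g1).1 ^ 2 = 1 ∨ (slope g2).1 ^ 2 = 1 ∨ (slope g3).1 ^ 2 = 1) := by
  have key : ∀ g1 g2 g3 : BW, (CC (add (dat g1) (dat g2)) (dat g3)).1 = 1 →
      (slope g1).1 ^ 2 = 1 → (CC (add (dat g1) (dat g2)) (dat g3)).2 = 0 := by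
    intro g1 g2 g3 h e
    have : add (dat g1) (dat g2) = dat (pw true ((slope g1).2 * (slope g1).1) ++ g2) := by
      rw [dat_int e, add_tau_zpow, zero_add', dat_append, act_pw]; rfl
    rw [this] at h ⊢
    exact CC_rat _ _ h
  by_cases e1 : (slope g1).1 ^ 2 = 1
  · exact ⟨(key _ _ _ h e1).le, fun _ => Or.inl e1⟩
  by_cases e2 : (slope g2).1 ^ 2 = 1
  · refine ⟨?_, fun _ => Or.inr (Or.inl e2)⟩
    rw [add_comm'] at h ⊢
    exact (key _ _ _ h e2).le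
  by_cases e3 : (slope g3).1 ^ 2 = 1
  · refine ⟨?_, fun _ => Or.inr (Or.inr e3)⟩
    rw [CC_comm, ← CC_assoc] at h ⊢
    exact (key _ _ _ h e3).le
  have hdet := CC_fst ((sl_dat g1).add (sl_dat g2)) (sl_dat g3)
  rw [h] at hdet
  have hdet' : (((slope g1).2 * (slope g2).1 + (slope g1).1 * (slope g2).2) * (slope g3).1 +
      (slope g1).1 * (slope g2).1 * (slope g3).2) ^ 2 = 1 := by exact_mod_cast hdet.symm
  have hu : ∀ k : ℤ, k ∣ (((slope g1).2 * (slope g2).1 + (slope g1).1 * (slope g2).2) *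
      (slope g3).1 + (slope g1).1 * (slope g2).1 * (slope g3).2) → k ^ 2 = 1 := fun k hk => by
    have : k ∣ 1 := by rw [← hdet']; exact Dvd.dvd.pow hk two_ne_zero
    rcases Int.isUnit_iff.1 (isUnit_of_dvd_one this) with h | h <;> simp [h]
  have big : ∀ b : ℤ, b ≠ 0 → b ^ 2 ≠ 1 → 2 ≤ b.natAbs := fun b p q => by
    by_contra hc
    have : b = 1 ∨ b = -1 := by omega
    rcases this with h | h <;> simp [h] at q
  have n1 : (slope g1).1 ≠ 0 := fun z => e2 (hu _ ⟨(slope g1).2 * (slope g3).1, by rw [z]; ring⟩)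
  have n2 : (slope g2).1 ≠ 0 := fun z => e1 (hu _ ⟨(slope g2).2 * (slope g3).1, by rw [z]; ring⟩)
  have n3 : (slope g3).1 ≠ 0 := fun z => e1 (hu _ ⟨(slope g2).1 * (slope g3).2, by rw [z]; ring⟩)
  have := three_neg g1 g2 g3 h (big _ n1 e1) (big _ n2 e2) (big _ n3 e3)
  exact ⟨this.le, fun z => absurd z this.ne⟩

end Pool.Agent.Lib.MP_7bc610_gt
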